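import Mathlib

open Set Topology
open scoped RealInnerProductSpace

noncomputable section

namespace Pool.Agent.Helper197

namespace SI

/-- Euclidean three-space. -/
abbrev V := EuclideanSpace ℝ (Fin 3)

/-- `T*(ℝ³ \ {0})`, as pairs (position, momentum). -/
def Om : Set (V × V) := {z | z.1 ≠ 0}

/-- `T*S²` inside `T*ℝ³`. -/
def N : Set (V × V) := {z | ‖z.1‖ = 1 ∧ ⟪z.1, z.2⟫ = 0}

/-- Smooth functions on `T*S²`, presented as functions on `T*(ℝ³ \ {0})` invariant under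
`(x,p) ↦ (c x, p/c)` and `(x,p) ↦ (x, p + c x)`. -/
structure Basic (F : V × V → ℝ) : Prop where
  smooth : ContDiffOn ℝ ((⊤ : ℕ∞) : WithTop ℕ∞) F Om
  scale : ∀ (x p : V) (c : ℝ), 0 < c → x ≠ 0 → F (c • x, c⁻¹ • p) = F (x, p)
  shift : ∀ (x p : V) (c : ℝ), x ≠ 0 → F (x, p + c • x) = F (x, p)

/-- position gradient -/
def gx (F : V × V → ℝ) (z : V × V) : V :=
  (InnerProductSpace.toDual ℝ V).symm ((fderiv ℝ F z).comp (ContinuousLinearMap.inl ℝ V V))

/-- momentum gradient -/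
def gp (F : V × V → ℝ) (z : V × V) : V :=
  (InnerProductSpace.toDual ℝ V).symm ((fderiv ℝ F z).comp (ContinuousLinearMap.inr ℝ V V))

/-- Hamiltonian vector field of `F` -/
def XF (F : V × V → ℝ) (z : V × V) : V × V := (gp F z, - gx F z)

/-- Poisson bracket `{F, G}`: derivative of `F` along the Hamiltonian vector field of `G`. -/
def br (F G : V × V → ℝ) (z : V × V) : ℝ := fderiv ℝ F z (XF G z)

/-- Smooth Riemannian (co)metric on `S²`, as a matrix field on `ℝ³ \ {0}`. -/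
structure Met (G : V → V →L[ℝ] V) : Prop where
  smooth : ContDiffOn ℝ ((⊤ : ℕ∞) : WithTop ℕ∞) G {x | x ≠ 0}
  symm : ∀ x p q : V, x ≠ 0 → ⟪G x p, q⟫ = ⟪p, G x q⟫
  radial : ∀ x : V, x ≠ 0 → G x x = 0
  pos : ∀ x p : V, x ≠ 0 → (∀ c : ℝ, p ≠ c • x) → 0 < ⟪p, G x p⟫
  scale : ∀ (x : V) (c : ℝ), 0 < c → x ≠ 0 → G (c • x) = c ^ 2 • G x

/-- Smooth potential on `S²`, extended to be homogeneous of degree 0. -/
structure Pot (U : V → ℝ) : Prop where
  smooth : ContDiffOn ℝ ((⊤ : ℕ∞) : WithTop ℕ∞) U {x | x ≠ 0}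
  scale : ∀ (x : V) (c : ℝ), 0 < c → x ≠ 0 → U (c • x) = U x

/-- The natural Hamiltonian. -/
def Ham (G : V → V →L[ℝ] V) (U : V → ℝ) (z : V × V) : ℝ :=
  (1 / 2) * ⟪z.2, G z.1 z.2⟫ + U z.1

/-- `φ` is the (complete) flow of the compactly supported smooth field `v`, which agrees with the
Hamiltonian vector field of `Ham G U` near the part of `T*S²` of energy `≤ E`. -/
structure HFlow (G : V → V →L[ℝ] V) (U : V → ℝ) (E : ℝ) (v : V × V → V × V)
    (φ : ℝ → V × V → V × V) : Prop where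
  vsmooth : ContDiff ℝ ((⊤ : ℕ∞) : WithTop ℕ∞) v
  vsupp : HasCompactSupport v
  veq : ∀ z ∈ N, Ham G U z ≤ E → v =ᶠ[𝓝 z] XF (Ham G U)
  zero : ∀ z, φ 0 z = z
  add : ∀ s t z, φ (s + t) z = φ s (φ t z)
  deriv : ∀ z t, HasDerivAt (fun s => φ s z) (v (φ t z)) t
  cont : Continuous (fun q : ℝ × (V × V) => φ q.1 q.2)
  lip : ∃ L : ℝ, 0 ≤ L ∧ ∀ t z w, dist (φ t z) (φ t w) ≤ Real.exp (L * |t|) * dist z w
  strict : ∀ z, HasStrictFDerivAt (fun q : ℝ × (V × V) => φ q.1 q.2)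
        ((ContinuousLinearMap.toSpanSingleton ℝ (v z)).coprod (ContinuousLinearMap.id ℝ (V × V)))
        ((0 : ℝ), z)
  mem : ∀ t, ∀ z ∈ N, φ t z ∈ N
  energy : ∀ t, ∀ z ∈ N, Ham G U (φ t z) = Ham G U z

/-- The region of configuration space considered: an open connected cone on which `U < E`, all of
whose (nonzero) boundary points are maxima of `U` at level `E`. -/
structure Reg (U : V → ℝ) (E : ℝ) (D : Set V) : Prop where
  isOpen : IsOpen D
  nonempty : D.Nonempty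
  conn : IsPreconnected D
  cone : ∀ x ∈ D, ∀ c : ℝ, 0 < c → c • x ∈ D
  ne_zero : ∀ x ∈ D, x ≠ 0
  lt : ∀ x ∈ D, U x < E
  bdry : ∀ x ∈ closure D, x ≠ 0 → x ∉ D → U x = E ∧ ∀ y : V, y ≠ 0 → U y ≤ E

/-- The energy surface over `D`. -/
def ES (G : V → V →L[ℝ] V) (U : V → ℝ) (E : ℝ) (D : Set V) : Set (V × V) :=
  {z | z ∈ N ∧ z.1 ∈ D ∧ Ham G U z = E}

/-- `Q` is polynomial of degree `≤ d` in the momenta over `D` (formulated along lines). -/
def FPoly (d : ℕ) (D : Set V) (Q : V × V → ℝ) : Prop :=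
  ∀ x ∈ D, ∀ p e : V, ∃ P : Polynomial ℝ, P.natDegree ≤ d ∧ ∀ s : ℝ, Q (x, p + s • e) = P.eval s

/-- Smooth function on `T*S²` which over `D` is an integral of the natural system, polynomial in the
momenta. -/
structure Obs (G : V → V →L[ℝ] V) (U : V → ℝ) (D : Set V) (Q : V × V → ℝ) : Prop where
  basic : Basic Q
  comm : ∀ z : V × V, z.1 ∈ D → br Q (Ham G U) z = 0
  poly : ∃ d, FPoly d D Q


/-! ### S0: symplectic algebra -/

abbrev inf : WithTop ℕ∞ := ((⊤ : ℕ∞) : WithTop ℕ∞)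

theorem isOpen_Om : IsOpen Om := by
  have : Om = (Prod.fst : V × V → V) ⁻¹' {x | x ≠ 0} := by
    ext z; simp [Om]
  rw [this]
  exact isOpen_ne.preimage continuous_fst

theorem inner_gx (F : V × V → ℝ) (z : V × V) (ξ : V) : ⟪gx F z, ξ⟫ = fderiv ℝ F z (ξ, 0) := by
  unfold gx
  rw [InnerProductSpace.toDual_symm_apply]
  simp

theorem inner_gp (F : V × V → ℝ) (z : V × V) (η : V) : ⟪gp F z, η⟫ = fderiv ℝ F z (0, η) := by
  unfold gp
  rw [InnerProductSpace.toDual_symm_apply]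
  simp

theorem fderiv_eq_gx_gp (F : V × V → ℝ) (z ζ : V × V) :
    fderiv ℝ F z ζ = ⟪gx F z, ζ.1⟫ + ⟪gp F z, ζ.2⟫ := by
  rw [inner_gx, inner_gp, ← map_add]
  simp

theorem br_eq (F K : V × V → ℝ) (z : V × V) :
    br F K z = ⟪gx F z, gp K z⟫ - ⟪gp F z, gx K z⟫ := by
  unfold br XF
  rw [fderiv_eq_gx_gp]
  simp [inner_neg_right, sub_eq_add_neg]

theorem br_antisymm (F K : V × V → ℝ) (z : V × V) : br F K z = - br K F z := by
  rw [br_eq, br_eq, real_inner_comm (gp K z), real_inner_comm (gx K z)]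
  ring

theorem Basic.differentiableAt {F : V × V → ℝ} (hF : Basic F) {z : V × V} (hz : z ∈ Om) :
    DifferentiableAt ℝ F z :=
  (hF.smooth.contDiffAt (isOpen_Om.mem_nhds hz)).differentiableAt (by simp)

/-- `dF(0,x) = 0` -/
theorem Basic.radial_p {F : V × V → ℝ} (hF : Basic F) {z : V × V} (hz : z ∈ Om) :
    ⟪z.1, gp F z⟫ = 0 := by
  rw [real_inner_comm, inner_gp]
  have h1 : HasDerivAt (fun c : ℝ => F (z.1, z.2 + c • z.1)) (fderiv ℝ F z (0, z.1)) 0 := by
    have h2 : HasDerivAt (fun c : ℝ => ((z.1, z.2 + c • z.1) : V × V)) (0, z.1) 0 := by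
      refine HasDerivAt.prodMk (hasDerivAt_const _ _) ?_
      simpa using ((hasDerivAt_id (0 : ℝ)).smul_const z.1).const_add z.2
    have h3 : HasFDerivAt F (fderiv ℝ F z) ((z.1, z.2 + (0 : ℝ) • z.1) : V × V) := by
      simpa using (hF.differentiableAt hz).hasFDerivAt
    exact h3.comp_hasDerivAt 0 h2
  have h4 : (fun c : ℝ => F (z.1, z.2 + c • z.1)) = fun _ => F z := by
    funext c
    exact hF.shift z.1 z.2 c hz
  rw [h4] at h1
  exact h1.unique (hasDerivAt_const _ _)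

/-- `dF(x,-p) = 0` -/
theorem Basic.radial_x {F : V × V → ℝ} (hF : Basic F) {z : V × V} (hz : z ∈ Om) :
    ⟪z.1, gx F z⟫ = ⟪z.2, gp F z⟫ := by
  have h1 : HasDerivAt (fun c : ℝ => F (c • z.1, c⁻¹ • z.2)) (fderiv ℝ F z (z.1, -z.2)) 1 := by
    have h2 : HasDerivAt (fun c : ℝ => ((c • z.1, c⁻¹ • z.2) : V × V)) (z.1, -z.2) 1 := by
      refine HasDerivAt.prodMk ?_ ?_
      · simpa using ((hasDerivAt_id (1 : ℝ)).smul_const z.1)
      · simpa using ((hasDerivAt_inv (one_ne_zero : (1 : ℝ) ≠ 0)).smul_const z.2)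
    have h3 : HasFDerivAt F (fderiv ℝ F z) (((1 : ℝ) • z.1, (1 : ℝ)⁻¹ • z.2) : V × V) := by
      simpa using (hF.differentiableAt hz).hasFDerivAt
    exact h3.comp_hasDerivAt 1 h2
  have h4 : (fun c : ℝ => F (c • z.1, c⁻¹ • z.2)) =ᶠ[𝓝 1] fun _ => F z := by
    filter_upwards [lt_mem_nhds (zero_lt_one : (0 : ℝ) < 1)] with c hc
    exact hF.scale z.1 z.2 c hc hz
  have h5 : fderiv ℝ F z (z.1, -z.2) = 0 :=
    (h1.congr_of_eventuallyEq h4.symm).unique (hasDerivAt_const _ _)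
  rw [fderiv_eq_gx_gp] at h5
  simp only [inner_neg_right] at h5
  rw [real_inner_comm, real_inner_comm (gp F z)]
  linarith

theorem Basic.const (c : ℝ) : Basic (fun _ => c) where
  smooth := contDiffOn_const
  scale := fun _ _ _ _ _ => rfl
  shift := fun _ _ _ _ => rfl

theorem Basic.add {F K : V × V → ℝ} (hF : Basic F) (hK : Basic K) :
    Basic (fun z => F z + K z) where
  smooth := hF.smooth.add hK.smooth
  scale := fun x p c hc hx => by simp only [hF.scale x p c hc hx, hK.scale x p c hc hx]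
  shift := fun x p c hx => by simp only [hF.shift x p c hx, hK.shift x p c hx]

theorem Basic.mul {F K : V × V → ℝ} (hF : Basic F) (hK : Basic K) :
    Basic (fun z => F z * K z) where
  smooth := hF.smooth.mul hK.smooth
  scale := fun x p c hc hx => by simp only [hF.scale x p c hc hx, hK.scale x p c hc hx]
  shift := fun x p c hx => by simp only [hF.shift x p c hx, hK.shift x p c hx]


theorem fderiv_comp_linear {F : V × V → ℝ} (hF : Basic F) {z : V × V} (hz : z ∈ Om)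
    (S : (V × V) →L[ℝ] (V × V)) (hS : S z ∈ Om) (h : ∀ w ∈ Om, F (S w) = F w) (ζ : V × V) :
    fderiv ℝ F z ζ = fderiv ℝ F (S z) (S ζ) := by
  have h1 : HasFDerivAt (fun w => F (S w)) ((fderiv ℝ F (S z)).comp S) z :=
    (hF.differentiableAt hS).hasFDerivAt.comp z S.hasFDerivAt
  have h2 : (fun w => F (S w)) =ᶠ[𝓝 z] F := by
    filter_upwards [isOpen_Om.mem_nhds hz] with w hw
    exact h w hw
  have h3 := (h1.congr_of_eventuallyEq h2.symm).fderiv
  rw [h3]
  rfl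

/-- the scaling `(x,p) ↦ (c x, p/c)` -/
def Sc (c : ℝ) : (V × V) →L[ℝ] (V × V) :=
  (c • ContinuousLinearMap.id ℝ V).prodMap (c⁻¹ • ContinuousLinearMap.id ℝ V)

/-- the shift `(x,p) ↦ (x, p + c x)` -/
def Sh (c : ℝ) : (V × V) →L[ℝ] (V × V) :=
  (ContinuousLinearMap.fst ℝ V V).prod
    (ContinuousLinearMap.snd ℝ V V + c • ContinuousLinearMap.fst ℝ V V)

@[simp] theorem Sc_apply (c : ℝ) (z : V × V) : Sc c z = (c • z.1, c⁻¹ • z.2) := rfl

@[simp] theorem Sh_apply (c : ℝ) (z : V × V) : Sh c z = (z.1, z.2 + c • z.1) := rfl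

theorem Sc_mem {c : ℝ} (hc : 0 < c) {z : V × V} (hz : z ∈ Om) : Sc c z ∈ Om := by
  have : z.1 ≠ 0 := hz
  simp [Om, hc.ne', this]

theorem Sh_mem (c : ℝ) {z : V × V} (hz : z ∈ Om) : Sh c z ∈ Om := hz

theorem Basic.g_scale {F : V × V → ℝ} (hF : Basic F) {z : V × V} (hz : z ∈ Om) {c : ℝ}
    (hc : 0 < c) : gx F z = c • gx F (Sc c z) ∧ gp F z = c⁻¹ • gp F (Sc c z) := by
  have h := fderiv_comp_linear hF hz (Sc c) (Sc_mem hc hz) (fun w hw => by
    simpa using hF.scale w.1 w.2 c hc hw)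
  constructor
  · refine ext_inner_right ℝ fun ξ => ?_
    rw [inner_gx, h, Sc_apply (z := (ξ, 0)), inner_smul_left, inner_gx]
    simp only [smul_zero]
    rw [show ((c • ξ, (0 : V)) : V × V) = c • (ξ, (0 : V)) by simp, map_smul]
    simp
  · refine ext_inner_right ℝ fun ξ => ?_
    rw [inner_gp, h, Sc_apply (z := (0, ξ)), inner_smul_left, inner_gp]
    simp only [smul_zero]
    rw [show (((0 : V), c⁻¹ • ξ) : V × V) = c⁻¹ • ((0 : V), ξ) by simp, map_smul]
    simp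

theorem Basic.g_shift {F : V × V → ℝ} (hF : Basic F) {z : V × V} (hz : z ∈ Om) (c : ℝ) :
    gx F z = gx F (Sh c z) + c • gp F (Sh c z) ∧ gp F z = gp F (Sh c z) := by
  have h := fderiv_comp_linear hF hz (Sh c) (Sh_mem c hz) (fun w hw => by
    simpa using hF.shift w.1 w.2 c hw)
  constructor
  · refine ext_inner_right ℝ fun ξ => ?_
    rw [inner_gx, h, Sh_apply (z := (ξ, 0)), inner_add_left, inner_smul_left, inner_gx, inner_gp]
    simp only [zero_add]
    rw [show ((ξ, c • ξ) : V × V) = (ξ, (0 : V)) + c • ((0 : V), ξ) by simp, map_add, map_smul]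
    simp
  · refine ext_inner_right ℝ fun ξ => ?_
    rw [inner_gp, h, Sh_apply (z := (0, ξ)), inner_gp]
    simp

theorem contDiffOn_gx {F : V × V → ℝ} (hF : Basic F) :
    ContDiffOn ℝ ((⊤ : ℕ∞) : WithTop ℕ∞) (gx F) Om := by
  have h1 : ContDiffOn ℝ ((⊤ : ℕ∞) : WithTop ℕ∞) (fderiv ℝ F) Om :=
    hF.smooth.fderiv_of_isOpen isOpen_Om (by simp)
  unfold gx
  exact ((InnerProductSpace.toDual ℝ V).symm.toContinuousLinearEquiv.contDiff.comp_contDiffOn
    (h1.clm_comp contDiffOn_const))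

theorem contDiffOn_gp {F : V × V → ℝ} (hF : Basic F) :
    ContDiffOn ℝ ((⊤ : ℕ∞) : WithTop ℕ∞) (gp F) Om := by
  have h1 : ContDiffOn ℝ ((⊤ : ℕ∞) : WithTop ℕ∞) (fderiv ℝ F) Om :=
    hF.smooth.fderiv_of_isOpen isOpen_Om (by simp)
  unfold gp
  exact ((InnerProductSpace.toDual ℝ V).symm.toContinuousLinearEquiv.contDiff.comp_contDiffOn
    (h1.clm_comp contDiffOn_const))

theorem contDiffOn_XF {F : V × V → ℝ} (hF : Basic F) :
    ContDiffOn ℝ ((⊤ : ℕ∞) : WithTop ℕ∞) (XF F) Om := by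
  unfold XF
  exact (contDiffOn_gp hF).prodMk (contDiffOn_gx hF).neg

theorem contDiffOn_br {F K : V × V → ℝ} (hF : Basic F) (hK : Basic K) :
    ContDiffOn ℝ ((⊤ : ℕ∞) : WithTop ℕ∞) (br F K) Om := by
  have : br F K = fun z => ⟪gx F z, gp K z⟫ - ⟪gp F z, gx K z⟫ := funext (br_eq F K)
  rw [this]
  exact ((contDiffOn_gx hF).inner ℝ (contDiffOn_gp hK)).sub
    ((contDiffOn_gp hF).inner ℝ (contDiffOn_gx hK))

theorem Basic.br {F K : V × V → ℝ} (hF : Basic F) (hK : Basic K) : Basic (br F K) where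
  smooth := contDiffOn_br hF hK
  scale := fun x p c hc hx => by
    have hz : ((x, p) : V × V) ∈ Om := hx
    obtain ⟨h1, h2⟩ := hF.g_scale hz hc
    obtain ⟨h3, h4⟩ := hK.g_scale hz hc
    have hc' := hc.ne'
    rw [br_eq F K (x, p), h1, h2, h3, h4, show (c • x, c⁻¹ • p) = Sc c (x, p) from rfl, br_eq]
    simp only [inner_smul_left, inner_smul_right]
    generalize ⟪gx F (Sc c (x, p)), gp K (Sc c (x, p))⟫ = a
    generalize ⟪gp F (Sc c (x, p)), gx K (Sc c (x, p))⟫ = b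
    simp only [conj_trivial]
    field_simp
  shift := fun x p c hx => by
    have hz : ((x, p) : V × V) ∈ Om := hx
    obtain ⟨h1, h2⟩ := hF.g_shift hz c
    obtain ⟨h3, h4⟩ := hK.g_shift hz c
    rw [br_eq F K (x, p), h1, h2, h3, h4, br_eq]
    simp only [Sh_apply, inner_smul_left, inner_smul_right, inner_add_left, inner_add_right]
    simp

theorem contDiffAt_G {G : V → V →L[ℝ] V} (hG : Met G) {x : V} (hx : x ≠ 0) :
    ContDiffAt ℝ ((⊤ : ℕ∞) : WithTop ℕ∞) G x :=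
  hG.smooth.contDiffAt (isOpen_ne.mem_nhds hx)

theorem contDiffAt_U {U : V → ℝ} (hU : Pot U) {x : V} (hx : x ≠ 0) :
    ContDiffAt ℝ ((⊤ : ℕ∞) : WithTop ℕ∞) U x :=
  hU.smooth.contDiffAt (isOpen_ne.mem_nhds hx)

theorem Basic.ham {G : V → V →L[ℝ] V} {U : V → ℝ} (hG : Met G) (hU : Pot U) :
    Basic (Ham G U) where
  smooth := by
    intro z hz
    have h1 : ContDiffAt ℝ ((⊤ : ℕ∞) : WithTop ℕ∞) (fun z : V × V => G z.1) z :=
      (contDiffAt_G hG hz).comp z contDiffAt_fst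
    have h2 : ContDiffAt ℝ ((⊤ : ℕ∞) : WithTop ℕ∞) (fun z : V × V => U z.1) z :=
      (contDiffAt_U hU hz).comp z contDiffAt_fst
    have h3 : ContDiffAt ℝ ((⊤ : ℕ∞) : WithTop ℕ∞) (fun z : V × V => G z.1 z.2) z :=
      h1.clm_apply contDiffAt_snd
    exact ((contDiffAt_const.mul (contDiffAt_snd.inner ℝ h3)).add h2).contDiffWithinAt
  scale := fun x p c hc hx => by
    have hc' := hc.ne'
    simp only [Ham, hG.scale x c hc hx, hU.scale x c hc hx, smul_apply,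
      map_smul, inner_smul_left, inner_smul_right, conj_trivial]
    generalize ⟪p, (G x) p⟫ = a
    field_simp
  shift := fun x p c hx => by
    simp only [Ham, map_add, map_smul, hG.radial x hx, inner_add_left, inner_smul_left,
      smul_zero, add_zero]
    rw [← hG.symm x x p hx, hG.radial x hx]
    simp

theorem hasFDerivAt_ham {G : V → V →L[ℝ] V} {U : V → ℝ} (hG : Met G) (hU : Pot U) {z : V × V}
    (hz : z ∈ Om) (ζ : V × V) : fderiv ℝ (Ham G U) z ζ =
      (1 / 2) * (⟪z.2, (fderiv ℝ G z.1 ζ.1) z.2⟫ + ⟪z.2, G z.1 ζ.2⟫ + ⟪ζ.2, G z.1 z.2⟫) +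
        fderiv ℝ U z.1 ζ.1 := by
  have hz' : z.1 ≠ 0 := hz
  have h1 : HasFDerivAt (fun w : V × V => G w.1)
      ((fderiv ℝ G z.1).comp (ContinuousLinearMap.fst ℝ V V)) z :=
    ((contDiffAt_G hG hz').differentiableAt (by simp)).hasFDerivAt.comp z hasFDerivAt_fst
  have h2 : HasFDerivAt (fun w : V × V => U w.1)
      ((fderiv ℝ U z.1).comp (ContinuousLinearMap.fst ℝ V V)) z :=
    ((contDiffAt_U hU hz').differentiableAt (by simp)).hasFDerivAt.comp z hasFDerivAt_fst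
  have h3 := h1.clm_apply (hasFDerivAt_snd (𝕜 := ℝ) (p := z))
  have h4 := ((hasFDerivAt_snd (𝕜 := ℝ) (p := z)).inner ℝ h3).const_mul (1 / 2 : ℝ)
  have h5 := h4.add h2
  have h6 : fderiv ℝ (Ham G U) z = _ := HasFDerivAt.fderiv h5
  rw [h6]
  simp [ContinuousLinearMap.flip_apply, inner_add_right, fderivInnerCLM_apply]
  ring

theorem gp_ham {G : V → V →L[ℝ] V} {U : V → ℝ} (hG : Met G) (hU : Pot U) {z : V × V}
    (hz : z ∈ Om) : gp (Ham G U) z = G z.1 z.2 := by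
  refine ext_inner_right ℝ fun η => ?_
  rw [inner_gp, hasFDerivAt_ham hG hU hz]
  simp only [map_zero, zero_apply, inner_zero_right, zero_add, add_zero]
  rw [← hG.symm z.1 z.2 η hz, real_inner_comm η]
  ring

theorem gx_ham {G : V → V →L[ℝ] V} {U : V → ℝ} (hG : Met G) (hU : Pot U) {z : V × V}
    (hz : z ∈ Om) (ξ : V) :
    ⟪gx (Ham G U) z, ξ⟫ = (1 / 2) * ⟪z.2, (fderiv ℝ G z.1 ξ) z.2⟫ + fderiv ℝ U z.1 ξ := by
  rw [inner_gx, hasFDerivAt_ham hG hU hz]
  simp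


/-- the map `ℓ ↦ X_ℓ` -/
def Jm : ((V × V) →L[ℝ] ℝ) →L[ℝ] (V × V) :=
  ((InnerProductSpace.toDual ℝ V).symm.toContinuousLinearEquiv.toContinuousLinearMap.comp
    ((ContinuousLinearMap.compL ℝ V (V × V) ℝ).flip (ContinuousLinearMap.inr ℝ V V))).prod
  (-((InnerProductSpace.toDual ℝ V).symm.toContinuousLinearEquiv.toContinuousLinearMap.comp
    ((ContinuousLinearMap.compL ℝ V (V × V) ℝ).flip (ContinuousLinearMap.inl ℝ V V))))

theorem XF_eq_Jm (F : V × V → ℝ) (z : V × V) : XF F z = Jm (fderiv ℝ F z) := rfl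

theorem Jm_skew (l l' : (V × V) →L[ℝ] ℝ) : l (Jm l') = - l' (Jm l) := by
  have key : ∀ l l' : (V × V) →L[ℝ] ℝ, l (Jm l') =
      ⟪(InnerProductSpace.toDual ℝ V).symm (l.comp (ContinuousLinearMap.inl ℝ V V)),
        (InnerProductSpace.toDual ℝ V).symm (l'.comp (ContinuousLinearMap.inr ℝ V V))⟫ -
      ⟪(InnerProductSpace.toDual ℝ V).symm (l.comp (ContinuousLinearMap.inr ℝ V V)),
        (InnerProductSpace.toDual ℝ V).symm (l'.comp (ContinuousLinearMap.inl ℝ V V))⟫ := by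
    intro l l'
    rw [InnerProductSpace.toDual_symm_apply, InnerProductSpace.toDual_symm_apply]
    simp only [ContinuousLinearMap.comp_apply, ContinuousLinearMap.inl_apply,
      ContinuousLinearMap.inr_apply]
    rw [← map_sub]
    congr 1
    ext1 <;> simp [Jm]
  rw [key, key, real_inner_comm ((InnerProductSpace.toDual ℝ V).symm
    (l'.comp (ContinuousLinearMap.inr ℝ V V))), real_inner_comm ((InnerProductSpace.toDual ℝ V).symm
    (l'.comp (ContinuousLinearMap.inl ℝ V V)))]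
  ring

theorem Basic.contDiffAt {F : V × V → ℝ} (hF : Basic F) {z : V × V} (hz : z ∈ Om) :
    ContDiffAt ℝ ((⊤ : ℕ∞) : WithTop ℕ∞) F z :=
  hF.smooth.contDiffAt (isOpen_Om.mem_nhds hz)

theorem Basic.hasFDerivAt_fderiv {F : V × V → ℝ} (hF : Basic F) {z : V × V} (hz : z ∈ Om) :
    HasFDerivAt (fderiv ℝ F) (fderiv ℝ (fderiv ℝ F) z) z := by
  have h1 : ContDiffOn ℝ ((⊤ : ℕ∞) : WithTop ℕ∞) (fderiv ℝ F) Om :=
    hF.smooth.fderiv_of_isOpen isOpen_Om (by simp)
  exact ((h1.contDiffAt (isOpen_Om.mem_nhds hz)).differentiableAt (by simp)).hasFDerivAt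

theorem Basic.snd_symm {F : V × V → ℝ} (hF : Basic F) {z : V × V} (hz : z ∈ Om) (a b : V × V) :
    fderiv ℝ (fderiv ℝ F) z a b = fderiv ℝ (fderiv ℝ F) z b a :=
  ((hF.contDiffAt hz).isSymmSndFDerivAt (by
    simp only [minSmoothness_of_isRCLikeNormedField]
    exact ENat.LEInfty.out)).eq a b

theorem Basic.fderiv_XF {F : V × V → ℝ} (hF : Basic F) {z : V × V} (hz : z ∈ Om) :
    HasFDerivAt (XF F) (Jm.comp (fderiv ℝ (fderiv ℝ F) z)) z := by
  have : XF F = fun z => Jm (fderiv ℝ F z) := rfl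
  rw [this]
  exact Jm.hasFDerivAt.comp z (hF.hasFDerivAt_fderiv hz)

theorem fderiv_br {F K : V × V → ℝ} (hF : Basic F) (hK : Basic K) {z : V × V} (hz : z ∈ Om)
    (ζ : V × V) : fderiv ℝ (br F K) z ζ =
      fderiv ℝ (fderiv ℝ F) z ζ (XF K z) - fderiv ℝ (fderiv ℝ K) z ζ (XF F z) := by
  have h1 : HasFDerivAt (br F K) _ z := (hF.hasFDerivAt_fderiv hz).clm_apply (hK.fderiv_XF hz)
  rw [h1.fderiv]
  simp only [add_apply, ContinuousLinearMap.comp_apply,
    ContinuousLinearMap.flip_apply]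
  rw [Jm_skew, ← XF_eq_Jm]
  ring

theorem fderiv_zero_of_br_zero {F K : V × V → ℝ} {O : Set (V × V)}
    (hO : IsOpen O) (h : ∀ z ∈ O, SI.br F K z = 0) {z : V × V} (hz : z ∈ O) :
    fderiv ℝ (br F K) z = 0 := by
  have : br F K =ᶠ[𝓝 z] fun _ => 0 := by
    filter_upwards [hO.mem_nhds hz] with w hw using h w hw
  rw [this.fderiv_eq]
  simp

/-- commuting observables have commuting Hamiltonian vector fields -/
theorem XF_comm {F K : V × V → ℝ} (hF : Basic F) (hK : Basic K) {O : Set (V × V)}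
    (hO : IsOpen O) (hsub : O ⊆ Om) (h : ∀ z ∈ O, SI.br F K z = 0) :
    ∀ z ∈ O, fderiv ℝ (XF F) z (XF K z) = fderiv ℝ (XF K) z (XF F z) := by
  intro z hz
  rw [(hF.fderiv_XF (hsub hz)).fderiv, (hK.fderiv_XF (hsub hz)).fderiv]
  simp only [ContinuousLinearMap.comp_apply]
  congr 1
  refine ContinuousLinearMap.ext fun ζ => ?_
  have h1 := fderiv_br hF hK (hsub hz) ζ
  rw [fderiv_zero_of_br_zero hO h hz] at h1
  rw [hF.snd_symm (hsub hz), hK.snd_symm (hsub hz)]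
  simp only [zero_apply] at h1
  linarith

/-- The bracket of two integrals is an integral -/
theorem br_br_zero {F K H : V × V → ℝ} (hF : Basic F) (hK : Basic K) (hH : Basic H)
    {O : Set (V × V)} (hO : IsOpen O) (hsub : O ⊆ Om) (h1 : ∀ z ∈ O, SI.br F H z = 0)
    (h2 : ∀ z ∈ O, SI.br K H z = 0) : ∀ z ∈ O, SI.br (SI.br F K) H z = 0 := by
  intro z hz
  have e1 := fderiv_br hF hH (hsub hz) (XF K z)
  have e2 := fderiv_br hK hH (hsub hz) (XF F z)
  rw [fderiv_zero_of_br_zero hO h1 hz] at e1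
  rw [fderiv_zero_of_br_zero hO h2 hz] at e2
  have e3 : SI.br (SI.br F K) H z = fderiv ℝ (br F K) z (XF H z) := rfl
  rw [e3, fderiv_br hF hK (hsub hz), hF.snd_symm (hsub hz), hK.snd_symm (hsub hz)]
  rw [hH.snd_symm (hsub hz)] at e2
  simp only [zero_apply] at e1 e2
  linarith

theorem br_mul_left {F K H : V × V → ℝ} (hF : Basic F) (hK : Basic K) {z : V × V}
    (hz : z ∈ Om) :
    SI.br (fun z => F z * K z) H z = F z * SI.br K H z + K z * SI.br F H z := by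
  unfold SI.br
  have h : fderiv ℝ (fun z => F z * K z) z = _ :=
    ((hF.differentiableAt hz).hasFDerivAt.mul (hK.differentiableAt hz).hasFDerivAt).fderiv
  rw [h]
  simp

theorem br_add_left {F K H : V × V → ℝ} (hF : Basic F) (hK : Basic K) {z : V × V}
    (hz : z ∈ Om) :
    SI.br (fun z => F z + K z) H z = SI.br F H z + SI.br K H z := by
  unfold SI.br
  have h : fderiv ℝ (fun z => F z + K z) z = _ :=
    ((hF.differentiableAt hz).hasFDerivAt.add (hK.differentiableAt hz).hasFDerivAt).fderiv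
  rw [h]
  simp

theorem Basic.poly {F K : V × V → ℝ} (hF : Basic F) (hK : Basic K)
    (P : MvPolynomial (Fin 2) ℝ) : Basic (fun z => MvPolynomial.eval ![F z, K z] P) := by
  induction P using MvPolynomial.induction_on with
  | C a => simpa using Basic.const a
  | add p q hp hq => simpa using hp.add hq
  | mul_X p i hp =>
    fin_cases i
    · simpa using hp.mul hF
    · simpa using hp.mul hK

theorem br_poly_left {F K H : V × V → ℝ} (hF : Basic F) (hK : Basic K)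
    (P : MvPolynomial (Fin 2) ℝ) {z : V × V} (hz : z ∈ Om) :
    SI.br (fun z => MvPolynomial.eval ![F z, K z] P) H z =
      MvPolynomial.eval ![F z, K z] (MvPolynomial.pderiv 0 P) * SI.br F H z +
      MvPolynomial.eval ![F z, K z] (MvPolynomial.pderiv 1 P) * SI.br K H z := by
  induction P using MvPolynomial.induction_on with
  | C a => simp [SI.br]
  | add p q hp hq =>
    have := br_add_left (H := H) (Basic.poly hF hK p) (Basic.poly hF hK q) hz
    simp only [map_add] at *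
    rw [this, hp, hq]
    ring
  | mul_X p i hp =>
    fin_cases i
    · have := br_mul_left (H := H) (Basic.poly hF hK p) hF hz
      simp only [map_mul, MvPolynomial.eval_X, Fin.zero_eta, Matrix.cons_val_zero] at *
      rw [this, hp]
      simp [Derivation.leibniz, MvPolynomial.pderiv_X]
      ring
    · have := br_mul_left (H := H) (Basic.poly hF hK p) hK hz
      simp only [map_mul, MvPolynomial.eval_X, Fin.mk_one, Matrix.cons_val_one,
        Matrix.cons_val_zero] at *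
      rw [this, hp]
      simp [Derivation.leibniz, MvPolynomial.pderiv_X]
      ring


/-! ### S1: fibre polynomials -/

theorem FPoly.mono {d d' : ℕ} (h : d ≤ d') {D : Set V} {Q : V × V → ℝ} (hQ : FPoly d D Q) :
    FPoly d' D Q := by
  intro x hx p e
  obtain ⟨P, h1, h2⟩ := hQ x hx p e
  exact ⟨P, h1.trans h, h2⟩

theorem FPoly.mul {d d' : ℕ} {D : Set V} {Q Q' : V × V → ℝ} (hQ : FPoly d D Q)
    (hQ' : FPoly d' D Q') : FPoly (d + d') D (fun z => Q z * Q' z) := by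
  intro x hx p e
  obtain ⟨P, h1, h2⟩ := hQ x hx p e
  obtain ⟨P', h1', h2'⟩ := hQ' x hx p e
  refine ⟨P * P', Polynomial.natDegree_mul_le.trans (add_le_add h1 h1'), fun s => ?_⟩
  rw [Polynomial.eval_mul, ← h2, ← h2']

theorem FPoly.add {d d' : ℕ} {D : Set V} {Q Q' : V × V → ℝ} (hQ : FPoly d D Q)
    (hQ' : FPoly d' D Q') : FPoly (max d d') D (fun z => Q z + Q' z) := by
  intro x hx p e
  obtain ⟨P, h1, h2⟩ := hQ x hx p e
  obtain ⟨P', h1', h2'⟩ := hQ' x hx p e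
  refine ⟨P + P', (Polynomial.natDegree_add_le _ _).trans (max_le_max h1 h1'), fun s => ?_⟩
  rw [Polynomial.eval_add, ← h2, ← h2']

theorem FPoly.const {D : Set V} (c : ℝ) : FPoly 0 D (fun _ => c) := by
  intro x hx p e
  exact ⟨Polynomial.C c, by simp, fun s => by simp⟩

theorem FPoly.poly {d d' : ℕ} {D : Set V} {Q Q' : V × V → ℝ} (hQ : FPoly d D Q)
    (hQ' : FPoly d' D Q') (P : MvPolynomial (Fin 2) ℝ) :
    ∃ m, FPoly m D (fun z => MvPolynomial.eval ![Q z, Q' z] P) := by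
  induction P using MvPolynomial.induction_on with
  | C a => exact ⟨0, by simpa using FPoly.const a⟩
  | add p q hp hq =>
    obtain ⟨m, hm⟩ := hp
    obtain ⟨m', hm'⟩ := hq
    exact ⟨_, by simpa using hm.add hm'⟩
  | mul_X p i hp =>
    obtain ⟨m, hm⟩ := hp
    fin_cases i
    · exact ⟨_, by simpa using hm.mul hQ⟩
    · exact ⟨_, by simpa using hm.mul hQ'⟩

/-- Lagrange basis polynomials at the nodes `0, …, d` -/
def lag (d j : ℕ) : Polynomial ℝ :=
  Lagrange.basis (Finset.range (d + 1)) (fun i : ℕ => (i : ℝ)) j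

theorem lag_natDegree {d j : ℕ} (hj : j ∈ Finset.range (d + 1)) : (lag d j).natDegree ≤ d := by
  have := Lagrange.degree_basis (F := ℝ) (s := Finset.range (d + 1)) (v := fun i : ℕ => (i : ℝ))
    (Nat.cast_injective.injOn) hj
  rw [Finset.card_range, Nat.add_sub_cancel] at this
  exact Polynomial.natDegree_le_of_degree_le this.le

theorem interp_poly {d : ℕ} (P : Polynomial ℝ) (hP : P.natDegree ≤ d) (s : ℝ) :
    P.eval s = ∑ j ∈ Finset.range (d + 1), (lag d j).eval s * P.eval (j : ℝ) := by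
  have h1 : P.degree < (Finset.range (d + 1)).card := by
    rw [Finset.card_range]
    exact lt_of_le_of_lt (Polynomial.degree_le_of_natDegree_le hP) (by exact_mod_cast Nat.lt_succ_self d)
  have h2 := Lagrange.eq_interpolate (v := fun i : ℕ => (i : ℝ)) (Nat.cast_injective.injOn) h1
  conv_lhs => rw [h2]
  rw [Lagrange.interpolate_apply, Polynomial.eval_finsetSum]
  refine Finset.sum_congr rfl fun j _ => ?_
  rw [Polynomial.eval_mul, Polynomial.eval_C, mul_comm]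
  rfl

theorem FPoly.interp {d : ℕ} {D : Set V} {Q : V × V → ℝ} (hQ : FPoly d D Q) {x : V} (hx : x ∈ D)
    (p e : V) (s : ℝ) : Q (x, p + s • e) =
      ∑ j ∈ Finset.range (d + 1), (lag d j).eval s * Q (x, p + (j : ℝ) • e) := by
  obtain ⟨P, h1, h2⟩ := hQ x hx p e
  rw [h2, interp_poly P h1]
  exact Finset.sum_congr rfl fun j _ => by rw [h2]

theorem FPoly.fderiv {d : ℕ} {D : Set V} (hD : IsOpen D) (hD0 : ∀ x ∈ D, x ≠ 0)
    {Q : V × V → ℝ} (hb : Basic Q) (hQ : FPoly d D Q) {x : V} (hx : x ∈ D) (p e : V)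
    (ζ : V × V) : ∃ P : Polynomial ℝ, P.natDegree ≤ d ∧
      ∀ s : ℝ, _root_.fderiv ℝ Q (x, p + s • e) ζ = P.eval s := by
  have hder : ∀ s : ℝ, HasFDerivAt (fun z : V × V => Q (z.1, z.2 + s • e))
      (_root_.fderiv ℝ Q (x, p + s • e)) (x, p) := by
    intro s
    have h1 : HasFDerivAt (fun z : V × V => ((z.1, z.2 + s • e) : V × V))
        (ContinuousLinearMap.id ℝ (V × V)) (x, p) := by
      have := (hasFDerivAt_id (𝕜 := ℝ) ((x, p) : V × V)).add_const ((0 : V), s • e)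
      refine this.congr_of_eventuallyEq (Filter.Eventually.of_forall fun z => ?_)
      simp [Prod.ext_iff]
    have h2 : HasFDerivAt Q (_root_.fderiv ℝ Q (x, p + s • e)) (x, p + s • e) :=
      (hb.differentiableAt (z := (x, p + s • e)) (hD0 x hx)).hasFDerivAt
    have h3 := HasFDerivAt.comp (f := fun z : V × V => ((z.1, z.2 + s • e) : V × V)) (x, p) h2 h1
    rw [ContinuousLinearMap.comp_id] at h3
    exact h3
  refine ⟨∑ j ∈ Finset.range (d + 1),
    Polynomial.C (_root_.fderiv ℝ Q (x, p + (j : ℝ) • e) ζ) * lag d j, ?_, fun s => ?_⟩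
  · refine Polynomial.natDegree_sum_le_of_forall_le _ _ fun j hj => ?_
    exact (Polynomial.natDegree_C_mul_le _ _).trans (lag_natDegree hj)
  · have h1 : HasFDerivAt (fun z : V × V => ∑ j ∈ Finset.range (d + 1),
        (lag d j).eval s * Q (z.1, z.2 + (j : ℝ) • e))
        (∑ j ∈ Finset.range (d + 1), (lag d j).eval s • _root_.fderiv ℝ Q (x, p + (j : ℝ) • e))
        (x, p) := by
      refine HasFDerivAt.fun_sum fun j _ => ?_
      exact (hder j).const_mul _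
    have h2 : (fun z : V × V => Q (z.1, z.2 + s • e)) =ᶠ[𝓝 (x, p)]
        (fun z : V × V => ∑ j ∈ Finset.range (d + 1),
          (lag d j).eval s * Q (z.1, z.2 + (j : ℝ) • e)) := by
      have : (Prod.fst : V × V → V) ⁻¹' D ∈ 𝓝 ((x, p) : V × V) :=
        (hD.preimage continuous_fst).mem_nhds hx
      filter_upwards [this] with z hz
      exact hQ.interp hz z.2 e s
    have h3 := (hder s).unique (h1.congr_of_eventuallyEq h2)
    rw [h3]
    simp only [Polynomial.eval_finsetSum, Polynomial.eval_mul, Polynomial.eval_C]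
    rw [sum_apply]
    refine Finset.sum_congr rfl fun j _ => ?_
    simp [mul_comm]

theorem br_sum (F K : V × V → ℝ) (z : V × V) : br F K z =
    ∑ i : Fin 3, (fderiv ℝ F z (EuclideanSpace.single i (1 : ℝ), 0) *
        fderiv ℝ K z (0, EuclideanSpace.single i (1 : ℝ)) -
      fderiv ℝ F z (0, EuclideanSpace.single i (1 : ℝ)) *
        fderiv ℝ K z (EuclideanSpace.single i (1 : ℝ), 0)) := by
  rw [br_eq, Finset.sum_sub_distrib]
  have key : ∀ a b : V, ⟪a, b⟫ = ∑ i : Fin 3, ⟪a, EuclideanSpace.single i (1 : ℝ)⟫ *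
      ⟪b, EuclideanSpace.single i (1 : ℝ)⟫ := by
    intro a b
    have h := (EuclideanSpace.basisFun (Fin 3) ℝ).sum_inner_mul_inner a b
    rw [← h]
    refine Finset.sum_congr rfl fun i _ => ?_
    rw [EuclideanSpace.basisFun_apply, real_inner_comm b]
  rw [key (gx F z), key (gp F z)]
  simp only [inner_gx, inner_gp]

theorem FPoly.br {d d' : ℕ} {D : Set V} (hD : IsOpen D) (hD0 : ∀ x ∈ D, x ≠ 0)
    {Q Q' : V × V → ℝ} (hb : Basic Q) (hb' : Basic Q') (hQ : FPoly d D Q)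
    (hQ' : FPoly d' D Q') : FPoly (d + d') D (SI.br Q Q') := by
  intro x hx p e
  have h1 := fun ζ => hQ.fderiv hD hD0 hb hx p e ζ
  have h2 := fun ζ => hQ'.fderiv hD hD0 hb' hx p e ζ
  choose P hP hP' using h1
  choose R hR hR' using h2
  refine ⟨∑ i : Fin 3, (P (EuclideanSpace.single i (1 : ℝ), 0) *
        R (0, EuclideanSpace.single i (1 : ℝ)) -
      P (0, EuclideanSpace.single i (1 : ℝ)) *
        R (EuclideanSpace.single i (1 : ℝ), 0)), ?_, fun s => ?_⟩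
  · refine Polynomial.natDegree_sum_le_of_forall_le _ _ fun j hj => ?_
    refine (Polynomial.natDegree_sub_le _ _).trans (max_le ?_ ?_)
    · exact Polynomial.natDegree_mul_le.trans (add_le_add (hP _) (hR _))
    · exact Polynomial.natDegree_mul_le.trans (add_le_add (hP _) (hR _))
  · rw [br_sum, Polynomial.eval_finsetSum]
    refine Finset.sum_congr rfl fun i _ => ?_
    rw [Polynomial.eval_sub, Polynomial.eval_mul, Polynomial.eval_mul, ← hP', ← hP', ← hR', ← hR']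

/-- trigonometric polynomials -/
def Trig (f : ℝ → ℝ) : Prop :=
  ∃ A B : Polynomial ℝ, ∀ θ : ℝ, f θ = A.eval (Real.cos θ) + Real.sin θ * B.eval (Real.cos θ)

theorem Trig.const (c : ℝ) : Trig (fun _ => c) := ⟨Polynomial.C c, 0, fun θ => by simp⟩

theorem Trig.add {f g : ℝ → ℝ} (hf : Trig f) (hg : Trig g) : Trig (fun θ => f θ + g θ) := by
  obtain ⟨A, B, h⟩ := hf
  obtain ⟨A', B', h'⟩ := hg
  refine ⟨A + A', B + B', fun θ => ?_⟩
  show f θ + g θ = _
  rw [h, h', Polynomial.eval_add, Polynomial.eval_add]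
  ring

theorem Trig.mul {f g : ℝ → ℝ} (hf : Trig f) (hg : Trig g) : Trig (fun θ => f θ * g θ) := by
  obtain ⟨A, B, h⟩ := hf
  obtain ⟨A', B', h'⟩ := hg
  refine ⟨A * A' + (1 - Polynomial.X ^ 2) * B * B', A * B' + A' * B, fun θ => ?_⟩
  show f θ * g θ = _
  rw [h, h']
  simp only [Polynomial.eval_add, Polynomial.eval_mul, Polynomial.eval_sub, Polynomial.eval_one,
    Polynomial.eval_pow, Polynomial.eval_X]
  have := Real.sin_sq_add_cos_sq θ
  have h3 : 1 - Real.cos θ ^ 2 = Real.sin θ ^ 2 := by linarith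
  rw [h3]
  ring

theorem Trig.sum {ι : Type*} (s : Finset ι) {f : ι → ℝ → ℝ} (hf : ∀ i ∈ s, Trig (f i)) :
    Trig (fun θ => ∑ i ∈ s, f i θ) := by
  classical
  induction s using Finset.induction_on with
  | empty => simpa using Trig.const 0
  | insert a s ha ih =>
    simp only [Finset.sum_insert ha]
    exact (hf a (Finset.mem_insert_self a s)).add
      (ih fun i hi => hf i (Finset.mem_insert_of_mem hi))

theorem Trig.cos : Trig Real.cos := ⟨Polynomial.X, 0, fun θ => by simp⟩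

theorem Trig.sin : Trig Real.sin := ⟨0, 1, fun θ => by simp⟩

theorem Trig.poly (P : Polynomial ℝ) {f : ℝ → ℝ} (hf : Trig f) : Trig (fun θ => P.eval (f θ)) := by
  induction P using Polynomial.induction_on' with
  | add p q hp hq => simpa using hp.add hq
  | monomial n a =>
    have : ∀ n : ℕ, Trig (fun θ => (f θ) ^ n) := by
      intro n
      induction n with
      | zero => simpa using Trig.const 1
      | succ n ih => simpa [pow_succ] using ih.mul hf
    simpa [Polynomial.eval_monomial] using (Trig.const a).mul (this n)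

/-- restriction to an ellipse is a trigonometric polynomial -/
theorem FPoly.trig {d : ℕ} {D : Set V} {Q : V × V → ℝ} (hQ : FPoly d D Q) {x : V} (hx : x ∈ D)
    (a b : V) : ∃ A B : Polynomial ℝ, ∀ θ : ℝ,
      Q (x, Real.cos θ • a + Real.sin θ • b) = A.eval (Real.cos θ) + Real.sin θ * B.eval (Real.cos θ) := by
  have h1 : ∀ j : ℕ, ∃ P : Polynomial ℝ, ∀ s : ℝ, Q (x, s • b + (j : ℝ) • a) = P.eval s := by
    intro j
    obtain ⟨P, -, hP⟩ := hQ x hx ((j : ℝ) • a) b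
    exact ⟨P, fun s => by rw [← hP, add_comm]⟩
  choose P hP using h1
  have h2 : Trig (fun θ => Q (x, Real.cos θ • a + Real.sin θ • b)) := by
    have : (fun θ => Q (x, Real.cos θ • a + Real.sin θ • b)) = fun θ =>
        ∑ j ∈ Finset.range (d + 1), (lag d j).eval (Real.cos θ) * (P j).eval (Real.sin θ) := by
      funext θ
      rw [add_comm, hQ.interp hx]
      exact Finset.sum_congr rfl fun j _ => by rw [hP]
    rw [this]
    exact Trig.sum _ fun j _ => (Trig.poly _ Trig.cos).mul (Trig.poly _ Trig.sin)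
  exact h2


/-! ### S2: the fibre conics -/

theorem exists_perp (x y : V) : ∃ e : V, e ≠ 0 ∧ ⟪x, e⟫ = 0 ∧ ⟪y, e⟫ = 0 := by
  let L : V →ₗ[ℝ] (Fin 2 → ℝ) :=
    LinearMap.pi ![(innerSL ℝ x : V →ₗ[ℝ] ℝ), (innerSL ℝ y : V →ₗ[ℝ] ℝ)]
  have h1 : LinearMap.ker L ≠ ⊥ := by
    apply LinearMap.ker_ne_bot_of_finrank_lt
    simp
  obtain ⟨e, he, hne⟩ := (Submodule.ne_bot_iff _).1 h1
  refine ⟨e, hne, ?_, ?_⟩
  · have := congrFun (LinearMap.mem_ker.1 he) 0
    simpa [L] using this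
  · have := congrFun (LinearMap.mem_ker.1 he) 1
    simpa [L] using this

theorem Met.pos' {G : V → V →L[ℝ] V} (hG : Met G) {x : V} (hx : ‖x‖ = 1) {p : V} (hp : p ≠ 0)
    (hxp : ⟪x, p⟫ = 0) : 0 < ⟪p, G x p⟫ := by
  have hx0 : x ≠ 0 := by
    rintro rfl
    simp at hx
  refine hG.pos x p hx0 fun c hc => hp ?_
  rw [hc, inner_smul_right, real_inner_self_eq_norm_sq, hx] at hxp
  have : c = 0 := by simpa using hxp
  rw [hc, this, zero_smul]

theorem exists_on_conic_dir {G : V → V →L[ℝ] V} (hG : Met G) {x : V} (hx : ‖x‖ = 1) {c : ℝ}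
    (hc : 0 < c) {e : V} (he : e ≠ 0) (hxe : ⟪x, e⟫ = 0) :
    ∃ r : ℝ, 0 < r ∧ (1 / 2) * ⟪r • e, G x (r • e)⟫ = c := by
  have hpos := hG.pos' hx he hxe
  refine ⟨√(2 * c / ⟪e, G x e⟫), Real.sqrt_pos.2 (by positivity), ?_⟩
  rw [map_smul, inner_smul_left, inner_smul_right, conj_trivial, ← mul_assoc (√_),
    Real.mul_self_sqrt (by positivity)]
  field_simp

theorem exists_on_conic {G : V → V →L[ℝ] V} (hG : Met G) {x : V} (hx : ‖x‖ = 1) {c : ℝ}
    (hc : 0 < c) : ∃ p : V, ⟪x, p⟫ = 0 ∧ (1 / 2) * ⟪p, G x p⟫ = c := by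
  obtain ⟨e, he, h1, -⟩ := exists_perp x x
  obtain ⟨r, -, hr⟩ := exists_on_conic_dir hG hx hc he h1
  exact ⟨r • e, by rw [inner_smul_right, h1, mul_zero], hr⟩

theorem conic_param' {G : V → V →L[ℝ] V} (hG : Met G) {x : V} (hx : ‖x‖ = 1) {c : ℝ}
    (hc : 0 < c) {a : V} (ha : ⟪x, a⟫ = 0) (hac : (1 / 2) * ⟪a, G x a⟫ = c) :
    ∃ b : V, ⟪x, b⟫ = 0 ∧ ⟪G x a, b⟫ = 0 ∧ (1 / 2) * ⟪b, G x b⟫ = c ∧
      (∀ θ : ℝ, ⟪x, Real.cos θ • a + Real.sin θ • b⟫ = 0 ∧
        (1 / 2) * ⟪Real.cos θ • a + Real.sin θ • b, G x (Real.cos θ • a + Real.sin θ • b)⟫ = c) ∧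
      ∀ p : V, ⟪x, p⟫ = 0 → (1 / 2) * ⟪p, G x p⟫ = c →
        ∃ α β : ℝ, α ^ 2 + β ^ 2 = 1 ∧ p = α • a + β • b := by
  have hx0 : x ≠ 0 := by
    rintro rfl
    simp at hx
  obtain ⟨e, he, h1, h2⟩ := exists_perp x (G x a)
  obtain ⟨r, hr0, hr⟩ := exists_on_conic_dir hG hx hc he h1
  set b := r • e with hb
  have hxb : ⟪x, b⟫ = 0 := by rw [hb, inner_smul_right, h1, mul_zero]
  have hab : ⟪G x a, b⟫ = 0 := by rw [hb, inner_smul_right, h2, mul_zero]
  have hab' : ⟪a, G x b⟫ = 0 := by rw [← hG.symm x a b hx0, hab]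
  have hba : ⟪b, G x a⟫ = 0 := by rw [real_inner_comm, hab]
  have haa : ⟪a, G x a⟫ = 2 * c := by linarith
  have hbb : ⟪b, G x b⟫ = 2 * c := by linarith
  have hquad : ∀ α β : ℝ, (1 / 2) * ⟪α • a + β • b, G x (α • a + β • b)⟫ = c * (α ^ 2 + β ^ 2) := by
    intro α β
    simp only [map_add, map_smul, inner_add_left, inner_add_right, inner_smul_left,
      inner_smul_right, conj_trivial, hab', hba, haa, hbb]
    ring
  refine ⟨b, hxb, hab, hr, fun θ => ⟨?_, ?_⟩, fun p hp hpc => ?_⟩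
  · rw [inner_add_right, inner_smul_right, inner_smul_right, ha, hxb]
    ring
  · rw [hquad, Real.cos_sq_add_sin_sq, mul_one]
  · let L : V →ₗ[ℝ] (Fin 3 → ℝ) :=
      LinearMap.pi ![(innerSL ℝ x : V →ₗ[ℝ] ℝ), (innerSL ℝ (G x a) : V →ₗ[ℝ] ℝ),
        (innerSL ℝ (G x b) : V →ₗ[ℝ] ℝ)]
    have hL : ∀ v, L v = ![⟪x, v⟫, ⟪G x a, v⟫, ⟪G x b, v⟫] := by
      intro v
      funext i
      fin_cases i <;> simp [L]
    have hxx : ⟪x, x⟫ = 1 := by rw [real_inner_self_eq_norm_sq, hx]; norm_num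
    have hGax : ⟪G x a, x⟫ = 0 := by rw [hG.symm x a x hx0, hG.radial x hx0, inner_zero_right]
    have hGbx : ⟪G x b, x⟫ = 0 := by rw [hG.symm x b x hx0, hG.radial x hx0, inner_zero_right]
    have hGaa : ⟪G x a, a⟫ = 2 * c := by rw [real_inner_comm, haa]
    have hGbb : ⟪G x b, b⟫ = 2 * c := by rw [real_inner_comm, hbb]
    have hGba : ⟪G x b, a⟫ = 0 := by rw [real_inner_comm, hab']
    have hsurj : Function.Surjective L := by
      intro w
      refine ⟨w 0 • x + (w 1 / (2 * c)) • a + (w 2 / (2 * c)) • b, ?_⟩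
      rw [hL]
      simp only [inner_add_right, inner_smul_right, hxx, ha, hxb, hGax, hGaa, hab, hGbx, hGba, hGbb]
      funext i
      fin_cases i <;> simp <;> field_simp
    have hinj : Function.Injective L :=
      (LinearMap.injective_iff_surjective_of_finrank_eq_finrank (by simp)).2 hsurj
    have hpe : p = (⟪G x a, p⟫ / (2 * c)) • a + (⟪G x b, p⟫ / (2 * c)) • b := by
      apply hinj
      rw [hL, hL]
      simp only [inner_add_right, inner_smul_right, ha, hxb, hGaa, hab, hGba, hGbb, hp]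
      funext i
      fin_cases i <;> simp <;> field_simp
    refine ⟨_, _, ?_, hpe⟩
    have h3 := hquad (⟪G x a, p⟫ / (2 * c)) (⟪G x b, p⟫ / (2 * c))
    rw [← hpe, hpc] at h3
    have : c * 1 = c * ((⟪G x a, p⟫ / (2 * c)) ^ 2 + (⟪G x b, p⟫ / (2 * c)) ^ 2) := by
      rw [mul_one]; exact h3
    exact (mul_left_cancel₀ hc.ne' this).symm

theorem exists_cos_sin {α β : ℝ} (h : α ^ 2 + β ^ 2 = 1) : ∃ θ : ℝ, α = Real.cos θ ∧ β = Real.sin θ := by
  have hn : ‖(⟨α, β⟩ : ℂ)‖ = 1 := by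
    rw [Complex.norm_eq_sqrt_sq_add_sq, h, Real.sqrt_one]
  refine ⟨Complex.arg ⟨α, β⟩, ?_, ?_⟩
  · have := Complex.norm_mul_cos_arg ⟨α, β⟩
    rw [hn, one_mul] at this
    exact this.symm
  · have := Complex.norm_mul_sin_arg ⟨α, β⟩
    rw [hn, one_mul] at this
    exact this.symm

theorem conic_param {G : V → V →L[ℝ] V} (hG : Met G) {x : V} (hx : ‖x‖ = 1) {c : ℝ}
    (hc : 0 < c) {a : V} (ha : ⟪x, a⟫ = 0) (hac : (1 / 2) * ⟪a, G x a⟫ = c) :
    ∃ b : V, ⟪x, b⟫ = 0 ∧ ⟪G x a, b⟫ = 0 ∧ (1 / 2) * ⟪b, G x b⟫ = c ∧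
      (∀ θ : ℝ, ⟪x, Real.cos θ • a + Real.sin θ • b⟫ = 0 ∧
        (1 / 2) * ⟪Real.cos θ • a + Real.sin θ • b, G x (Real.cos θ • a + Real.sin θ • b)⟫ = c) ∧
      ∀ p : V, ⟪x, p⟫ = 0 → (1 / 2) * ⟪p, G x p⟫ = c →
        ∃ θ : ℝ, p = Real.cos θ • a + Real.sin θ • b := by
  obtain ⟨b, h1, h2, h3, h4, h5⟩ := conic_param' hG hx hc ha hac
  refine ⟨b, h1, h2, h3, h4, fun p hp hpc => ?_⟩
  obtain ⟨α, β, h6, h7⟩ := h5 p hp hpc
  obtain ⟨θ, rfl, rfl⟩ := exists_cos_sin h6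
  exact ⟨θ, h7⟩

theorem mem_ES {G : V → V →L[ℝ] V} {U : V → ℝ} {E : ℝ} {D : Set V} {x p : V} :
    (x, p) ∈ ES G U E D ↔ ‖x‖ = 1 ∧ ⟪x, p⟫ = 0 ∧ x ∈ D ∧ (1 / 2) * ⟪p, G x p⟫ = E - U x := by
  simp only [ES, N, Ham, Set.mem_ofPred_eq]
  constructor
  · rintro ⟨⟨h1, h2⟩, h3, h4⟩
    exact ⟨h1, h2, h3, by linarith⟩
  · rintro ⟨h1, h2, h3, h4⟩
    exact ⟨⟨h1, h2⟩, h3, by linarith⟩

theorem trig_zero {A B : Polynomial ℝ} {S : Set ℝ} (hS : S.Infinite)
    (h : ∀ c ∈ S, ∃ s : ℝ, s ^ 2 = 1 - c ^ 2 ∧ A.eval c + s * B.eval c = 0) : A = 0 ∧ B = 0 := by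
  have h1 : A ^ 2 - (1 - Polynomial.X ^ 2) * B ^ 2 = 0 := by
    refine Polynomial.eq_zero_of_infinite_isRoot _ (hS.mono fun c hc => ?_)
    obtain ⟨s, hs, h2⟩ := h c hc
    simp only [Polynomial.IsRoot, Set.mem_ofPred_eq, Polynomial.eval_sub, Polynomial.eval_pow,
      Polynomial.eval_mul, Polynomial.eval_one, Polynomial.eval_X]
    have h3 : A.eval c = - s * B.eval c := by linarith
    rw [h3, ← hs]
    ring
  have h2 : ∀ c : ℝ, 1 < c → A.eval c = 0 ∧ B.eval c = 0 := by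
    intro c hc
    have h3 := congrArg (Polynomial.eval c) h1
    simp only [Polynomial.eval_sub, Polynomial.eval_pow, Polynomial.eval_mul, Polynomial.eval_one,
      Polynomial.eval_X, Polynomial.eval_zero] at h3
    have h4 : 0 < c ^ 2 - 1 := by nlinarith
    have h5 : 0 ≤ (c ^ 2 - 1) * B.eval c ^ 2 := by positivity
    have h6 : A.eval c ^ 2 = 0 := by nlinarith [sq_nonneg (A.eval c)]
    have h7 : (c ^ 2 - 1) * B.eval c ^ 2 = 0 := by nlinarith
    refine ⟨by simpa using h6, ?_⟩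
    rcases mul_eq_zero.1 h7 with h8 | h8
    · exact absurd h8 h4.ne'
    · simpa using h8
  have hinf : (Ioi (1 : ℝ)).Infinite := Set.Ioi_infinite 1
  exact ⟨Polynomial.eq_zero_of_infinite_isRoot _ (hinf.mono fun c hc => (h2 c hc).1),
    Polynomial.eq_zero_of_infinite_isRoot _ (hinf.mono fun c hc => (h2 c hc).2)⟩

theorem fiber_vanish_of_infinite {G : V → V →L[ℝ] V} {U : V → ℝ} {E : ℝ} {D : Set V} (hG : Met G)
    (hD : Reg U E D) {d : ℕ} {Q : V × V → ℝ} (hQ : FPoly d D Q) {x : V}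
    (h : {p' | (x, p') ∈ ES G U E D ∧ Q (x, p') = 0}.Infinite) :
    ∀ p', (x, p') ∈ ES G U E D → Q (x, p') = 0 := by
  obtain ⟨p, hp, -⟩ := h.nonempty
  obtain ⟨hx1, hxp, hxD, hpc⟩ := mem_ES.1 hp
  have hc : 0 < E - U x := by linarith [hD.lt x hxD]
  obtain ⟨b, hb1, hb2, hb3, hb4, hb5⟩ := conic_param' hG hx1 hc hxp hpc
  obtain ⟨A, B, hAB⟩ := hQ.trig hxD p b
  have hAB0 : A = 0 ∧ B = 0 := by
    apply trig_zero (S := {α : ℝ | ∃ β : ℝ, α ^ 2 + β ^ 2 = 1 ∧ Q (x, α • p + β • b) = 0})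
    · intro hfin
      apply h
      refine ((hfin.image fun α => α • p + √(1 - α ^ 2) • b).union
        (hfin.image fun α => α • p + (-√(1 - α ^ 2)) • b)).subset ?_
      rintro p' ⟨hp', hQp'⟩
      obtain ⟨-, hxp', -, hpc'⟩ := mem_ES.1 hp'
      obtain ⟨α, β, h1, h2⟩ := hb5 p' hxp' hpc'
      have hα : α ∈ {α : ℝ | ∃ β : ℝ, α ^ 2 + β ^ 2 = 1 ∧ Q (x, α • p + β • b) = 0} :=
        ⟨β, h1, by rw [← h2]; exact hQp'⟩
      have h3 : 1 - α ^ 2 = β ^ 2 := by linarith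
      rcases le_total 0 β with h4 | h4
      · left
        refine ⟨α, hα, ?_⟩
        simp only
        rw [h3, Real.sqrt_sq h4, h2]
      · right
        refine ⟨α, hα, ?_⟩
        simp only
        rw [h3, Real.sqrt_sq_eq_abs, abs_of_nonpos h4, neg_neg, h2]
    · rintro α ⟨β, h1, h2⟩
      obtain ⟨θ, rfl, rfl⟩ := exists_cos_sin h1
      exact ⟨Real.sin θ, by linarith, by rw [← hAB, h2]⟩
  intro p' hp'
  obtain ⟨-, hxp', -, hpc'⟩ := mem_ES.1 hp'
  obtain ⟨α, β, h1, h2⟩ := hb5 p' hxp' hpc'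
  obtain ⟨θ, rfl, rfl⟩ := exists_cos_sin h1
  rw [h2, hAB, hAB0.1, hAB0.2]
  simp

/-- A fibre polynomial vanishing at points of the fibre of the energy surface accumulating at a
point of this fibre vanishes on the whole fibre. -/
theorem fiber_vanish {G : V → V →L[ℝ] V} {U : V → ℝ} {E : ℝ} {D : Set V} (hG : Met G)
    (hD : Reg U E D) {d : ℕ} {Q : V × V → ℝ} (hQ : FPoly d D Q) {x p : V}
    (hz : (x, p) ∈ ES G U E D)
    (h : ∀ ε > 0, ∃ p', (x, p') ∈ ES G U E D ∧ p' ≠ p ∧ dist p' p < ε ∧ Q (x, p') = 0) :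
    ∀ p', (x, p') ∈ ES G U E D → Q (x, p') = 0 := by
  refine fiber_vanish_of_infinite hG hD hQ fun hfin => ?_
  have h1 : ({p' | (x, p') ∈ ES G U E D ∧ Q (x, p') = 0} \ {p}).Finite := hfin.sdiff
  have h2 : ({p' | (x, p') ∈ ES G U E D ∧ Q (x, p') = 0} \ {p})ᶜ ∈ 𝓝 p :=
    h1.isClosed.isOpen_compl.mem_nhds (by simp)
  obtain ⟨ε, hε, hball⟩ := Metric.mem_nhds_iff.1 h2
  obtain ⟨p', h3, h4, h5, h6⟩ := h ε hε
  exact hball (Metric.mem_ball.2 h5) ⟨⟨h3, h6⟩, h4⟩

theorem fiber_preconnected {G : V → V →L[ℝ] V} {U : V → ℝ} {E : ℝ} {D : Set V} (hG : Met G)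
    (hD : Reg U E D) (x : V) : IsPreconnected {z | z ∈ ES G U E D ∧ z.1 = x} := by
  rcases Set.eq_empty_or_nonempty {z | z ∈ ES G U E D ∧ z.1 = x} with h | ⟨⟨x', a⟩, hz, hzx⟩
  · rw [h]; exact isPreconnected_empty
  · simp only at hzx
    subst hzx
    obtain ⟨hx1, hxa, hxD, hac⟩ := mem_ES.1 hz
    have hc : 0 < E - U x' := by linarith [hD.lt x' hxD]
    obtain ⟨b, hb1, hb2, hb3, hb4, hb5⟩ := conic_param hG hx1 hc hxa hac
    have : {z | z ∈ ES G U E D ∧ z.1 = x'} =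
        (fun θ : ℝ => ((x', Real.cos θ • a + Real.sin θ • b) : V × V)) '' univ := by
      ext ⟨y, p⟩
      constructor
      · rintro ⟨h1, h2⟩
        simp only at h2
        subst h2
        obtain ⟨-, h3, -, h4⟩ := mem_ES.1 h1
        obtain ⟨θ, hθ⟩ := hb5 p h3 h4
        exact ⟨θ, mem_univ _, by rw [hθ]⟩
      · rintro ⟨θ, -, hθ⟩
        simp only [Prod.mk.injEq] at hθ
        obtain ⟨rfl, rfl⟩ := hθ
        exact ⟨mem_ES.2 ⟨hx1, (hb4 θ).1, hxD, (hb4 θ).2⟩, rfl⟩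
    rw [this]
    refine isPreconnected_univ.image _ (Continuous.continuousOn ?_)
    fun_prop

theorem fiber_nonempty {G : V → V →L[ℝ] V} {U : V → ℝ} {E : ℝ} {D : Set V} (hG : Met G)
    (hD : Reg U E D) {x : V} (hx : x ∈ D) (hx1 : ‖x‖ = 1) : ∃ p, (x, p) ∈ ES G U E D := by
  have hc : 0 < E - U x := by linarith [hD.lt x hx]
  obtain ⟨p, h1, h2⟩ := exists_on_conic hG hx1 hc
  exact ⟨p, mem_ES.2 ⟨hx1, h1, hx, h2⟩⟩

end SI

end Pool.Agent.Helper197
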