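import Mathlib

/-!
Natural Hamiltonian systems on `T*S²` and their integrals polynomial in the momenta, in canonical
coordinates induced by arbitrary smooth charts of Mathlib's smooth manifold `S²`.
-/

open Set Manifold
open scoped ContDiff

noncomputable section

namespace Pool.Agent.Helper197.S2Defs

/-- The 2-sphere, with Mathlib's smooth manifold structure. -/
abbrev S2 : Type := Metric.sphere (0 : EuclideanSpace ℝ (Fin 3)) 1

/-- The model plane. -/
abbrev R2 : Type := EuclideanSpace ℝ (Fin 2)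

/-- Tangent spaces of `S²`. -/
def Tan (x : S2) : Type := TangentSpace (𝓡 2) x

instance instTanGroup (x : S2) : AddCommGroup (Tan x) := instAddCommGroupTangentSpace (𝓡 2) x
instance instTanModule (x : S2) : Module ℝ (Tan x) := instModuleTangentSpace (𝓡 2) x
instance instTanTop (x : S2) : TopologicalSpace (Tan x) := instTopologicalSpaceTangentSpace (𝓡 2) x

/-- Cotangent spaces of `S²`. -/
abbrev Cot (x : S2) : Type := Tan x →L[ℝ] ℝ

/-- Local charts of `S²` with values in the plane. -/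
abbrev Chart : Type := OpenPartialHomeomorph S2 R2

/-- Smooth charts of `S²`: members of the maximal smooth atlas. -/
def SmoothChart (φ : Chart) : Prop := φ ∈ IsManifold.maximalAtlas (𝓡 2) ∞ S2

/-- The set of coordinate values of a chart. -/
abbrev dom (φ : Chart) : Set R2 := φ.target

/-- The point with coordinates `q`. -/
abbrev pt (φ : Chart) (q : R2) : S2 := φ.symm q

/-- The differential of a chart. -/
def dchart (φ : Chart) (x : S2) : Tan x →L[ℝ] R2 := mfderiv (𝓡 2) (𝓡 2) φ x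

/-- The differential of the inverse of a chart. -/
def dpt (φ : Chart) (q : R2) : R2 →L[ℝ] Tan (pt φ q) := mfderiv (𝓡 2) (𝓡 2) (pt φ) q

/-- The coordinate vector field `∂/∂φᵢ` at the point with coordinates `q`. -/
def frame (φ : Chart) (q : R2) (i : Fin 2) : Tan (pt φ q) := dpt φ q (EuclideanSpace.single i 1)

/-- Smooth Riemannian metrics on `S²`: scalar products on the tangent spaces whose components
`g(∂/∂φᵢ, ∂/∂φⱼ)` in every smooth chart are smooth functions of the coordinates. -/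
structure RMetric where
  inner : (x : S2) → Tan x → Cot x
  symm : ∀ x v w, inner x v w = inner x w v
  pos : ∀ x v, v ≠ 0 → 0 < inner x v v
  smooth : ∀ φ, SmoothChart φ → ∀ i j,
    ContDiffOn ℝ ∞ (fun q => inner (pt φ q) (frame φ q i) (frame φ q j)) (dom φ)

/-- Functions on `T*S²`: a value for each point `x` and each covector at `x`. -/
abbrev CotFun : Type := (x : S2) → Cot x → ℝ

/-- The covector `p₁ dφ₁ + p₂ dφ₂` at `x`. -/
def covector (φ : Chart) (x : S2) (p₁ p₂ : ℝ) : Cot x :=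
  p₁ • (EuclideanSpace.proj 0).comp (dchart φ x) + p₂ • (EuclideanSpace.proj 1).comp (dchart φ x)

/-- Expression of `F` in the canonical coordinates `(q, p)` of `T*S²` induced by the chart `φ`. -/
def rep (F : CotFun) (φ : Chart) (q₁ q₂ p₁ p₂ : ℝ) : ℝ :=
  F (pt φ !₂[q₁, q₂]) (covector φ (pt φ !₂[q₁, q₂]) p₁ p₂)

/-- The natural Hamiltonian `½ |ξ|² + U(x)`: the kinetic part is `½ ξ(v)` where `v` is the vector
with `g(v, ·) = ξ`. -/
def natHam (g : RMetric) (U : S2 → ℝ) : CotFun := fun x ξ =>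
  (1 / 2) * ξ (Function.invFun (g.inner x) ξ) + U x

/-- The gradient `(∂f/∂q₁, ∂f/∂q₂, ∂f/∂p₁, ∂f/∂p₂)`. -/
def grad (f : ℝ → ℝ → ℝ → ℝ → ℝ) (q₁ q₂ p₁ p₂ : ℝ) : Fin 4 → ℝ :=
  ![deriv (fun t => f t q₂ p₁ p₂) q₁, deriv (fun t => f q₁ t p₁ p₂) q₂,
    deriv (fun t => f q₁ q₂ t p₂) p₁, deriv (fun t => f q₁ q₂ p₁ t) p₂]

/-- The canonical Poisson bracket in coordinates `(q, p)`. -/
def pb (f h : ℝ → ℝ → ℝ → ℝ → ℝ) (q₁ q₂ p₁ p₂ : ℝ) : ℝ :=
  grad f q₁ q₂ p₁ p₂ 0 * grad h q₁ q₂ p₁ p₂ 2 - grad f q₁ q₂ p₁ p₂ 2 * grad h q₁ q₂ p₁ p₂ 0 +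
  (grad f q₁ q₂ p₁ p₂ 1 * grad h q₁ q₂ p₁ p₂ 3 - grad f q₁ q₂ p₁ p₂ 3 * grad h q₁ q₂ p₁ p₂ 1)

/-- `F` is polynomial in the momenta of degree at most `d`: in every smooth chart it is a polynomial
of degree at most `d` in `p₁, p₂` with coefficients smooth functions of the position. -/
def PolyMom (d : ℕ) (F : CotFun) : Prop :=
  ∀ φ, SmoothChart φ →
    ∃ c : ℕ → ℕ → R2 → ℝ, (∀ i j, ContDiffOn ℝ ∞ (c i j) (dom φ)) ∧
      ∀ q₁ q₂ : ℝ, !₂[q₁, q₂] ∈ dom φ → ∀ p₁ p₂ : ℝ, rep F φ q₁ q₂ p₁ p₂ =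
        ∑ i ∈ Finset.range (d + 1), ∑ j ∈ Finset.range (d + 1 - i),
          c i j !₂[q₁, q₂] * p₁ ^ i * p₂ ^ j

/-- `F` is an integral of the natural system `(g, U)`: `{H, F} = 0` in all canonical coordinates. -/
def Integral (g : RMetric) (U : S2 → ℝ) (F : CotFun) : Prop :=
  ∀ φ, SmoothChart φ → ∀ q₁ q₂ : ℝ, !₂[q₁, q₂] ∈ dom φ → ∀ p₁ p₂ : ℝ,
    pb (rep (natHam g U) φ) (rep F φ) q₁ q₂ p₁ p₂ = 0

/-- Three functions on `T*S²` have linearly independent differentials at some point of `T*S²`.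
This is the weakest form of functional independence. -/
def IndepSomewhere (F₁ F₂ F₃ : CotFun) : Prop :=
  ∃ φ, SmoothChart φ ∧ ∃ q₁ q₂ p₁ p₂ : ℝ, !₂[q₁, q₂] ∈ dom φ ∧
    LinearIndependent ℝ (![grad (rep F₁ φ) q₁ q₂ p₁ p₂, grad (rep F₂ φ) q₁ q₂ p₁ p₂,
      grad (rep F₃ φ) q₁ q₂ p₁ p₂] : Fin 3 → Fin 4 → ℝ)

/-- The natural system `(g, U)` has three integrals polynomial in the momenta (one may be the
Hamiltonian) which are functionally independent. -/
def Superintegrable (g : RMetric) (U : S2 → ℝ) : Prop :=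
  ∃ F₁ F₂ F₃ : CotFun,
    (Integral g U F₁ ∧ ∃ d, PolyMom d F₁) ∧
    (Integral g U F₂ ∧ ∃ d, PolyMom d F₂) ∧
    (Integral g U F₃ ∧ ∃ d, PolyMom d F₃) ∧
    IndepSomewhere F₁ F₂ F₃

end Pool.Agent.Helper197.S2Defs
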