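import Pool.Agent.Helper197.Core
import Pool.Agent.Helper197.S2Defs

/-!
Bridge between the statement on Mathlib's manifold `S²` and the core theorem on the cone
`ℝ³ ∖ 0`.
-/

open Set Topology Manifold Bundle
open scoped ContDiff RealInnerProductSpace
open Pool.Agent.Helper197.S2Defs (S2 R2 Tan Cot Chart SmoothChart dom pt dchart dpt frame RMetric
  CotFun natHam)

noncomputable section

namespace Pool.Agent.Helper197.S2Bridge

/-- The covector `∑ pᵢ dφᵢ` at the point with coordinates `q` in the chart `φ`. -/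
def covE (φ : Chart) (q p : R2) : Cot (φ.symm q) := (innerSL ℝ p).comp (dchart φ (φ.symm q))

/-- Expression of `F` in the canonical coordinates `(q, p)`. -/
def repE (F : CotFun) (φ : Chart) (z : R2 × R2) : ℝ := F (φ.symm z.1) (covE φ z.1 z.2)

/-- The canonical Poisson bracket in coordinates `(q, p)`. -/
def pbE (f h : R2 × R2 → ℝ) (z : R2 × R2) : ℝ :=
  ∑ i : Fin 2, (fderiv ℝ f z (EuclideanSpace.single i 1, 0) *
      fderiv ℝ h z (0, EuclideanSpace.single i 1) -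
    fderiv ℝ f z (0, EuclideanSpace.single i 1) *
      fderiv ℝ h z (EuclideanSpace.single i 1, 0))

/-- `F` is polynomial in the momenta of degree at most `d`. -/
def PolyMomE (d : ℕ) (F : CotFun) : Prop :=
  ∀ φ : Chart, SmoothChart φ →
    ∃ c : ℕ → ℕ → R2 → ℝ, (∀ i j, ContDiffOn ℝ ∞ (c i j) φ.target) ∧
      ∀ q ∈ φ.target, ∀ p : R2, repE F φ (q, p) =
        ∑ i ∈ Finset.range (d + 1), ∑ j ∈ Finset.range (d + 1 - i), c i j q * p 0 ^ i * p 1 ^ j

/-- `F` is an integral of the natural system `(g, U)`. -/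
def IntegralE (g : RMetric) (U : S2 → ℝ) (F : CotFun) : Prop :=
  ∀ φ : Chart, SmoothChart φ →
    ∀ z : R2 × R2, z.1 ∈ φ.target → pbE (repE (natHam g U) φ) (repE F φ) z = 0

/-! ### bridge -/

abbrev V : Type := EuclideanSpace ℝ (Fin 3)

instance factV : Fact (Module.finrank ℝ V = 2 + 1) := ⟨finrank_euclideanSpace_fin⟩

/-- radial projection to the sphere -/
def nrm (x : V) : S2 :=
  if h : x = 0 then ⟨EuclideanSpace.single 0 1, by simp⟩
  else ⟨‖x‖⁻¹ • x, by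
    rw [mem_sphere_zero_iff_norm, norm_smul, norm_inv, norm_norm,
      inv_mul_cancel₀ (norm_ne_zero_iff.2 h)]⟩

theorem nrm_coe {x : V} (hx : x ≠ 0) : (nrm x : V) = ‖x‖⁻¹ • x := by
  simp [nrm, hx]

theorem S2_norm (y : S2) : ‖(y : V)‖ = 1 := by
  have := y.2
  rwa [mem_sphere_zero_iff_norm] at this

theorem S2_ne (y : S2) : (y : V) ≠ 0 := by
  intro h
  have := S2_norm y
  rw [h, norm_zero] at this
  exact zero_ne_one this

theorem nrm_smul {x : V} (hx : x ≠ 0) {c : ℝ} (hc : 0 < c) : nrm (c • x) = nrm x := by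
  apply Subtype.ext
  rw [nrm_coe hx, nrm_coe (smul_ne_zero hc.ne' hx), norm_smul, Real.norm_eq_abs, abs_of_pos hc,
    smul_smul]
  congr 1
  field_simp

theorem nrm_of (y : S2) : nrm (y : V) = y := by
  apply Subtype.ext
  rw [nrm_coe (S2_ne y), S2_norm y]
  simp

theorem contMDiffAt_nrm {x : V} (hx : x ≠ 0) : ContMDiffAt 𝓘(ℝ, V) (𝓡 2) ∞ nrm x := by
  let O : TopologicalSpace.Opens V := ⟨{x | x ≠ 0}, isOpen_ne⟩
  have h1 : ContMDiff 𝓘(ℝ, V) 𝓘(ℝ, V) ∞ (fun y : O => ‖(y : V)‖⁻¹ • (y : V)) := by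
    intro y
    have hy : (y : V) ≠ 0 := y.2
    have h2 : ContDiffAt ℝ ∞ (fun y : V => ‖y‖⁻¹ • y) (y : V) :=
      ((contDiffAt_norm ℝ hy).inv (norm_ne_zero_iff.2 hy)).smul contDiffAt_id
    exact contMDiffAt_subtype_iff.2 h2.contMDiffAt
  have h2 : ∀ y : O, ‖(y : V)‖⁻¹ • (y : V) ∈ Metric.sphere (0 : V) 1 := by
    intro y
    rw [mem_sphere_zero_iff_norm, norm_smul, norm_inv, norm_norm,
      inv_mul_cancel₀ (norm_ne_zero_iff.2 y.2)]
  have h3 := ContMDiff.codRestrict_sphere (n := 2) h1 h2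
  have h4 : (fun y : O => nrm (y : V)) = Set.codRestrict _ _ h2 := by
    funext y
    apply Subtype.ext
    rw [nrm_coe y.2]
    rfl
  rw [← h4] at h3
  have h5 := h3 ⟨x, hx⟩
  exact contMDiffAt_subtype_iff.1 h5


/-- parametrisation of the sphere by a chart -/
def psi (φ : Chart) (u : R2) : V := (φ.symm u : V)

/-- position coordinates as functions on `ℝ³` -/
def qc (φ : Chart) (x : V) : R2 := φ (nrm x)

/-- cone over the chart domain -/
def cone (φ : Chart) : Set V := {x | x ≠ 0 ∧ nrm x ∈ φ.source}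

theorem contDiffOn_psi {φ : Chart} (hφ : SmoothChart φ) :
    ContDiffOn ℝ ∞ (psi φ) φ.target := by
  have h1 : ContMDiffOn (𝓡 2) (𝓡 2) ∞ φ.symm φ.target := contMDiffOn_symm_of_mem_maximalAtlas hφ
  have h2 : ContMDiff (𝓡 2) 𝓘(ℝ, V) ∞ ((↑) : S2 → V) := contMDiff_coe_sphere
  have h3 := h2.comp_contMDiffOn h1
  exact contMDiffOn_iff_contDiffOn.1 h3

theorem continuousAt_nrm {x : V} (hx : x ≠ 0) : ContinuousAt nrm x :=
  (contMDiffAt_nrm hx).continuousAt

theorem isOpen_cone (φ : Chart) : IsOpen (cone φ) := by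
  have h1 : ContinuousOn nrm {x : V | x ≠ 0} := fun x hx => (continuousAt_nrm hx).continuousWithinAt
  exact h1.isOpen_inter_preimage isOpen_ne φ.open_source

theorem contDiffAt_qc {φ : Chart} (hφ : SmoothChart φ) {x : V}
    (hx : x ∈ cone φ) : ContDiffAt ℝ ∞ (qc φ) x := by
  have h1 : ContMDiffAt (𝓡 2) (𝓡 2) ∞ φ (nrm x) :=
    contMDiffAt_of_mem_maximalAtlas hφ hx.2
  have h2 := h1.comp x (contMDiffAt_nrm hx.1)
  exact contMDiffAt_iff_contDiffAt.1 h2

theorem qc_mem {φ : Chart} {x : V} (hx : x ∈ cone φ) :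
    qc φ x ∈ φ.target := φ.map_source hx.2

theorem psi_qc {φ : Chart} {x : V} (hx : x ∈ cone φ) :
    ‖x‖ • psi φ (qc φ x) = x := by
  unfold psi qc
  rw [φ.left_inv hx.2, nrm_coe hx.1, smul_smul, mul_inv_cancel₀ (norm_ne_zero_iff.2 hx.1), one_smul]

theorem psi_mem {φ : Chart} {u : R2} (hu : u ∈ φ.target) {r : ℝ} (hr : 0 < r) :
    r • psi φ u ∈ cone φ := by
  refine ⟨smul_ne_zero hr.ne' (S2_ne _), ?_⟩
  unfold psi
  rw [nrm_smul (S2_ne _) hr, nrm_of]
  exact φ.map_target hu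

theorem qc_psi {φ : Chart} {u : R2} (hu : u ∈ φ.target) {r : ℝ} (hr : 0 < r) :
    qc φ (r • psi φ u) = u := by
  unfold psi qc
  rw [nrm_smul (S2_ne _) hr, nrm_of]
  exact φ.right_inv hu

theorem psi_norm (φ : Chart) (u : R2) : ‖psi φ u‖ = 1 := S2_norm _

/-- differential of the inclusion of the sphere -/
def dinc (y : S2) : Tan y →L[ℝ] V :=
  mfderiv (𝓡 2) 𝓘(ℝ, V) ((↑) : S2 → V) y

theorem hasMFDerivAt_inc (y : S2) :
    HasMFDerivAt (𝓡 2) 𝓘(ℝ, V) ((↑) : S2 → V) y (dinc y) := by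
  have h2 : ContMDiff (𝓡 2) 𝓘(ℝ, V) ∞ ((↑) : S2 → V) := contMDiff_coe_sphere
  exact (h2.mdifferentiableAt (by simp)).hasMFDerivAt

theorem hasFDerivAt_psi {φ : Chart} (hφ : SmoothChart φ) {u : R2}
    (hu : u ∈ φ.target) : HasFDerivAt (psi φ) (fderiv ℝ (psi φ) u) u :=
  (((contDiffOn_psi hφ).contDiffAt (φ.open_target.mem_nhds hu)).differentiableAt
    (by simp)).hasFDerivAt

theorem dinc_eq {φ : Chart} (hφ : SmoothChart φ) {u : R2}
    (hu : u ∈ φ.target) : dinc (φ.symm u) =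
      (fderiv ℝ (psi φ) u).comp (dchart φ (φ.symm u)) := by
  have hy : φ.symm u ∈ φ.source := φ.map_target hu
  have h1 : HasMFDerivAt (𝓡 2) (𝓡 2) φ (φ.symm u) (mfderiv (𝓡 2) (𝓡 2) φ (φ.symm u)) := by
    have h : ContMDiffAt (𝓡 2) (𝓡 2) ∞ φ (φ.symm u) := contMDiffAt_of_mem_maximalAtlas hφ hy
    exact (h.mdifferentiableAt (by simp)).hasMFDerivAt
  have h2 : HasMFDerivAt (𝓡 2) 𝓘(ℝ, V) (psi φ) (φ (φ.symm u)) (fderiv ℝ (psi φ) u) := by
    rw [φ.right_inv hu]
    exact (hasFDerivAt_psi hφ hu).hasMFDerivAt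
  have h3 := h2.comp (φ.symm u) h1
  have h4 : (psi φ ∘ φ) =ᶠ[𝓝 (φ.symm u)] ((↑) : S2 → V) := by
    filter_upwards [φ.open_source.mem_nhds hy] with y hy'
    simp [psi, φ.left_inv hy']
  exact hasMFDerivAt_unique (hasMFDerivAt_inc _) (h3.congr_of_eventuallyEq h4.symm)

theorem covector_eq {φ : Chart} (hφ : SmoothChart φ) {u : R2}
    (hu : u ∈ φ.target) (p : V) : (innerSL ℝ p).comp (dinc (φ.symm u)) =
      covE φ u ((fderiv ℝ (psi φ) u).adjoint p) := by
  rw [dinc_eq hφ hu]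
  unfold covE
  refine ContinuousLinearMap.ext fun w => ?_
  simp only [ContinuousLinearMap.comp_apply, innerSL_apply_apply]
  exact (ContinuousLinearMap.adjoint_inner_left _ _ _).symm

theorem inner_dinc (y : S2) (w : Tan y) : ⟪(y : V), dinc y w⟫ = 0 := by
  have h := range_mvfderiv_subtypeVal (n := 2) y
  have h1 : dinc y w ∈ (ℝ ∙ (y : V))ᗮ := by
    rw [← h]
    exact ⟨w, rfl⟩
  exact Submodule.mem_orthogonal_singleton_iff_inner_right.1 h1

theorem inner_add (g : RMetric) (y : S2) (v v' : Tan y) :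
    g.inner y (v + v') = g.inner y v + g.inner y v' := by
  refine ContinuousLinearMap.ext fun w => ?_
  rw [add_apply, g.symm y (v + v') w, map_add, g.symm y w v, g.symm y w v']

theorem inner_smul (g : RMetric) (y : S2) (c : ℝ) (v : Tan y) :
    g.inner y (c • v) = c • g.inner y v := by
  refine ContinuousLinearMap.ext fun w => ?_
  rw [smul_apply, g.symm y (c • v) w, map_smul, g.symm y w v]

theorem inner_zero (g : RMetric) (y : S2) : g.inner y 0 = 0 := by
  have h := inner_smul g y 0 0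
  simpa using h

theorem inner_sub (g : RMetric) (y : S2) (v v' : Tan y) :
    g.inner y (v - v') = g.inner y v - g.inner y v' := by
  have h := inner_add g y (v - v') v'
  rw [sub_add_cancel] at h
  rw [h, add_sub_cancel_right]

theorem eucl_expand (a : R2) :
    a = a 0 • (EuclideanSpace.single 0 1 : R2) + a 1 • EuclideanSpace.single 1 1 := by
  ext k
  fin_cases k <;> simp

theorem smooth_metric (g : RMetric) {φ : Chart} (hφ : SmoothChart φ)
    (a b : R2) : ContDiffOn ℝ ∞ (fun u => g.inner (φ.symm u) (dpt φ u a) (dpt φ u b)) φ.target := by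
  have h1 : (fun u => g.inner (φ.symm u) (dpt φ u a) (dpt φ u b)) = fun u =>
      a 0 * b 0 * g.inner (pt φ u) (frame φ u 0) (frame φ u 0) +
      a 0 * b 1 * g.inner (pt φ u) (frame φ u 0) (frame φ u 1) +
      a 1 * b 0 * g.inner (pt φ u) (frame φ u 1) (frame φ u 0) +
      a 1 * b 1 * g.inner (pt φ u) (frame φ u 1) (frame φ u 1) := by
    funext u
    conv_lhs => rw [eucl_expand a, eucl_expand b]
    simp only [map_add, map_smul, inner_add, inner_smul, add_apply, smul_apply, smul_eq_mul]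
    unfold frame
    ring
  rw [h1]
  exact (((contDiffOn_const.mul (g.smooth φ hφ 0 0)).add
    (contDiffOn_const.mul (g.smooth φ hφ 0 1))).add
    (contDiffOn_const.mul (g.smooth φ hφ 1 0))).add
    (contDiffOn_const.mul (g.smooth φ hφ 1 1))


/-! ### canonical lift -/

open Pool.Agent.Helper197

/-- the lift of a function on `T*S²` to `T*(ℝ³ ∖ 0)` -/
def hat (F : CotFun) (z : V × V) : ℝ :=
  F (nrm z.1) ((innerSL ℝ (‖z.1‖ • z.2)).comp (dinc (nrm z.1)))

/-- differential of the cone parametrisation -/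
def Bl (φ : Chart) (x : V) : R2 →L[ℝ] V :=
  ‖x‖ • fderiv ℝ (psi φ) (qc φ x)

/-- canonical coordinates as functions on `T*ℝ³` -/
def Th (φ : Chart) (z : V × V) : R2 × R2 :=
  (qc φ z.1, (Bl φ z.1).adjoint z.2)

theorem hat_eq (F : CotFun) {φ : Chart} (hφ : SmoothChart φ) {z : V × V}
    (hz : z.1 ∈ cone φ) : hat F z = repE F φ (Th φ z) := by
  have h1 : nrm z.1 = φ.symm (qc φ z.1) := (φ.left_inv hz.2).symm
  have h2 : hat F z = F (φ.symm (qc φ z.1))
      ((innerSL ℝ (‖z.1‖ • z.2)).comp (dinc (φ.symm (qc φ z.1)))) := by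
    unfold hat
    exact congrArg (fun y => F y ((innerSL ℝ (‖z.1‖ • z.2)).comp (dinc y))) h1
  rw [h2, covector_eq hφ (qc_mem hz)]
  unfold repE Th Bl
  simp

theorem contDiffAt_Bl {φ : Chart} (hφ : SmoothChart φ) {x : V}
    (hx : x ∈ cone φ) : ContDiffAt ℝ ∞ (Bl φ) x := by
  have h1 : ContDiffOn ℝ ∞ (fderiv ℝ (psi φ)) φ.target :=
    (contDiffOn_psi hφ).fderiv_of_isOpen φ.open_target (by simp)
  have h2 : ContDiffAt ℝ ∞ (fderiv ℝ (psi φ)) (qc φ x) :=
    h1.contDiffAt (φ.open_target.mem_nhds (qc_mem hx))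
  exact (contDiffAt_norm ℝ hx.1).smul (h2.comp x (contDiffAt_qc hφ hx))

theorem contDiffAt_Th {φ : Chart} (hφ : SmoothChart φ) {z : V × V}
    (hz : z.1 ∈ cone φ) : ContDiffAt ℝ ∞ (Th φ) z := by
  refine ContDiffAt.prodMk ((contDiffAt_qc hφ hz).comp z contDiffAt_fst) ?_
  rw [contDiffAt_euclidean]
  intro i
  have h1 : (fun z : V × V => ((Bl φ z.1).adjoint z.2) i) =
      fun z => ⟪Bl φ z.1 (EuclideanSpace.single i 1), z.2⟫ := by
    funext z
    rw [← ContinuousLinearMap.adjoint_inner_right, EuclideanSpace.inner_single_left]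
    simp
  rw [h1]
  exact ((((contDiffAt_Bl hφ hz).comp z contDiffAt_fst).clm_apply contDiffAt_const).inner ℝ
    contDiffAt_snd)

theorem contDiffOn_rep {d : ℕ} {F : CotFun} (hF : PolyMomE d F)
    {φ : Chart} (hφ : SmoothChart φ) {z : R2 × R2} (hz : z.1 ∈ φ.target) :
    ContDiffAt ℝ ∞ (repE F φ) z := by
  obtain ⟨c, hc, hrep⟩ := hF φ hφ
  have h1 : repE F φ =ᶠ[𝓝 z] fun w : R2 × R2 => ∑ i ∈ Finset.range (d + 1),
      ∑ j ∈ Finset.range (d + 1 - i), c i j w.1 * w.2 0 ^ i * w.2 1 ^ j := by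
    filter_upwards [(φ.open_target.preimage continuous_fst).mem_nhds hz] with w hw
    exact hrep w.1 hw w.2
  refine ContDiffAt.congr_of_eventuallyEq ?_ h1
  have hcoord : ∀ k : Fin 2, ContDiffAt ℝ ∞ (fun w : R2 × R2 => w.2 k) z := by
    intro k
    exact (contDiff_euclidean.1 contDiff_snd k).contDiffAt
  refine ContDiffAt.sum fun i _ => ContDiffAt.sum fun j _ => ?_
  have h2 : ContDiffAt ℝ ∞ (c i j) z.1 := (hc i j).contDiffAt (φ.open_target.mem_nhds hz)
  exact ((h2.comp z contDiffAt_fst).mul ((hcoord 0).pow i)).mul ((hcoord 1).pow j)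

theorem smoothChart_chartAt (y : S2) : SmoothChart (chartAt R2 y) :=
  IsManifold.chart_mem_maximalAtlas y

theorem mem_cone_chartAt {x : V} (hx : x ≠ 0) : x ∈ cone (chartAt R2 (nrm x)) :=
  ⟨hx, mem_chart_source R2 (nrm x)⟩

theorem hat_contDiffAt {F : CotFun} {φ : Chart} (hφ : SmoothChart φ)
    {z : V × V} (hz : z.1 ∈ cone φ) (h : ContDiffAt ℝ ∞ (repE F φ) (Th φ z)) :
    ContDiffAt ℝ ∞ (hat F) z := by
  have h1 : hat F =ᶠ[𝓝 z] repE F φ ∘ Th φ := by
    filter_upwards [((isOpen_cone φ).preimage continuous_fst).mem_nhds hz] with w hw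
    exact hat_eq F hφ hw
  exact (ContDiffAt.comp z h (contDiffAt_Th hφ hz)).congr_of_eventuallyEq h1

theorem hat_smooth_of_rep {F : CotFun}
    (h : ∀ φ : Chart, SmoothChart φ → ∀ z : R2 × R2, z.1 ∈ φ.target →
      ContDiffAt ℝ ∞ (repE F φ) z) : ContDiffOn ℝ ((⊤ : ℕ∞) : WithTop ℕ∞) (hat F) SI.Om := by
  intro z hz
  have hzc : z.1 ∈ cone (chartAt R2 (nrm z.1)) := mem_cone_chartAt hz
  exact (hat_contDiffAt (smoothChart_chartAt _) hzc
    (h _ (smoothChart_chartAt _) _ (qc_mem hzc))).contDiffWithinAt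

theorem hat_scale (F : CotFun) (x p : V) (c : ℝ) (hc : 0 < c) (hx : x ≠ 0) :
    hat F (c • x, c⁻¹ • p) = hat F (x, p) := by
  unfold hat
  simp only
  rw [nrm_smul hx hc, norm_smul, Real.norm_eq_abs, abs_of_pos hc, smul_smul]
  congr 4
  field_simp

theorem hat_shift (F : CotFun) (x p : V) (c : ℝ) (hx : x ≠ 0) :
    hat F (x, p + c • x) = hat F (x, p) := by
  unfold hat
  simp only
  congr 1
  refine ContinuousLinearMap.ext fun w => ?_
  simp only [ContinuousLinearMap.comp_apply, innerSL_apply_apply, inner_smul_left, inner_add_left]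
  have h1 : ⟪x, dinc (nrm x) w⟫ = 0 := by
    have h2 := inner_dinc (nrm x) w
    rw [nrm_coe hx, inner_smul_left] at h2
    have h3 : ‖x‖⁻¹ ≠ 0 := inv_ne_zero (norm_ne_zero_iff.2 hx)
    simpa [h3, hx] using h2
  rw [h1]
  ring

theorem hat_basic {F : CotFun}
    (h : ∀ φ : Chart, SmoothChart φ → ∀ z : R2 × R2, z.1 ∈ φ.target →
      ContDiffAt ℝ ∞ (repE F φ) z) : SI.Basic (hat F) where
  smooth := hat_smooth_of_rep h
  scale := fun x p c hc hx => hat_scale F x p c hc hx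
  shift := fun x p c hx => hat_shift F x p c hx

theorem Th_line (φ : Chart) (x p e : V) (s : ℝ) :
    Th φ (x, p + s • e) = (qc φ x, (Bl φ x).adjoint p + s • (Bl φ x).adjoint e) := by
  unfold Th
  simp

theorem hat_fpoly {d : ℕ} {F : CotFun} (hF : PolyMomE d F) :
    SI.FPoly d {x : V | x ≠ 0} (hat F) := by
  intro x hx p e
  have hx0 : x ≠ 0 := hx
  set φ := chartAt R2 (nrm x) with hφdef
  have hφ : SmoothChart φ := smoothChart_chartAt _
  have hxc : x ∈ cone φ := mem_cone_chartAt hx0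
  obtain ⟨c, hc, hrep⟩ := hF φ hφ
  set a := (Bl φ x).adjoint p with ha
  set b := (Bl φ x).adjoint e with hb
  refine ⟨∑ i ∈ Finset.range (d + 1), ∑ j ∈ Finset.range (d + 1 - i),
    Polynomial.C (c i j (qc φ x)) * (Polynomial.C (a 0) + Polynomial.X * Polynomial.C (b 0)) ^ i *
      (Polynomial.C (a 1) + Polynomial.X * Polynomial.C (b 1)) ^ j, ?_, fun s => ?_⟩
  · refine Polynomial.natDegree_sum_le_of_forall_le _ _ fun i hi => ?_
    refine Polynomial.natDegree_sum_le_of_forall_le _ _ fun j hj => ?_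
    have hlin : ∀ r t : ℝ, (Polynomial.C r + Polynomial.X * Polynomial.C t).natDegree ≤ 1 := by
      intro r t
      refine (Polynomial.natDegree_add_le _ _).trans (max_le (by simp) ?_)
      exact (Polynomial.natDegree_mul_C_le _ _).trans Polynomial.natDegree_X_le
    have h1 : ((Polynomial.C (a 0) + Polynomial.X * Polynomial.C (b 0)) ^ i).natDegree ≤ i := by
      refine Polynomial.natDegree_pow_le.trans ?_
      simpa using Nat.mul_le_mul_left i (hlin (a 0) (b 0))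
    have h2 : ((Polynomial.C (a 1) + Polynomial.X * Polynomial.C (b 1)) ^ j).natDegree ≤ j := by
      refine Polynomial.natDegree_pow_le.trans ?_
      simpa using Nat.mul_le_mul_left j (hlin (a 1) (b 1))
    have h3 : (Polynomial.C (c i j (qc φ x)) *
        (Polynomial.C (a 0) + Polynomial.X * Polynomial.C (b 0)) ^ i *
      (Polynomial.C (a 1) + Polynomial.X * Polynomial.C (b 1)) ^ j).natDegree ≤ i + j := by
      refine Polynomial.natDegree_mul_le.trans (add_le_add ?_ h2)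
      exact (Polynomial.natDegree_C_mul_le _ _).trans h1
    have hi' := Finset.mem_range.1 hi
    have hj' := Finset.mem_range.1 hj
    omega
  · rw [hat_eq F hφ (z := (x, p + s • e)) hxc, Th_line, hrep _ (qc_mem hxc)]
    simp only [Polynomial.eval_finsetSum, Polynomial.eval_mul, Polynomial.eval_C,
      Polynomial.eval_pow, Polynomial.eval_add, Polynomial.eval_X]
    refine Finset.sum_congr rfl fun i _ => Finset.sum_congr rfl fun j _ => ?_
    simp [ha, hb]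


/-! ### brackets -/

/-- position gradient in the chart -/
def fq (f : R2 × R2 → ℝ) (w : R2 × R2) : R2 :=
  (InnerProductSpace.toDual ℝ R2).symm ((fderiv ℝ f w).comp (ContinuousLinearMap.inl ℝ R2 R2))

/-- momentum gradient in the chart -/
def fp (f : R2 × R2 → ℝ) (w : R2 × R2) : R2 :=
  (InnerProductSpace.toDual ℝ R2).symm ((fderiv ℝ f w).comp (ContinuousLinearMap.inr ℝ R2 R2))

theorem inner_fq (f : R2 × R2 → ℝ) (w : R2 × R2) (a : R2) : ⟪fq f w, a⟫ = fderiv ℝ f w (a, 0) := by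
  unfold fq
  rw [InnerProductSpace.toDual_symm_apply]
  simp

theorem inner_fp (f : R2 × R2 → ℝ) (w : R2 × R2) (a : R2) : ⟪fp f w, a⟫ = fderiv ℝ f w (0, a) := by
  unfold fp
  rw [InnerProductSpace.toDual_symm_apply]
  simp

theorem fderiv_fq_fp (f : R2 × R2 → ℝ) (w ζ : R2 × R2) :
    fderiv ℝ f w ζ = ⟪fq f w, ζ.1⟫ + ⟪fp f w, ζ.2⟫ := by
  rw [inner_fq, inner_fp, ← map_add]
  simp

theorem pb_eq (f k : R2 × R2 → ℝ) (w : R2 × R2) :
    pbE f k w = ⟪fq f w, fp k w⟫ - ⟪fp f w, fq k w⟫ := by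
  have key : ∀ a b : R2, ⟪a, b⟫ = ∑ i : Fin 2, ⟪a, EuclideanSpace.single i (1 : ℝ)⟫ *
      ⟪b, EuclideanSpace.single i (1 : ℝ)⟫ := by
    intro a b
    have h := (EuclideanSpace.basisFun (Fin 2) ℝ).sum_inner_mul_inner a b
    rw [← h]
    refine Finset.sum_congr rfl fun i _ => ?_
    rw [EuclideanSpace.basisFun_apply, real_inner_comm b]
  rw [key (fq f w), key (fp f w), ← Finset.sum_sub_distrib]
  unfold pbE
  simp only [inner_fq, inner_fp]

theorem pb_antisymm (f k : R2 × R2 → ℝ) (w : R2 × R2) : pbE f k w = - pbE k f w := by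
  rw [pb_eq, pb_eq, real_inner_comm (fp k w), real_inner_comm (fq k w)]
  ring

theorem qc_Bl {φ : Chart} (hφ : SmoothChart φ) {x : V}
    (hx : x ∈ cone φ) (b : R2) : fderiv ℝ (qc φ) x (Bl φ x b) = b := by
  have hr : 0 < ‖x‖ := norm_pos_iff.2 hx.1
  have h1 : HasFDerivAt (fun u => ‖x‖ • psi φ u) (Bl φ x) (qc φ x) :=
    (hasFDerivAt_psi hφ (qc_mem hx)).const_smul ‖x‖
  have h2 : HasFDerivAt (qc φ) (fderiv ℝ (qc φ) x) (‖x‖ • psi φ (qc φ x)) := by
    rw [psi_qc hx]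
    exact ((contDiffAt_qc hφ hx).differentiableAt (by simp)).hasFDerivAt
  have h3 := HasFDerivAt.comp (qc φ x) h2 h1
  have h4 : (qc φ ∘ fun u => ‖x‖ • psi φ u) =ᶠ[𝓝 (qc φ x)] id := by
    filter_upwards [φ.open_target.mem_nhds (qc_mem hx)] with u hu
    exact qc_psi hu hr
  have h5 := (h3.congr_of_eventuallyEq h4.symm).unique (hasFDerivAt_id _)
  have h6 := congrArg (fun L : R2 →L[ℝ] R2 => L b) h5
  simpa using h6

theorem fderiv_Bl {φ : Chart} (hφ : SmoothChart φ) {x : V}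
    (hx : x ∈ cone φ) (b : R2) : fderiv ℝ (Bl φ) x (Bl φ x b) =
      ‖x‖ • fderiv ℝ (fderiv ℝ (psi φ)) (qc φ x) b := by
  have hr : 0 < ‖x‖ := norm_pos_iff.2 hx.1
  have h1 : HasFDerivAt (fun u => ‖x‖ • psi φ u) (Bl φ x) (qc φ x) :=
    (hasFDerivAt_psi hφ (qc_mem hx)).const_smul ‖x‖
  have h2 : HasFDerivAt (Bl φ) (fderiv ℝ (Bl φ) x) (‖x‖ • psi φ (qc φ x)) := by
    rw [psi_qc hx]
    exact ((contDiffAt_Bl hφ hx).differentiableAt (by simp)).hasFDerivAt
  have h3 := HasFDerivAt.comp (qc φ x) h2 h1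
  have hD : ContDiffOn ℝ ∞ (fderiv ℝ (psi φ)) φ.target :=
    (contDiffOn_psi hφ).fderiv_of_isOpen φ.open_target (by simp)
  have h5 : HasFDerivAt (fun u => ‖x‖ • fderiv ℝ (psi φ) u)
      (‖x‖ • fderiv ℝ (fderiv ℝ (psi φ)) (qc φ x)) (qc φ x) :=
    (((hD.contDiffAt (φ.open_target.mem_nhds (qc_mem hx))).differentiableAt
      (by simp)).hasFDerivAt).const_smul ‖x‖
  have h4 : (Bl φ ∘ fun u => ‖x‖ • psi φ u) =ᶠ[𝓝 (qc φ x)]
      fun u => ‖x‖ • fderiv ℝ (psi φ) u := by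
    filter_upwards [φ.open_target.mem_nhds (qc_mem hx)] with u hu
    simp only [Function.comp_apply, Bl]
    rw [qc_psi hu hr, norm_smul, norm_norm, psi_norm, mul_one]
  have h6 := (h3.congr_of_eventuallyEq h4.symm).unique h5
  have h7 := congrArg (fun L : R2 →L[ℝ] (R2 →L[ℝ] V) => L b) h6
  simpa using h7

theorem fderiv_Bl_symm {φ : Chart} (hφ : SmoothChart φ) {x : V}
    (hx : x ∈ cone φ) (a b : R2) :
    fderiv ℝ (Bl φ) x (Bl φ x b) a = fderiv ℝ (Bl φ) x (Bl φ x a) b := by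
  rw [fderiv_Bl hφ hx, fderiv_Bl hφ hx]
  have h1 : ContDiffAt ℝ ∞ (psi φ) (qc φ x) :=
    (contDiffOn_psi hφ).contDiffAt (φ.open_target.mem_nhds (qc_mem hx))
  have h2 : fderiv ℝ (fderiv ℝ (psi φ)) (qc φ x) b a = fderiv ℝ (fderiv ℝ (psi φ)) (qc φ x) a b :=
    (h1.isSymmSndFDerivAt (by
      simp only [minSmoothness_of_isRCLikeNormedField]
      exact ENat.LEInfty.out)).eq b a
  simp only [smul_apply]
  rw [h2]

theorem fderiv_Th_fst {φ : Chart} (hφ : SmoothChart φ) {z : V × V}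
    (hz : z.1 ∈ cone φ) (ζ : V × V) :
    (fderiv ℝ (Th φ) z ζ).1 = fderiv ℝ (qc φ) z.1 ζ.1 := by
  have h1 : HasFDerivAt (Th φ) (fderiv ℝ (Th φ) z) z :=
    ((contDiffAt_Th hφ hz).differentiableAt (by simp)).hasFDerivAt
  have h2 : HasFDerivAt (fun w : V × V => qc φ w.1)
      ((fderiv ℝ (qc φ) z.1).comp (ContinuousLinearMap.fst ℝ V V)) z :=
    ((contDiffAt_qc hφ hz).differentiableAt (by simp)).hasFDerivAt.comp z hasFDerivAt_fst
  have h3 := h1.fst.unique h2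
  have h4 := congrArg (fun L : (V × V) →L[ℝ] R2 => L ζ) h3
  simpa using h4

theorem fderiv_Th_snd {φ : Chart} (hφ : SmoothChart φ) {z : V × V}
    (hz : z.1 ∈ cone φ) (ζ : V × V) (b : R2) :
    ⟪b, (fderiv ℝ (Th φ) z ζ).2⟫ =
      ⟪fderiv ℝ (Bl φ) z.1 ζ.1 b, z.2⟫ + ⟪Bl φ z.1 b, ζ.2⟫ := by
  have h1 : HasFDerivAt (Th φ) (fderiv ℝ (Th φ) z) z :=
    ((contDiffAt_Th hφ hz).differentiableAt (by simp)).hasFDerivAt
  have h2 : HasFDerivAt (fun w : V × V => ⟪b, (Th φ w).2⟫)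
      ((innerSL ℝ b).comp ((ContinuousLinearMap.snd ℝ R2 R2).comp (fderiv ℝ (Th φ) z))) z :=
    (innerSL ℝ b).hasFDerivAt.comp z h1.snd
  have h3 : (fun w : V × V => ⟪b, (Th φ w).2⟫) = fun w => ⟪Bl φ w.1 b, w.2⟫ := by
    funext w
    simp only [Th]
    rw [ContinuousLinearMap.adjoint_inner_right]
  have h4 : HasFDerivAt (fun w : V × V => Bl φ w.1)
      ((fderiv ℝ (Bl φ) z.1).comp (ContinuousLinearMap.fst ℝ V V)) z :=
    ((contDiffAt_Bl hφ hz).differentiableAt (by simp)).hasFDerivAt.comp z hasFDerivAt_fst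
  have h5 := (h4.clm_apply (hasFDerivAt_const b z)).inner ℝ (hasFDerivAt_snd (𝕜 := ℝ) (p := z))
  rw [h3] at h2
  have h6 := congrArg (fun L : (V × V) →L[ℝ] ℝ => L ζ) (h2.unique h5)
  simp only [ContinuousLinearMap.comp_apply, innerSL_apply_apply,
    ContinuousLinearMap.coe_snd'] at h6
  rw [h6]
  simp [fderivInnerCLM_apply, add_comm]

theorem fderiv_hat {F : CotFun} {φ : Chart} (hφ : SmoothChart φ) {z : V × V}
    (hz : z.1 ∈ cone φ) (hF : DifferentiableAt ℝ (repE F φ) (Th φ z)) (ζ : V × V) :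
    fderiv ℝ (hat F) z ζ = ⟪fq (repE F φ) (Th φ z), fderiv ℝ (qc φ) z.1 ζ.1⟫ +
      (⟪fderiv ℝ (Bl φ) z.1 ζ.1 (fp (repE F φ) (Th φ z)), z.2⟫ +
        ⟪Bl φ z.1 (fp (repE F φ) (Th φ z)), ζ.2⟫) := by
  have h1 : hat F =ᶠ[𝓝 z] repE F φ ∘ Th φ := by
    filter_upwards [((isOpen_cone φ).preimage continuous_fst).mem_nhds hz] with w hw
    exact hat_eq F hφ hw
  have h2 : HasFDerivAt (Th φ) (fderiv ℝ (Th φ) z) z :=
    ((contDiffAt_Th hφ hz).differentiableAt (by simp)).hasFDerivAt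
  have h3 := hF.hasFDerivAt.comp z h2
  rw [h1.fderiv_eq, h3.fderiv, ContinuousLinearMap.comp_apply, fderiv_fq_fp,
    fderiv_Th_fst hφ hz, fderiv_Th_snd hφ hz]

theorem gp_hat {F : CotFun} {φ : Chart} (hφ : SmoothChart φ) {z : V × V}
    (hz : z.1 ∈ cone φ) (hF : DifferentiableAt ℝ (repE F φ) (Th φ z)) :
    SI.gp (hat F) z = Bl φ z.1 (fp (repE F φ) (Th φ z)) := by
  refine ext_inner_right ℝ fun η => ?_
  rw [SI.inner_gp, fderiv_hat hφ hz hF]
  simp

theorem gx_hat {F : CotFun} {φ : Chart} (hφ : SmoothChart φ) {z : V × V}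
    (hz : z.1 ∈ cone φ) (hF : DifferentiableAt ℝ (repE F φ) (Th φ z)) (ξ : V) :
    ⟪SI.gx (hat F) z, ξ⟫ = ⟪fq (repE F φ) (Th φ z), fderiv ℝ (qc φ) z.1 ξ⟫ +
      ⟪fderiv ℝ (Bl φ) z.1 ξ (fp (repE F φ) (Th φ z)), z.2⟫ := by
  rw [SI.inner_gx, fderiv_hat hφ hz hF]
  simp

theorem br_hat {F K : CotFun} {φ : Chart} (hφ : SmoothChart φ) {z : V × V}
    (hz : z.1 ∈ cone φ) (hF : DifferentiableAt ℝ (repE F φ) (Th φ z))
    (hK : DifferentiableAt ℝ (repE K φ) (Th φ z)) :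
    SI.br (hat F) (hat K) z = pbE (repE F φ) (repE K φ) (Th φ z) := by
  rw [SI.br_eq, pb_eq, gp_hat hφ hz hF, gp_hat hφ hz hK, gx_hat hφ hz hF,
    real_inner_comm (SI.gx (hat K) z), gx_hat hφ hz hK, qc_Bl hφ hz, qc_Bl hφ hz,
    fderiv_Bl_symm hφ hz, real_inner_comm (fp (repE F φ) (Th φ z)) (fq (repE K φ) (Th φ z))]
  ring

/-- section of `Th` -/
def Sg (φ : Chart) (w : R2 × R2) : V × V :=
  (psi φ w.1, (fderiv ℝ (qc φ) (psi φ w.1)).adjoint w.2)

theorem Sg_mem {φ : Chart} {w : R2 × R2} (hw : w.1 ∈ φ.target) :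
    (Sg φ w).1 ∈ cone φ := by
  have := psi_mem hw zero_lt_one
  rwa [one_smul] at this

theorem Th_Sg {φ : Chart} (hφ : SmoothChart φ) {w : R2 × R2}
    (hw : w.1 ∈ φ.target) : Th φ (Sg φ w) = w := by
  have h1 : qc φ (psi φ w.1) = w.1 := by
    have := qc_psi hw zero_lt_one
    rwa [one_smul] at this
  refine Prod.ext h1 ?_
  refine ext_inner_left ℝ fun b => ?_
  simp only [Th, Sg]
  have h2 := qc_Bl hφ (Sg_mem hw) b
  simp only [Sg] at h2
  rw [ContinuousLinearMap.adjoint_inner_right, ContinuousLinearMap.adjoint_inner_right, h2]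

theorem contDiffAt_Sg {φ : Chart} (hφ : SmoothChart φ) {w : R2 × R2}
    (hw : w.1 ∈ φ.target) : ContDiffAt ℝ ∞ (Sg φ) w := by
  have hpsi : ContDiffAt ℝ ∞ (fun w : R2 × R2 => psi φ w.1) w :=
    ((contDiffOn_psi hφ).contDiffAt (φ.open_target.mem_nhds hw)).comp w contDiffAt_fst
  refine ContDiffAt.prodMk hpsi ?_
  rw [contDiffAt_euclidean]
  intro i
  have h1 : (fun w : R2 × R2 => ((fderiv ℝ (qc φ) (psi φ w.1)).adjoint w.2) i) =
      fun w => ⟪fderiv ℝ (qc φ) (psi φ w.1) (EuclideanSpace.single i 1), w.2⟫ := by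
    funext z
    rw [← ContinuousLinearMap.adjoint_inner_right, EuclideanSpace.inner_single_left]
    simp
  rw [h1]
  have h2 : ContDiffOn ℝ ∞ (qc φ) (cone φ) := fun x hx => (contDiffAt_qc hφ hx).contDiffWithinAt
  have h3 : ContDiffOn ℝ ∞ (fderiv ℝ (qc φ)) (cone φ) :=
    h2.fderiv_of_isOpen (isOpen_cone φ) (by simp)
  have h4 : ContDiffAt ℝ ∞ (fderiv ℝ (qc φ)) (psi φ w.1) :=
    h3.contDiffAt ((isOpen_cone φ).mem_nhds (Sg_mem hw))
  exact ((ContDiffAt.comp w h4 hpsi).clm_apply contDiffAt_const).inner ℝ contDiffAt_snd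

theorem rep_smooth_of_hat {F : CotFun} {φ : Chart} (hφ : SmoothChart φ)
    {w : R2 × R2} (hw : w.1 ∈ φ.target) (h : ContDiffAt ℝ ∞ (hat F) (Sg φ w)) :
    ContDiffAt ℝ ∞ (repE F φ) w := by
  have h1 : repE F φ =ᶠ[𝓝 w] hat F ∘ Sg φ := by
    filter_upwards [(φ.open_target.preimage continuous_fst).mem_nhds hw] with w' hw'
    rw [Function.comp_apply, hat_eq F hφ (Sg_mem hw'), Th_Sg hφ hw']
  exact (ContDiffAt.comp w h (contDiffAt_Sg hφ hw)).congr_of_eventuallyEq h1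

/-! ### isotropic subspaces -/

/-- `ℓ ↦ X_ℓ` in the chart -/
def Jc : ((R2 × R2) →L[ℝ] ℝ) →ₗ[ℝ] (R2 × R2) where
  toFun l := ((InnerProductSpace.toDual ℝ R2).symm (l.comp (ContinuousLinearMap.inr ℝ R2 R2)),
    - (InnerProductSpace.toDual ℝ R2).symm (l.comp (ContinuousLinearMap.inl ℝ R2 R2)))
  map_add' l l' := by
    simp only [ContinuousLinearMap.add_comp, map_add, neg_add, Prod.mk_add_mk]
  map_smul' c l := by
    simp [ContinuousLinearMap.smul_comp]

theorem Jc_inj : Function.Injective Jc := by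
  intro l l' h
  simp only [Jc, LinearMap.coe_mk, AddHom.coe_mk, Prod.mk.injEq, neg_inj,
    EmbeddingLike.apply_eq_iff_eq] at h
  refine ContinuousLinearMap.ext fun w => ?_
  have h1 := congrArg (fun L : R2 →L[ℝ] ℝ => L w.2) h.1
  have h2 := congrArg (fun L : R2 →L[ℝ] ℝ => L w.1) h.2
  simp only [ContinuousLinearMap.comp_apply, ContinuousLinearMap.inr_apply,
    ContinuousLinearMap.inl_apply] at h1 h2
  have h3 : w = (w.1, 0) + (0, w.2) := by simp
  rw [h3, map_add, map_add, h1, h2]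

theorem Jc_apply (f k : R2 × R2 → ℝ) (w : R2 × R2) :
    fderiv ℝ f w (Jc (fderiv ℝ k w)) = pbE f k w := by
  rw [fderiv_fq_fp, pb_eq]
  simp only [Jc, LinearMap.coe_mk, AddHom.coe_mk, inner_neg_right]
  rfl

theorem no_three {ℓ : Fin 3 → (R2 × R2) →L[ℝ] ℝ} (hind : LinearIndependent ℝ ℓ)
    (h : ∀ i j, ℓ i (Jc (ℓ j)) = 0) : False := by
  let cl : ((R2 × R2) →L[ℝ] ℝ) →ₗ[ℝ] Module.Dual ℝ (R2 × R2) :=
    ContinuousLinearMap.coeLM ℝ
  have hcl : Function.Injective cl := fun a b hab => by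
    refine ContinuousLinearMap.ext fun w => ?_
    exact congrArg (fun L : Module.Dual ℝ (R2 × R2) => L w) hab
  have hind1 : LinearIndependent ℝ (fun i => cl (ℓ i)) :=
    hind.map' cl (LinearMap.ker_eq_bot.2 hcl)
  have hind2 : LinearIndependent ℝ (fun i => Jc (ℓ i)) :=
    hind.map' Jc (LinearMap.ker_eq_bot.2 Jc_inj)
  set W := Submodule.span ℝ (range fun i => cl (ℓ i)) with hW
  have hW3 : Module.finrank ℝ W = 3 := by
    rw [hW, finrank_span_eq_card hind1]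
    simp
  have h4 := Subspace.finrank_add_finrank_dualCoannihilator_eq W
  have h5 : Module.finrank ℝ (R2 × R2) = 4 := by simp
  have hsub : Submodule.span ℝ (range fun i => Jc (ℓ i)) ≤ W.dualCoannihilator := by
    rw [Submodule.span_le]
    rintro _ ⟨j, rfl⟩
    simp only [SetLike.mem_coe, Submodule.mem_dualCoannihilator]
    intro L hL
    rw [hW] at hL
    refine Submodule.span_induction ?_ ?_ ?_ ?_ hL
    · rintro _ ⟨i, rfl⟩
      exact h i j
    · simp
    · intro a b _ _ ha hb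
      simp only [LinearMap.add_apply, ha, hb, add_zero]
    · intro c a _ ha
      simp only [LinearMap.smul_apply, ha, smul_zero]
  have h6 := Submodule.finrank_mono hsub
  rw [finrank_span_eq_card hind2, Fintype.card_fin] at h6
  omega


/-! ### the metric -/

/-- inverse chart frame -/
def sg (φ : Chart) (u : R2) : R2 →L[ℝ] Tan (φ.symm u) := dpt φ u

/-- chart coframe -/
def ta (φ : Chart) (u : R2) : Tan (φ.symm u) →L[ℝ] R2 := dchart φ (φ.symm u)

theorem mdiff_chart {φ : Chart} (hφ : SmoothChart φ) :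
    φ.MDifferentiable (𝓡 2) (𝓡 2) :=
  ⟨(contMDiffOn_of_mem_maximalAtlas hφ).mdifferentiableOn (by simp),
    (contMDiffOn_symm_of_mem_maximalAtlas hφ).mdifferentiableOn (by simp)⟩

theorem ta_sg {φ : Chart} (hφ : SmoothChart φ) {u : R2}
    (hu : u ∈ φ.target) (a : R2) : ta φ u (sg φ u a) = a := by
  have h := (mdiff_chart hφ).comp_symm_deriv hu
  exact congrArg (fun L : R2 →L[ℝ] R2 => L a) h

theorem sg_ta {φ : Chart} (hφ : SmoothChart φ) {u : R2}
    (hu : u ∈ φ.target) (w : Tan (φ.symm u)) : sg φ u (ta φ u w) = w := by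
  have h := (mdiff_chart hφ).symm_comp_deriv (φ.map_target hu)
  rw [φ.right_inv hu] at h
  exact congrArg (fun L : Tan (φ.symm u) →L[ℝ] Tan (φ.symm u) => L w) h


/-- the metric in the chart, as a map to functionals -/
def Mg (g : RMetric) (φ : Chart) (u : R2) : R2 →L[ℝ] R2 →L[ℝ] ℝ :=
  LinearMap.toContinuousLinearMap
    { toFun := fun a => (g.inner (φ.symm u) (sg φ u a)).comp (sg φ u)
      map_add' := fun a b => by
        refine ContinuousLinearMap.ext fun c => ?_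
        simp [inner_add]
      map_smul' := fun a b => by
        refine ContinuousLinearMap.ext fun c => ?_
        simp [inner_smul] }

theorem Mg_apply (g : RMetric) (φ : Chart) (u a b : R2) :
    Mg g φ u a b = g.inner (φ.symm u) (sg φ u a) (sg φ u b) := rfl

theorem contDiffAt_Mg (g : RMetric) {φ : Chart} (hφ : SmoothChart φ) {u : R2}
    (hu : u ∈ φ.target) : ContDiffAt ℝ ∞ (Mg g φ) u := by
  have h : ContDiffOn ℝ ∞ (Mg g φ) φ.target := by
    rw [contDiffOn_clm_apply]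
    intro a
    rw [contDiffOn_clm_apply]
    intro b
    exact smooth_metric g hφ a b
  exact h.contDiffAt (φ.open_target.mem_nhds hu)

theorem Mg_inj (g : RMetric) {φ : Chart} (hφ : SmoothChart φ) {u : R2}
    (hu : u ∈ φ.target) : Function.Injective (Mg g φ u) := by
  rw [injective_iff_map_eq_zero]
  intro a ha
  by_contra hne
  have h1 : sg φ u a ≠ 0 := by
    intro h0
    apply hne
    rw [← ta_sg hφ hu a, h0, map_zero]
  have h2 := g.pos (φ.symm u) (sg φ u a) h1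
  rw [← Mg_apply, ha] at h2
  simp at h2

/-- the metric as an isomorphism -/
def Me (g : RMetric) {φ : Chart} (hφ : SmoothChart φ) {u : R2}
    (hu : u ∈ φ.target) : R2 ≃L[ℝ] (R2 →L[ℝ] ℝ) :=
  (LinearEquiv.ofInjectiveOfFinrankEq (Mg g φ u : R2 →ₗ[ℝ] (R2 →L[ℝ] ℝ)) (Mg_inj g hφ hu)
    (InnerProductSpace.toDual ℝ R2).toLinearEquiv.finrank_eq).toContinuousLinearEquiv

theorem Me_coe (g : RMetric) {φ : Chart} (hφ : SmoothChart φ) {u : R2}
    (hu : u ∈ φ.target) : (Me g hφ hu : R2 →L[ℝ] (R2 →L[ℝ] ℝ)) = Mg g φ u := by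
  refine ContinuousLinearMap.ext fun a => ?_
  simp [Me]
  rfl

/-- inverse metric in the chart -/
def Mi (g : RMetric) (φ : Chart) (u : R2) : (R2 →L[ℝ] ℝ) →L[ℝ] R2 :=
  ContinuousLinearMap.inverse (Mg g φ u)

theorem contDiffAt_Mi (g : RMetric) {φ : Chart} (hφ : SmoothChart φ) {u : R2}
    (hu : u ∈ φ.target) : ContDiffAt ℝ ∞ (Mi g φ) u := by
  have h1 : ContDiffAt ℝ ∞ ContinuousLinearMap.inverse (Mg g φ u) := by
    rw [← Me_coe g hφ hu]
    exact contDiffAt_map_inverse (Me g hφ hu)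
  exact h1.comp u (contDiffAt_Mg g hφ hu)

theorem Mg_Mi (g : RMetric) {φ : Chart} (hφ : SmoothChart φ) {u : R2}
    (hu : u ∈ φ.target) (l : R2 →L[ℝ] ℝ) : Mg g φ u (Mi g φ u l) = l := by
  unfold Mi
  rw [← Me_coe g hφ hu, ContinuousLinearMap.inverse_equiv]
  simp

theorem inner_injective (g : RMetric) (y : S2) :
    Function.Injective (g.inner y) := by
  intro v w h
  by_contra hne
  have h1 := g.pos y (v - w) (sub_ne_zero.2 hne)
  have h2 : g.inner y (v - w) = 0 := by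
    rw [inner_sub]
    exact sub_eq_zero.2 h
  rw [h2] at h1
  simp at h1

theorem sharp_chart (g : RMetric) {φ : Chart} (hφ : SmoothChart φ) {u : R2}
    (hu : u ∈ φ.target) (ξ : Cot (φ.symm u)) :
    g.inner (φ.symm u) (sg φ u (Mi g φ u (ξ.comp (sg φ u)))) = ξ := by
  refine ContinuousLinearMap.ext fun w => ?_
  have h1 := congrArg (fun L : R2 →L[ℝ] ℝ => L (ta φ u w)) (Mg_Mi g hφ hu (ξ.comp (sg φ u)))
  simp only [Mg_apply, ContinuousLinearMap.comp_apply] at h1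
  rw [sg_ta hφ hu] at h1
  exact h1

theorem inner_surjective (g : RMetric) (y : S2) (ξ : Cot y) :
    ∃ v : Tan y, g.inner y v = ξ := by
  have hφ := smoothChart_chartAt y
  set φ := chartAt R2 y with hφdef
  have hy : y ∈ φ.source := mem_chart_source R2 y
  have hu : φ y ∈ φ.target := φ.map_source hy
  have key : ∀ y' : S2, y' = φ.symm (φ y) → ∀ ξ : Cot y',
      ∃ v : Tan y', g.inner y' v = ξ := by
    rintro _ rfl ξ
    exact ⟨_, sharp_chart g hφ hu ξ⟩
  exact key y (φ.left_inv hy).symm ξ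

/-- the vector dual to a covector -/
def sharp (g : RMetric) (y : S2) (ξ : Cot y) : Tan y :=
  Function.invFun (g.inner y) ξ

theorem inner_sharp (g : RMetric) (y : S2) (ξ : Cot y) :
    g.inner y (sharp g y ξ) = ξ :=
  Function.invFun_eq (f := g.inner y) (inner_surjective g y ξ)

theorem sharp_unique (g : RMetric) (y : S2) (ξ : Cot y)
    (v : Tan y) (h : g.inner y v = ξ) : sharp g y ξ = v :=
  inner_injective g y ((inner_sharp g y ξ).trans h.symm)

/-- the restriction of a covector of `ℝ³` to the tangent plane of the sphere -/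
def res (y : S2) (p : V) : Cot y := (innerSL ℝ p).comp (dinc y)

theorem res_apply (y : S2) (p : V) (w : Tan y) : res y p w = ⟪p, dinc y w⟫ := by
  simp [res]

/-- the cometric on `ℝ³ ∖ 0` -/
def Gf (g : RMetric) (x p : V) : V := ‖x‖ ^ 2 • dinc (nrm x) (sharp g (nrm x) (res (nrm x) p))

/-- Riesz map of the plane -/
def lR : R2 →L[ℝ] (R2 →L[ℝ] ℝ) :=
  LinearMap.toContinuousLinearMap
    { toFun := fun a => innerSL ℝ a
      map_add' := fun a b => by simp
      map_smul' := fun a b => by simp }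

theorem lR_apply (a : R2) : lR a = innerSL ℝ a := rfl

/-- the cometric in the chart -/
def Gc (g : RMetric) (φ : Chart) (x : V) : V →L[ℝ] V :=
  (Bl φ x).comp ((Mi g φ (qc φ x)).comp (lR.comp (Bl φ x).adjoint))

theorem Gc_apply (g : RMetric) {φ : Chart} (hφ : SmoothChart φ) {x : V}
    (hx : x ∈ cone φ) (p : V) : Gc g φ x p = Gf g x p := by
  have h1 : nrm x = φ.symm (qc φ x) := (φ.left_inv hx.2).symm
  have h2 : Gf g x p = ‖x‖ ^ 2 • dinc (φ.symm (qc φ x))
      (sharp g (φ.symm (qc φ x)) (res (φ.symm (qc φ x)) p)) := by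
    unfold Gf
    exact congrArg (fun y => ‖x‖ ^ 2 • dinc y (sharp g y (res y p))) h1
  have hu := qc_mem hx
  rw [h2, sharp_unique g _ _ _ (sharp_chart g hφ hu (res (φ.symm (qc φ x)) p)), dinc_eq hφ hu]
  have h3 : (res (φ.symm (qc φ x)) p).comp (sg φ (qc φ x)) =
      (innerSL ℝ p).comp (fderiv ℝ (psi φ) (qc φ x)) := by
    refine ContinuousLinearMap.ext fun a => ?_
    simp only [ContinuousLinearMap.comp_apply, res_apply, innerSL_apply_apply]
    rw [dinc_eq hφ hu]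
    exact congrArg (fun b => ⟪p, fderiv ℝ (psi φ) (qc φ x) b⟫) (ta_sg hφ hu a)
  rw [h3]
  have h4 : ((fderiv ℝ (psi φ) (qc φ x)).comp (dchart φ (φ.symm (qc φ x))))
      (sg φ (qc φ x) (Mi g φ (qc φ x) ((innerSL ℝ p).comp (fderiv ℝ (psi φ) (qc φ x))))) =
      fderiv ℝ (psi φ) (qc φ x)
        (Mi g φ (qc φ x) ((innerSL ℝ p).comp (fderiv ℝ (psi φ) (qc φ x)))) :=
    congrArg (fderiv ℝ (psi φ) (qc φ x)) (ta_sg hφ hu _)
  rw [h4]
  have h5 : lR ((Bl φ x).adjoint p) =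
      ‖x‖ • (innerSL ℝ p).comp (fderiv ℝ (psi φ) (qc φ x)) := by
    refine ContinuousLinearMap.ext fun a => ?_
    rw [lR_apply, innerSL_apply_apply, ContinuousLinearMap.adjoint_inner_left]
    simp [Bl, inner_smul_right]
  have h6 : Gc g φ x p = Bl φ x (Mi g φ (qc φ x) (lR ((Bl φ x).adjoint p))) := rfl
  rw [h6, h5, map_smul, map_smul, Bl, smul_apply, smul_smul]
  ring_nf

theorem contDiffAt_Gc (g : RMetric) {φ : Chart} (hφ : SmoothChart φ) {x : V}
    (hx : x ∈ cone φ) : ContDiffAt ℝ ∞ (Gc g φ) x := by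
  have h1 := contDiffAt_Bl hφ hx
  have h2 : ContDiffAt ℝ ∞ (fun x => Mi g φ (qc φ x)) x :=
    (contDiffAt_Mi g hφ (qc_mem hx)).comp x (contDiffAt_qc hφ hx)
  have h3 : ContDiffOn ℝ ∞ (fun x => (Bl φ x).adjoint) (cone φ) := by
    rw [contDiffOn_clm_apply]
    intro p
    rw [contDiffOn_euclidean]
    intro i
    have h4 : (fun x : V => ((Bl φ x).adjoint p) i) =
        fun x => ⟪Bl φ x (EuclideanSpace.single i 1), p⟫ := by
      funext z
      rw [← ContinuousLinearMap.adjoint_inner_right, EuclideanSpace.inner_single_left]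
      simp
    rw [h4]
    intro y hy
    exact (((contDiffAt_Bl hφ hy).clm_apply contDiffAt_const).inner ℝ
      contDiffAt_const).contDiffWithinAt
  exact h1.clm_comp (h2.clm_comp (contDiffAt_const.clm_comp
    (h3.contDiffAt ((isOpen_cone φ).mem_nhds hx))))

/-- the cometric on `ℝ³`, as a field of linear maps -/
def Gm (g : RMetric) (x : V) : V →L[ℝ] V := by
  classical
  exact if x = 0 then 0 else Gc g (chartAt R2 (nrm x)) x

theorem Gm_apply (g : RMetric) {x : V} (hx : x ≠ 0) (p : V) : Gm g x p = Gf g x p := by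
  unfold Gm
  rw [if_neg hx]
  exact Gc_apply g (smoothChart_chartAt _) (mem_cone_chartAt hx) p

theorem Gm_eq (g : RMetric) {φ : Chart} (hφ : SmoothChart φ) {x : V}
    (hx : x ∈ cone φ) : Gm g x = Gc g φ x := by
  refine ContinuousLinearMap.ext fun p => ?_
  rw [Gm_apply g hx.1, Gc_apply g hφ hx]

theorem inner_Gf (g : RMetric) {x : V} (p q : V) :
    ⟪q, Gf g x p⟫ = ‖x‖ ^ 2 * g.inner (nrm x) (sharp g (nrm x) (res (nrm x) q))
      (sharp g (nrm x) (res (nrm x) p)) := by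
  unfold Gf
  rw [inner_smul_right, ← res_apply, inner_sharp]

theorem res_radial {x : V} (hx : x ≠ 0) : res (nrm x) x = 0 := by
  refine ContinuousLinearMap.ext fun w => ?_
  rw [res_apply]
  have h2 := inner_dinc (nrm x) w
  rw [nrm_coe hx, inner_smul_left] at h2
  have h3 : ‖x‖⁻¹ ≠ 0 := inv_ne_zero (norm_ne_zero_iff.2 hx)
  simpa [h3, hx] using h2

theorem res_zero {x : V} (hx : x ≠ 0) {p : V} (h : res (nrm x) p = 0) : ∃ c : ℝ, p = c • x := by
  have h1 : p ∈ (ℝ ∙ (nrm x : V))ᗮᗮ := by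
    rw [← range_mvfderiv_subtypeVal (n := 2) (nrm x), Submodule.mem_orthogonal]
    rintro _ ⟨w, rfl⟩
    have key : ∀ w' : Tan (nrm x), ⟪dinc (nrm x) w', p⟫ = 0 := by
      intro w'
      rw [real_inner_comm, ← res_apply, h, zero_apply]
    exact key w
  rw [Submodule.orthogonal_orthogonal, Submodule.mem_span_singleton] at h1
  obtain ⟨c, hc⟩ := h1
  refine ⟨c * ‖x‖⁻¹, ?_⟩
  rw [← hc, nrm_coe hx, smul_smul]

theorem sharp_zero (g : RMetric) (y : S2) : sharp g y 0 = 0 :=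
  sharp_unique g y 0 0 (inner_zero g y)

theorem Gm_met (g : RMetric) : SI.Met (Gm g) where
  smooth := by
    intro x hx
    have hx0 : x ≠ 0 := hx
    have hφ := smoothChart_chartAt (nrm x)
    have hxc := mem_cone_chartAt hx0
    refine ((contDiffAt_Gc g hφ hxc).congr_of_eventuallyEq ?_).contDiffWithinAt
    filter_upwards [(isOpen_cone _).mem_nhds hxc] with y hy
    exact Gm_eq g hφ hy
  symm := by
    intro x p q hx
    rw [Gm_apply g hx, Gm_apply g hx, real_inner_comm, inner_Gf, inner_Gf, g.symm]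
  radial := by
    intro x hx
    rw [Gm_apply g hx, Gf, res_radial hx, sharp_zero, map_zero, smul_zero]
  pos := by
    intro x p hx hp
    rw [Gm_apply g hx, inner_Gf]
    have h1 : sharp g (nrm x) (res (nrm x) p) ≠ 0 := by
      intro h0
      have h2 := inner_sharp g (nrm x) (res (nrm x) p)
      rw [h0, inner_zero] at h2
      obtain ⟨c, hc⟩ := res_zero hx h2.symm
      exact hp c hc
    have h3 : 0 < ‖x‖ ^ 2 := by
      have := norm_pos_iff.2 hx
      positivity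
    exact mul_pos h3 (g.pos _ _ h1)
  scale := by
    intro x c hc hx
    refine ContinuousLinearMap.ext fun p => ?_
    rw [smul_apply, Gm_apply g hx, Gm_apply g (smul_ne_zero hc.ne' hx), Gf, Gf, nrm_smul hx hc,
      norm_smul, Real.norm_eq_abs, abs_of_pos hc, smul_smul]
    ring_nf

/-- lifted potential -/
def Um (U : S2 → ℝ) (x : V) : ℝ := U (nrm x)

theorem Um_pot {U : S2 → ℝ} (hU : ContMDiff (𝓡 2) 𝓘(ℝ, ℝ) ∞ U) : SI.Pot (Um U) where
  smooth := by
    intro x hx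
    have h1 : ContMDiffAt 𝓘(ℝ, V) 𝓘(ℝ, ℝ) ∞ (U ∘ nrm) x :=
      (hU (nrm x)).comp x (contMDiffAt_nrm hx)
    exact (contMDiffAt_iff_contDiffAt.1 h1).contDiffWithinAt
  scale := by
    intro x c hc hx
    unfold Um
    rw [nrm_smul hx hc]

theorem res_smul (y : S2) (c : ℝ) (p : V) : res y (c • p) = c • res y p := by
  refine ContinuousLinearMap.ext fun w => ?_
  simp [res_apply, inner_smul_left]

theorem hat_natHam (g : RMetric) (U : S2 → ℝ) {z : V × V} (hz : z ∈ SI.Om) :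
    hat (natHam g U) z = SI.Ham (Gm g) (Um U) z := by
  have hx : z.1 ≠ 0 := hz
  unfold SI.Ham Um
  rw [Gm_apply g hx, inner_Gf]
  have h1 : sharp g (nrm z.1) (res (nrm z.1) (‖z.1‖ • z.2)) =
      ‖z.1‖ • sharp g (nrm z.1) (res (nrm z.1) z.2) := by
    apply sharp_unique
    rw [inner_smul, inner_sharp, res_smul]
  have h2 : hat (natHam g U) z = (1 / 2) * res (nrm z.1) (‖z.1‖ • z.2)
      (sharp g (nrm z.1) (res (nrm z.1) (‖z.1‖ • z.2))) + U (nrm z.1) := rfl
  rw [h2, h1, res_smul, smul_apply, map_smul]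
  have h3 : ∀ w, g.inner (nrm z.1) (sharp g (nrm z.1) (res (nrm z.1) z.2)) w =
      res (nrm z.1) z.2 w := fun w => by rw [inner_sharp]
  rw [h3, smul_eq_mul, smul_eq_mul]
  ring


theorem natHam_rep_smooth (g : RMetric) {U : S2 → ℝ} (hU : ContMDiff (𝓡 2) 𝓘(ℝ, ℝ) ∞ U)
    {φ : Chart} (hφ : SmoothChart φ) {w : R2 × R2} (hw : w.1 ∈ φ.target) :
    ContDiffAt ℝ ∞ (repE (natHam g U) φ) w := by
  apply rep_smooth_of_hat hφ hw
  have hz : Sg φ w ∈ SI.Om := (Sg_mem hw).1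
  have h1 : hat (natHam g U) =ᶠ[𝓝 (Sg φ w)] SI.Ham (Gm g) (Um U) := by
    filter_upwards [SI.isOpen_Om.mem_nhds hz] with z hz'
    exact hat_natHam g U hz'
  exact ((SI.Basic.ham (Gm_met g) (Um_pot hU)).contDiffAt hz).congr_of_eventuallyEq h1

theorem hat_comm_chart (g : RMetric) {U : S2 → ℝ} (hU : ContMDiff (𝓡 2) 𝓘(ℝ, ℝ) ∞ U) {d : ℕ}
    {F : CotFun} (hF : PolyMomE d F) (hI : IntegralE g U F) {φ : Chart}
    (hφ : SmoothChart φ) {z : V × V} (hzc : z.1 ∈ cone φ) :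
    SI.br (hat F) (SI.Ham (Gm g) (Um U)) z = 0 := by
  have hz : z ∈ SI.Om := hzc.1
  have h1 : hat (natHam g U) =ᶠ[𝓝 z] SI.Ham (Gm g) (Um U) := by
    filter_upwards [SI.isOpen_Om.mem_nhds hz] with z hz'
    exact hat_natHam g U hz'
  have h2 : SI.br (hat F) (SI.Ham (Gm g) (Um U)) z = SI.br (hat F) (hat (natHam g U)) z := by
    unfold SI.br SI.XF SI.gp SI.gx
    rw [h1.fderiv_eq]
  have hF' : DifferentiableAt ℝ (repE F φ) (Th φ z) :=
    (contDiffOn_rep hF hφ (qc_mem hzc)).differentiableAt (by simp)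
  have hH' : DifferentiableAt ℝ (repE (natHam g U) φ) (Th φ z) :=
    (natHam_rep_smooth g hU hφ (w := Th φ z) (qc_mem hzc)).differentiableAt (by simp)
  rw [h2, br_hat hφ hzc hF' hH', pb_antisymm, hI φ hφ (Th φ z) (qc_mem hzc), neg_zero]

theorem hat_comm (g : RMetric) {U : S2 → ℝ} (hU : ContMDiff (𝓡 2) 𝓘(ℝ, ℝ) ∞ U) {d : ℕ}
    {F : CotFun} (hF : PolyMomE d F) (hI : IntegralE g U F) :
    ∀ z ∈ SI.Om, SI.br (hat F) (SI.Ham (Gm g) (Um U)) z = 0 := by
  intro z hz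
  exact hat_comm_chart g hU hF hI (smoothChart_chartAt (nrm z.1)) (mem_cone_chartAt hz)

theorem pb_zero (g : RMetric) {U : S2 → ℝ} (hU : ContMDiff (𝓡 2) 𝓘(ℝ, ℝ) ∞ U)
    (hne : ∃ x y, U x ≠ U y) {d d' : ℕ} {F K : CotFun} (hF : PolyMomE d F) (hK : PolyMomE d' K)
    (hFI : IntegralE g U F) (hKI : IntegralE g U K) {φ : Chart}
    (hφ : SmoothChart φ) {w : R2 × R2} (hw : w.1 ∈ φ.target) : pbE (repE F φ) (repE K φ) w = 0 := by
  have hnc : ∃ x y : V, x ≠ 0 ∧ y ≠ 0 ∧ Um U x ≠ Um U y := by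
    obtain ⟨x, y, hxy⟩ := hne
    refine ⟨x, y, S2_ne x, S2_ne y, ?_⟩
    unfold Um
    rwa [nrm_of, nrm_of]
  have hFb := hat_basic (F := F) fun φ hφ z hz => contDiffOn_rep hF hφ hz
  have hKb := hat_basic (F := K) fun φ hφ z hz => contDiffOn_rep hK hφ hz
  have h1 := SI.core (Gm_met g) (Um_pot hU) hnc hFb hKb (hat_fpoly hF) (hat_fpoly hK)
    (hat_comm g hU hF hFI) (hat_comm g hU hK hKI) (Sg φ w) (Sg_mem hw).1
  have e : Th φ (Sg φ w) = w := Th_Sg hφ hw
  rw [br_hat hφ (Sg_mem hw) (by rw [e]; exact (contDiffOn_rep hF hφ hw).differentiableAt (by simp))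
    (by rw [e]; exact (contDiffOn_rep hK hφ hw).differentiableAt (by simp)), e] at h1
  exact h1

/-! ### sanity checks: the Hamiltonian is an integral, quadratic in the momenta -/

theorem natHam_integralE (g : RMetric) (U : S2 → ℝ) : IntegralE g U (natHam g U) := by
  intro φ _ z _
  have := pb_antisymm (repE (natHam g U) φ) (repE (natHam g U) φ) z
  linarith

theorem sharp_covector (g : RMetric) {φ : Chart} (hφ : SmoothChart φ) {q : R2}
    (hq : q ∈ φ.target) (p : R2) :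
    covE φ q p (sharp g (φ.symm q) (covE φ q p)) = ⟪p, Mi g φ q (lR p)⟫ := by
  have h1 : (covE φ q p).comp (sg φ q) = lR p := by
    refine ContinuousLinearMap.ext fun a => ?_
    exact congrArg (fun b => ⟪p, b⟫) (ta_sg hφ hq a)
  rw [sharp_unique g _ _ _ (sharp_chart g hφ hq (covE φ q p)), h1]
  exact congrArg (fun b => ⟪p, b⟫) (ta_sg hφ hq _)

theorem natHam_polyMomE (g : RMetric) {U : S2 → ℝ} (hU : ContMDiff (𝓡 2) 𝓘(ℝ, ℝ) ∞ U) :
    PolyMomE 2 (natHam g U) := by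
  intro φ hφ
  let m : Fin 2 → Fin 2 → R2 → ℝ := fun k l q =>
    ⟪(EuclideanSpace.single k 1 : R2), Mi g φ q (lR (EuclideanSpace.single l 1))⟫
  have hm : ∀ k l, ContDiffOn ℝ ∞ (m k l) φ.target := by
    intro k l q hq
    exact (contDiffAt_const.inner ℝ
      ((contDiffAt_Mi g hφ hq).clm_apply contDiffAt_const)).contDiffWithinAt
  have hUc : ContDiffOn ℝ ∞ (fun q => U (φ.symm q)) φ.target := by
    have h1 : ContMDiffOn (𝓡 2) (𝓡 2) ∞ φ.symm φ.target :=
      contMDiffOn_symm_of_mem_maximalAtlas hφ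
    exact contMDiffOn_iff_contDiffOn.1 (hU.comp_contMDiffOn h1)
  refine ⟨fun i j => if i = 0 ∧ j = 0 then (fun q => U (φ.symm q))
    else if i = 2 ∧ j = 0 then (fun q => (1 / 2) * m 0 0 q)
    else if i = 1 ∧ j = 1 then (fun q => (1 / 2) * (m 0 1 q + m 1 0 q))
    else if i = 0 ∧ j = 2 then (fun q => (1 / 2) * m 1 1 q) else (fun _ => 0), ?_, ?_⟩
  · intro i j
    beta_reduce
    split_ifs
    · exact hUc
    · exact contDiffOn_const.mul (hm 0 0)
    · exact contDiffOn_const.mul ((hm 0 1).add (hm 1 0))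
    · exact contDiffOn_const.mul (hm 1 1)
    · exact contDiffOn_const
  · intro q hq p
    have h1 : repE (natHam g U) φ (q, p) = (1 / 2) * ⟪p, Mi g φ q (lR p)⟫ + U (φ.symm q) := by
      rw [← sharp_covector g hφ hq p]
      rfl
    have hp : p = p 0 • (EuclideanSpace.single 0 1 : R2) + p 1 • EuclideanSpace.single 1 1 := by
      ext k
      fin_cases k <;> simp
    have h2 : ⟪p, Mi g φ q (lR p)⟫ = p 0 ^ 2 * m 0 0 q + p 0 * p 1 * (m 0 1 q + m 1 0 q) +
        p 1 ^ 2 * m 1 1 q := by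
      conv_lhs => rw [hp]
      simp only [map_add, map_smul, inner_add_left, inner_add_right, inner_smul_left,
        inner_smul_right, conj_trivial, m]
      ring
    rw [h1, h2]
    simp [Finset.sum_range_succ]
    ring


/-! ### four real variables -/

open Pool.Agent.Helper197.S2Defs (covector rep grad pb PolyMom Integral IndepSomewhere
  Superintegrable)

theorem covector_covE (φ : Chart) (q : R2) (p₁ p₂ : ℝ) :
    covector φ (φ.symm q) p₁ p₂ = covE φ q !₂[p₁, p₂] := by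
  refine ContinuousLinearMap.ext fun w => ?_
  simp [covector, covE, PiLp.inner_apply, Fin.sum_univ_two, mul_comm]

theorem rep_eq (F : CotFun) (φ : Chart) (q₁ q₂ p₁ p₂ : ℝ) :
    rep F φ q₁ q₂ p₁ p₂ = repE F φ (!₂[q₁, q₂], !₂[p₁, p₂]) := by
  unfold rep repE
  simp only [pt]
  rw [covector_covE]

theorem eta (a : R2) : !₂[a 0, a 1] = a := by
  ext k
  fin_cases k <;> simp

theorem polyMomE_of {d : ℕ} {F : CotFun} (h : PolyMom d F) : PolyMomE d F := by
  intro φ hφ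
  obtain ⟨c, hc, hr⟩ := h φ hφ
  refine ⟨c, hc, fun q hq p => ?_⟩
  have h1 := hr (q 0) (q 1) (by rw [eta]; exact hq) (p 0) (p 1)
  rw [rep_eq, eta, eta] at h1
  exact h1

theorem polyMom_of {d : ℕ} {F : CotFun} (h : PolyMomE d F) : PolyMom d F := by
  intro φ hφ
  obtain ⟨c, hc, hr⟩ := h φ hφ
  refine ⟨c, hc, fun q₁ q₂ hq p₁ p₂ => ?_⟩
  rw [rep_eq, hr _ hq]
  simp

theorem pair_eq (a b : ℝ) :
    (!₂[a, b] : R2) = a • (EuclideanSpace.single 0 1 : R2) + b • EuclideanSpace.single 1 1 := by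
  ext k
  fin_cases k <;> simp

theorem hasDerivAt_pair₀ (a b : ℝ) :
    HasDerivAt (fun t : ℝ => (!₂[t, b] : R2)) (EuclideanSpace.single 0 1) a := by
  simp only [pair_eq]
  simpa using ((hasDerivAt_id a).smul_const (EuclideanSpace.single 0 1 : R2)).add_const
    (b • (EuclideanSpace.single 1 1 : R2))

theorem hasDerivAt_pair₁ (a b : ℝ) :
    HasDerivAt (fun t : ℝ => (!₂[a, t] : R2)) (EuclideanSpace.single 1 1) b := by
  simp only [pair_eq]
  simpa using ((hasDerivAt_id b).smul_const (EuclideanSpace.single 1 1 : R2)).const_add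
    (a • (EuclideanSpace.single 0 1 : R2))

/-- evaluation of a functional on the four basis vectors -/
def ev4 : ((R2 × R2) →L[ℝ] ℝ) →ₗ[ℝ] (Fin 4 → ℝ) where
  toFun l := ![l (EuclideanSpace.single 0 1, 0), l (EuclideanSpace.single 1 1, 0),
    l (0, EuclideanSpace.single 0 1), l (0, EuclideanSpace.single 1 1)]
  map_add' l l' := by
    ext i
    fin_cases i <;> simp
  map_smul' c l := by
    ext i
    fin_cases i <;> simp

theorem grad_eq {F : CotFun} {φ : Chart} {q₁ q₂ p₁ p₂ : ℝ}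
    (h : DifferentiableAt ℝ (repE F φ) (!₂[q₁, q₂], !₂[p₁, p₂])) :
    grad (rep F φ) q₁ q₂ p₁ p₂ = ev4 (fderiv ℝ (repE F φ) (!₂[q₁, q₂], !₂[p₁, p₂])) := by
  have key : ∀ (γ : ℝ → R2 × R2) (v : R2 × R2) (t : ℝ), HasDerivAt γ v t →
      γ t = (!₂[q₁, q₂], !₂[p₁, p₂]) → HasDerivAt (fun s => repE F φ (γ s))
        (fderiv ℝ (repE F φ) (!₂[q₁, q₂], !₂[p₁, p₂]) v) t := by
    intro γ v t hγ ht
    have hf : HasFDerivAt (repE F φ) (fderiv ℝ (repE F φ) (!₂[q₁, q₂], !₂[p₁, p₂])) (γ t) := by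
      rw [ht]
      exact h.hasFDerivAt
    exact hf.comp_hasDerivAt t hγ
  have h0 : HasDerivAt (fun t => rep F φ t q₂ p₁ p₂)
      (fderiv ℝ (repE F φ) (!₂[q₁, q₂], !₂[p₁, p₂]) (EuclideanSpace.single 0 1, 0)) q₁ := by
    simp only [rep_eq]
    exact key (fun t => (!₂[t, q₂], !₂[p₁, p₂])) _ q₁
      ((hasDerivAt_pair₀ q₁ q₂).prodMk (hasDerivAt_const _ _)) rfl
  have h1 : HasDerivAt (fun t => rep F φ q₁ t p₁ p₂)
      (fderiv ℝ (repE F φ) (!₂[q₁, q₂], !₂[p₁, p₂]) (EuclideanSpace.single 1 1, 0)) q₂ := by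
    simp only [rep_eq]
    exact key (fun t => (!₂[q₁, t], !₂[p₁, p₂])) _ q₂
      ((hasDerivAt_pair₁ q₁ q₂).prodMk (hasDerivAt_const _ _)) rfl
  have h2 : HasDerivAt (fun t => rep F φ q₁ q₂ t p₂)
      (fderiv ℝ (repE F φ) (!₂[q₁, q₂], !₂[p₁, p₂]) (0, EuclideanSpace.single 0 1)) p₁ := by
    simp only [rep_eq]
    exact key (fun t => (!₂[q₁, q₂], !₂[t, p₂])) _ p₁
      ((hasDerivAt_const _ _).prodMk (hasDerivAt_pair₀ p₁ p₂)) rfl
  have h3 : HasDerivAt (fun t => rep F φ q₁ q₂ p₁ t)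
      (fderiv ℝ (repE F φ) (!₂[q₁, q₂], !₂[p₁, p₂]) (0, EuclideanSpace.single 1 1)) p₂ := by
    simp only [rep_eq]
    exact key (fun t => (!₂[q₁, q₂], !₂[p₁, t])) _ p₂
      ((hasDerivAt_const _ _).prodMk (hasDerivAt_pair₁ p₁ p₂)) rfl
  unfold grad
  rw [h0.deriv, h1.deriv, h2.deriv, h3.deriv]
  rfl

theorem pb_eqE {F K : CotFun} {φ : Chart} {q₁ q₂ p₁ p₂ : ℝ}
    (hF : DifferentiableAt ℝ (repE F φ) (!₂[q₁, q₂], !₂[p₁, p₂]))
    (hK : DifferentiableAt ℝ (repE K φ) (!₂[q₁, q₂], !₂[p₁, p₂])) :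
    pb (rep F φ) (rep K φ) q₁ q₂ p₁ p₂ =
      pbE (repE F φ) (repE K φ) (!₂[q₁, q₂], !₂[p₁, p₂]) := by
  unfold pb
  rw [grad_eq hF, grad_eq hK]
  unfold pbE
  rw [Fin.sum_univ_two]
  simp [ev4]

theorem integralE_of {g : RMetric} {U : S2 → ℝ} (hU : ContMDiff (𝓡 2) 𝓘(ℝ, ℝ) ∞ U) {F : CotFun}
    {d : ℕ} (hF : PolyMom d F) (h : Integral g U F) : IntegralE g U F := by
  intro φ hφ z hz
  have hz1 : (!₂[z.1 0, z.1 1], !₂[z.2 0, z.2 1]) = z := by
    rw [eta, eta]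
  have h1 := h φ hφ (z.1 0) (z.1 1) (by rw [eta]; exact hz) (z.2 0) (z.2 1)
  rw [pb_eqE (by
      rw [hz1]
      exact (natHam_rep_smooth g hU hφ hz).differentiableAt (by simp)) (by
      rw [hz1]
      exact (contDiffOn_rep (polyMomE_of hF) hφ hz).differentiableAt (by simp)), hz1] at h1
  exact h1

/-- The Hamiltonian is an integral of itself. -/
theorem natHam_integral (g : RMetric) (U : S2 → ℝ) : Integral g U (natHam g U) := by
  intro φ _ q₁ q₂ _ p₁ p₂
  unfold pb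
  ring

/-- The Hamiltonian is polynomial of degree two in the momenta. -/
theorem natHam_polyMom (g : RMetric) {U : S2 → ℝ} (hU : ContMDiff (𝓡 2) 𝓘(ℝ, ℝ) ∞ U) :
    PolyMom 2 (natHam g U) := polyMom_of (natHam_polyMomE g hU)

/-! ### sanity check: Mathlib's Riemannian metrics are Riemannian metrics in our sense -/

/-- Mathlib's smooth Riemannian metrics on `S²`. -/
abbrev MMetric : Type :=
  ContMDiffRiemannianMetric (𝓡 2) ∞ R2 (fun x : S2 => TangentSpace (𝓡 2) x)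

theorem smooth_frame {φ : Chart} (hφ : SmoothChart φ) {u : R2}
    (hu : u ∈ φ.target) (a : R2) :
    ContMDiffAt (𝓡 2) ((𝓡 2).prod (𝓡 2)) ∞ (fun m => (TotalSpace.mk' R2 (φ.symm m)
      (mfderiv (𝓡 2) (𝓡 2) φ.symm m a) : TangentBundle (𝓡 2) S2)) u := by
  have h1 : ContMDiffOn (𝓡 2) (𝓡 2) ∞ φ.symm φ.target := contMDiffOn_symm_of_mem_maximalAtlas hφ
  have h2 := h1.contMDiffOn_tangentMapWithin (m := ∞) (by simp) φ.open_target.uniqueMDiffOn
  have h3 : ContMDiffAt (𝓡 2) ((𝓡 2).prod (𝓡 2)) ∞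
      (fun m : R2 => (TotalSpace.mk' R2 m a : TangentBundle (𝓡 2) R2)) u := by
    exact contMDiffAt_vectorSpace_iff_contDiffAt.2 contDiffAt_const
  have hnhds : (π R2 (TangentSpace (𝓡 2) : R2 → Type)) ⁻¹' φ.target ∈
      𝓝 (TotalSpace.mk' R2 u a : TangentBundle (𝓡 2) R2) :=
    (φ.open_target.preimage (FiberBundle.continuous_proj R2 (TangentSpace (𝓡 2) : R2 → Type))).mem_nhds
      hu
  have h4 := (h2.contMDiffAt hnhds).comp u h3
  refine h4.congr_of_eventuallyEq ?_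
  filter_upwards [φ.open_target.mem_nhds hu] with m hm
  simp only [Function.comp_apply, tangentMapWithin, TotalSpace.mk']
  rw [mfderivWithin_of_isOpen φ.open_target hm]

theorem smooth_mmetric (g : MMetric) {φ : Chart} (hφ : SmoothChart φ)
    (a b : R2) : ContDiffOn ℝ ∞ (fun u => g.inner (φ.symm u)
      (mfderiv (𝓡 2) (𝓡 2) φ.symm u a) (mfderiv (𝓡 2) (𝓡 2) φ.symm u b)) φ.target := by
  intro u hu
  have h1 : ContMDiffAt (𝓡 2) (𝓡 2) ∞ φ.symm u :=
    (contMDiffOn_symm_of_mem_maximalAtlas hφ).contMDiffAt (φ.open_target.mem_nhds hu)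
  have h2 : ContMDiffAt (𝓡 2) ((𝓡 2).prod 𝓘(ℝ, ℝ)) ∞
      (fun m ↦ TotalSpace.mk' ℝ (E := Bundle.Trivial S2 ℝ) (φ.symm m) (g.inner (φ.symm m)
        (mfderiv (𝓡 2) (𝓡 2) φ.symm m a) (mfderiv (𝓡 2) (𝓡 2) φ.symm m b))) u := by
    apply ContMDiffAt.clm_bundle_apply₂ (F₁ := R2) (F₂ := R2)
    · exact ContMDiffAt.comp u g.contMDiff.contMDiffAt h1
    · exact smooth_frame hφ hu a
    · exact smooth_frame hφ hu b
  simp only [contMDiffAt_totalSpace] at h2
  exact (contMDiffAt_iff_contDiffAt.1 h2.2).contDiffWithinAt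

/-- Mathlib's smooth Riemannian metrics on `S²` are smooth Riemannian metrics in our sense. -/
def ofMathlib (g : MMetric) : RMetric where
  inner x v := g.inner x v
  symm x v w := g.symm x v w
  pos x v hv := g.pos x v hv
  smooth φ hφ i j := smooth_mmetric g hφ (EuclideanSpace.single i 1) (EuclideanSpace.single j 1)

theorem no_indep (g : RMetric) (U : S2 → ℝ) (hU : ContMDiff (𝓡 2) 𝓘(ℝ, ℝ) ∞ U)
    (hne : ∃ x y, U x ≠ U y) (F₁ F₂ F₃ : CotFun)
    (h₁ : Integral g U F₁) (h₂ : Integral g U F₂) (h₃ : Integral g U F₃)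
    (k₁ : ∃ d, PolyMom d F₁) (k₂ : ∃ d, PolyMom d F₂) (k₃ : ∃ d, PolyMom d F₃) :
    ¬ IndepSomewhere F₁ F₂ F₃ := by
  rintro ⟨φ, hφ, q₁, q₂, p₁, p₂, hw, hind⟩
  obtain ⟨d₁, k₁⟩ := k₁
  obtain ⟨d₂, k₂⟩ := k₂
  obtain ⟨d₃, k₃⟩ := k₃
  have h₁' := integralE_of hU k₁ h₁
  have h₂' := integralE_of hU k₂ h₂
  have h₃' := integralE_of hU k₃ h₃
  have k₁' := polyMomE_of k₁
  have k₂' := polyMomE_of k₂
  have k₃' := polyMomE_of k₃
  have hdiff : ∀ {F : CotFun} {d : ℕ}, PolyMomE d F →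
      DifferentiableAt ℝ (repE F φ) (!₂[q₁, q₂], !₂[p₁, p₂]) := fun hF =>
    (contDiffOn_rep hF hφ (z := (!₂[q₁, q₂], !₂[p₁, p₂])) hw).differentiableAt (by simp)
  rw [grad_eq (hdiff k₁'), grad_eq (hdiff k₂'), grad_eq (hdiff k₃')] at hind
  set w : R2 × R2 := (!₂[q₁, q₂], !₂[p₁, p₂]) with hwdef
  have hw' : w.1 ∈ φ.target := hw
  have hind' : LinearIndependent ℝ ![fderiv ℝ (repE F₁ φ) w, fderiv ℝ (repE F₂ φ) w,
      fderiv ℝ (repE F₃ φ) w] := by
    refine LinearIndependent.of_comp ev4 ?_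
    convert hind using 1
    funext i
    fin_cases i <;> rfl
  refine no_three hind' fun i j => ?_
  fin_cases i <;> fin_cases j <;>
    simp only [Fin.zero_eta, Fin.mk_one, Fin.reduceFinMk, Matrix.cons_val_zero,
      Matrix.cons_val_one, Matrix.cons_val, Jc_apply]
  · exact pb_zero g hU hne k₁' k₁' h₁' h₁' hφ hw'
  · exact pb_zero g hU hne k₁' k₂' h₁' h₂' hφ hw'
  · exact pb_zero g hU hne k₁' k₃' h₁' h₃' hφ hw'
  · exact pb_zero g hU hne k₂' k₁' h₂' h₁' hφ hw'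
  · exact pb_zero g hU hne k₂' k₂' h₂' h₂' hφ hw'
  · exact pb_zero g hU hne k₂' k₃' h₂' h₃' hφ hw'
  · exact pb_zero g hU hne k₃' k₁' h₃' h₁' hφ hw'
  · exact pb_zero g hU hne k₃' k₂' h₃' h₂' hφ hw'
  · exact pb_zero g hU hne k₃' k₃' h₃' h₃' hφ hw'

theorem main : ¬ ∃ (g : RMetric) (U : S2 → ℝ), ContMDiff (𝓡 2) 𝓘(ℝ, ℝ) ∞ U ∧
    (∃ x y : S2, U x ≠ U y) ∧ Superintegrable g U := by
  rintro ⟨g, U, hU, hne, F₁, F₂, F₃, h₁, h₂, h₃, hi⟩
  exact no_indep g U hU hne F₁ F₂ F₃ h₁.1 h₂.1 h₃.1 h₁.2 h₂.2 h₃.2 hi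

end Pool.Agent.Helper197.S2Bridge
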