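import Pool.Agent.Helper197.Flow

open Set Topology
open scoped RealInnerProductSpace

noncomputable section

namespace Pool.Agent.Helper197

namespace SI


lemma strict_flow {W : Type*} [NormedAddCommGroup W] [NormedSpace ℝ W] (v : W → W)
    (Φ : ℝ → W → W) (z0 : W) (A : W →L[ℝ] W) (hA3 : ∀ w, A (A (A w)) = 0)
    (hv : HasStrictFDerivAt v A z0)
    (h0 : ∀ z, Φ 0 z = z) (hd : ∀ z t, HasDerivAt (fun s => Φ s z) (v (Φ t z)) t)
    (L : ℝ) (hL : 0 ≤ L) (hlip : ∀ t z w, dist (Φ t z) (Φ t w) ≤ Real.exp (L * |t|) * dist z w)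
    (hfix : ∀ t, Φ t z0 = z0) :
    HasStrictFDerivAt (Φ 1) (ContinuousLinearMap.id ℝ W + A + (1 / 2 : ℝ) • A.comp A) z0 := by
  apply HasStrictFDerivAt.of_isLittleO
  rw [Asymptotics.isLittleO_iff]
  intro c hc
  set K : ℝ := ‖A‖ + 1 with hK
  have hKpos : 0 < K := by positivity
  set M : ℝ := Real.exp L * ((Real.exp K - 1) / K) with hM
  have hMpos : 0 < M := by
    have h1 : 1 < Real.exp K := by
      rw [← Real.exp_zero]
      exact Real.exp_lt_exp.mpr hKpos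
    have : 0 < Real.exp K - 1 := by linarith
    positivity
  set ε : ℝ := c / M with hε
  have hεpos : 0 < ε := div_pos hc hMpos
  have h1 := Asymptotics.isLittleO_iff.mp hv.isLittleO hεpos
  rw [Metric.eventually_nhds_iff] at h1
  obtain ⟨δ, hδ, h1⟩ := h1
  rw [Metric.eventually_nhds_iff]
  refine ⟨δ * Real.exp (-L), by positivity, ?_⟩
  rintro ⟨z1, z2⟩ hz
  have hz1 : dist z1 z0 < δ * Real.exp (-L) := lt_of_le_of_lt (le_max_left _ _) hz
  have hz2 : dist z2 z0 < δ * Real.exp (-L) := lt_of_le_of_lt (le_max_right _ _) hz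
  have hclose : ∀ z, dist z z0 < δ * Real.exp (-L) → ∀ t ∈ Ico (0 : ℝ) 1, dist (Φ t z) z0 < δ := by
    intro z hz t ht
    calc dist (Φ t z) z0 = dist (Φ t z) (Φ t z0) := by rw [hfix]
      _ ≤ Real.exp (L * |t|) * dist z z0 := hlip _ _ _
      _ ≤ Real.exp L * dist z z0 := by
        gcongr
        rw [abs_of_nonneg ht.1]
        nlinarith [ht.2]
      _ < Real.exp L * (δ * Real.exp (-L)) := by gcongr
      _ = δ := by
        rw [mul_comm δ, ← mul_assoc, ← Real.exp_add]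
        simp
  set f : ℝ → W := fun t => Φ t z1 - Φ t z2 -
    ((z1 - z2) + t • A (z1 - z2) + (t ^ 2 / 2) • A (A (z1 - z2))) with hf
  set f' : ℝ → W := fun t => v (Φ t z1) - v (Φ t z2) -
    (A (z1 - z2) + t • A (A (z1 - z2))) with hf'
  have hderiv : ∀ t, HasDerivAt f (f' t) t := by
    intro t
    apply ((hd z1 t).sub (hd z2 t)).sub
    have h2 : HasDerivAt (fun t : ℝ => t • A (z1 - z2)) (A (z1 - z2)) t := by
      simpa using (hasDerivAt_id t).smul_const (A (z1 - z2))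
    have h3 : HasDerivAt (fun t : ℝ => (t ^ 2 / 2) • A (A (z1 - z2))) (t • A (A (z1 - z2))) t := by
      have h4 : HasDerivAt (fun t : ℝ => t ^ 2 / 2) t t := by
        have := ((hasDerivAt_id t).pow 2).div_const 2
        simpa using this
      exact h4.smul_const _
    have h5 := (h2.const_add (z1 - z2)).add h3
    exact h5
  have hfA : ∀ t, A (f t) = A (Φ t z1 - Φ t z2) - (A (z1 - z2) + t • A (A (z1 - z2))) := by
    intro t
    simp only [hf, map_sub, map_add, map_smul]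
    have h6 := hA3 (z1 - z2)
    simp only [map_sub] at h6
    rw [h6]
    simp
  have hbound : ∀ t ∈ Ico (0 : ℝ) 1, ‖f' t‖ ≤ K * ‖f t‖ + ε * (Real.exp L * ‖z1 - z2‖) := by
    intro t ht
    have h2 : f' t = (v (Φ t z1) - v (Φ t z2) - A (Φ t z1 - Φ t z2)) + A (f t) := by
      rw [hfA]
      simp only [hf']
      module
    have h3 := @h1 (Φ t z1, Φ t z2) (max_lt (hclose z1 hz1 t ht) (hclose z2 hz2 t ht))
    have h4 : ‖Φ t z1 - Φ t z2‖ ≤ Real.exp L * ‖z1 - z2‖ := by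
      rw [← dist_eq_norm, ← dist_eq_norm]
      refine (hlip t z1 z2).trans ?_
      gcongr
      rw [abs_of_nonneg ht.1]
      nlinarith [ht.2]
    rw [h2]
    calc ‖(v (Φ t z1) - v (Φ t z2) - A (Φ t z1 - Φ t z2)) + A (f t)‖
        ≤ ‖v (Φ t z1) - v (Φ t z2) - A (Φ t z1 - Φ t z2)‖ + ‖A (f t)‖ := norm_add_le _ _
      _ ≤ ε * ‖Φ t z1 - Φ t z2‖ + ‖A‖ * ‖f t‖ := add_le_add h3 (A.le_opNorm _)
      _ ≤ ε * (Real.exp L * ‖z1 - z2‖) + K * ‖f t‖ := by
        gcongr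
        rw [hK]; linarith
      _ = _ := by ring
  have hgr := norm_le_gronwallBound_of_norm_deriv_right_le
    (f := f) (f' := f') (δ := 0) (K := K) (ε := ε * (Real.exp L * ‖z1 - z2‖)) (a := 0) (b := 1)
    (fun t _ => (hderiv t).continuousAt.continuousWithinAt)
    (fun t _ => (hderiv t).hasDerivWithinAt) (by simp [hf, h0]) hbound 1 ⟨zero_le_one, le_rfl⟩
  rw [gronwallBound_of_K_ne_0 hKpos.ne'] at hgr
  have h7 : f 1 = Φ 1 z1 - Φ 1 z2 -
      (ContinuousLinearMap.id ℝ W + A + (1 / 2 : ℝ) • A.comp A) (z1 - z2) := by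
    simp [hf]
  change ‖Φ 1 z1 - Φ 1 z2 - (ContinuousLinearMap.id ℝ W + A + (1 / 2 : ℝ) • A.comp A) (z1 - z2)‖
    ≤ c * ‖z1 - z2‖
  rw [← h7]
  refine hgr.trans ?_
  have h8 : c = ε * M := by
    rw [hε]; field_simp
  rw [h8, hM]
  simp only [sub_zero, mul_one, zero_mul, zero_add]
  apply le_of_eq
  ring


section LC

variable {G : V → V →L[ℝ] V} {U : V → ℝ}

lemma lc_pot_zero : Pot (fun _ => (0 : ℝ)) := ⟨contDiffOn_const, fun _ _ _ _ => rfl⟩

/-- The scaled field on the extended phase space. -/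
def XE (G : V → V →L[ℝ] V) (U : V → ℝ) (z : (V × V) × ℝ) : (V × V) × ℝ :=
  (XF (Ham G (fun _ => 0)) z.1 + z.2 • (XF (Ham G U) z.1 - XF (Ham G (fun _ => 0)) z.1), 0)

lemma XE_smooth (hG : Met G) (hU : Pot U) {z : (V × V) × ℝ} (hz : z.1.1 ≠ 0) :
    ContDiffAt ℝ ((⊤ : ℕ∞) : WithTop ℕ∞) (XE G U) z := by
  have h1 := (contDiffOn_XF (Basic.ham hG lc_pot_zero)).contDiffAt (isOpen_Om.mem_nhds hz)
  have h2 := (contDiffOn_XF (Basic.ham hG hU)).contDiffAt (isOpen_Om.mem_nhds hz)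
  have h1' : ContDiffAt ℝ ((⊤ : ℕ∞) : WithTop ℕ∞)
      (fun z : (V × V) × ℝ => XF (Ham G (fun _ => 0)) z.1) z := h1.comp z contDiffAt_fst
  have h2' : ContDiffAt ℝ ((⊤ : ℕ∞) : WithTop ℕ∞)
      (fun z : (V × V) × ℝ => XF (Ham G U) z.1) z := h2.comp z contDiffAt_fst
  exact (h1'.add (contDiffAt_snd.smul (h2'.sub h1'))).prodMk contDiffAt_const

lemma gx0_bound (hG : Met G) {z : V × V} (hz : z ∈ Om) :
    ‖gx (Ham G (fun _ => 0)) z‖ ≤ (1 / 2) * ‖fderiv ℝ G z.1‖ * ‖z.2‖ ^ 2 := by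
  have h1 := gx_ham hG lc_pot_zero hz (gx (Ham G (fun _ => 0)) z)
  set g := gx (Ham G (fun _ => 0)) z with hg
  rw [real_inner_self_eq_norm_sq] at h1
  have h2 : fderiv ℝ (fun _ : V => (0 : ℝ)) z.1 g = 0 := by simp
  rw [h2, add_zero] at h1
  have h3 : ⟪z.2, (fderiv ℝ G z.1 g) z.2⟫ ≤ ‖z.2‖ * (‖fderiv ℝ G z.1‖ * ‖g‖ * ‖z.2‖) := by
    refine (real_inner_le_norm _ _).trans ?_
    gcongr
    refine ((fderiv ℝ G z.1 g).le_opNorm z.2).trans ?_
    gcongr
    exact (fderiv ℝ G z.1).le_opNorm g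
  rcases (norm_nonneg g).eq_or_lt with h4 | h4
  · rw [← h4]; positivity
  · have h5 : ‖g‖ * ‖g‖ ≤ ((1 / 2) * ‖fderiv ℝ G z.1‖ * ‖z.2‖ ^ 2) * ‖g‖ := by
      nlinarith
    exact le_of_mul_le_mul_right h5 h4

lemma XF0_deriv (hG : Met G) {x₀ : V} (hx : x₀ ≠ 0) :
    HasFDerivAt (XF (Ham G (fun _ => 0)))
      (((G x₀).comp (ContinuousLinearMap.snd ℝ V V)).prod 0) (x₀, (0 : V)) := by
  have hopen : IsOpen {x : V | x ≠ 0} := isOpen_ne
  have hGc : ContDiffAt ℝ ((⊤ : ℕ∞) : WithTop ℕ∞) G x₀ := hG.smooth.contDiffAt (hopen.mem_nhds hx)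
  have hOm : ∀ᶠ z : V × V in 𝓝 (x₀, (0 : V)), z ∈ Om := isOpen_Om.mem_nhds hx
  have h1 : HasFDerivAt (fun z : V × V => gp (Ham G (fun _ => 0)) z)
      ((G x₀).comp (ContinuousLinearMap.snd ℝ V V)) (x₀, (0 : V)) := by
    have h2 : HasFDerivAt (fun z : V × V => G z.1)
        ((fderiv ℝ G x₀).comp (ContinuousLinearMap.fst ℝ V V)) (x₀, (0 : V)) := by
      have h3 : HasFDerivAt G (fderiv ℝ G x₀) ((x₀, (0 : V)).1) :=
        (hGc.differentiableAt (by simp)).hasFDerivAt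
      exact h3.comp (x₀, (0 : V)) hasFDerivAt_fst
    have h4 := h2.clm_apply (hasFDerivAt_snd (𝕜 := ℝ) (p := (x₀, (0 : V))))
    have h5 : HasFDerivAt (fun z : V × V => G z.1 z.2)
        ((G x₀).comp (ContinuousLinearMap.snd ℝ V V)) (x₀, (0 : V)) := by
      refine h4.congr_fderiv ?_
      ext <;> simp
    refine h5.congr_of_eventuallyEq ?_
    filter_upwards [hOm] with z hz
    exact gp_ham hG lc_pot_zero hz
  have h6 : HasFDerivAt (fun z : V × V => gx (Ham G (fun _ => 0)) z)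
      (0 : V × V →L[ℝ] V) (x₀, (0 : V)) := by
    apply Asymptotics.IsBigO.hasFDerivAt (n := 2) _ (by norm_num)
    have h7 : ContinuousAt (fun z : V × V => ‖fderiv ℝ G z.1‖) (x₀, (0 : V)) := by
      have h8 : ContinuousAt (fderiv ℝ G) x₀ :=
        (hGc.fderiv_right (m := 0) (by simp)).continuousAt
      have h9 : ContinuousAt (fun z : V × V => fderiv ℝ G z.1) (x₀, (0 : V)) :=
        ContinuousAt.comp (f := fun z : V × V => z.1) (g := fderiv ℝ G) (x := (x₀, (0 : V)))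
          h8 continuousAt_fst
      have h9' : Continuous (fun T : V →L[ℝ] V →L[ℝ] V => ‖T‖) :=
        @continuous_norm (V →L[ℝ] V →L[ℝ] V) _
      exact ContinuousAt.comp (f := fun z : V × V => fderiv ℝ G z.1)
        (g := fun T : V →L[ℝ] V →L[ℝ] V => ‖T‖) (x := (x₀, (0 : V))) h9'.continuousAt h9
    have h10 : ∀ᶠ z : V × V in 𝓝 (x₀, (0 : V)), ‖fderiv ℝ G z.1‖ < ‖fderiv ℝ G x₀‖ + 1 :=
      h7.eventually_lt continuousAt_const (by simp)
    apply Asymptotics.IsBigO.of_bound ((1 / 2) * (‖fderiv ℝ G x₀‖ + 1))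
    filter_upwards [hOm, h10] with z hz hz2
    refine (gx0_bound hG hz).trans ?_
    have h11 : ‖z.2‖ ≤ ‖z - (x₀, (0 : V))‖ := by
      have := norm_snd_le (z - (x₀, (0 : V)))
      simpa using this
    rw [Real.norm_of_nonneg (by positivity)]
    gcongr
  have h12 := h1.prodMk h6.neg
  refine (h12.congr_fderiv ?_)
  ext <;> simp

/-- The linearisation of the extended field. -/
def AE (G : V → V →L[ℝ] V) (U : V → ℝ) (x₀ : V) : (V × V) × ℝ →L[ℝ] (V × V) × ℝ :=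
  ((((G x₀).comp (ContinuousLinearMap.snd ℝ V V)).prod 0).comp
      (ContinuousLinearMap.fst ℝ (V × V) ℝ) +
    (ContinuousLinearMap.toSpanSingleton ℝ
      (XF (Ham G U) (x₀, (0 : V)) - XF (Ham G (fun _ => 0)) (x₀, (0 : V)))).comp
      (ContinuousLinearMap.snd ℝ (V × V) ℝ)).prod 0

lemma AE_apply (x₀ : V) (w : (V × V) × ℝ) : AE G U x₀ w =
    ((G x₀ w.1.2, (0 : V)) + w.2 •
      (XF (Ham G U) (x₀, (0 : V)) - XF (Ham G (fun _ => 0)) (x₀, (0 : V))), 0) := by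
  simp [AE, ContinuousLinearMap.toSpanSingleton_apply]

lemma Y0_fst (hG : Met G) (hU : Pot U) {x₀ : V} (hx : x₀ ≠ 0) :
    (XF (Ham G U) (x₀, (0 : V)) - XF (Ham G (fun _ => 0)) (x₀, (0 : V))).1 = 0 := by
  have hz : (x₀, (0 : V)) ∈ Om := hx
  change gp (Ham G U) (x₀, (0 : V)) - gp (Ham G (fun _ => 0)) (x₀, (0 : V)) = 0
  rw [gp_ham hG hU hz, gp_ham hG lc_pot_zero hz, sub_self]

lemma AE_cube (hG : Met G) (hU : Pot U) {x₀ : V} (hx : x₀ ≠ 0) (w : (V × V) × ℝ) :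
    AE G U x₀ (AE G U x₀ (AE G U x₀ w)) = 0 := by
  have h := Y0_fst hG hU hx
  set Y := XF (Ham G U) (x₀, (0 : V)) - XF (Ham G (fun _ => 0)) (x₀, (0 : V)) with hY
  rw [AE_apply, AE_apply, AE_apply]
  ext <;> simp

lemma XE_strict (hG : Met G) (hU : Pot U) {x₀ : V} (hx : x₀ ≠ 0) :
    HasStrictFDerivAt (XE G U) (AE G U x₀) ((x₀, (0 : V)), (0 : ℝ)) := by
  apply (XE_smooth hG hU (z := ((x₀, (0 : V)), (0 : ℝ))) hx).hasStrictFDerivAt' _ (by simp)
  have h1 : HasFDerivAt (fun z : (V × V) × ℝ => XF (Ham G (fun _ => 0)) z.1)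
      ((((G x₀).comp (ContinuousLinearMap.snd ℝ V V)).prod 0).comp
      (ContinuousLinearMap.fst ℝ (V × V) ℝ)) ((x₀, (0 : V)), (0 : ℝ)) :=
    HasFDerivAt.comp (g := XF (Ham G (fun _ => 0))) (f := Prod.fst)
      ((x₀, (0 : V)), (0 : ℝ)) (XF0_deriv hG hx) hasFDerivAt_fst
  have h2 := (contDiffOn_XF (Basic.ham hG hU)).contDiffAt
    (isOpen_Om.mem_nhds (show (x₀, (0 : V)) ∈ Om from hx))
  have h3 : HasFDerivAt (XF (Ham G U)) (fderiv ℝ (XF (Ham G U)) (x₀, (0 : V)))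
    (((x₀, (0 : V)), (0 : ℝ)).1) := (h2.differentiableAt (by simp)).hasFDerivAt
  have h4 := h3.comp ((x₀, (0 : V)), (0 : ℝ)) hasFDerivAt_fst
  have h5 := h1.add ((hasFDerivAt_snd (𝕜 := ℝ) (p := ((x₀, (0 : V)), (0 : ℝ)))).smul (h4.sub h1))
  have h6 := h5.prodMk (hasFDerivAt_const (0 : ℝ) ((x₀, (0 : V)), (0 : ℝ)))
  refine h6.congr_fderiv ?_
  ext <;> simp [AE]

lemma scaled_curve {E : ℝ} {D : Set V} {v : V × V → V × V} {φ : ℝ → V × V → V × V}
    (hG : Met G) (hU : Pot U) (hD : Reg U E D)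
    (hφ : HFlow G U E v φ) {z : V × V} (hz : z ∈ ES G U E D) (c t : ℝ) :
    HasDerivAt (fun t : ℝ => (((φ (c * t) z).1, c • (φ (c * t) z).2), c ^ 2))
      (XE G U (((φ (c * t) z).1, c • (φ (c * t) z).2), c ^ 2)) t := by
  have h1 : HasDerivAt (fun t : ℝ => φ (c * t) z) (c • v (φ (c * t) z)) t := by
    have h2 := hφ.deriv z (c * t)
    have h3 : HasDerivAt (fun t : ℝ => c * t) c t := by
      simpa using (hasDerivAt_id t).const_mul c
    exact HasDerivAt.scomp t h2 h3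
  have hES := ES_invariant hG hU hD hφ z hz (c * t)
  set y := φ (c * t) z with hy
  have hOm : y ∈ Om := by
    have h4 : ‖y.1‖ = 1 := hES.1.1
    intro h5
    rw [h5, norm_zero] at h4
    exact zero_ne_one h4
  have hOm' : (y.1, c • y.2) ∈ Om := hOm
  have hv : v y = XF (Ham G U) y := (hφ.veq y hES.1 hES.2.2.le).self_of_nhds
  rw [hv] at h1
  have h6 : HasDerivAt (fun t : ℝ => (φ (c * t) z).1) (c • gp (Ham G U) y) t := h1.fst
  have h7 : HasDerivAt (fun t : ℝ => (φ (c * t) z).2) (c • (- gx (Ham G U) y)) t := h1.snd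
  have h8 := (h6.prodMk (h7.const_smul c)).prodMk (hasDerivAt_const t (c ^ 2))
  refine h8.congr_deriv ?_
  rw [XE]
  have h9 : c • gp (Ham G U) y = gp (Ham G (fun _ => 0)) (y.1, c • y.2) := by
    rw [gp_ham hG hU hOm, gp_ham hG lc_pot_zero hOm', map_smul]
  have h10 : gp (Ham G U) (y.1, c • y.2) = gp (Ham G (fun _ => 0)) (y.1, c • y.2) := by
    rw [gp_ham hG hU hOm', gp_ham hG lc_pot_zero hOm']
  have h11 : c • c • gx (Ham G U) y = gx (Ham G (fun _ => 0)) (y.1, c • y.2) +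
      c ^ 2 • (gx (Ham G U) (y.1, c • y.2) - gx (Ham G (fun _ => 0)) (y.1, c • y.2)) := by
    apply ext_inner_right ℝ
    intro ξ
    simp only [inner_smul_left, inner_add_left, inner_sub_left, gx_ham hG hU hOm,
      gx_ham hG hU hOm', gx_ham hG lc_pot_zero hOm', map_smul, inner_smul_right]
    simp
    ring
  apply Prod.ext
  · apply Prod.ext
    · change c • gp (Ham G U) y = gp (Ham G (fun _ => 0)) (y.1, c • y.2) +
        c ^ 2 • (gp (Ham G U) (y.1, c • y.2) - gp (Ham G (fun _ => 0)) (y.1, c • y.2))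
      rw [h10, sub_self, smul_zero, add_zero, h9]
    · change c • c • (- gx (Ham G U) y) = - gx (Ham G (fun _ => 0)) (y.1, c • y.2) +
        c ^ 2 • (- gx (Ham G U) (y.1, c • y.2) - - gx (Ham G (fun _ => 0)) (y.1, c • y.2))
      rw [smul_neg, smul_neg, h11]
      module
  · rfl


lemma XF0_zero (hG : Met G) {x : V} (hx : x ≠ 0) : XF (Ham G (fun _ => 0)) (x, (0 : V)) = 0 := by
  have hz : (x, (0 : V)) ∈ Om := hx
  have h1 : gx (Ham G (fun _ => 0)) (x, (0 : V)) = 0 := by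
    have h2 := gx0_bound hG hz
    simp only [norm_zero] at h2
    rw [← norm_le_zero_iff]
    refine h2.trans ?_
    norm_num
  apply Prod.ext
  · change gp (Ham G (fun _ => 0)) (x, (0 : V)) = 0
    rw [gp_ham hG lc_pot_zero hz, map_zero]
  · change - gx (Ham G (fun _ => 0)) (x, (0 : V)) = 0
    rw [h1, neg_zero]

lemma XE_zero (hG : Met G) {x : V} (hx : x ≠ 0) : XE G U ((x, (0 : V)), (0 : ℝ)) = 0 := by
  rw [XE]
  simp only [zero_smul, add_zero]
  rw [XF0_zero hG hx]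
  rfl

/-- orthogonal part -/
def wp (z : V × V) : V := z.2 - ⟪z.1, z.2⟫ • z.1

lemma wp_smooth (z : V × V) : ContDiffAt ℝ ((⊤ : ℕ∞) : WithTop ℕ∞) wp z :=
  contDiffAt_snd.sub ((contDiffAt_fst.inner ℝ contDiffAt_snd).smul contDiffAt_fst)

lemma wp_deriv (x₀ : V) : HasFDerivAt wp
    (ContinuousLinearMap.snd ℝ V V - ((innerSL ℝ x₀).comp (ContinuousLinearMap.snd ℝ V V)).smulRight x₀)
    (x₀, (0 : V)) := by
  have h1 := (hasFDerivAt_fst (𝕜 := ℝ) (p := (x₀, (0 : V)))).inner ℝ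
    (hasFDerivAt_snd (𝕜 := ℝ) (p := (x₀, (0 : V))))
  have h2 := h1.smul (hasFDerivAt_fst (𝕜 := ℝ) (p := (x₀, (0 : V))))
  have h3 := (hasFDerivAt_snd (𝕜 := ℝ) (p := (x₀, (0 : V)))).sub h2
  refine h3.congr_fderiv ?_
  ext <;> simp

lemma cc_deriv (x₀ : V) : HasStrictFDerivAt (fun z : V × V => ⟪z.1, z.2⟫ • z.1)
    (((innerSL ℝ x₀).comp (ContinuousLinearMap.snd ℝ V V)).smulRight x₀)
    (x₀, (0 : V)) := by
  have h1 := (hasFDerivAt_fst (𝕜 := ℝ) (p := (x₀, (0 : V)))).inner ℝ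
    (hasFDerivAt_snd (𝕜 := ℝ) (p := (x₀, (0 : V))))
  have h2 := h1.smul (hasFDerivAt_fst (𝕜 := ℝ) (p := (x₀, (0 : V))))
  have h3 : ContDiffAt ℝ ((⊤ : ℕ∞) : WithTop ℕ∞) (fun z : V × V => ⟪z.1, z.2⟫ • z.1)
      (x₀, (0 : V)) := (contDiffAt_fst.inner ℝ contDiffAt_snd).smul contDiffAt_fst
  apply h3.hasStrictFDerivAt' _ (by simp)
  refine h2.congr_fderiv ?_
  ext <;> simp

/-- the energy parameter -/
def tau (G : V → V →L[ℝ] V) (U : V → ℝ) (E : ℝ) (z : V × V) : ℝ :=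
  (1 / 2) * ⟪wp z, G z.1 (wp z)⟫ * (E - U z.1)⁻¹

lemma wp_zero (x : V) : wp (x, (0 : V)) = 0 := by simp [wp]

lemma tau_zero (E : ℝ) (x : V) : tau G U E (x, (0 : V)) = 0 := by simp [tau, wp_zero]

lemma tau_strict (hG : Met G) (hU : Pot U) {E : ℝ} {x₀ : V} (hx : x₀ ≠ 0) (hE : U x₀ < E) :
    HasStrictFDerivAt (tau G U E) (0 : V × V →L[ℝ] ℝ) (x₀, (0 : V)) := by
  have hopen : IsOpen {x : V | x ≠ 0} := isOpen_ne
  have hGc : ContDiffAt ℝ ((⊤ : ℕ∞) : WithTop ℕ∞) G x₀ := hG.smooth.contDiffAt (hopen.mem_nhds hx)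
  have hUc : ContDiffAt ℝ ((⊤ : ℕ∞) : WithTop ℕ∞) U x₀ := hU.smooth.contDiffAt (hopen.mem_nhds hx)
  have hGc1 : ContDiffAt ℝ ((⊤ : ℕ∞) : WithTop ℕ∞) (fun z : V × V => G z.1) (x₀, (0 : V)) :=
    ContDiffAt.comp (g := G) (f := Prod.fst) (x₀, (0 : V)) hGc contDiffAt_fst
  have hUc1 : ContDiffAt ℝ ((⊤ : ℕ∞) : WithTop ℕ∞) (fun z : V × V => U z.1) (x₀, (0 : V)) :=
    ContDiffAt.comp (g := U) (f := Prod.fst) (x₀, (0 : V)) hUc contDiffAt_fst
  have h1 : ContDiffAt ℝ ((⊤ : ℕ∞) : WithTop ℕ∞) (fun z : V × V => ⟪wp z, G z.1 (wp z)⟫)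
      (x₀, (0 : V)) := (wp_smooth _).inner ℝ (hGc1.clm_apply (wp_smooth _))
  have h2 : ContDiffAt ℝ ((⊤ : ℕ∞) : WithTop ℕ∞) (fun z : V × V => (E - U z.1)⁻¹)
      (x₀, (0 : V)) := (contDiffAt_const.sub hUc1).inv (sub_pos.mpr hE).ne'
  have h3 : ContDiffAt ℝ ((⊤ : ℕ∞) : WithTop ℕ∞) (tau G U E) (x₀, (0 : V)) :=
    (contDiffAt_const.mul h1).mul h2
  apply h3.hasStrictFDerivAt' _ (by simp)
  have h4 := (hGc1.differentiableAt (by simp)).hasFDerivAt
  have h5 := (wp_deriv x₀).inner ℝ (h4.clm_apply (wp_deriv x₀))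
  have h6 := ((h5.const_mul (1 / 2 : ℝ)).mul (h2.differentiableAt (by simp)).hasFDerivAt)
  refine h6.congr_fderiv ?_
  ext <;> simp [wp_zero]


lemma lc_aux (c : ℝ) (w P : V) (hc : 0 < c) (hc4 : c < 1 / 4) (hw : ‖w‖ < 1 / 16)
    (hP : dist P (c⁻¹ • w) ≤ 1 / 16) : dist (c • P) (0 : V) ≤ 1 / 4 := by
  rw [dist_zero_right]
  have h7 : c • P = c • (P - c⁻¹ • w) + w := by
    rw [smul_sub, smul_smul, mul_inv_cancel₀ hc.ne', one_smul]
    abel
  rw [h7]
  refine (norm_add_le _ _).trans ?_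
  rw [norm_smul, Real.norm_of_nonneg hc.le]
  rw [dist_eq_norm] at hP
  have h8 := norm_nonneg (P - c⁻¹ • w)
  nlinarith

/-- The strict derivative of the endpoint map is surjective. -/
lemma endpoint_surj (hG : Met G) {x₀ : V} (hx : x₀ ≠ 0) (hx₁ : ‖x₀‖ = 1) :
    Function.Surjective (fun ζ : V => G x₀ ζ + ⟪x₀, ζ⟫ • x₀) := by
  let T : V →ₗ[ℝ] V := (G x₀ : V →ₗ[ℝ] V) +
    ((((innerSL ℝ x₀).smulRight x₀ : V →L[ℝ] V)) : V →ₗ[ℝ] V)
  have hT : ∀ ζ, T ζ = G x₀ ζ + ⟪x₀, ζ⟫ • x₀ := by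
    intro ζ
    simp [T]
  have hinj : Function.Injective T := by
    rw [← LinearMap.ker_eq_bot, LinearMap.ker_eq_bot']
    intro ζ hζ
    rw [hT] at hζ
    have h1 : ⟪x₀, G x₀ ζ⟫ = 0 := by
      rw [← hG.symm x₀ x₀ ζ hx, hG.radial x₀ hx, inner_zero_left]
    have h2 : ⟪x₀, ζ⟫ = 0 := by
      have h3 := congrArg (fun y => ⟪x₀, y⟫) hζ
      simp only [inner_add_right, inner_smul_right, inner_zero_right, h1, zero_add,
        real_inner_self_eq_norm_sq, hx₁] at h3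
      simpa using h3
    rw [h2, zero_smul, add_zero] at hζ
    by_contra hne
    by_cases h4 : ∀ c : ℝ, ζ ≠ c • x₀
    · have h5 := hG.pos x₀ ζ hx h4
      rw [hζ, inner_zero_right] at h5
      exact lt_irrefl _ h5
    · push Not at h4
      obtain ⟨c, hc⟩ := h4
      rw [hc, inner_smul_right, real_inner_self_eq_norm_sq, hx₁] at h2
      apply hne
      rw [hc]
      have : c = 0 := by simpa using h2
      rw [this, zero_smul]
  have hsurj := LinearMap.injective_iff_surjective.mp hinj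
  intro y
  obtain ⟨ζ, hζ⟩ := hsurj y
  exact ⟨ζ, by rw [← hζ, hT]⟩

end LC


theorem local_connect {G : V → V →L[ℝ] V} {U : V → ℝ} {E : ℝ} {D : Set V}
    {v : V × V → V × V} {φ : ℝ → V × V → V × V} (hG : Met G) (hU : Pot U) (hD : Reg U E D)
    (hφ : HFlow G U E v φ) {x₀ : V} (hx₀ : x₀ ∈ D) (hx₁ : ‖x₀‖ = 1) :
    ∃ ρ > 0, ∀ x' x'' : V, ‖x'‖ = 1 → ‖x''‖ = 1 → dist x' x₀ < ρ → dist x'' x₀ < ρ → x' ≠ x'' →
      ∃ p' t, (x', p') ∈ ES G U E D ∧ (φ t (x', p')).1 = x'' := by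
  have hx : x₀ ≠ 0 := hD.ne_zero x₀ hx₀
  have hE : U x₀ < E := hD.lt x₀ hx₀
  let z0 : (V × V) × ℝ := ((x₀, (0 : V)), (0 : ℝ))
  let f : ContDiffBump z0 := ⟨1 / 4, 1 / 2, by norm_num, by norm_num⟩
  let vh : (V × V) × ℝ → (V × V) × ℝ := fun z => f z • XE G U z
  have hdist : ∀ z : (V × V) × ℝ, dist z.1.1 x₀ ≤ dist z z0 := by
    intro z
    exact (le_max_left _ _).trans (le_max_left _ _)
  have hvs : ContDiff ℝ ((⊤ : ℕ∞) : WithTop ℕ∞) vh := by
    rw [contDiff_iff_contDiffAt]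
    intro z
    by_cases hz : z.1.1 = 0
    · have h1 : (1 / 2 : ℝ) < dist z z0 := by
        refine lt_of_lt_of_le ?_ (hdist z)
        rw [hz, dist_eq_norm, zero_sub, norm_neg, hx₁]
        norm_num
      have h2 : ∀ᶠ y in 𝓝 z, (1 / 2 : ℝ) < dist y z0 :=
        (continuous_id.dist continuous_const).continuousAt.eventually_const_lt h1
      have h3 : vh =ᶠ[𝓝 z] fun _ => 0 := by
        filter_upwards [h2] with y hy
        change f y • XE G U y = 0
        rw [f.zero_of_le_dist hy.le, zero_smul]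
      exact contDiffAt_const.congr_of_eventuallyEq h3
    · exact f.contDiffAt.smul (XE_smooth hG hU hz)
  have hvc : HasCompactSupport vh := f.hasCompactSupport.smul_right
  obtain ⟨Φ, hΦ0, hΦd, hΦa, ⟨L, hL, hlip⟩, hΦc, -⟩ :=
    exists_global_flow vh (hvs.of_le ENat.LEInfty.out) hvc
  have huniq := flow_unique vh (hvs.of_le ENat.LEInfty.out) hvc Φ hΦ0 hΦd
  -- equilibria
  have heq : ∀ x : V, x ≠ 0 → ∀ t, Φ t ((x, (0 : V)), (0 : ℝ)) = ((x, (0 : V)), (0 : ℝ)) := by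
    intro x hx t
    have h1 : vh ((x, (0 : V)), (0 : ℝ)) = 0 := by
      change f _ • XE G U ((x, (0 : V)), (0 : ℝ)) = 0
      rw [XE_zero hG hx, smul_zero]
    have h2 := huniq (fun _ => ((x, (0 : V)), (0 : ℝ))) (min 0 t) (max 0 t) (min_le_left _ _)
      (le_max_left _ _) (by
        intro s _
        change HasDerivWithinAt (fun _ => ((x, (0 : V)), (0 : ℝ))) (vh ((x, (0 : V)), (0 : ℝ))) _ _
        rw [h1]
        exact hasDerivWithinAt_const _ _ _) t ⟨min_le_right _ _, le_max_right _ _⟩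
    exact h2.symm
  have hfix : ∀ t, Φ t z0 = z0 := heq x₀ hx
  -- strict derivative
  have hvstrict : HasStrictFDerivAt vh (AE G U x₀) z0 := by
    refine (XE_strict hG hU hx).congr_of_eventuallyEq ?_
    filter_upwards [f.eventuallyEq_one] with z hz
    change XE G U z = f z • XE G U z
    rw [hz]
    simp
  have hΦs := strict_flow vh Φ z0 (AE G U x₀) (AE_cube hG hU hx) hvstrict hΦ0 hΦd L hL hlip hfix
  set B : (V × V) × ℝ →L[ℝ] (V × V) × ℝ := ContinuousLinearMap.id ℝ _ + AE G U x₀ +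
    (1 / 2 : ℝ) • (AE G U x₀).comp (AE G U x₀) with hB
  let S : V × V → (V × V) × ℝ := fun z => ((z.1, wp z), tau G U E z)
  have hS0 : S (x₀, (0 : V)) = z0 := by
    change ((x₀, wp (x₀, (0 : V))), tau G U E (x₀, (0 : V))) = ((x₀, (0 : V)), (0 : ℝ))
    rw [wp_zero, tau_zero]
  have hwps : HasStrictFDerivAt wp (ContinuousLinearMap.snd ℝ V V -
      ((innerSL ℝ x₀).comp (ContinuousLinearMap.snd ℝ V V)).smulRight x₀) (x₀, (0 : V)) :=
    (wp_smooth _).hasStrictFDerivAt' (wp_deriv x₀) (by simp)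
  have hSs := ((hasStrictFDerivAt_fst (𝕜 := ℝ) (p := (x₀, (0 : V)))).prodMk hwps).prodMk
    (tau_strict hG hU (E := E) hx hE)
  have hΦs' : HasStrictFDerivAt (Φ 1) B (S (x₀, (0 : V))) := by
    rw [hS0]; exact hΦs
  have hcomp := hΦs'.comp (x₀, (0 : V)) hSs
  have hF := hcomp.fst.fst
  let F : V × V → V := fun z => (Φ 1 (S z)).1.1
  let Psi : V × V → V × V := fun z => (z.1, F z + ⟪z.1, z.2⟫ • z.1)
  have hPsi := (hasStrictFDerivAt_fst (𝕜 := ℝ) (p := (x₀, (0 : V)))).prodMk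
    (hF.add (cc_deriv x₀))
  have hmap := hPsi.map_nhds_eq_of_surj (by
    rw [LinearMap.range_eq_top]
    rintro ⟨ξ, η⟩
    obtain ⟨ζ, hζ⟩ := endpoint_surj hG hx hx₁ (η - ξ)
    refine ⟨(ξ, ζ), ?_⟩
    have hY := Y0_fst hG hU hx
    have h1 : G x₀ (ζ - ⟪x₀, ζ⟫ • x₀) = G x₀ ζ := by
      rw [map_sub, map_smul, hG.radial x₀ hx, smul_zero, sub_zero]
    have h2 : (B ((ξ, ζ - ⟪x₀, ζ⟫ • x₀), (0 : ℝ))).1.1 = ξ + G x₀ ζ := by
      rw [hB]
      simp [AE_apply, h1]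
    apply Prod.ext
    · rfl
    · change (B ((ξ, ζ - ⟪x₀, ζ⟫ • x₀), (0 : ℝ))).1.1 + ⟪x₀, ζ⟫ • x₀ = η
      rw [h2, add_assoc]
      have h3 : G x₀ ζ + ⟪x₀, ζ⟫ • x₀ = η - ξ := hζ
      rw [h3]
      abel)
  have hPsi0 : Psi (x₀, (0 : V)) = (x₀, x₀) := by
    change (x₀, (Φ 1 (S (x₀, (0 : V)))).1.1 + ⟪x₀, (0 : V)⟫ • x₀) = (x₀, x₀)
    rw [hS0, hfix]
    simp [z0]
  have hmap' : Filter.map Psi (𝓝 (x₀, (0 : V))) = 𝓝 (x₀, x₀) := by
    rw [← hPsi0]
    exact hmap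
  -- bound on `v`
  obtain ⟨C, hC⟩ := hφ.vsupp.exists_bound_of_continuous hφ.vsmooth.continuous
  have hC0 : 0 ≤ C := (norm_nonneg _).trans (hC 0)
  have hspeed : ∀ z s, 0 ≤ s → dist (φ s z) z ≤ C * s := by
    intro z s hs
    have h1 := norm_image_sub_le_of_norm_deriv_le_segment' (f := fun s => φ s z)
      (f' := fun s => v (φ s z)) (a := 0) (b := s) (C := C)
      (fun r _ => (hφ.deriv z r).hasDerivWithinAt) (fun r _ => hC _) s ⟨hs, le_rfl⟩
    rw [hφ.zero, sub_zero] at h1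
    rw [dist_eq_norm]
    exact h1
  -- the neighbourhood
  have hSc : ContinuousAt S (x₀, (0 : V)) := hSs.continuousAt
  have hFc : ContinuousAt F (x₀, (0 : V)) := hF.continuousAt
  have hwc : ContinuousAt wp (x₀, (0 : V)) := hwps.continuousAt
  have htc : ContinuousAt (fun z => √(tau G U E z)) (x₀, (0 : V)) :=
    (tau_strict hG hU (E := E) hx hE).continuousAt.sqrt
  have hF0 : F (x₀, (0 : V)) = x₀ := by
    change (Φ 1 (S (x₀, (0 : V)))).1.1 = x₀
    rw [hS0, hfix]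
  have e1 : ∀ᶠ z : V × V in 𝓝 (x₀, (0 : V)), z.1 ∈ D :=
    continuousAt_fst.eventually_mem (hD.isOpen.mem_nhds hx₀)
  have e2 : ∀ᶠ z : V × V in 𝓝 (x₀, (0 : V)), dist z.1 x₀ < 1 / 16 := by
    have h : ContinuousAt (fun z : V × V => dist z.1 x₀) (x₀, (0 : V)) :=
      continuousAt_fst.dist continuousAt_const
    exact h.eventually_lt_const (by simp)
  have e3 : ∀ᶠ z : V × V in 𝓝 (x₀, (0 : V)), ‖wp z‖ < 1 / 16 := by
    have h : ContinuousAt (fun z : V × V => ‖wp z‖) (x₀, (0 : V)) := hwc.norm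
    exact h.eventually_lt_const (by simp [wp_zero])
  have e4 : ∀ᶠ z : V × V in 𝓝 (x₀, (0 : V)), C * √(tau G U E z) < 1 / 16 := by
    have h : ContinuousAt (fun z : V × V => C * √(tau G U E z)) (x₀, (0 : V)) :=
      continuousAt_const.mul htc
    exact h.eventually_lt_const (by simp [tau_zero])
  have e5 : ∀ᶠ z : V × V in 𝓝 (x₀, (0 : V)), √(tau G U E z) < 1 / 4 :=
    htc.eventually_lt_const (by simp [tau_zero])
  have e6 : ∀ᶠ z : V × V in 𝓝 (x₀, (0 : V)), 1 / 2 < ⟪F z, z.1⟫ := by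
    have h : ContinuousAt (fun z : V × V => ⟪F z, z.1⟫) (x₀, (0 : V)) :=
      hFc.inner continuousAt_fst
    refine h.eventually_const_lt ?_
    change 1 / 2 < ⟪F (x₀, (0 : V)), x₀⟫
    rw [hF0, real_inner_self_eq_norm_sq, hx₁]
    norm_num
  have e7 : ∀ᶠ z : V × V in 𝓝 (x₀, (0 : V)), |⟪z.1, z.2⟫| < 1 / 2 := by
    have h : ContinuousAt (fun z : V × V => |⟪z.1, z.2⟫|) (x₀, (0 : V)) :=
      (continuousAt_fst.inner continuousAt_snd).abs
    exact h.eventually_lt_const (by simp)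
  have hO := ((((((e1.and e2).and e3).and e4).and e5).and e6).and e7)
  have hO2 := Filter.image_mem_map (m := Psi) hO
  rw [hmap', Metric.mem_nhds_iff] at hO2
  obtain ⟨ρ, hρ, hO2⟩ := hO2
  refine ⟨ρ, hρ, ?_⟩
  intro x' x'' hx'1 hx''1 hd' hd'' hne
  obtain ⟨z, ⟨⟨⟨⟨⟨⟨z1, z2⟩, z3⟩, z4⟩, z5⟩, z6⟩, z7⟩, hz⟩ :=
    hO2 (show (x', x'') ∈ Metric.ball (x₀, x₀) ρ from max_lt hd' hd'')
  have hz1 : z.1 = x' := congrArg Prod.fst hz
  have hz2 : F z + ⟪z.1, z.2⟫ • z.1 = x'' := congrArg Prod.snd hz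
  rw [hz1] at z1 z2 z6 z7 hz2
  have hx'0 : x' ≠ 0 := hD.ne_zero x' z1
  have hE' : 0 < E - U x' := sub_pos.mpr (hD.lt x' z1)
  set w := wp z with hw
  have hxw : ⟪x', w⟫ = 0 := by
    rw [hw, wp, hz1, inner_sub_right, inner_smul_right, real_inner_self_eq_norm_sq, hx'1]
    ring
  -- the norm argument
  have hnorm : ‖F z‖ = 1 → F z = x'' := by
    intro hFn
    set c := ⟪x', z.2⟫ with hc
    have h1 : ‖x''‖ ^ 2 = ‖F z‖ ^ 2 + 2 * (c * ⟪F z, x'⟫) + c ^ 2 * ‖x'‖ ^ 2 := by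
      rw [← hz2, norm_add_sq_real, inner_smul_right, norm_smul, mul_pow, Real.norm_eq_abs, sq_abs]
    rw [hx''1, hFn, hx'1] at h1
    have h2 : c * (2 * ⟪F z, x'⟫ + c) = 0 := by nlinarith
    have h3 : 2 * ⟪F z, x'⟫ + c ≠ 0 := by
      have := (abs_lt.mp z7).1
      intro h
      linarith
    have h4 : c = 0 := by
      rcases mul_eq_zero.mp h2 with h | h
      · exact h
      · exact absurd h h3
    rw [← hz2, h4, zero_smul, add_zero]
  by_cases hw0 : w = 0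
  · exfalso
    have hS1 : S z = ((x', (0 : V)), (0 : ℝ)) := by
      change ((z.1, wp z), tau G U E z) = _
      rw [tau, ← hw, hw0, hz1]
      simp
    have hFz : F z = x' := by
      change (Φ 1 (S z)).1.1 = x'
      rw [hS1, heq x' hx'0]
    have := hnorm (by rw [hFz, hx'1])
    exact hne (hFz.symm.trans this)
  · have hpos : 0 < ⟪w, G x' w⟫ := by
      apply hG.pos x' w hx'0
      intro c hc
      rw [hc, inner_smul_right, real_inner_self_eq_norm_sq, hx'1] at hxw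
      apply hw0
      have : c = 0 := by simpa using hxw
      rw [hc, this, zero_smul]
    have htau : tau G U E z = (1 / 2) * ⟪w, G x' w⟫ * (E - U x')⁻¹ := by
      rw [tau, ← hw, hz1]
    have htpos : 0 < tau G U E z := by
      rw [htau]
      have := inv_pos.mpr hE'
      positivity
    set c := √(tau G U E z) with hc
    have hcpos : 0 < c := Real.sqrt_pos.mpr htpos
    have hc2 : c ^ 2 = tau G U E z := Real.sq_sqrt htpos.le
    have hES : (x', c⁻¹ • w) ∈ ES G U E D := by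
      refine ⟨⟨hx'1, ?_⟩, z1, ?_⟩
      · change ⟪x', c⁻¹ • w⟫ = 0
        rw [inner_smul_right, hxw, mul_zero]
      · change (1 / 2) * ⟪c⁻¹ • w, G x' (c⁻¹ • w)⟫ + U x' = E
        rw [map_smul, inner_smul_left, inner_smul_right]
        have h1 : ⟪w, G x' w⟫ = 2 * c ^ 2 * (E - U x') := by
          rw [hc2, htau]
          field_simp
        rw [h1]
        simp only [conj_trivial]
        field_simp
        ring
    refine ⟨c⁻¹ • w, c, hES, ?_⟩
    set γ : ℝ → (V × V) × ℝ := fun t =>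
      (((φ (c * t) (x', c⁻¹ • w)).1, c • (φ (c * t) (x', c⁻¹ • w)).2), c ^ 2) with hγ
    have hγd : ∀ t, HasDerivAt γ (XE G U (γ t)) t := fun t =>
      scaled_curve hG hU hD hφ hES c t
    have hγ0 : γ 0 = S z := by
      simp only [hγ, mul_zero, hφ.zero]
      change ((x', c • c⁻¹ • w), c ^ 2) = ((z.1, wp z), tau G U E z)
      rw [smul_smul, mul_inv_cancel₀ hcpos.ne', one_smul, hc2, hz1]
    have hγball : ∀ t ∈ Icc (0 : ℝ) 1, f (γ t) = 1 := by
      intro t ht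
      apply f.one_of_mem_closedBall
      rw [Metric.mem_closedBall]
      have hct : 0 ≤ c * t := mul_nonneg hcpos.le ht.1
      have h1 := hspeed (x', c⁻¹ • w) (c * t) hct
      have h2 : C * (c * t) ≤ 1 / 16 := by
        have : C * (c * t) ≤ C * c :=
          mul_le_mul_of_nonneg_left (mul_le_of_le_one_right hcpos.le ht.2) hC0
        exact this.trans z4.le
      have h3 : dist (φ (c * t) (x', c⁻¹ • w)).1 x' ≤ 1 / 16 :=
        ((le_max_left _ _).trans h1).trans h2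
      have h4 : dist (φ (c * t) (x', c⁻¹ • w)).2 (c⁻¹ • w) ≤ 1 / 16 :=
        ((le_max_right _ _).trans h1).trans h2
      have h5 : dist (γ t).1.1 x₀ ≤ 1 / 4 := by
        have := dist_triangle (φ (c * t) (x', c⁻¹ • w)).1 x' x₀
        change dist (φ (c * t) (x', c⁻¹ • w)).1 x₀ ≤ 1 / 4
        linarith
      have h6 : dist (γ t).1.2 (0 : V) ≤ 1 / 4 :=
        lc_aux c w (φ (c * t) (x', c⁻¹ • w)).2 hcpos z5 z3 h4
      have h9 : dist (γ t).2 (0 : ℝ) ≤ 1 / 4 := by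
        change dist (c ^ 2) (0 : ℝ) ≤ 1 / 4
        rw [Real.dist_eq, sub_zero, abs_of_nonneg (by positivity)]
        exact (pow_le_pow_left₀ hcpos.le z5.le 2).trans (by norm_num)
      exact max_le (max_le h5 h6) h9
    have h10 := huniq γ 0 1 le_rfl zero_le_one (by
      intro t ht
      have h11 : vh (γ t) = XE G U (γ t) := by
        change f (γ t) • XE G U (γ t) = _
        rw [hγball t ht, one_smul]
      rw [h11]
      exact (hγd t).hasDerivWithinAt) 1 ⟨zero_le_one, le_rfl⟩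
    rw [hγ0] at h10
    have h12 : F z = (φ c (x', c⁻¹ • w)).1 := by
      change (Φ 1 (S z)).1.1 = _
      rw [← h10]
      simp only [hγ, mul_one]
    have h13 : ‖F z‖ = 1 := by
      rw [h12]
      exact (hφ.mem c _ hES.1).1
    rw [← h12]
    exact hnorm h13

end SI

end Pool.Agent.Helper197
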