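import Mathlib

open Set Metric

namespace Pool.Agent.Helper197

namespace SI

variable {E : Type*} [NormedAddCommGroup E] [NormedSpace ℝ E]

section basic

variable {v : E → E} {K : NNReal} {B : ℝ} {φ : ℝ → E → E}

lemma flow_time (hB : ∀ z, ‖v z‖ ≤ B)
    (hφ : ∀ z t, HasDerivAt (fun s => φ s z) (v (φ t z)) t) (z : E) (s t : ℝ) :
    ‖φ t z - φ s z‖ ≤ B * |t - s| := by
  have := convex_univ.norm_image_sub_le_of_norm_hasDerivWithin_le (s := (univ : Set ℝ))
    (f := fun s => φ s z) (f' := fun t => v (φ t z)) (C := B)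
    (fun x _ => (hφ z x).hasDerivWithinAt) (fun x _ => hB _) (mem_univ s) (mem_univ t)
  rwa [Real.norm_eq_abs] at this

lemma flow_init_pos (hK : LipschitzWith K v) (h0 : ∀ z, φ 0 z = z)
    (hφ : ∀ z t, HasDerivAt (fun s => φ s z) (v (φ t z)) t) (z w : E) (t : ℝ) (ht : 0 ≤ t) :
    dist (φ t z) (φ t w) ≤ Real.exp (K * t) * dist z w := by
  have := dist_le_of_trajectories_ODE (v := fun _ => v) (K := K) (f := fun s => φ s z)
    (g := fun s => φ s w) (a := 0) (b := t) (δ := dist z w) (fun _ => hK)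
    (fun s _ => (hφ z s).continuousAt.continuousWithinAt)
    (fun s _ => (hφ z s).hasDerivWithinAt)
    (fun s _ => (hφ w s).continuousAt.continuousWithinAt)
    (fun s _ => (hφ w s).hasDerivWithinAt) (by rw [h0, h0]) t ⟨ht, le_rfl⟩
  rw [sub_zero, mul_comm] at this
  exact this

lemma flow_neg (hφ : ∀ z t, HasDerivAt (fun s => φ s z) (v (φ t z)) t) :
    ∀ z t, HasDerivAt (fun s => φ (-s) z) (-v (φ (-t) z)) t := by
  intro z t
  have h : HasDerivAt (fun s => φ (-s) z) ((-1 : ℝ) • v (φ (-t) z)) t :=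
    (hφ z (-t)).scomp t (hasDerivAt_neg t)
  simpa using h

lemma flow_init (hK : LipschitzWith K v) (h0 : ∀ z, φ 0 z = z)
    (hφ : ∀ z t, HasDerivAt (fun s => φ s z) (v (φ t z)) t) (z w : E) (t : ℝ) :
    dist (φ t z) (φ t w) ≤ Real.exp (K * |t|) * dist z w := by
  rcases le_total 0 t with ht | ht
  · rw [abs_of_nonneg ht]
    exact flow_init_pos hK h0 hφ z w t ht
  · rw [abs_of_nonpos ht]
    have hK' : LipschitzWith K (fun z => - v z) := by
      have := hK.neg
      exact this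
    have := flow_init_pos (φ := fun s z => φ (-s) z) (v := fun z => - v z) hK'
      (fun z => by simp [h0]) (flow_neg hφ) z w (-t) (by linarith)
    simpa using this

lemma flow_add (hK : LipschitzWith K v) (h0 : ∀ z, φ 0 z = z)
    (hφ : ∀ z t, HasDerivAt (fun s => φ s z) (v (φ t z)) t) (s t : ℝ) (z : E) :
    φ (s + t) z = φ s (φ t z) := by
  have := ODE_solution_unique_univ (v := fun _ => v) (s := fun _ => univ) (K := K)
    (f := fun s => φ (s + t) z) (g := fun s => φ s (φ t z)) (t₀ := 0)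
    (fun _ => hK.lipschitzOnWith)
    (fun s => ⟨by
      have h : HasDerivAt (fun s => φ (s + t) z) ((1 : ℝ) • v (φ (s + t) z)) s :=
        HasDerivAt.scomp (g₁ := fun s => φ s z) (h := fun s => s + t) s (hφ z (s + t))
          ((hasDerivAt_id s).add_const t)
      simpa using h, trivial⟩)
    (fun s => ⟨hφ _ s, trivial⟩) (by simp [h0])
  exact congrFun this s

lemma flow_first (hK : LipschitzWith K v) (hB0 : 0 ≤ B) (hB : ∀ z, ‖v z‖ ≤ B)
    (h0 : ∀ z, φ 0 z = z)
    (hφ : ∀ z t, HasDerivAt (fun s => φ s z) (v (φ t z)) t) (z : E) (h : ℝ) :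
    ‖φ h z - z - h • v z‖ ≤ K * B * h ^ 2 := by
  have key := (convex_uIcc (0 : ℝ) h).norm_image_sub_le_of_norm_hasDerivWithin_le
    (f := fun s => φ s z - s • v z) (f' := fun s => v (φ s z) - v z) (C := K * (B * |h|))
    (fun x _ => by
      have h1 : HasDerivAt (fun s => φ s z - s • v z) (v (φ x z) - (1 : ℝ) • v z) x :=
        (hφ z x).sub ((hasDerivAt_id x).smul_const (v z))
      simpa using h1.hasDerivWithinAt)
    (fun x hx => by
      have h1 := hK.dist_le_mul (φ x z) z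
      rw [dist_eq_norm, dist_eq_norm] at h1
      refine h1.trans ?_
      apply mul_le_mul_of_nonneg_left _ K.2
      have h2 := flow_time hB hφ z 0 x
      rw [h0, sub_zero] at h2
      refine h2.trans ?_
      apply mul_le_mul_of_nonneg_left _ hB0
      have := abs_sub_left_of_mem_uIcc hx
      simpa using this)
    (left_mem_uIcc) (right_mem_uIcc)
  simp only [zero_smul, sub_zero, h0, Real.norm_eq_abs] at key
  have e : φ h z - z - h • v z = φ h z - h • v z - z := by abel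
  rw [e]
  refine key.trans (le_of_eq ?_)
  rw [← sq_abs h]; ring

end basic


section exist

variable [FiniteDimensional ℝ E]

lemma exists_curves (v : E → E) {K B : NNReal} (hK : LipschitzWith K v) (hB : ∀ z, ‖v z‖ ≤ B)
    (z : E) (n : ℕ) : ∃ α : ℝ → E, α 0 = z ∧
      ∀ t ∈ Ioo (-(n : ℝ)) n, HasDerivAt α (v (α t)) t := by
  have : CompleteSpace E := FiniteDimensional.complete ℝ E
  have h0 : (0 : ℝ) ∈ Icc (-(n : ℝ)) n := ⟨by simp, by simp⟩
  have hP : IsPicardLindelof (fun _ => v) (tmin := -(n : ℝ)) (tmax := n) ⟨0, h0⟩ z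
      (B * n) 0 B K := by
    apply IsPicardLindelof.of_time_independent
    · intro x _
      exact hB x
    · exact hK.lipschitzOnWith
    · simp
  obtain ⟨α, h1, h2⟩ := hP.exists_eq_forall_mem_Icc_hasDerivWithinAt₀
  refine ⟨α, h1, fun t ht => ?_⟩
  exact (h2 t (Ioo_subset_Icc_self ht)).hasDerivAt (Icc_mem_nhds ht.1 ht.2)

lemma exists_flow_aux (v : E → E) {K B : NNReal} (hK : LipschitzWith K v)
    (hB : ∀ z, ‖v z‖ ≤ B) :
    ∃ φ : ℝ → E → E, (∀ z, φ 0 z = z) ∧
      (∀ z t, HasDerivAt (fun s => φ s z) (v (φ t z)) t) := by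
  choose α h0 hα using fun z n => exists_curves v hK hB z n
  have huniq : ∀ z (m n : ℕ) (t : ℝ), |t| < m → |t| < n → α z m t = α z n t := by
    have key : ∀ z (m n : ℕ) (t : ℝ), m ≤ n → |t| < m → α z m t = α z n t := by
      intro z m n t hmn ht
      have hm : (0 : ℝ) < m := lt_of_le_of_lt (abs_nonneg t) ht
      have hmn' : (m : ℝ) ≤ n := by exact_mod_cast hmn
      refine ODE_solution_unique_of_mem_Ioo (v := fun _ => v) (s := fun _ => univ) (K := K)
        (a := -(m : ℝ)) (b := m) (t₀ := 0) (fun _ _ => hK.lipschitzOnWith)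
        ⟨by linarith, hm⟩ (fun s hs => ⟨hα z m s hs, trivial⟩)
        (fun s hs => ⟨hα z n s ⟨by linarith [hs.1], by linarith [hs.2]⟩, trivial⟩)
        (by rw [h0, h0]) (abs_lt.1 ht)
    intro z m n t hm hn
    rcases le_total m n with h | h
    · exact key z m n t h hm
    · exact (key z n m t h hn).symm
  refine ⟨fun t z => α z (⌊|t|⌋₊ + 1) t, fun z => h0 z _, ?_⟩
  intro z t
  set N := ⌊|t|⌋₊ + 1 with hN
  have htN : |t| < N := by
    rw [hN]; push_cast; exact Nat.lt_floor_add_one _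
  have hev : (fun s => α z (⌊|s|⌋₊ + 1) s) =ᶠ[nhds t] α z N := by
    have : ∀ᶠ s : ℝ in nhds t, |s| < (N : ℝ) := continuous_abs.continuousAt.eventually_lt
      continuousAt_const htN
    filter_upwards [this] with s hs
    apply huniq z _ _ s _ hs
    push_cast; exact Nat.lt_floor_add_one _
  exact (hα z N t (abs_lt.1 htN)).congr_of_eventuallyEq hev

/-- strict differentiability at time 0 -/
lemma flow_strict {v : E → E} {K : NNReal} (hK : LipschitzWith K v)
    {φ : ℝ → E → E} (h0 : ∀ z, φ 0 z = z)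
    (hφ : ∀ z t, HasDerivAt (fun s => φ s z) (v (φ t z)) t)
    (hcont : Continuous (fun q : ℝ × E => φ q.1 q.2)) (z : E) :
    HasStrictFDerivAt (fun q : ℝ × E => φ q.1 q.2)
        ((ContinuousLinearMap.toSpanSingleton ℝ (v z)).coprod (ContinuousLinearMap.id ℝ E))
        ((0 : ℝ), z) := by
  rw [hasStrictFDerivAt_iff_isLittleO, Asymptotics.isLittleO_iff]
  intro ε hε
  have hvc : Continuous (fun q : ℝ × E => v (φ q.1 q.2)) := hK.continuous.comp hcont
  -- first neighbourhood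
  obtain ⟨δ, hδ, hδv⟩ := Metric.continuousAt_iff.1 (hvc.continuousAt (x := ((0 : ℝ), z)))
    (ε / 2) (by positivity)
  simp only [h0] at hδv
  set M : ℝ := K * Real.exp (K * 1) with hM
  have hM0 : 0 ≤ M := by positivity
  obtain ⟨η, hη0, hη1, hη2, hη3⟩ : ∃ η : ℝ, 0 < η ∧ η ≤ δ ∧ η ≤ 1 ∧ M * η ≤ ε / 2 := by
    refine ⟨min δ (min 1 (ε / 2 / (M + 1))), by positivity, min_le_left _ _,
      (min_le_right _ _).trans (min_le_left _ _), ?_⟩
    have h1 : min δ (min 1 (ε / 2 / (M + 1))) ≤ ε / 2 / (M + 1) :=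
      (min_le_right _ _).trans (min_le_right _ _)
    calc M * min δ (min 1 (ε / 2 / (M + 1))) ≤ M * (ε / 2 / (M + 1)) :=
          mul_le_mul_of_nonneg_left h1 hM0
      _ = (M / (M + 1)) * (ε / 2) := by ring
      _ ≤ 1 * (ε / 2) := by
          apply mul_le_mul_of_nonneg_right _ (by positivity)
          rw [div_le_one (by positivity)]; linarith
      _ = ε / 2 := one_mul _
  have hball : Metric.ball (((0 : ℝ), z), ((0 : ℝ), z)) η ∈
      nhds ((((0 : ℝ), z), ((0 : ℝ), z)) : (ℝ × E) × (ℝ × E)) := Metric.ball_mem_nhds _ hη0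
  filter_upwards [hball] with p hp
  obtain ⟨⟨t1, z1⟩, ⟨t2, z2⟩⟩ := p
  rw [Metric.mem_ball, Prod.dist_eq, max_lt_iff, Prod.dist_eq, Prod.dist_eq, max_lt_iff,
    max_lt_iff] at hp
  obtain ⟨⟨ht1, hz1⟩, ⟨ht2, hz2⟩⟩ := hp
  have ht1' : |t1| < η := by simpa [Real.dist_eq] using ht1
  have ht2' : |t2| < η := by simpa [Real.dist_eq] using ht2
  -- first difference
  have A1 : ‖φ t1 z1 - φ t2 z1 - (t1 - t2) • v z‖ ≤ ε / 2 * |t1 - t2| := by
    have key := (convex_uIcc t2 t1).norm_image_sub_le_of_norm_hasDerivWithin_le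
      (f := fun s => φ s z1 - s • v z) (f' := fun s => v (φ s z1) - v z) (C := ε / 2)
      (fun x _ => by
        have h1 : HasDerivAt (fun s => φ s z1 - s • v z) (v (φ x z1) - (1 : ℝ) • v z) x :=
          (hφ z1 x).sub ((hasDerivAt_id x).smul_const (v z))
        simpa using h1.hasDerivWithinAt)
      (fun x hx => by
        have hx' : |x| < η := by
          rw [abs_lt] at ht1' ht2' ⊢
          rw [mem_uIcc] at hx
          rcases hx with hx | hx
          · exact ⟨by linarith [hx.1], by linarith [hx.2]⟩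
          · exact ⟨by linarith [hx.1], by linarith [hx.2]⟩
        have := hδv (x := (x, z1)) (by
          rw [Prod.dist_eq, max_lt_iff]
          refine ⟨?_, lt_of_lt_of_le hz1 hη1⟩
          simpa [Real.dist_eq] using lt_of_lt_of_le hx' hη1)
        rw [dist_eq_norm] at this
        exact this.le)
      (left_mem_uIcc) (right_mem_uIcc)
    simp only [Real.norm_eq_abs] at key
    have e : φ t1 z1 - φ t2 z1 - (t1 - t2) • v z =
      φ t1 z1 - t1 • v z - (φ t2 z1 - t2 • v z) := by rw [sub_smul]; abel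
    rw [e]
    exact key
  have A2 : ‖φ t2 z1 - φ t2 z2 - (z1 - z2)‖ ≤ ε / 2 * ‖z1 - z2‖ := by
    have key := (convex_uIcc (0 : ℝ) t2).norm_image_sub_le_of_norm_hasDerivWithin_le
      (f := fun s => φ s z1 - φ s z2) (f' := fun s => v (φ s z1) - v (φ s z2))
      (C := M * ‖z1 - z2‖)
      (fun x _ => ((hφ z1 x).sub (hφ z2 x)).hasDerivWithinAt)
      (fun x hx => by
        have hx' : |x| ≤ 1 := by
          have h3 : |x| ≤ |t2| := by simpa using abs_sub_left_of_mem_uIcc hx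
          linarith
        have h1 := hK.dist_le_mul (φ x z1) (φ x z2)
        have h2 := flow_init hK h0 hφ z1 z2 x
        rw [dist_eq_norm, dist_eq_norm] at h1
        rw [dist_eq_norm, dist_eq_norm] at h2
        refine h1.trans ?_
        rw [hM, mul_assoc]
        apply mul_le_mul_of_nonneg_left _ K.2
        refine h2.trans ?_
        apply mul_le_mul_of_nonneg_right _ (norm_nonneg _)
        apply Real.exp_le_exp.2
        exact mul_le_mul_of_nonneg_left hx' K.2)
      (left_mem_uIcc) (right_mem_uIcc)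
    simp only [h0, Real.norm_eq_abs, sub_zero] at key
    refine key.trans ?_
    calc M * ‖z1 - z2‖ * |t2| = M * |t2| * ‖z1 - z2‖ := by ring
      _ ≤ ε / 2 * ‖z1 - z2‖ := by
        apply mul_le_mul_of_nonneg_right _ (norm_nonneg _)
        exact (mul_le_mul_of_nonneg_left ht2'.le hM0).trans hη3
  have e : φ t1 z1 - φ t2 z2 - (((ContinuousLinearMap.toSpanSingleton ℝ (v z)).coprod
      (ContinuousLinearMap.id ℝ E)) ((t1, z1) - (t2, z2))) =
      (φ t1 z1 - φ t2 z1 - (t1 - t2) • v z) + (φ t2 z1 - φ t2 z2 - (z1 - z2)) := by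
    simp only [Prod.mk_sub_mk, ContinuousLinearMap.coprod_apply,
      ContinuousLinearMap.toSpanSingleton_apply, ContinuousLinearMap.id_apply]
    abel
  change ‖φ t1 z1 - φ t2 z2 - (((ContinuousLinearMap.toSpanSingleton ℝ (v z)).coprod
      (ContinuousLinearMap.id ℝ E)) ((t1, z1) - (t2, z2)))‖ ≤ ε * ‖((t1, z1) : ℝ × E) - (t2, z2)‖
  rw [e]
  have hn1 : |t1 - t2| ≤ ‖((t1, z1) : ℝ × E) - (t2, z2)‖ := by
    rw [Prod.mk_sub_mk, Prod.norm_mk]
    exact le_max_left _ _
  have hn2 : ‖z1 - z2‖ ≤ ‖((t1, z1) : ℝ × E) - (t2, z2)‖ := by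
    rw [Prod.mk_sub_mk, Prod.norm_mk]
    exact le_max_right _ _
  calc _ ≤ ‖φ t1 z1 - φ t2 z1 - (t1 - t2) • v z‖ + ‖φ t2 z1 - φ t2 z2 - (z1 - z2)‖ :=
        norm_add_le _ _
    _ ≤ ε / 2 * |t1 - t2| + ε / 2 * ‖z1 - z2‖ := add_le_add A1 A2
    _ ≤ ε / 2 * ‖((t1, z1) : ℝ × E) - (t2, z2)‖ + ε / 2 * ‖((t1, z1) : ℝ × E) - (t2, z2)‖ :=
        add_le_add (mul_le_mul_of_nonneg_left hn1 (by positivity))
          (mul_le_mul_of_nonneg_left hn2 (by positivity))
    _ = ε * ‖((t1, z1) : ℝ × E) - (t2, z2)‖ := by ring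

lemma flow_cont {v : E → E} {K : NNReal} {B : ℝ} (hK : LipschitzWith K v) (hB : ∀ z, ‖v z‖ ≤ B)
    {φ : ℝ → E → E} (h0 : ∀ z, φ 0 z = z)
    (hφ : ∀ z t, HasDerivAt (fun s => φ s z) (v (φ t z)) t) :
    Continuous (fun q : ℝ × E => φ q.1 q.2) := by
  rw [continuous_iff_continuousAt]
  rintro ⟨t0, z0⟩
  rw [ContinuousAt, tendsto_iff_dist_tendsto_zero]
  have hlim : Filter.Tendsto (fun q : ℝ × E => Real.exp (K * |q.1|) * dist q.2 z0 +
      B * |q.1 - t0|) (nhds (t0, z0)) (nhds 0) := by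
    have hc : Continuous (fun q : ℝ × E => Real.exp (K * |q.1|) * dist q.2 z0 +
      B * |q.1 - t0|) := by fun_prop
    have := hc.tendsto (t0, z0)
    simpa using this
  refine squeeze_zero (fun _ => dist_nonneg) (fun q => ?_) hlim
  refine (dist_triangle _ (φ q.1 z0) _).trans (add_le_add (flow_init hK h0 hφ _ _ _) ?_)
  rw [dist_eq_norm]
  exact flow_time hB hφ z0 t0 q.1

lemma consts (v : E → E) (hv : ContDiff ℝ 1 v) (hc : HasCompactSupport v) :
    ∃ K B : NNReal, LipschitzWith K v ∧ ∀ z, ‖v z‖ ≤ B := by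
  obtain ⟨K, hK⟩ := ContDiff.lipschitzWith_of_hasCompactSupport hc hv one_ne_zero
  obtain ⟨B, hB⟩ := hc.exists_bound_of_continuous hv.continuous
  refine ⟨K, B.toNNReal, hK, fun z => (hB z).trans (Real.le_coe_toNNReal B)⟩

/-- Global flow of a compactly supported vector field of class C^2, with the basic estimates.
The strict derivative at time 0 is the map (dt, dz) ↦ dt • v z + dz. -/
theorem exists_global_flow (v : E → E) (hv : ContDiff ℝ 2 v) (hc : HasCompactSupport v) :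
    ∃ φ : ℝ → E → E,
      (∀ z, φ 0 z = z) ∧
      (∀ z t, HasDerivAt (fun s => φ s z) (v (φ t z)) t) ∧
      (∀ s t z, φ (s + t) z = φ s (φ t z)) ∧
      (∃ L : ℝ, 0 ≤ L ∧ ∀ t z w, dist (φ t z) (φ t w) ≤ Real.exp (L * |t|) * dist z w) ∧
      Continuous (fun q : ℝ × E => φ q.1 q.2) ∧
      (∀ z, HasStrictFDerivAt (fun q : ℝ × E => φ q.1 q.2)
        ((ContinuousLinearMap.toSpanSingleton ℝ (v z)).coprod (ContinuousLinearMap.id ℝ E))
        ((0 : ℝ), z)) := by
  obtain ⟨K, B, hK, hB⟩ := consts v (hv.of_le (by norm_num)) hc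
  obtain ⟨φ, h0, hφ⟩ := exists_flow_aux v hK hB
  have hcont := flow_cont hK hB h0 hφ
  exact ⟨φ, h0, hφ, flow_add hK h0 hφ, ⟨K, K.2, fun t z w => flow_init hK h0 hφ z w t⟩,
    hcont, flow_strict hK h0 hφ hcont⟩

/-- Uniqueness of integral curves. -/
theorem flow_unique (v : E → E) (hv : ContDiff ℝ 1 v) (hc : HasCompactSupport v)
    (φ : ℝ → E → E) (h0 : ∀ z, φ 0 z = z)
    (hφ : ∀ z t, HasDerivAt (fun s => φ s z) (v (φ t z)) t)
    (c : ℝ → E) (a b : ℝ) (ha : a ≤ 0) (hb : 0 ≤ b)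
    (hcur : ∀ t ∈ Icc a b, HasDerivWithinAt c (v (c t)) (Icc a b) t) :
    ∀ t ∈ Icc a b, c t = φ t (c 0) := by
  obtain ⟨K, B, hK, hB⟩ := consts v hv hc
  have hcc : ContinuousOn c (Icc a b) := fun t ht => (hcur t ht).continuousWithinAt
  intro t ht
  rcases le_total 0 t with h | h
  · refine ODE_solution_unique_of_mem_Icc_right (v := fun _ => v) (s := fun _ => univ) (K := K)
      (a := 0) (b := b) (f := c) (g := fun s => φ s (c 0)) (fun _ _ => hK.lipschitzOnWith)
      (hcc.mono (Icc_subset_Icc_left ha)) (fun s hs => ?_) (fun _ _ => trivial)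
      (fun s _ => (hφ _ s).continuousAt.continuousWithinAt)
      (fun s _ => (hφ _ s).hasDerivWithinAt) (fun _ _ => trivial) (by rw [h0]) ⟨h, ht.2⟩
    have hs' : s ∈ Icc a b := ⟨ha.trans hs.1, hs.2.le⟩
    refine (hcur s hs').mono_of_mem_nhdsWithin ?_
    exact Filter.mem_of_superset (Icc_mem_nhdsGE_of_mem ⟨hs'.1, hs.2⟩) subset_rfl
  · refine ODE_solution_unique_of_mem_Icc_left (v := fun _ => v) (s := fun _ => univ) (K := K)
      (a := a) (b := 0) (f := c) (g := fun s => φ s (c 0)) (fun _ _ => hK.lipschitzOnWith)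
      (hcc.mono (Icc_subset_Icc_right hb)) (fun s hs => ?_) (fun _ _ => trivial)
      (fun s _ => (hφ _ s).continuousAt.continuousWithinAt)
      (fun s _ => (hφ _ s).hasDerivWithinAt) (fun _ _ => trivial) (by rw [h0]) ⟨ht.1, h⟩
    have hs' : s ∈ Icc a b := ⟨hs.1.le, hs.2.trans hb⟩
    refine (hcur s hs').mono_of_mem_nhdsWithin ?_
    exact Filter.mem_of_superset (Icc_mem_nhdsLE_of_mem ⟨hs.1, hs'.2⟩) subset_rfl

lemma taylor (w : E → E) (hw : ContDiff ℝ 1 w) {C : NNReal} (hC : LipschitzWith C (fderiv ℝ w))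
    (x y : E) : ‖w y - w x - fderiv ℝ w x (y - x)‖ ≤ C * ‖y - x‖ ^ 2 := by
  have key := (convex_segment x y).norm_image_sub_le_of_norm_hasFDerivWithin_le
    (f := fun u => w u - fderiv ℝ w x u) (f' := fun u => fderiv ℝ w u - fderiv ℝ w x)
    (C := C * ‖y - x‖) (𝕜 := ℝ)
    (fun u _ => (((hw.differentiable one_ne_zero) u).hasFDerivAt.sub
      (fderiv ℝ w x).hasFDerivAt).hasFDerivWithinAt)
    (fun u hu => by
      have h1 := hC.dist_le_mul u x
      rw [dist_eq_norm, dist_eq_norm] at h1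
      refine h1.trans ?_
      apply mul_le_mul_of_nonneg_left _ C.2
      obtain ⟨a, b, ha, hb, hab, rfl⟩ := hu
      have : a • x + b • y - x = b • (y - x) := by
        have : a = 1 - b := by linarith
        rw [this]; module
      rw [this, norm_smul, Real.norm_eq_abs, abs_of_nonneg hb]
      have hb1 : b ≤ 1 := by linarith
      exact mul_le_of_le_one_left (norm_nonneg _) hb1)
    (left_mem_segment ℝ x y) (right_mem_segment ℝ x y)
  have e : w y - w x - fderiv ℝ w x (y - x) = w y - fderiv ℝ w x y - (w x - fderiv ℝ w x x) := by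
    rw [map_sub]; abel
  rw [e]
  refine key.trans (le_of_eq ?_)
  ring

/-- the transport estimate -/
lemma transport (v w : E → E) {Kv Bv Kw C : NNReal} (hvK : LipschitzWith Kv v)
    (hvB : ∀ z, ‖v z‖ ≤ Bv) (hwK : LipschitzWith Kw w)
    (hv1 : ContDiff ℝ 1 v) (hw1 : ContDiff ℝ 1 w) (hC : LipschitzWith C (fderiv ℝ w))
    (φ ψ : ℝ → E → E)
    (hφ0 : ∀ z, φ 0 z = z) (hφ : ∀ z t, HasDerivAt (fun s => φ s z) (v (φ t z)) t)
    (hψ0 : ∀ z, ψ 0 z = z) (hψ : ∀ z t, HasDerivAt (fun s => ψ s z) (w (ψ t z)) t)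
    (O : Set E) (hbr : ∀ z ∈ O, fderiv ℝ v z (w z) = fderiv ℝ w z (v z))
    (z : E) (s₀ : ℝ) (hs₀ : 0 ≤ s₀) (hin : ∀ s ∈ Icc 0 s₀, ψ s z ∈ O) (h : ℝ) :
    ‖ψ s₀ (φ h z) - ψ s₀ z - h • v (ψ s₀ z)‖ ≤
      h ^ 2 * gronwallBound (Kv * Bv) (Kw + 1) (C * (Real.exp (Kw * s₀) * Bv) ^ 2) s₀ := by
  have hg := norm_le_gronwallBound_of_norm_deriv_right_le
    (f := fun s => ψ s (φ h z) - ψ s z - h • v (ψ s z))
    (f' := fun s => w (ψ s (φ h z)) - w (ψ s z) - h • fderiv ℝ v (ψ s z) (w (ψ s z)))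
    (δ := Kv * Bv * h ^ 2) (K := Kw + 1) (ε := C * (Real.exp (Kw * s₀) * Bv) ^ 2 * h ^ 2)
    (a := 0) (b := s₀)
    (fun s _ => by
      have h1 := (hψ (φ h z) s).continuousAt
      have h2 := (hψ z s).continuousAt
      have h3 : ContinuousAt (fun s => v (ψ s z)) s := hvK.continuous.continuousAt.comp h2
      exact ((h1.sub h2).sub (h3.const_smul h)).continuousWithinAt)
    (fun s _ => by
      have h1 := hψ (φ h z) s
      have h2 := hψ z s
      have h3 : HasDerivAt (fun s => v (ψ s z)) (fderiv ℝ v (ψ s z) (w (ψ s z))) s :=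
        ((hv1.differentiable one_ne_zero) (ψ s z)).hasFDerivAt.comp_hasDerivAt s h2
      exact ((h1.sub h2).sub (h3.const_smul h)).hasDerivWithinAt)
    (by
      simp only [hψ0]
      exact flow_first hvK Bv.2 hvB hφ0 hφ z h)
    (fun s hs => by
      set X := ψ s z with hX
      set Y := ψ s (φ h z) with hY
      have hXO : X ∈ O := hin s ⟨hs.1, hs.2.le⟩
      have e : w Y - w X - h • fderiv ℝ v X (w X) =
          (w Y - w X - fderiv ℝ w X (Y - X)) + fderiv ℝ w X (Y - X - h • v X) := by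
        rw [hbr X hXO]
        simp only [map_sub, map_smul]; abel
      change ‖w Y - w X - h • fderiv ℝ v X (w X)‖ ≤ _
      rw [e]
      have b1 := taylor w hw1 hC X Y
      have b2 : ‖Y - X‖ ≤ Real.exp (Kw * s₀) * Bv * |h| := by
        have h1 := flow_init hwK hψ0 hψ (φ h z) z s
        rw [dist_eq_norm, dist_eq_norm] at h1
        have h2 := flow_time hvB hφ z 0 h
        rw [hφ0, sub_zero] at h2
        refine h1.trans ?_
        rw [mul_assoc]
        apply mul_le_mul _ h2 (norm_nonneg _) (Real.exp_nonneg _)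
        apply Real.exp_le_exp.2
        apply mul_le_mul_of_nonneg_left _ Kw.2
        rw [abs_of_nonneg hs.1]
        exact hs.2.le
      have b3 : C * ‖Y - X‖ ^ 2 ≤ C * (Real.exp (Kw * s₀) * Bv) ^ 2 * h ^ 2 := by
        rw [mul_assoc]
        apply mul_le_mul_of_nonneg_left _ C.2
        rw [← sq_abs h, ← mul_pow]
        exact pow_le_pow_left₀ (norm_nonneg _) b2 2
      have b4 : ‖fderiv ℝ w X‖ ≤ Kw := norm_fderiv_le_of_lipschitz ℝ hwK
      have b5 : ‖fderiv ℝ w X (Y - X - h • v X)‖ ≤ Kw * ‖Y - X - h • v X‖ :=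
        ((fderiv ℝ w X).le_opNorm _).trans (mul_le_mul_of_nonneg_right b4 (norm_nonneg _))
      refine (norm_add_le _ _).trans ?_
      have b6 : 0 ≤ ‖Y - X - h • v X‖ := norm_nonneg _
      calc _ ≤ C * (Real.exp (Kw * s₀) * Bv) ^ 2 * h ^ 2 + Kw * ‖Y - X - h • v X‖ :=
            add_le_add (b1.trans b3) b5
        _ ≤ (Kw + 1) * ‖Y - X - h • v X‖ + C * (Real.exp (Kw * s₀) * Bv) ^ 2 * h ^ 2 := by
            linarith)
    s₀ ⟨hs₀, le_rfl⟩
  refine hg.trans (le_of_eq ?_)
  have hne : (Kw : ℝ) + 1 ≠ 0 := by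
    have := Kw.2
    positivity
  rw [gronwallBound_of_K_ne_0 hne, gronwallBound_of_K_ne_0 hne, sub_zero]
  ring

/-- Flows of two commuting vector fields commute (local version: commutation is only assumed on
an open set `O` containing the relevant points). -/
theorem flow_commute (v w : E → E) (hv : ContDiff ℝ 2 v) (hvc : HasCompactSupport v)
    (hw : ContDiff ℝ 2 w) (hwc : HasCompactSupport w)
    (φ ψ : ℝ → E → E)
    (hφ0 : ∀ z, φ 0 z = z) (hφ : ∀ z t, HasDerivAt (fun s => φ s z) (v (φ t z)) t)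
    (hψ0 : ∀ z, ψ 0 z = z) (hψ : ∀ z t, HasDerivAt (fun s => ψ s z) (w (ψ t z)) t)
    (O : Set E) (hO : IsOpen O)
    (hbr : ∀ z ∈ O, fderiv ℝ v z (w z) = fderiv ℝ w z (v z))
    (z : E) (T s₀ : ℝ)
    (hin : ∀ t ∈ uIcc 0 T, ∀ s ∈ uIcc 0 s₀, ψ s (φ t z) ∈ O) :
    ψ s₀ (φ T z) = φ T (ψ s₀ z) := by
  have hv1 : ContDiff ℝ 1 v := hv.of_le (by norm_num)
  have hw1 : ContDiff ℝ 1 w := hw.of_le (by norm_num)
  obtain ⟨Kv, Bv, hvK, hvB⟩ := consts v hv1 hvc
  obtain ⟨Kw, Bw, hwK, hwB⟩ := consts w hw1 hwc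
  have hfw : ContDiff ℝ 1 (fderiv ℝ w) := hw.fderiv_right (by norm_num)
  obtain ⟨C, hC⟩ := ContDiff.lipschitzWith_of_hasCompactSupport (hwc.fderiv (𝕜 := ℝ)) hfw one_ne_zero
  -- the estimate with both signs of s₀
  have hest : ∀ z1 : E, (∀ s ∈ uIcc 0 s₀, ψ s z1 ∈ O) → ∃ M : ℝ, ∀ h : ℝ,
      ‖ψ s₀ (φ h z1) - ψ s₀ z1 - h • v (ψ s₀ z1)‖ ≤ h ^ 2 * M := by
    intro z1 hz1
    rcases le_total 0 s₀ with hs | hs
    · refine ⟨_, fun h => transport v w hvK hvB hwK hv1 hw1 hC φ ψ hφ0 hφ hψ0 hψ O hbr z1 s₀ hs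
        (fun s hs' => hz1 s (by rwa [uIcc_of_le hs])) h⟩
    · have hwK' : LipschitzWith Kw (fun z => - w z) := hwK.neg
      have hC' : LipschitzWith C (fderiv ℝ (fun z => - w z)) := by
        have : fderiv ℝ (fun z => - w z) = fun z => - fderiv ℝ w z := by
          funext x
          exact fderiv_fun_neg
        rw [this]
        exact hC.neg
      have hbr' : ∀ z ∈ O, fderiv ℝ v z (- w z) = fderiv ℝ (fun z => - w z) z (v z) := by
        intro x hx
        have : fderiv ℝ (fun z => - w z) x = - fderiv ℝ w x := fderiv_fun_neg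
        rw [this, map_neg, hbr x hx]
        rfl
      refine ⟨gronwallBound (Kv * Bv) (Kw + 1) (C * (Real.exp (Kw * (-s₀)) * Bv) ^ 2) (-s₀),
        fun h => ?_⟩
      have := transport v (fun z => - w z) hvK hvB hwK' hv1 hw1.neg hC' φ (fun s z => ψ (-s) z)
        hφ0 hφ (fun x => by simp [hψ0]) (flow_neg hψ) O hbr' z1 (-s₀) (by linarith)
        (fun s hs' => hz1 (-s) (by
          rw [uIcc_of_ge hs]
          exact ⟨by linarith [hs'.2], by linarith [hs'.1]⟩)) h
      simp only [neg_neg] at this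
      exact this
  -- derivative of the curve
  have hder : ∀ t ∈ uIcc 0 T, HasDerivAt (fun t => ψ s₀ (φ t z)) (v (ψ s₀ (φ t z))) t := by
    intro t ht
    obtain ⟨M, hM⟩ := hest (φ t z) (fun s hs => hin t ht s hs)
    rw [hasDerivAt_iff_isLittleO_nhds_zero]
    have hO2 : (fun h => ψ s₀ (φ (t + h) z) - ψ s₀ (φ t z) - h • v (ψ s₀ (φ t z))) =O[nhds 0]
        (fun h : ℝ => h ^ 2) := by
      refine Asymptotics.IsBigO.of_bound (max M 0) (Filter.Eventually.of_forall fun h => ?_)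
      rw [add_comm t h, flow_add hvK hφ0 hφ h t z]
      refine (hM h).trans ?_
      rw [Real.norm_eq_abs, abs_of_nonneg (sq_nonneg h), mul_comm]
      exact mul_le_mul_of_nonneg_right (le_max_left _ _) (sq_nonneg h)
    refine hO2.trans_isLittleO ?_
    exact Asymptotics.isLittleO_pow_id (by norm_num)
  have huni := flow_unique v hv1 hvc φ hφ0 hφ (fun t => ψ s₀ (φ t z)) (min 0 T) (max 0 T)
    (min_le_left _ _) (le_max_left _ _) (fun t ht => (hder t ht).hasDerivWithinAt) T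
    ⟨min_le_right _ _, le_max_right _ _⟩
  simpa [hφ0] using huni

end exist

end SI

end Pool.Agent.Helper197
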