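import Pool.Agent.Helper197.Alg
import Pool.Agent.Helper197.Ode

open Set Topology
open scoped RealInnerProductSpace

noncomputable section

namespace Pool.Agent.Helper197

namespace SI


theorem cutoff {K O : Set (V × V)} (hK : IsCompact K) (hO : IsOpen O) (hKO : K ⊆ O) :
    ∃ χ : V × V → ℝ, ContDiff ℝ ((⊤ : ℕ∞) : WithTop ℕ∞) χ ∧ HasCompactSupport χ ∧ tsupport χ ⊆ O ∧
      ∃ W : Set (V × V), IsOpen W ∧ K ⊆ W ∧ ∀ z ∈ W, χ z = 1 := by
  obtain ⟨L, hL, hKL, hLO⟩ := exists_compact_between hK hO hKO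
  obtain ⟨f, hf1, hf0, _⟩ := exists_contMDiffMap_one_nhds_of_subset_interior (n := (⊤ : ℕ∞))
    (modelWithCornersSelf ℝ (V × V)) hK.isClosed hKL
  have hsupp : Function.support f ⊆ L := by
    intro z hz
    by_contra h
    exact hz (hf0 z h)
  have hts : tsupport f ⊆ L := closure_minimal hsupp hL.isClosed
  refine ⟨f, f.contMDiff.contDiff, HasCompactSupport.intro hL (fun z hz => hf0 z hz), hts.trans hLO, ?_⟩
  rw [eventually_nhdsSet_iff_exists] at hf1
  obtain ⟨W, hW, hKW, h1⟩ := hf1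
  exact ⟨W, hW, hKW, h1⟩

theorem cut_props {Q : V × V → ℝ} (hQ : Basic Q) {K : Set (V × V)} (hK : IsCompact K) (hKO : K ⊆ Om) :
    ∃ w : V × V → V × V, ContDiff ℝ ((⊤ : ℕ∞) : WithTop ℕ∞) w ∧ HasCompactSupport w ∧
      (∀ z ∈ K, w =ᶠ[𝓝 z] XF Q) ∧
      (∀ z : V × V, ⟪z.1, (w z).1⟫ = 0 ∧ ⟪z.2, (w z).1⟫ + ⟪z.1, (w z).2⟫ = 0) ∧
      (∀ z : V × V, ∃ c : ℝ, w z = c • XF Q z) := by
  obtain ⟨χ, hχ, hc, ht, W, hW, hKW, h1⟩ := cutoff hK isOpen_Om hKO
  refine ⟨fun z => χ z • XF Q z, ?_, ?_, ?_, ?_, ?_⟩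
  · rw [contDiff_iff_contDiffAt]
    intro z
    by_cases hz : z ∈ Om
    · exact hχ.contDiffAt.smul ((contDiffOn_XF hQ).contDiffAt (isOpen_Om.mem_nhds hz))
    · have hz' : z ∉ tsupport χ := fun h => hz (ht h)
      have : (fun z => χ z • XF Q z) =ᶠ[𝓝 z] fun _ => 0 := by
        filter_upwards [(isClosed_tsupport χ).isOpen_compl.mem_nhds hz'] with y hy
        rw [image_eq_zero_of_notMem_tsupport hy, zero_smul]
      exact contDiffAt_const.congr_of_eventuallyEq this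
  · exact hc.smul_right
  · intro z hz
    filter_upwards [hW.mem_nhds (hKW hz)] with y hy
    rw [h1 y hy, one_smul]
  · intro z
    by_cases hz : z ∈ Om
    · have a := hQ.radial_p hz
      have b := hQ.radial_x hz
      refine ⟨?_, ?_⟩
      · show ⟪z.1, χ z • gp Q z⟫ = 0
        rw [inner_smul_right, a, mul_zero]
      · show ⟪z.2, χ z • gp Q z⟫ + ⟪z.1, χ z • (- gx Q z)⟫ = 0
        rw [inner_smul_right, inner_smul_right, inner_neg_right, b]
        ring
    · have hz' : z ∉ tsupport χ := fun h => hz (ht h)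
      have e : χ z = 0 := image_eq_zero_of_notMem_tsupport hz'
      simp [e]
  · intro z; exact ⟨χ z, rfl⟩

theorem energy_compact {G : V → V →L[ℝ] V} {U : V → ℝ} (hG : Met G) (hU : Pot U) (E : ℝ) :
    IsCompact {z | z ∈ N ∧ Ham G U z ≤ E} ∧ {z | z ∈ N ∧ Ham G U z ≤ E} ⊆ Om := by
  have hNOm : N ⊆ Om := by
    intro z hz h0
    have := hz.1
    rw [h0, norm_zero] at this
    exact zero_ne_one this
  have hsub : {z | z ∈ N ∧ Ham G U z ≤ E} ⊆ Om := fun z hz => hNOm hz.1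
  refine ⟨?_, hsub⟩
  have hNc : IsClosed N := by
    apply IsClosed.inter
    · exact isClosed_eq (continuous_fst.norm) continuous_const
    · exact isClosed_eq (continuous_fst.inner continuous_snd) continuous_const
  have hHc : ContinuousOn (Ham G U) Om := (Basic.ham hG hU).smooth.continuousOn
  have hclosed : IsClosed {z | z ∈ N ∧ Ham G U z ≤ E} := by
    have : {z | z ∈ N ∧ Ham G U z ≤ E} = N ∩ (Ham G U) ⁻¹' (Iic E) := rfl
    rw [this]
    exact (hHc.mono hNOm).preimage_isClosed_of_isClosed hNc isClosed_Iic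
  -- coercivity
  have hSc : IsCompact {z : V × V | ‖z.1‖ = 1 ∧ ‖z.2‖ = 1 ∧ ⟪z.1, z.2⟫ = 0} := by
    apply IsCompact.of_isClosed_subset ((isCompact_closedBall (0:V) 1).prod (isCompact_closedBall (0:V) 1))
    · apply IsClosed.inter (isClosed_eq (continuous_fst.norm) continuous_const)
      exact IsClosed.inter (isClosed_eq (continuous_snd.norm) continuous_const)
        (isClosed_eq (continuous_fst.inner continuous_snd) continuous_const)
    · intro z hz
      refine ⟨?_, ?_⟩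
      · simp [hz.1]
      · simp [hz.2.1]
  have hGc : ContinuousOn (fun z : V × V => ⟪z.2, G z.1 z.2⟫) Om := by
    have h1 : ContinuousOn (fun z : V × V => G z.1) Om :=
      hG.smooth.continuousOn.comp continuous_fst.continuousOn (fun z hz => hz)
    exact continuous_snd.continuousOn.inner (h1.clm_apply continuous_snd.continuousOn)
  obtain ⟨c, hc0, hc⟩ : ∃ c : ℝ, 0 < c ∧ ∀ z : V × V, ‖z.1‖ = 1 → ‖z.2‖ = 1 → ⟪z.1, z.2⟫ = 0 → c ≤ ⟪z.2, G z.1 z.2⟫ := by
    rcases Set.eq_empty_or_nonempty {z : V × V | ‖z.1‖ = 1 ∧ ‖z.2‖ = 1 ∧ ⟪z.1, z.2⟫ = 0} with he | hne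
    · refine ⟨1, one_pos, ?_⟩
      intro z h1 h2 h3
      exact absurd (show z ∈ {z : V × V | ‖z.1‖ = 1 ∧ ‖z.2‖ = 1 ∧ ⟪z.1, z.2⟫ = 0} from ⟨h1, h2, h3⟩) (by rw [he]; simp)
    · have hsubO : {z : V × V | ‖z.1‖ = 1 ∧ ‖z.2‖ = 1 ∧ ⟪z.1, z.2⟫ = 0} ⊆ Om := by
        intro z hz h0
        have := hz.1
        rw [h0, norm_zero] at this
        exact zero_ne_one this
      obtain ⟨z, hz, hmin⟩ := hSc.exists_isMinOn hne (hGc.mono hsubO)
      refine ⟨⟪z.2, G z.1 z.2⟫, ?_, fun y h1 h2 h3 => hmin ⟨h1, h2, h3⟩⟩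
      apply hG.pos z.1 z.2 (hsubO hz)
      intro a ha
      have h3 := hz.2.2
      rw [ha, inner_smul_right, real_inner_self_eq_norm_sq, hz.1] at h3
      have : a = 0 := by simpa using h3
      have h4 := hz.2.1
      rw [ha, this, zero_smul, norm_zero] at h4
      exact zero_ne_one h4
  have hUc : ContinuousOn U (Metric.sphere (0:V) 1) := by
    refine hU.smooth.continuousOn.mono ?_
    intro x hx h0
    rw [h0] at hx
    simp at hx
  obtain ⟨m, hm⟩ := (isCompact_sphere (0:V) 1).bddBelow_image hUc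
  have hm' : ∀ x : V, ‖x‖ = 1 → m ≤ U x := by
    intro x hx
    exact hm (Set.mem_image_of_mem U (by simpa using hx))
  -- bound
  have hbound : {z | z ∈ N ∧ Ham G U z ≤ E} ⊆
      (Metric.closedBall (0:V) 1) ×ˢ (Metric.closedBall (0:V) (Real.sqrt (2 * |E - m| / c))) := by
    rintro ⟨x, p⟩ ⟨⟨hx, hxp⟩, hH⟩
    simp only at hx hxp
    refine ⟨by simp [hx], ?_⟩
    simp only [mem_closedBall_zero_iff]
    by_cases hp : p = 0
    · rw [hp, norm_zero]; positivity
    have hpn : 0 < ‖p‖ := norm_pos_iff.mpr hp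
    have h1 := hc (x, (‖p‖)⁻¹ • p) hx (by
      simp only
      rw [norm_smul, norm_inv, norm_norm, inv_mul_cancel₀ hpn.ne']) (by
      simp only
      rw [inner_smul_right, hxp, mul_zero])
    simp only at h1
    rw [map_smul, inner_smul_left, inner_smul_right] at h1
    simp only [conj_trivial] at h1
    have h2 : c * ‖p‖ ^ 2 ≤ ⟪p, G x p⟫ := by
      have h3 : ‖p‖⁻¹ * (‖p‖⁻¹ * ⟪p, G x p⟫) = ⟪p, G x p⟫ / ‖p‖ ^ 2 := by
        field_simp
      rw [h3, le_div_iff₀ (by positivity)] at h1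
      exact h1
    have h4 : Ham G U (x, p) = (1/2) * ⟪p, G x p⟫ + U x := rfl
    have h5 := hm' x hx
    have h6 : ‖p‖ ^ 2 ≤ 2 * |E - m| / c := by
      rw [le_div_iff₀ hc0]
      have := le_abs_self (E - m)
      linarith
    exact Real.le_sqrt_of_sq_le h6
  exact IsCompact.of_isClosed_subset ((isCompact_closedBall (0:V) 1).prod (isCompact_closedBall (0:V) _)) hclosed hbound


theorem exists_HFlow {G : V → V →L[ℝ] V} {U : V → ℝ} (hG : Met G) (hU : Pot U) (E : ℝ) :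
    ∃ v φ, HFlow G U E v φ := by
  obtain ⟨hKc, hKO⟩ := energy_compact hG hU E
  obtain ⟨v, hv, hcs, heq, horth, hpar⟩ := cut_props (Basic.ham hG hU) hKc hKO
  obtain ⟨φ, h0, hd, hadd, hlip, hcont, hstrict⟩ := exists_global_flow v (contDiff_infty.mp hv 2) hcs
  have hmem : ∀ t, ∀ z ∈ N, φ t z ∈ N := by
    intro t z hz
    have hx : ∀ t, HasDerivAt (fun s => (φ s z).1) (v (φ t z)).1 t := fun t => (hd z t).fst
    have hp : ∀ t, HasDerivAt (fun s => (φ s z).2) (v (φ t z)).2 t := fun t => (hd z t).snd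
    have e1 : ∀ s t, ⟪(φ s z).1, (φ s z).1⟫ = ⟪(φ t z).1, (φ t z).1⟫ := by
      apply is_const_of_deriv_eq_zero
      · intro t
        exact ((hx t).inner ℝ (hx t)).differentiableAt
      · intro t
        rw [((hx t).inner ℝ (hx t)).deriv]
        have := (horth (φ t z)).1
        rw [this, real_inner_comm, this, add_zero]
    have e2 : ∀ s t, ⟪(φ s z).1, (φ s z).2⟫ = ⟪(φ t z).1, (φ t z).2⟫ := by
      apply is_const_of_deriv_eq_zero
      · intro t
        exact ((hx t).inner ℝ (hp t)).differentiableAt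
      · intro t
        rw [((hx t).inner ℝ (hp t)).deriv]
        have := (horth (φ t z)).2
        rw [real_inner_comm] at this
        linarith
    have a1 := e1 t 0
    have a2 := e2 t 0
    rw [h0] at a1 a2
    refine ⟨?_, by rw [a2]; exact hz.2⟩
    rw [real_inner_self_eq_norm_sq, real_inner_self_eq_norm_sq, hz.1] at a1
    have h3 : 0 ≤ ‖(φ t z).1‖ := norm_nonneg _
    nlinarith
  refine ⟨v, φ, ⟨hv, hcs, fun z hz hE => heq z ⟨hz, hE⟩, h0, hadd, hd, hcont, hlip, hstrict, hmem, ?_⟩⟩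
  intro t z hz
  have hNOm : ∀ y ∈ N, y ∈ Om := by
    intro y hy h0
    have := hy.1
    rw [h0, norm_zero] at this
    exact zero_ne_one this
  have hder : ∀ t, HasDerivAt (fun s => Ham G U (φ s z)) 0 t := by
    intro t
    have hm := hNOm _ (hmem t z hz)
    have h1 : HasFDerivAt (Ham G U) (fderiv ℝ (Ham G U) (φ t z)) (φ t z) :=
      ((Basic.ham hG hU).differentiableAt hm).hasFDerivAt
    have h2 := h1.comp_hasDerivAt t (hd z t)
    obtain ⟨c, hc⟩ := hpar (φ t z)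
    have h3 : fderiv ℝ (Ham G U) (φ t z) (v (φ t z)) = 0 := by
      rw [hc, map_smul]
      have h4 : fderiv ℝ (Ham G U) (φ t z) (XF (Ham G U) (φ t z)) = br (Ham G U) (Ham G U) (φ t z) := rfl
      have h5 := br_antisymm (Ham G U) (Ham G U) (φ t z)
      rw [h4, smul_eq_mul]
      have : br (Ham G U) (Ham G U) (φ t z) = 0 := by linarith
      rw [this, mul_zero]
    rw [h3] at h2
    exact h2
  have := is_const_of_deriv_eq_zero (fun t => (hder t).differentiableAt) (fun t => (hder t).deriv) t 0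
  simpa [h0] using this


theorem exists_cutField {Q : V × V → ℝ} (hQ : Basic Q) (R : ℝ) :
    ∃ w : V × V → V × V, ContDiff ℝ ((⊤ : ℕ∞) : WithTop ℕ∞) w ∧ HasCompactSupport w ∧
      (∀ z : V × V, 1 / 2 < ‖z.1‖ → ‖z.1‖ < 2 → ‖z.2‖ < R → w =ᶠ[𝓝 z] XF Q) ∧
      (∀ z : V × V, ⟪z.1, (w z).1⟫ = 0 ∧ ⟪z.2, (w z).1⟫ + ⟪z.1, (w z).2⟫ = 0) := by
  have hKc : IsCompact {z : V × V | 1/2 ≤ ‖z.1‖ ∧ ‖z.1‖ ≤ 2 ∧ ‖z.2‖ ≤ R} := by
    apply IsCompact.of_isClosed_subset ((isCompact_closedBall (0:V) 2).prod (isCompact_closedBall (0:V) R))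
    · apply IsClosed.inter (isClosed_le continuous_const (continuous_fst.norm))
      exact IsClosed.inter (isClosed_le (continuous_fst.norm) continuous_const)
        (isClosed_le (continuous_snd.norm) continuous_const)
    · intro z hz
      refine ⟨?_, ?_⟩
      · simpa using hz.2.1
      · simpa using hz.2.2
  have hKO : {z : V × V | 1/2 ≤ ‖z.1‖ ∧ ‖z.1‖ ≤ 2 ∧ ‖z.2‖ ≤ R} ⊆ Om := by
    intro z hz h0
    have := hz.1
    rw [h0, norm_zero] at this
    norm_num at this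
  obtain ⟨w, hw, hcs, heq, horth, _⟩ := cut_props hQ hKc hKO
  exact ⟨w, hw, hcs, fun z h1 h2 h3 => heq z ⟨h1.le, h2.le, h3.le⟩, horth⟩

end SI

end Pool.Agent.Helper197
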