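import Pool.Agent.Helper197.Flow
import Pool.Agent.Helper197.Cut

open Set Topology
open scoped RealInnerProductSpace

noncomputable section

namespace Pool.Agent.Helper197

namespace SI


/-! ### helper lemmas -/

lemma cover_const_of_hasDerivAt_zero {f : ℝ → ℝ} {δ : ℝ}
    (h : ∀ s ∈ Ioo (-δ) δ, HasDerivAt f 0 s) {s : ℝ} (hs : s ∈ Ioo (-δ) δ) : f s = f 0 := by
  have h0 : (0 : ℝ) ∈ Ioo (-δ) δ := by
    obtain ⟨h1, h2⟩ := hs
    constructor <;> linarith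
  have h1 := (convex_Ioo (-δ) δ).norm_image_sub_le_of_norm_hasDerivWithin_le (f := f)
    (f' := fun _ => 0) (C := 0) (fun x hx => (h x hx).hasDerivWithinAt)
    (fun x _ => by simp) h0 hs
  rw [zero_mul] at h1
  have h2 := norm_le_zero_iff.1 h1
  linarith

/-- the span of the three directions -/
lemma cover_span {x a b : V} (hx : x ≠ 0) (ha : ⟪x, a⟫ = 0) (hb : ⟪x, b⟫ = 0) (hb0 : b ≠ 0)
    (hab : ∀ c : ℝ, a ≠ c • b) (y : V) : ∃ s t c : ℝ, s • a + t • b + c • x = y := by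
  have hli : LinearIndependent ℝ ![a, b, x] := by
    rw [Fintype.linearIndependent_iff]
    intro g hg
    rw [Fin.sum_univ_three] at hg
    simp only [Matrix.cons_val_zero, Matrix.cons_val_one, Matrix.cons_val] at hg
    have h1 : ⟪x, g 0 • a + g 1 • b + g 2 • x⟫ = 0 := by rw [hg, inner_zero_right]
    rw [inner_add_right, inner_add_right, inner_smul_right, inner_smul_right, inner_smul_right,
      ha, hb, mul_zero, mul_zero, zero_add, zero_add] at h1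
    have hxx : ⟪x, x⟫ ≠ (0 : ℝ) := inner_self_ne_zero.2 hx
    have g2 : g 2 = 0 := by
      rcases mul_eq_zero.1 h1 with h | h
      · exact h
      · exact absurd h hxx
    rw [g2, zero_smul, add_zero] at hg
    have g0 : g 0 = 0 := by
      by_contra hne
      apply hab (-(g 0)⁻¹ * g 1)
      have h2 : g 0 • a = -(g 1 • b) := eq_neg_of_add_eq_zero_left hg
      calc a = (g 0)⁻¹ • (g 0 • a) := by rw [smul_smul, inv_mul_cancel₀ hne, one_smul]
        _ = (-(g 0)⁻¹ * g 1) • b := by rw [h2, smul_neg, smul_smul, neg_mul, neg_smul]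
    rw [g0, zero_smul, zero_add] at hg
    have g1 : g 1 = 0 := by
      rcases smul_eq_zero.1 hg with h | h
      · exact h
      · exact absurd h hb0
    intro i
    fin_cases i
    · exact g0
    · exact g1
    · exact g2
  have hspan : Submodule.span ℝ (Set.range ![a, b, x]) = ⊤ := by
    apply hli.span_eq_top_of_card_eq_finrank'
    simp
  have hy : y ∈ Submodule.span ℝ (Set.range ![a, b, x]) := by rw [hspan]; trivial
  rw [Submodule.mem_span_range_iff_exists_fun] at hy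
  obtain ⟨g, hg⟩ := hy
  refine ⟨g 0, g 1, g 2, ?_⟩
  rw [← hg, Fin.sum_univ_three]
  rfl

lemma cover_psi_props {w : V × V → V × V} {ψ : ℝ → V × V → V × V}
    (hw : ∀ z : V × V, ⟪z.1, (w z).1⟫ = 0 ∧ ⟪z.2, (w z).1⟫ + ⟪z.1, (w z).2⟫ = 0)
    (h0 : ∀ z, ψ 0 z = z)
    (hd : ∀ z t, HasDerivAt (fun s => ψ s z) (w (ψ t z)) t) {y : V × V} (hy : y ∈ N) (s : ℝ) :
    ψ s y ∈ N := by
  have h1 : ∀ t, HasDerivAt (fun s => (ψ s y).1) (w (ψ t y)).1 t := fun t => (hd y t).fst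
  have h2 : ∀ t, HasDerivAt (fun s => (ψ s y).2) (w (ψ t y)).2 t := fun t => (hd y t).snd
  have h3 : ∀ t, HasDerivAt (fun s => ⟪(ψ s y).1, (ψ s y).1⟫) 0 t := by
    intro t
    have h := (h1 t).inner ℝ (h1 t)
    have e := (hw (ψ t y)).1
    have e' : ⟪(w (ψ t y)).1, (ψ t y).1⟫ = 0 := by rw [real_inner_comm]; exact e
    rw [e, e', add_zero] at h
    exact h
  have h4 : ∀ t, HasDerivAt (fun s => ⟪(ψ s y).1, (ψ s y).2⟫) 0 t := by
    intro t
    have h := (h1 t).inner ℝ (h2 t)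
    have e := (hw (ψ t y)).2
    have e' : ⟪(ψ t y).1, (w (ψ t y)).2⟫ + ⟪(w (ψ t y)).1, (ψ t y).2⟫ = 0 := by
      rw [real_inner_comm (ψ t y).2 (w (ψ t y)).1] at *
      linarith
    rw [e'] at h
    exact h
  have hI : s ∈ Ioo (-(|s| + 1)) (|s| + 1) := by
    constructor
    · linarith [neg_abs_le s]
    · linarith [le_abs_self s]
  have h5 := cover_const_of_hasDerivAt_zero (fun t _ => h3 t) hI
  have h6 := cover_const_of_hasDerivAt_zero (fun t _ => h4 t) hI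
  simp only [h0] at h5 h6
  refine ⟨?_, ?_⟩
  · rw [real_inner_self_eq_norm_sq, real_inner_self_eq_norm_sq, hy.1] at h5
    have h7 : ‖(ψ s y).1‖ ^ 2 = 1 := by rw [h5]; norm_num
    have h8 : (0 : ℝ) ≤ ‖(ψ s y).1‖ := norm_nonneg _
    nlinarith
  · rw [h6]; exact hy.2


theorem cover_local {G : V → V →L[ℝ] V} {U : V → ℝ} {E : ℝ} {D : Set V}
    {v : V × V → V × V} {φ : ℝ → V × V → V × V} (hG : Met G) (hU : Pot U) (hD : Reg U E D)
    (hφ : HFlow G U E v φ) {F L : V × V → ℝ} (hF : Obs G U D F) (hL : Obs G U D L)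
    (hbr : ∀ z ∈ ES G U E D, br L F z = 0) {z : V × V} (hz : z ∈ ES G U E D)
    (hne : ∀ c : ℝ, gp F z ≠ c • gp (Ham G U) z)
    (hL0 : ∀ p, (z.1, p) ∈ ES G U E D → L (z.1, p) = 0) :
    ∀ᶠ z' in 𝓝[ES G U E D] z, L z' = 0 := by
  obtain ⟨hzN, hzD, hzE⟩ := hz
  have hzN' := hzN
  obtain ⟨hz1, hz2⟩ := hzN'
  have hx0 : z.1 ≠ 0 := hD.ne_zero _ hzD
  have hzOm : z ∈ Om := hx0
  -- the cut-off field and its flow
  obtain ⟨w, hws, hwc, hweq, hwp⟩ := exists_cutField hF.basic (‖z.2‖ + 2)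
  obtain ⟨ψ, ψ0, ψd, -, -, ψc, ψs⟩ := exists_global_flow w (hws.of_le (WithTop.coe_le_coe.2 (le_top : (2 : ℕ∞) ≤ ⊤))) hwc
  have hvz : v z = XF (Ham G U) z := (hφ.veq z hzN hzE.le).eq_of_nhds
  have hwz : w z = XF F z := by
    apply Filter.EventuallyEq.eq_of_nhds
    apply hweq z
    · rw [hz1]; norm_num
    · rw [hz1]; norm_num
    · linarith
  -- independence
  have hgpH : gp (Ham G U) z ≠ 0 := by
    rw [gp_ham hG hU hzOm]
    intro h0
    have hpos : 0 < ⟪z.2, G z.1 z.2⟫ := by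
      apply hG.pos z.1 z.2 hx0
      intro c hc
      have h1 : Ham G U z = U z.1 := by
        unfold Ham
        rw [hc, map_smul, hG.radial _ hx0, smul_zero, inner_zero_right, mul_zero, zero_add]
      have h2 := hD.lt _ hzD
      rw [← h1, hzE] at h2
      exact lt_irrefl _ h2
    rw [h0, inner_zero_right] at hpos
    exact lt_irrefl _ hpos
  have hrF : ⟪z.1, gp F z⟫ = 0 := hF.basic.radial_p hzOm
  have hrH : ⟪z.1, gp (Ham G U) z⟫ = 0 := (Basic.ham hG hU).radial_p hzOm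
  -- the map Θ
  let Θ : ((ℝ × ℝ) × ℝ) × (V × V) → (V × V) × V :=
    fun u => (u.2, (ψ u.1.1.1 (φ u.1.1.2 u.2)).1 + u.1.2 • z.1)
  let a : ((ℝ × ℝ) × ℝ) × (V × V) := (((0, 0), 0), z)
  have hΘa : Θ a = (z, z.1) := by
    simp only [Θ, a, hφ.zero, ψ0, zero_smul, add_zero]
  -- strict derivative
  have hstr : ∃ Θ' : (((ℝ × ℝ) × ℝ) × (V × V)) →L[ℝ] ((V × V) × V),
      HasStrictFDerivAt Θ Θ' a ∧ ∀ u, Θ' u = (u.2, u.1.1.1 • gp F z + (u.1.1.2 • gp (Ham G U) z + u.2.1) +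
        u.1.2 • z.1) := by
    have d1 : HasStrictFDerivAt (fun u : ((ℝ × ℝ) × ℝ) × (V × V) => (u.1.1.2, u.2))
        ((((ContinuousLinearMap.snd ℝ ℝ ℝ).comp (ContinuousLinearMap.fst ℝ (ℝ × ℝ) ℝ)).comp
          (ContinuousLinearMap.fst ℝ ((ℝ × ℝ) × ℝ) (V × V))).prod
          (ContinuousLinearMap.snd ℝ ((ℝ × ℝ) × ℝ) (V × V))) a :=
      ContinuousLinearMap.hasStrictFDerivAt ((((ContinuousLinearMap.snd ℝ ℝ ℝ).comp (ContinuousLinearMap.fst ℝ (ℝ × ℝ) ℝ)).comp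
          (ContinuousLinearMap.fst ℝ ((ℝ × ℝ) × ℝ) (V × V))).prod
          (ContinuousLinearMap.snd ℝ ((ℝ × ℝ) × ℝ) (V × V)))
    have d2 : HasStrictFDerivAt (fun u : ((ℝ × ℝ) × ℝ) × (V × V) => φ u.1.1.2 u.2) _ a :=
      HasStrictFDerivAt.comp (g := fun q : ℝ × (V × V) => φ q.1 q.2)
        (f := fun u : ((ℝ × ℝ) × ℝ) × (V × V) => (u.1.1.2, u.2)) a (hφ.strict z) d1
    have d3 : HasStrictFDerivAt (fun u : ((ℝ × ℝ) × ℝ) × (V × V) => u.1.1.1)
        (((ContinuousLinearMap.fst ℝ ℝ ℝ).comp (ContinuousLinearMap.fst ℝ (ℝ × ℝ) ℝ)).comp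
          (ContinuousLinearMap.fst ℝ ((ℝ × ℝ) × ℝ) (V × V))) a :=
      ContinuousLinearMap.hasStrictFDerivAt (((ContinuousLinearMap.fst ℝ ℝ ℝ).comp (ContinuousLinearMap.fst ℝ (ℝ × ℝ) ℝ)).comp
          (ContinuousLinearMap.fst ℝ ((ℝ × ℝ) × ℝ) (V × V)))
    have d4 := d3.prodMk d2
    have hψz : HasStrictFDerivAt (fun q : ℝ × (V × V) => ψ q.1 q.2)
        ((ContinuousLinearMap.toSpanSingleton ℝ (w z)).coprod (ContinuousLinearMap.id ℝ (V × V)))
        ((fun u : ((ℝ × ℝ) × ℝ) × (V × V) => (u.1.1.1, φ u.1.1.2 u.2)) a) := by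
      have : (fun u : ((ℝ × ℝ) × ℝ) × (V × V) => (u.1.1.1, φ u.1.1.2 u.2)) a = ((0 : ℝ), z) := by
        simp only [a, hφ.zero]
      rw [this]
      exact ψs z
    have d5 : HasStrictFDerivAt
        (fun u : ((ℝ × ℝ) × ℝ) × (V × V) => ψ u.1.1.1 (φ u.1.1.2 u.2)) _ a :=
      HasStrictFDerivAt.comp (g := fun q : ℝ × (V × V) => ψ q.1 q.2)
        (f := fun u : ((ℝ × ℝ) × ℝ) × (V × V) => (u.1.1.1, φ u.1.1.2 u.2)) a hψz d4
    have d6 := d5.fst
    have d7 : HasStrictFDerivAt (fun u : ((ℝ × ℝ) × ℝ) × (V × V) => u.1.2 • z.1)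
        ((ContinuousLinearMap.toSpanSingleton ℝ z.1).comp
        ((ContinuousLinearMap.snd ℝ (ℝ × ℝ) ℝ).comp
          (ContinuousLinearMap.fst ℝ ((ℝ × ℝ) × ℝ) (V × V)))) a :=
      ContinuousLinearMap.hasStrictFDerivAt ((ContinuousLinearMap.toSpanSingleton ℝ z.1).comp
        ((ContinuousLinearMap.snd ℝ (ℝ × ℝ) ℝ).comp
          (ContinuousLinearMap.fst ℝ ((ℝ × ℝ) × ℝ) (V × V))))
    have d8 := d6.add d7
    have d9 : HasStrictFDerivAt (fun u : ((ℝ × ℝ) × ℝ) × (V × V) => u.2)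
        (ContinuousLinearMap.snd ℝ ((ℝ × ℝ) × ℝ) (V × V)) a :=
      ContinuousLinearMap.hasStrictFDerivAt (ContinuousLinearMap.snd ℝ ((ℝ × ℝ) × ℝ) (V × V))
    have d10 := d9.prodMk d8
    refine ⟨_, d10, ?_⟩
    intro u
    simp [hvz, hwz, XF]
  obtain ⟨Θ', hΘ', hΘ'u⟩ := hstr
  have hsurj : Θ'.range = ⊤ := by
    rw [LinearMap.range_eq_top]
    intro q
    obtain ⟨s, t, c, hstc⟩ := cover_span hx0 hrF hrH hgpH hne (q.2 - q.1.1)
    refine ⟨(((s, t), c), q.1), ?_⟩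
    show Θ' (((s, t), c), q.1) = q
    rw [hΘ'u]
    refine Prod.ext rfl ?_
    show s • gp F z + (t • gp (Ham G U) z + q.1.1) + c • z.1 = q.2
    have : s • gp F z + (t • gp (Ham G U) z + q.1.1) + c • z.1 =
        (s • gp F z + t • gp (Ham G U) z + c • z.1) + q.1.1 := by abel
    rw [this, hstc]; abel
  have hmap := hΘ'.map_nhds_eq_of_surj hsurj
  rw [hΘa] at hmap
  -- the good neighbourhood
  let B : Set (V × V) := {y | 1 / 2 < ‖y.1‖ ∧ ‖y.1‖ < 2 ∧ ‖y.2‖ < ‖z.2‖ + 2 ∧ y.1 ∈ D}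
  have hBo : IsOpen B := by
    have o1 : IsOpen {y : V × V | 1 / 2 < ‖y.1‖} := isOpen_lt continuous_const continuous_fst.norm
    have o2 : IsOpen {y : V × V | ‖y.1‖ < 2} := isOpen_lt continuous_fst.norm continuous_const
    have o3 : IsOpen {y : V × V | ‖y.2‖ < ‖z.2‖ + 2} :=
      isOpen_lt continuous_snd.norm continuous_const
    have o4 : IsOpen {y : V × V | y.1 ∈ D} := hD.isOpen.preimage continuous_fst
    exact o1.inter (o2.inter (o3.inter o4))
  have hzB : z ∈ B := by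
    refine ⟨?_, ?_, ?_, hzD⟩
    · rw [hz1]; norm_num
    · rw [hz1]; norm_num
    · linarith
  have hψB : ∀ᶠ q : ℝ × (V × V) in 𝓝 ((0 : ℝ), z), ψ q.1 q.2 ∈ B := by
    apply ψc.continuousAt.eventually_mem
    show B ∈ 𝓝 (ψ 0 z)
    rw [ψ0]
    exact hBo.mem_nhds hzB
  rw [nhds_prod_eq] at hψB
  obtain ⟨P1, hP1, P2, hP2, hP12⟩ := Filter.eventually_prod_iff.1 hψB
  obtain ⟨δ, hδ, hδP⟩ := Metric.eventually_nhds_iff.1 hP1
  have hφB : ∀ᶠ q : ℝ × (V × V) in 𝓝 ((0 : ℝ), z), P2 (φ q.1 q.2) := by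
    have h1 : Filter.Tendsto (fun q : ℝ × (V × V) => φ q.1 q.2) (𝓝 ((0 : ℝ), z)) (𝓝 z) := by
      have := hφ.cont.tendsto ((0 : ℝ), z)
      simp only [hφ.zero] at this
      exact this
    exact h1.eventually hP2
  -- the neighbourhood of `a`
  have hW : ∀ᶠ u : ((ℝ × ℝ) × ℝ) × (V × V) in 𝓝 a,
      |u.1.1.1| < δ ∧ |u.1.2| < 1 ∧ P2 (φ u.1.1.2 u.2) := by
    have c1 : Filter.Tendsto (fun u : ((ℝ × ℝ) × ℝ) × (V × V) => |u.1.1.1|) (𝓝 a) (𝓝 0) := by
      have hc : Continuous (fun u : ((ℝ × ℝ) × ℝ) × (V × V) => |u.1.1.1|) := by fun_prop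
      have := hc.tendsto a
      simpa [a] using this
    have c2 : Filter.Tendsto (fun u : ((ℝ × ℝ) × ℝ) × (V × V) => |u.1.2|) (𝓝 a) (𝓝 0) := by
      have hc : Continuous (fun u : ((ℝ × ℝ) × ℝ) × (V × V) => |u.1.2|) := by fun_prop
      have := hc.tendsto a
      simpa [a] using this
    have c3 : Filter.Tendsto (fun u : ((ℝ × ℝ) × ℝ) × (V × V) => (u.1.1.2, u.2)) (𝓝 a)
        (𝓝 ((0 : ℝ), z)) := by
      have hc : Continuous (fun u : ((ℝ × ℝ) × ℝ) × (V × V) => (u.1.1.2, u.2)) := by fun_prop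
      exact hc.tendsto a
    have e1 := c1.eventually (gt_mem_nhds hδ)
    have e2 := c2.eventually (gt_mem_nhds (zero_lt_one (α := ℝ)))
    have e3 := c3.eventually hφB
    filter_upwards [e1, e2, e3] with u h1 h2 h3
    exact ⟨h1, h2, h3⟩
  -- push forward
  have himg : ∀ᶠ q in 𝓝 (z, z.1), ∃ u : ((ℝ × ℝ) × ℝ) × (V × V),
      (|u.1.1.1| < δ ∧ |u.1.2| < 1 ∧ P2 (φ u.1.1.2 u.2)) ∧ Θ u = q := by
    rw [← hmap]
    rw [Filter.eventually_map]
    filter_upwards [hW] with u hu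
    exact ⟨u, hu, rfl⟩
  have hpull : Filter.Tendsto (fun z' : V × V => (z', z.1)) (𝓝[ES G U E D] z) (𝓝 (z, z.1)) := by
    have hc : Continuous (fun z' : V × V => (z', z.1)) := by fun_prop
    exact (hc.tendsto z).mono_left nhdsWithin_le_nhds
  have hfin := hpull.eventually himg
  filter_upwards [hfin, self_mem_nhdsWithin] with z' hz' hz'ES
  obtain ⟨⟨⟨⟨s, t⟩, c⟩, z''⟩, ⟨hs, hc, hP⟩, hΘu⟩ := hz'
  simp only at hs hc hP
  have e1 : z'' = z' := congrArg Prod.fst hΘu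
  have e2 : (ψ s (φ t z'')).1 + c • z.1 = z.1 := congrArg Prod.snd hΘu
  subst e1
  -- the point y = φ t z''
  have hyES : φ t z'' ∈ ES G U E D := ES_invariant hG hU hD hφ z'' hz'ES t
  generalize hy : φ t z'' = y at hyES hP e2
  have hball : ∀ s' ∈ Ioo (-δ) δ, ψ s' y ∈ B := by
    intro s' hs'
    apply hP12 _ hP
    apply hδP
    rw [Real.dist_eq, sub_zero, abs_lt]
    exact hs'
  have hsI : s ∈ Ioo (-δ) δ := by
    rw [abs_lt] at hs; exact hs
  have hwB : ∀ y ∈ B, w y = XF F y := by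
    intro y hy
    exact (hweq y hy.1 hy.2.1 hy.2.2.1).eq_of_nhds
  have hBOm : ∀ y ∈ B, y ∈ Om := by
    intro y hy
    exact hD.ne_zero _ hy.2.2.2
  have hN : ∀ s', ψ s' y ∈ N := cover_psi_props hwp ψ0 ψd hyES.1
  have hHc : ∀ s' ∈ Ioo (-δ) δ, Ham G U (ψ s' y) = E := by
    intro s' hs'
    have h1 : ∀ r ∈ Ioo (-δ) δ, HasDerivAt (fun r => Ham G U (ψ r y)) 0 r := by
      intro r hr
      have hB' := hball r hr
      have hdiff : HasFDerivAt (Ham G U) (fderiv ℝ (Ham G U) (ψ r y)) (ψ r y) :=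
        ((Basic.ham hG hU).differentiableAt (hBOm _ hB')).hasFDerivAt
      have h2 := hdiff.comp_hasDerivAt r (ψd y r)
      have h3 : fderiv ℝ (Ham G U) (ψ r y) (w (ψ r y)) = 0 := by
        rw [hwB _ hB']
        show br (Ham G U) F (ψ r y) = 0
        rw [br_antisymm, hF.comm _ hB'.2.2.2, neg_zero]
      rw [h3] at h2
      exact h2
    have h4 := cover_const_of_hasDerivAt_zero h1 hs'
    simp only [ψ0] at h4
    rw [h4]; exact hyES.2.2
  have hESc : ∀ s' ∈ Ioo (-δ) δ, ψ s' y ∈ ES G U E D := fun s' hs' =>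
    ⟨hN s', (hball s' hs').2.2.2, hHc s' hs'⟩
  have hLc : L (ψ s y) = L y := by
    have h1 : ∀ r ∈ Ioo (-δ) δ, HasDerivAt (fun r => L (ψ r y)) 0 r := by
      intro r hr
      have hB' := hball r hr
      have hdiff : HasFDerivAt L (fderiv ℝ L (ψ r y)) (ψ r y) :=
        (hL.basic.differentiableAt (hBOm _ hB')).hasFDerivAt
      have h2 := hdiff.comp_hasDerivAt r (ψd y r)
      have h3 : fderiv ℝ L (ψ r y) (w (ψ r y)) = 0 := by
        rw [hwB _ hB']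
        exact hbr _ (hESc r hr)
      rw [h3] at h2
      exact h2
    have h4 := cover_const_of_hasDerivAt_zero h1 hsI
    simp only [ψ0] at h4
    exact h4
  -- c = 0
  have hc0 : c = 0 := by
    have h1 : (ψ s y).1 = (1 - c) • z.1 := by
      rw [sub_smul, one_smul]
      exact eq_sub_of_add_eq e2
    have h2 := (hN s).1
    rw [h1, norm_smul, hz1, mul_one, Real.norm_eq_abs] at h2
    rw [abs_lt] at hc
    rw [abs_of_pos (by linarith)] at h2
    linarith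
  have h1 : (ψ s y).1 = z.1 := by
    rw [hc0, zero_smul, add_zero] at e2
    exact e2
  have h2 := hESc s hsI
  have h3 : ψ s y = (z.1, (ψ s y).2) := by
    rw [← h1]
  have h4 : L (ψ s y) = 0 := by
    rw [h3]
    apply hL0
    rw [← h3]
    exact h2
  rw [← obs_conserved hG hU hD hφ hL z'' hz'ES t, hy, ← hLc]
  exact h4

end SI

end Pool.Agent.Helper197
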