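import Mathlib

namespace Pool.Agent.Helper197

namespace SI

open Polynomial in
/-- weight-n trigonometric functions -/
def MM (n : ℕ) (h : ℝ → ℝ) : Prop :=
  ∃ A B : Polynomial ℝ, A.natDegree ≤ n ∧ (X * B).natDegree ≤ n ∧
    ∀ θ, h θ = A.eval (Real.cos θ) + Real.sin θ * B.eval (Real.cos θ)

open Polynomial in
theorem MM_mul {n m : ℕ} {f g : ℝ → ℝ} (hf : MM n f) (hg : MM m g) : MM (n + m) (fun θ => f θ * g θ) := by
  obtain ⟨A1, B1, hA1, hB1, h1⟩ := hf
  obtain ⟨A2, B2, hA2, hB2, h2⟩ := hg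
  have hd : ∀ B : Polynomial ℝ, B.natDegree ≤ (X * B).natDegree := by
    intro B
    by_cases hB : B = 0
    · simp [hB]
    · rw [natDegree_X_mul hB]; omega
  refine ⟨A1 * A2 + B1 * B2 - (X * B1) * (X * B2), A1 * B2 + A2 * B1, ?_, ?_, ?_⟩
  · refine (natDegree_sub_le _ _).trans (max_le ((natDegree_add_le _ _).trans (max_le ?_ ?_)) ?_)
    · exact natDegree_mul_le.trans (add_le_add hA1 hA2)
    · exact natDegree_mul_le.trans (add_le_add ((hd _).trans hB1) ((hd _).trans hB2))
    · exact natDegree_mul_le.trans (add_le_add hB1 hB2)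
  · have : X * (A1 * B2 + A2 * B1) = A1 * (X * B2) + A2 * (X * B1) := by ring
    rw [this]
    refine (natDegree_add_le _ _).trans (max_le ?_ ?_)
    · exact natDegree_mul_le.trans (add_le_add hA1 hB2)
    · refine natDegree_mul_le.trans ?_
      rw [add_comm n m]
      exact add_le_add hA2 hB1
  · intro θ
    have hs : Real.sin θ ^ 2 = 1 - Real.cos θ ^ 2 := by
      have := Real.sin_sq_add_cos_sq θ; linarith
    simp only [h1, h2, eval_add, eval_sub, eval_mul, eval_X]
    linear_combination (eval (Real.cos θ) B1 * eval (Real.cos θ) B2) * hs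

open Polynomial in
theorem MM_one : MM 0 (fun _ => 1) := ⟨1, 0, by simp, by simp, by simp⟩

theorem MM_pow {n : ℕ} {f : ℝ → ℝ} (hf : MM n f) (k : ℕ) : MM (k * n) (fun θ => f θ ^ k) := by
  induction k with
  | zero => simpa using MM_one
  | succ k ih =>
    have := MM_mul ih hf
    simpa [pow_succ, Nat.succ_mul] using this

theorem MM_mono {n m : ℕ} (h : n ≤ m) {f : ℝ → ℝ} (hf : MM n f) : MM m f := by
  obtain ⟨A, B, hA, hB, h1⟩ := hf
  exact ⟨A, B, hA.trans h, hB.trans h, h1⟩

open Polynomial in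
/-- Two trigonometric polynomials are algebraically dependent. -/
theorem exists_relation_circle (f g : ℝ → ℝ)
    (hf : ∃ A B : Polynomial ℝ, ∀ θ, f θ = A.eval (Real.cos θ) + Real.sin θ * B.eval (Real.cos θ))
    (hg : ∃ A B : Polynomial ℝ, ∀ θ, g θ = A.eval (Real.cos θ) + Real.sin θ * B.eval (Real.cos θ)) :
    ∃ P : MvPolynomial (Fin 2) ℝ, P ≠ 0 ∧ ∀ θ, MvPolynomial.eval ![f θ, g θ] P = 0 := by
  obtain ⟨d, hfd, hgd⟩ : ∃ d, MM d f ∧ MM d g := by
    obtain ⟨A1, B1, h1⟩ := hf
    obtain ⟨A2, B2, h2⟩ := hg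
    refine ⟨max (max A1.natDegree (X * B1).natDegree) (max A2.natDegree (X * B2).natDegree),
      ⟨A1, B1, by simp, by simp, h1⟩, ⟨A2, B2, by simp, by simp, h2⟩⟩
  set N := 4 * d + 2 with hN
  set n := 2 * N * d with hn
  -- linear map
  let L : (degreeLT ℝ (n + 1) × degreeLT ℝ (n + 1)) →ₗ[ℝ] (ℝ → ℝ) :=
    { toFun := fun p θ => (p.1 : Polynomial ℝ).eval (Real.cos θ) +
        Real.sin θ * (p.2 : Polynomial ℝ).eval (Real.cos θ)
      map_add' := by
        intro p q; funext θ; simp; ring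
      map_smul' := by
        intro c p; funext θ; simp; ring }
  have hfin : Module.Finite ℝ (degreeLT ℝ (n + 1)) :=
    Module.Finite.equiv (degreeLTEquiv ℝ (n + 1)).symm
  have hrk : Module.finrank ℝ (degreeLT ℝ (n + 1)) = n + 1 := by
    rw [LinearEquiv.finrank_eq (degreeLTEquiv ℝ (n + 1))]; simp
  have hrange : Module.finrank ℝ (LinearMap.range L) ≤ 2 * (n + 1) := by
    refine (LinearMap.finrank_range_le L).trans ?_
    rw [Module.finrank_prod, hrk]; omega
  have hmem : ∀ ij : Fin (N + 1) × Fin (N + 1),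
      (fun θ => f θ ^ (ij.1 : ℕ) * g θ ^ (ij.2 : ℕ)) ∈ LinearMap.range L := by
    rintro ⟨i, j⟩
    have h := MM_mul (MM_pow hfd i) (MM_pow hgd j)
    have hle : (i : ℕ) * d + (j : ℕ) * d ≤ n := by
      have hi : (i : ℕ) ≤ N := Nat.lt_succ_iff.mp i.2
      have hj : (j : ℕ) ≤ N := Nat.lt_succ_iff.mp j.2
      have h1 := Nat.mul_le_mul_right d hi
      have h2 := Nat.mul_le_mul_right d hj
      rw [hn]
      calc (i : ℕ) * d + (j : ℕ) * d ≤ N * d + N * d := add_le_add h1 h2
        _ = 2 * N * d := by ring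
    obtain ⟨A, B, hA, hB, h1⟩ := MM_mono hle h
    have hB' : B.natDegree ≤ n := by
      refine le_trans ?_ hB
      by_cases hB0 : B = 0
      · simp [hB0]
      · rw [natDegree_X_mul hB0]; omega
    refine ⟨(⟨A, ?_⟩, ⟨B, ?_⟩), ?_⟩
    · rw [mem_degreeLT]
      exact lt_of_le_of_lt (degree_le_natDegree) (by exact_mod_cast Nat.lt_succ_of_le hA)
    · rw [mem_degreeLT]
      exact lt_of_le_of_lt (degree_le_natDegree) (by exact_mod_cast Nat.lt_succ_of_le hB')
    · funext θ
      exact (h1 θ).symm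
  let v : Fin (N + 1) × Fin (N + 1) → LinearMap.range L := fun ij => ⟨_, hmem ij⟩
  have hnli : ¬ LinearIndependent ℝ v := by
    intro hli
    have := hli.fintype_card_le_finrank
    have hc : Fintype.card (Fin (N + 1) × Fin (N + 1)) = (N + 1) * (N + 1) := by simp
    rw [hc] at this
    have h3 := this.trans hrange
    rw [hn, hN] at h3
    nlinarith
  rw [Fintype.not_linearIndependent_iff] at hnli
  obtain ⟨c, hc, ⟨i0, hi0⟩⟩ := hnli
  let e : Fin (N + 1) × Fin (N + 1) → (Fin 2 →₀ ℕ) := fun ij =>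
    Finsupp.single 0 (ij.1 : ℕ) + Finsupp.single 1 (ij.2 : ℕ)
  have he : Function.Injective e := by
    rintro ⟨a, b⟩ ⟨a', b'⟩ h
    have h0 := DFunLike.congr_fun h 0
    have h1 := DFunLike.congr_fun h 1
    simp [e] at h0 h1
    ext <;> simp [h0, h1]
  refine ⟨∑ ij, MvPolynomial.monomial (e ij) (c ij), ?_, ?_⟩
  · intro h0
    have := congrArg (MvPolynomial.coeff (e i0)) h0
    rw [MvPolynomial.coeff_sum] at this
    simp only [MvPolynomial.coeff_monomial, MvPolynomial.coeff_zero] at this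
    rw [Finset.sum_eq_single i0] at this
    · simp at this; exact hi0 this
    · intro b _ hb
      rw [if_neg (fun h => hb (he h))]
    · intro h; exact absurd (Finset.mem_univ _) h
  · intro θ
    have h1 := congrArg (fun w : LinearMap.range L => (w : ℝ → ℝ) θ) hc
    simp only [map_sum, MvPolynomial.eval_monomial]
    simp only [Submodule.coe_sum, Submodule.coe_smul, ZeroMemClass.coe_zero, Finset.sum_apply,
      Pi.smul_apply, Pi.zero_apply, smul_eq_mul, v] at h1
    rw [← h1]
    refine Finset.sum_congr rfl fun ij _ => ?_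
    congr 1
    rw [Finsupp.prod_fintype _ _ (by simp)]
    simp [e, Fin.prod_univ_two]

/-- Minimal relation: for a set of points of the plane killed by some nonzero polynomial there is a
nonzero polynomial killing it such that no nonzero first derivative kills it. -/
theorem exists_minimal_relation (S : Set (Fin 2 → ℝ)) (hS : S.Nonempty)
    (h : ∃ P : MvPolynomial (Fin 2) ℝ, P ≠ 0 ∧ ∀ y ∈ S, MvPolynomial.eval y P = 0) :
    ∃ P : MvPolynomial (Fin 2) ℝ, P ≠ 0 ∧ (∀ y ∈ S, MvPolynomial.eval y P = 0) ∧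
      ∃ i : Fin 2, ∃ y ∈ S, MvPolynomial.eval y (MvPolynomial.pderiv i P) ≠ 0 := by
  classical
  have hex : ∃ n : ℕ, ∃ P : MvPolynomial (Fin 2) ℝ, (P ≠ 0 ∧ ∀ y ∈ S, MvPolynomial.eval y P = 0) ∧
      P.totalDegree = n := by
    obtain ⟨P, hP⟩ := h
    exact ⟨_, P, hP, rfl⟩
  obtain ⟨P, ⟨hP0, hPS⟩, hPn⟩ := Nat.find_spec hex
  have hmin : ∀ Q : MvPolynomial (Fin 2) ℝ, Q ≠ 0 → (∀ y ∈ S, MvPolynomial.eval y Q = 0) →
      P.totalDegree ≤ Q.totalDegree := by
    intro Q hQ0 hQS
    rw [hPn]
    exact Nat.find_min' hex ⟨Q, ⟨hQ0, hQS⟩, rfl⟩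
  refine ⟨P, hP0, hPS, ?_⟩
  by_contra hcon
  push Not at hcon
  -- all pderivs vanish on S, hence are zero
  obtain ⟨y0, hy0⟩ := hS
  have hpd : ∀ i, MvPolynomial.pderiv i P = 0 := by
    intro i
    by_contra hne
    have hle := hmin _ hne (hcon i)
    -- totalDegree of pderiv smaller
    have hlt : (MvPolynomial.pderiv i P).totalDegree < P.totalDegree := by
      have hsup : ∀ m ∈ (MvPolynomial.pderiv i P).support, (m.sum fun _ e => e) < P.totalDegree := by
        intro m hm
        rw [MvPolynomial.mem_support_iff, MvPolynomial.coeff_pderiv] at hm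
        have hm' : m + Finsupp.single i 1 ∈ P.support := by
          rw [MvPolynomial.mem_support_iff]
          intro h0
          rw [h0] at hm
          simp at hm
        have := MvPolynomial.le_totalDegree hm'
        rw [Finsupp.sum_add_index' (by simp) (by simp)] at this
        simp at this
        omega
      obtain ⟨m, hm⟩ := (MvPolynomial.support_nonempty.mpr hne)
      have hpos : 0 < P.totalDegree := lt_of_le_of_lt (Nat.zero_le _) (hsup m hm)
      rw [MvPolynomial.totalDegree]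
      exact (Finset.sup_lt_iff hpos).mpr hsup
    omega
  have hsupp : ∀ m ∈ P.support, m = 0 := by
    intro m hm
    by_contra hm0
    obtain ⟨i, hi⟩ : ∃ i, m i ≠ 0 := by
      by_contra h
      push Not at h
      exact hm0 (Finsupp.ext (by simpa using h))
    have hc := congrArg (MvPolynomial.coeff (m - Finsupp.single i 1)) (hpd i)
    rw [MvPolynomial.coeff_pderiv, MvPolynomial.coeff_zero] at hc
    have hmi : m - Finsupp.single i 1 + Finsupp.single i 1 = m := by
      apply tsub_add_cancel_of_le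
      rw [Finsupp.single_le_iff]
      omega
    rw [hmi] at hc
    have hcm : MvPolynomial.coeff m P ≠ 0 := MvPolynomial.mem_support_iff.mp hm
    have hne : ((((m - Finsupp.single i 1 : Fin 2 →₀ ℕ)) i : ℕ) : ℝ) + 1 ≠ 0 := by positivity
    rcases mul_eq_zero.mp hc with h | h
    · exact hcm h
    · exact hne h
  have hPC : P = MvPolynomial.C (MvPolynomial.coeff 0 P) := by
    ext m
    rw [MvPolynomial.coeff_C]
    split_ifs with h0
    · rw [h0]
    · by_contra hne
      exact h0 (hsupp m (MvPolynomial.mem_support_iff.mpr hne)).symm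
  have hval := hPS y0 hy0
  rw [hPC, MvPolynomial.eval_C] at hval
  apply hP0
  rw [hPC, hval, map_zero]

end SI

end Pool.Agent.Helper197
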