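import Pool.Agent.Helper197.Alg

open Set Topology
open scoped RealInnerProductSpace

noncomputable section

namespace Pool.Agent.Helper197

namespace SI


section
open Polynomial

theorem dv_lagrange (d : ℕ) (P : Polynomial ℝ) (hP : P.natDegree ≤ d) :
    P = ∑ j ∈ Finset.range (d + 1), C (P.eval (j : ℝ)) *
      Lagrange.basis (Finset.range (d + 1)) (fun j : ℕ => (j : ℝ)) j := by
  have h1 : Set.InjOn (fun j : ℕ => (j : ℝ)) (Finset.range (d + 1) : Set ℕ) :=
    fun a _ b _ h => Nat.cast_injective h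
  have h2 : P.degree < (Finset.range (d + 1)).card := by
    rw [Finset.card_range]
    calc P.degree ≤ (P.natDegree : WithBot ℕ) := Polynomial.degree_le_natDegree
      _ < ((d + 1 : ℕ) : WithBot ℕ) := by exact_mod_cast Nat.lt_succ_of_le hP
  have h3 := Lagrange.eq_interpolate h1 h2
  rw [Lagrange.interpolate_apply] at h3
  exact h3

theorem dv_circle (d : ℕ) (f : ℝ → ℝ → ℝ)
    (h1 : ∀ u, ∃ P : Polynomial ℝ, P.natDegree ≤ d ∧ ∀ v, f u v = P.eval v)
    (h2 : ∀ v, ∃ P : Polynomial ℝ, ∀ u, f u v = P.eval u)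
    (h : ∀ u v, u ^ 2 + v ^ 2 = 1 → f u v = 0) :
    ∃ W : Polynomial (Polynomial ℝ), ∀ u v, f u v = (u ^ 2 + v ^ 2 - 1) * W.evalEval u v := by
  choose P2 hP2 using h2
  let F : Polynomial (Polynomial ℝ) := ∑ j ∈ Finset.range (d + 1), C (P2 (j : ℝ)) *
      (Lagrange.basis (Finset.range (d + 1)) (fun j : ℕ => (j : ℝ)) j).map C
  have hF : ∀ u v, F.evalEval u v = f u v := by
    intro u v
    obtain ⟨P, hPd, hP⟩ := h1 u
    have e1 := congrArg (Polynomial.eval v) (dv_lagrange d P hPd)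
    rw [← hP v] at e1
    rw [e1]
    simp only [F, Polynomial.evalEval, Polynomial.eval_finsetSum, Polynomial.eval_mul,
      Polynomial.eval_C, Polynomial.eval_map]
    apply Finset.sum_congr rfl
    intro j _
    rw [← hP2, hP]
    congr 1
    rw [Polynomial.eval₂_hom, Polynomial.eval_C]
  let M : Polynomial (Polynomial ℝ) := X ^ 2 + C (X ^ 2 - 1)
  have hM : M.Monic := by
    apply Polynomial.monic_X_pow_add
    calc (C (X ^ 2 - 1 : Polynomial ℝ)).degree ≤ 0 := Polynomial.degree_C_le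
      _ < 2 := by norm_num
  have hMd : M.natDegree = 2 := Polynomial.natDegree_X_pow_add_C
  have hMe : ∀ u v, M.evalEval u v = u ^ 2 + v ^ 2 - 1 := by
    intro u v
    simp only [M, Polynomial.evalEval, Polynomial.eval_add, Polynomial.eval_pow,
      Polynomial.eval_X, Polynomial.eval_C, Polynomial.eval_sub, Polynomial.eval_one]
    ring
  have hdiv := Polynomial.modByMonic_add_div F M
  have hRdeg : (F %ₘ M).natDegree < 2 := by
    have := Polynomial.natDegree_modByMonic_lt F hM (by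
      intro h0
      rw [h0, Polynomial.natDegree_one] at hMd
      omega)
    omega
  obtain ⟨A, hA⟩ : ∃ A, A = (F %ₘ M).coeff 0 := ⟨_, rfl⟩
  obtain ⟨B, hB⟩ : ∃ B, B = (F %ₘ M).coeff 1 := ⟨_, rfl⟩
  have hR : F %ₘ M = C A + C B * X := by
    rw [hA, hB]
    conv_lhs => rw [Polynomial.as_sum_range_C_mul_X_pow' (F %ₘ M) hRdeg]
    rw [Finset.sum_range_succ, Finset.sum_range_one]
    simp
  have hFe : ∀ u v, f u v = (A.eval u + B.eval u * v) +
      (u ^ 2 + v ^ 2 - 1) * (F /ₘ M).evalEval u v := by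
    intro u v
    rw [← hF u v, ← hMe u v]
    conv_lhs => rw [← hdiv, hR]
    simp only [Polynomial.evalEval, Polynomial.eval_add, Polynomial.eval_mul,
      Polynomial.eval_X, Polynomial.eval_C]
  have hkey : ∀ u ∈ Set.Ioo (-1 : ℝ) 1, A.eval u = 0 ∧ B.eval u = 0 := by
    intro u hu
    have hu2 : 0 < 1 - u ^ 2 := by nlinarith [hu.1, hu.2]
    obtain ⟨w, hw⟩ : ∃ w, w = Real.sqrt (1 - u ^ 2) := ⟨_, rfl⟩
    have hw0 : 0 < w := by rw [hw]; exact Real.sqrt_pos.mpr hu2
    have hw2 : w ^ 2 = 1 - u ^ 2 := by rw [hw]; exact Real.sq_sqrt hu2.le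
    have e1 := hFe u w
    have e2 := hFe u (-w)
    rw [h u w (by linarith)] at e1
    rw [h u (-w) (by nlinarith)] at e2
    have z1 : u ^ 2 + w ^ 2 - 1 = 0 := by linarith
    have z2 : u ^ 2 + (-w) ^ 2 - 1 = 0 := by nlinarith
    rw [z1, zero_mul, add_zero] at e1
    rw [z2, zero_mul, add_zero] at e2
    constructor
    · linarith
    · have : B.eval u * w = 0 := by linarith
      rcases mul_eq_zero.mp this with h | h
      · exact h
      · exact absurd h hw0.ne'
  have hinf : (Set.Ioo (-1 : ℝ) 1).Infinite := Set.Ioo_infinite (by norm_num)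
  have hA0 : A = 0 := Polynomial.eq_zero_of_infinite_isRoot A
    (hinf.mono fun u hu => (hkey u hu).1)
  have hB0 : B = 0 := Polynomial.eq_zero_of_infinite_isRoot B
    (hinf.mono fun u hu => (hkey u hu).2)
  refine ⟨F /ₘ M, fun u v => ?_⟩
  rw [hFe u v, hA0, hB0]
  simp

theorem dv_line (W : Polynomial (Polynomial ℝ)) (α α' β β' : ℝ) :
    ∃ P : Polynomial ℝ, ∀ s, W.evalEval (α + s * α') (β + s * β') = P.eval s := by
  refine ⟨W.eval₂ (Polynomial.compRingHom (C α + X * C α')) (C β + X * C β'), fun s => ?_⟩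
  have h := Polynomial.hom_eval₂ W (Polynomial.compRingHom (C α + X * C α'))
    (Polynomial.evalRingHom s) (C β + X * C β')
  rw [Polynomial.coe_evalRingHom] at h
  rw [h]
  have e2 : Polynomial.eval s (C β + X * C β') = β + s * β' := by
    simp
    ring
  rw [e2]
  have e1 : (Polynomial.evalRingHom s).comp (Polynomial.compRingHom (C α + X * C α')) =
      Polynomial.evalRingHom (α + s * α') := by
    apply Polynomial.ringHom_ext
    · intro a; simp
    · simp
      ring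
  rw [e1]
  unfold Polynomial.evalEval
  rw [← Polynomial.coe_evalRingHom, ← Polynomial.coe_evalRingHom, Polynomial.coe_evalRingHom (C (β + s * β')),
   Polynomial.eval, Polynomial.hom_eval₂]
  simp

end


section fiber
variable {G : V → V →L[ℝ] V} {U : V → ℝ} {E : ℝ} {D : Set V}

theorem dv_T_nonneg (hG : Met G) {x : V} (hx : x ≠ 0) (e : V) :
    0 ≤ (1 / 2) * ⟪e, G x e⟫ := by
  by_cases h : ∀ c : ℝ, e ≠ c • x
  · have := hG.pos x e hx h
    positivity
  · push Not at h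
    obtain ⟨c, hc⟩ := h
    rw [hc, map_smul, hG.radial x hx]
    simp

theorem dv_ham_line (hG : Met G) {x : V} (hx : x ≠ 0) (p e : V) (s : ℝ) :
    Ham G U (x, p + s • e) - E = ((1 / 2) * ⟪e, G x e⟫) * s ^ 2 + ⟪p, G x e⟫ * s +
      (Ham G U (x, p) - E) := by
  unfold Ham
  simp only [map_add, map_smul, inner_add_left, inner_add_right, inner_smul_left,
    inner_smul_right]
  have h1 : ⟪e, G x p⟫ = ⟪p, G x e⟫ := by
    rw [← hG.symm x e p hx, real_inner_comm]
  rw [h1]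
  simp
  ring

theorem dv_fiber (hG : Met G) (hU : Pot U) (hD : Reg U E D) {Q : V × V → ℝ} (hQ : Basic Q)
    {d : ℕ} (hd : FPoly d D Q) (h : ∀ z ∈ ES G U E D, Q z = 0) {x : V} (hxD : x ∈ D)
    (hx : ‖x‖ = 1) :
    ∃ W : V → ℝ, (∀ p, Q (x, p) = (Ham G U (x, p) - E) * W p) ∧
      (∀ p e : V, ∃ P : Polynomial ℝ, P.natDegree ≤ d - 2 ∧ ∀ s : ℝ, W (p + s • e) = P.eval s) ∧
      (d < 2 → ∀ p, W p = 0) := by
  have hx0 : x ≠ 0 := hD.ne_zero x hxD
  obtain ⟨c, hc⟩ : ∃ c, c = E - U x := ⟨_, rfl⟩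
  have hc0 : 0 < c := by have := hD.lt x hxD; linarith
  obtain ⟨a, hxa, haa⟩ := exists_on_conic hG hx hc0
  obtain ⟨b, hxb, hab, hbb, hpar, -⟩ := conic_param hG hx hc0 hxa haa
  have hxx : ⟪x, x⟫ = 1 := by rw [real_inner_self_eq_norm_sq, hx]; norm_num
  have hGx : G x x = 0 := hG.radial x hx0
  have haa' : ⟪a, G x a⟫ = 2 * c := by linarith
  have hbb' : ⟪b, G x b⟫ = 2 * c := by linarith
  have hba : ⟪b, G x a⟫ = 0 := by rw [real_inner_comm]; exact hab
  have hab' : ⟪a, G x b⟫ = 0 := by rw [← hG.symm x a b hx0]; exact hab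
  have hxGa : ⟪x, G x a⟫ = 0 := by rw [← hG.symm x x a hx0, hGx, inner_zero_left]
  have hxGb : ⟪x, G x b⟫ = 0 := by rw [← hG.symm x x b hx0, hGx, inner_zero_left]
  -- coordinates
  let y1 : V → ℝ := fun p => ⟪p, G x a⟫ / (2 * c)
  let y2 : V → ℝ := fun p => ⟪p, G x b⟫ / (2 * c)
  have hy1 : ∀ p e s, y1 (p + s • e) = y1 p + s * y1 e := by
    intro p e s
    simp only [y1, inner_add_left, inner_smul_left]
    simp
    ring
  have hy2 : ∀ p e s, y2 (p + s • e) = y2 p + s * y2 e := by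
    intro p e s
    simp only [y2, inner_add_left, inner_smul_left]
    simp
    ring
  have hspan : ∀ p, p = y1 p • a + y2 p • b + ⟪x, p⟫ • x := by
    have hli : LinearIndependent ℝ ![a, b, x] := by
      rw [Fintype.linearIndependent_iff]
      intro g hg
      rw [Fin.sum_univ_three] at hg
      simp only [Matrix.cons_val_zero, Matrix.cons_val_one, Matrix.cons_val_two,
        Matrix.head_cons, Matrix.tail_cons] at hg
      have g0 : g 0 = 0 := by
        have := congrArg (fun v => ⟪v, G x a⟫) hg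
        simp only [inner_add_left, inner_smul_left, haa', hba, hxGa, inner_zero_left] at this
        simp at this
        rcases this with h | h
        · exact h
        · exact absurd h hc0.ne'
      have g1 : g 1 = 0 := by
        have := congrArg (fun v => ⟪v, G x b⟫) hg
        simp only [inner_add_left, inner_smul_left, hbb', hab', hxGb, inner_zero_left] at this
        simp at this
        rcases this with h | h
        · exact h
        · exact absurd h hc0.ne'
      have g2 : g 2 = 0 := by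
        have := congrArg (fun v => ⟪x, v⟫) hg
        simp only [inner_add_right, inner_smul_right, hxa, hxb, hxx, inner_zero_right] at this
        simpa using this
      intro i
      fin_cases i
      · exact g0
      · exact g1
      · exact g2
    have hcard : Fintype.card (Fin 3) = Module.finrank ℝ V := by
      simp
    intro p
    let bs := basisOfLinearIndependentOfCardEqFinrank hli hcard
    have hr := bs.sum_repr p
    rw [Fin.sum_univ_three] at hr
    have b0 : bs 0 = a := by simp [bs]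
    have b1 : bs 1 = b := by simp [bs]
    have b2 : bs 2 = x := by simp [bs]
    rw [b0, b1, b2] at hr
    have e1 : y1 p = bs.repr p 0 := by
      simp only [y1]
      conv_lhs => rw [← hr]
      simp only [inner_add_left, inner_smul_left, haa', hba, hxGa]
      simp
      field_simp
    have e2 : y2 p = bs.repr p 1 := by
      simp only [y2]
      conv_lhs => rw [← hr]
      simp only [inner_add_left, inner_smul_left, hbb', hab', hxGb]
      simp
      field_simp
    have e3 : ⟪x, p⟫ = bs.repr p 2 := by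
      conv_lhs => rw [← hr]
      simp only [inner_add_right, inner_smul_right, hxa, hxb, hxx]
      simp
    rw [e1, e2, e3]
    exact hr.symm
  have hQy : ∀ p, Q (x, p) = Q (x, y1 p • a + y2 p • b) := by
    intro p
    conv_lhs => rw [hspan p]
    exact hQ.shift x _ _ hx0
  have hHam : ∀ u v : ℝ, Ham G U (x, u • a + v • b) - E = c * (u ^ 2 + v ^ 2 - 1) := by
    intro u v
    unfold Ham
    simp only [map_add, map_smul, inner_add_left, inner_add_right, inner_smul_left,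
      inner_smul_right, haa', hbb', hab', hba]
    simp
    rw [hc]
    ring
  have hHamy : ∀ p, Ham G U (x, p) - E = c * (y1 p ^ 2 + y2 p ^ 2 - 1) := by
    intro p
    rw [← hHam]
    have := (Basic.ham hG hU).shift x (y1 p • a + y2 p • b) ⟪x, p⟫ hx0
    rw [← this, ← hspan p]
  obtain ⟨W, hW⟩ := dv_circle d (fun u v => Q (x, u • a + v • b))
    (fun u => by
      obtain ⟨P, hP, hP'⟩ := hd x hxD (u • a) b
      exact ⟨P, hP, hP'⟩)
    (fun v => by
      obtain ⟨P, hP, hP'⟩ := hd x hxD (v • b) a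
      refine ⟨P, fun u => ?_⟩
      show Q (x, u • a + v • b) = _
      rw [add_comm]
      exact hP' u)
    (fun u v huv => by
      apply h
      refine ⟨⟨hx, ?_⟩, hxD, ?_⟩
      · show ⟪x, u • a + v • b⟫ = 0
        rw [inner_add_right, inner_smul_right, inner_smul_right, hxa, hxb]
        simp
      · have := hHam u v
        have e : c * (u ^ 2 + v ^ 2 - 1) = 0 := by rw [huv]; ring
        linarith)
  let w : V → ℝ := fun p => c⁻¹ * W.evalEval (y1 p) (y2 p)
  have hw : ∀ p, Q (x, p) = (Ham G U (x, p) - E) * w p := by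
    intro p
    rw [hQy p, hHamy p]
    have := hW (y1 p) (y2 p)
    rw [this]
    simp only [w]
    field_simp
  have hwl : ∀ p e : V, ∃ P : Polynomial ℝ, ∀ s : ℝ, w (p + s • e) = P.eval s := by
    intro p e
    obtain ⟨P, hP⟩ := dv_line W (y1 p) (y1 e) (y2 p) (y2 e)
    refine ⟨Polynomial.C c⁻¹ * P, fun s => ?_⟩
    simp only [w]
    rw [hy1, hy2, hP]
    simp
  -- degree
  have hdeg : ∀ p e : V, (∀ r : ℝ, e ≠ r • x) → ∀ P : Polynomial ℝ,
      (∀ s : ℝ, w (p + s • e) = P.eval s) → P = 0 ∨ P.natDegree + 2 ≤ d := by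
    intro p e he P hP
    by_cases hP0 : P = 0
    · exact Or.inl hP0
    right
    obtain ⟨Pq, hPq, hPq'⟩ := hd x hxD p e
    obtain ⟨t, ht⟩ : ∃ t, t = (1 / 2) * ⟪e, G x e⟫ := ⟨_, rfl⟩
    have ht0 : t ≠ 0 := by
      have := hG.pos x e hx0 he
      rw [ht]; positivity
    let M : Polynomial ℝ := Polynomial.C t * Polynomial.X ^ 2 +
      Polynomial.C ⟪p, G x e⟫ * Polynomial.X + Polynomial.C (Ham G U (x, p) - E)
    have hM : M.natDegree = 2 := Polynomial.natDegree_quadratic ht0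
    have hM0 : M ≠ 0 := by
      intro h0
      rw [h0, Polynomial.natDegree_zero] at hM
      omega
    have heq : Pq = M * P := by
      apply Polynomial.funext
      intro s
      rw [← hPq' s, hw, hP s, dv_ham_line hG hx0]
      simp only [M, Polynomial.eval_mul, Polynomial.eval_add, Polynomial.eval_C,
        Polynomial.eval_pow, Polynomial.eval_X]
      rw [ht]
    rw [heq, Polynomial.natDegree_mul hM0 hP0, hM] at hPq
    omega
  refine ⟨w, hw, ?_, ?_⟩
  · intro p e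
    by_cases he : ∀ r : ℝ, e ≠ r • x
    · obtain ⟨P, hP⟩ := hwl p e
      refine ⟨P, ?_, hP⟩
      rcases hdeg p e he P hP with h0 | h0
      · rw [h0]; simp
      · omega
    · push Not at he
      obtain ⟨r, hr⟩ := he
      refine ⟨Polynomial.C (w p), by simp, fun s => ?_⟩
      have e1 : y1 e = 0 := by
        simp only [y1]
        rw [hr, inner_smul_left, hxGa]
        simp
      have e2 : y2 e = 0 := by
        simp only [y2]
        rw [hr, inner_smul_left, hxGb]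
        simp
      simp only [w]
      rw [hy1, hy2, e1, e2]
      simp
  · intro hd2 p
    have hne : ∀ r : ℝ, a ≠ r • x := by
      intro r hr
      rw [hr, inner_smul_right, hxx] at hxa
      have : r = 0 := by linarith
      rw [this, zero_smul] at hr
      rw [hr] at haa'
      simp at haa'
      exact hc0.ne' haa'
    obtain ⟨P, hP⟩ := hwl p a
    rcases hdeg p a hne P hP with h0 | h0
    · have := hP 0
      rw [h0] at this
      simpa using this
    · omega

end fiber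


section global
variable {G : V → V →L[ℝ] V} {U : V → ℝ} {E : ℝ} {D : Set V}

/-- normalisation onto the unit cotangent picture -/
def dvr (z : V × V) : V × V := (‖z.1‖⁻¹ • z.1, ‖z.1‖ • z.2 + (-(⟪z.1, z.2⟫ * ‖z.1‖⁻¹)) • z.1)

theorem dvr_basic {F : V × V → ℝ} (hF : Basic F) {z : V × V} (hz : z.1 ≠ 0) :
    F (dvr z) = F z := by
  have hn : 0 < ‖z.1‖ := norm_pos_iff.mpr hz
  have h1 := hF.scale z.1 z.2 (‖z.1‖⁻¹) (by positivity) hz
  rw [inv_inv] at h1
  have hx : ‖z.1‖⁻¹ • z.1 ≠ 0 := smul_ne_zero (by positivity) hz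
  have h2 := hF.shift (‖z.1‖⁻¹ • z.1) (‖z.1‖ • z.2) (-(⟪z.1, z.2⟫)) hx
  rw [h1] at h2
  have h3 : (-(⟪z.1, z.2⟫)) • (‖z.1‖⁻¹ • z.1) = (-(⟪z.1, z.2⟫ * ‖z.1‖⁻¹)) • z.1 := by
    rw [smul_smul]; congr 1; ring
  rw [h3] at h2
  exact h2

theorem dvr_norm {z : V × V} (hz : z.1 ≠ 0) : ‖(dvr z).1‖ = 1 := by
  unfold dvr
  rw [norm_smul, norm_inv, norm_norm]
  exact inv_mul_cancel₀ (norm_ne_zero_iff.mpr hz)

theorem dvr_mem {z : V × V} (hz : z ∈ Om) : dvr z ∈ Om := by
  have hz' : z.1 ≠ 0 := hz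
  show (dvr z).1 ≠ 0
  intro h
  have := dvr_norm hz'
  rw [h, norm_zero] at this
  norm_num at this

theorem dvr_scale (x p : V) (c : ℝ) (hc : 0 < c) (hx : x ≠ 0) :
    dvr (c • x, c⁻¹ • p) = dvr (x, p) := by
  have hn : ‖x‖ ≠ 0 := norm_ne_zero_iff.mpr hx
  unfold dvr
  simp only [norm_smul, Real.norm_eq_abs, abs_of_pos hc, inner_smul_left, inner_smul_right]
  apply Prod.ext
  · show (c * ‖x‖)⁻¹ • c • x = ‖x‖⁻¹ • x
    rw [smul_smul]
    congr 1
    field_simp
  · show (c * ‖x‖) • c⁻¹ • p + _ • c • x = ‖x‖ • p + _ • x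
    rw [smul_smul, smul_smul]
    congr 2
    · field_simp
    · simp
      field_simp

theorem dvr_shift (x p : V) (c : ℝ) (hx : x ≠ 0) :
    dvr (x, p + c • x) = dvr (x, p) := by
  have hn : ‖x‖ ≠ 0 := norm_ne_zero_iff.mpr hx
  unfold dvr
  apply Prod.ext
  · rfl
  · show ‖x‖ • (p + c • x) + (-(⟪x, p + c • x⟫ * ‖x‖⁻¹)) • x = ‖x‖ • p + (-(⟪x, p⟫ * ‖x‖⁻¹)) • x
    rw [inner_add_right, inner_smul_right, real_inner_self_eq_norm_sq, smul_add, smul_smul, add_assoc,
      ← add_smul]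
    congr 2
    field_simp
    ring

theorem dvr_smooth : ContDiffOn ℝ ((⊤ : ℕ∞) : WithTop ℕ∞) dvr Om := by
  have h1 : ContDiffOn ℝ ((⊤ : ℕ∞) : WithTop ℕ∞) (fun z : V × V => z.1) Om :=
    contDiff_fst.contDiffOn
  have h2 : ContDiffOn ℝ ((⊤ : ℕ∞) : WithTop ℕ∞) (fun z : V × V => z.2) Om :=
    contDiff_snd.contDiffOn
  have h3 : ContDiffOn ℝ ((⊤ : ℕ∞) : WithTop ℕ∞) (fun z : V × V => ‖z.1‖) Om :=
    h1.norm ℝ (fun z hz => hz)
  have h4 : ContDiffOn ℝ ((⊤ : ℕ∞) : WithTop ℕ∞) (fun z : V × V => ‖z.1‖⁻¹) Om :=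
    h3.inv (fun z hz => norm_ne_zero_iff.mpr hz)
  exact (h4.smul h1).prodMk ((h3.smul h2).add (((h1.inner ℝ h2).mul h4).neg.smul h1))

theorem dvr_line (x p e : V) (s : ℝ) :
    dvr (x, p + s • e) = ((dvr (x, p)).1, (dvr (x, p)).2 + s • (dvr (x, e)).2) := by
  unfold dvr
  apply Prod.ext
  · rfl
  · show ‖x‖ • (p + s • e) + (-(⟪x, p + s • e⟫ * ‖x‖⁻¹)) • x =
      ‖x‖ • p + (-(⟪x, p⟫ * ‖x‖⁻¹)) • x + s • (‖x‖ • e + (-(⟪x, e⟫ * ‖x‖⁻¹)) • x)
    rw [inner_add_right, inner_smul_right, smul_add, smul_add, smul_smul, smul_smul, smul_smul,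
      mul_comm ‖x‖ s]
    have : (-((⟪x, p⟫ + s * ⟪x, e⟫) * ‖x‖⁻¹)) • x =
      (-(⟪x, p⟫ * ‖x‖⁻¹)) • x + (s * -(⟪x, e⟫ * ‖x‖⁻¹)) • x := by
      rw [← add_smul]; congr 1; ring
    rw [this]
    abel

/-- coefficients along the direction `e` -/
def dva (Q : V × V → ℝ) (d : ℕ) (e : V) (i : ℕ) (z : V × V) : ℝ :=
  ∑ j ∈ Finset.range (d + 1), Q (z.1, z.2 + (j : ℝ) • e) *
    (Lagrange.basis (Finset.range (d + 1)) (fun j : ℕ => (j : ℝ)) j).coeff i

theorem dva_smooth {Q : V × V → ℝ} (hQ : ContDiffOn ℝ ((⊤ : ℕ∞) : WithTop ℕ∞) Q Om) (d : ℕ)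
    (e : V) (i : ℕ) : ContDiffOn ℝ ((⊤ : ℕ∞) : WithTop ℕ∞) (dva Q d e i) Om := by
  unfold dva
  apply ContDiffOn.sum
  intro j _
  refine ContDiffOn.mul ?_ contDiffOn_const
  refine hQ.comp ?_ ?_
  · exact (contDiff_fst.prodMk (contDiff_snd.add contDiff_const)).contDiffOn
  · intro z hz
    exact hz

theorem dva_eq {Q : V × V → ℝ} {d : ℕ} {e : V} {z : V × V} {P : Polynomial ℝ}
    (hPd : P.natDegree ≤ d) (hP : ∀ s : ℝ, Q (z.1, z.2 + s • e) = P.eval s) (i : ℕ) :
    dva Q d e i z = P.coeff i := by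
  unfold dva
  conv_rhs => rw [dv_lagrange d P hPd]
  rw [Polynomial.finsetSum_coeff]
  apply Finset.sum_congr rfl
  intro j _
  rw [Polynomial.coeff_C_mul, hP]

/-- the division algorithm along the direction `e` with denominators cleared -/
def dvc (T B C : V × V → ℝ) (a : ℕ → V × V → ℝ) (d : ℕ) : ℕ → V × V → ℝ
  | 0 => fun z => a d z
  | 1 => fun z => T z * a (d - 1) z - B z * dvc T B C a d 0 z
  | (k + 2) => fun z => T z ^ (k + 2) * a (d - (k + 2)) z - B z * dvc T B C a d (k + 1) z -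
      C z * T z * dvc T B C a d k z

theorem dvc_smooth {T B C : V × V → ℝ} {a : ℕ → V × V → ℝ} {d : ℕ}
    (hT : ContDiffOn ℝ ((⊤ : ℕ∞) : WithTop ℕ∞) T Om)
    (hB : ContDiffOn ℝ ((⊤ : ℕ∞) : WithTop ℕ∞) B Om)
    (hC : ContDiffOn ℝ ((⊤ : ℕ∞) : WithTop ℕ∞) C Om)
    (ha : ∀ i, ContDiffOn ℝ ((⊤ : ℕ∞) : WithTop ℕ∞) (a i) Om) :
    ∀ k, ContDiffOn ℝ ((⊤ : ℕ∞) : WithTop ℕ∞) (dvc T B C a d k) Om ∧
      ContDiffOn ℝ ((⊤ : ℕ∞) : WithTop ℕ∞) (dvc T B C a d (k + 1)) Om := by
  intro k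
  induction k with
  | zero =>
    refine ⟨ha d, ?_⟩
    exact (hT.mul (ha (d - 1))).sub (hB.mul (ha d))
  | succ k ih =>
    refine ⟨ih.2, ?_⟩
    exact (((hT.pow (k + 2)).mul (ha (d - (k + 2)))).sub (hB.mul ih.2)).sub
      ((hC.mul hT).mul ih.1)

theorem dvc_eq {T B C : V × V → ℝ} {a : ℕ → V × V → ℝ} {m : ℕ} {z : V × V} {W : ℕ → ℝ}
    (hW : ∀ n, m < n → W n = 0)
    (ha : ∀ n, a (n + 2) z = T z * W n + B z * W (n + 1) + C z * W (n + 2)) :
    ∀ k n, n + k = m → dvc T B C a (m + 2) k z = T z ^ (k + 1) * W n ∧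
      (∀ n', n' + 1 = n → dvc T B C a (m + 2) (k + 1) z = T z ^ (k + 2) * W n') := by
  have h0 : dvc T B C a (m + 2) 0 z = T z ^ (0 + 1) * W m := by
    show a (m + 2) z = _
    rw [ha m, hW (m + 1) (by omega), hW (m + 2) (by omega)]
    ring
  intro k
  induction k with
  | zero =>
    intro n hn
    have hn' : n = m := by omega
    refine ⟨by rw [hn']; exact h0, ?_⟩
    intro n' hn'
    have e1 : m = n' + 1 := by omega
    show T z * a (m + 2 - 1) z - B z * dvc T B C a (m + 2) 0 z = _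
    have e2 : m + 2 - 1 = n' + 2 := by omega
    rw [h0, e2, ha n', ← e1, hW (n' + 2) (by omega)]
    ring
  | succ k ih =>
    intro n hn
    obtain ⟨i1, i2⟩ := ih (n + 1) (by omega)
    have i3 := i2 n rfl
    refine ⟨i3, ?_⟩
    intro n' hn'
    show T z ^ (k + 2) * a (m + 2 - (k + 2)) z - B z * dvc T B C a (m + 2) (k + 1) z -
      C z * T z * dvc T B C a (m + 2) k z = _
    have e2 : m + 2 - (k + 2) = n' + 2 := by omega
    rw [i3, i1, e2, ha n', ← hn']
    ring

end global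


theorem division {G : V → V →L[ℝ] V} {U : V → ℝ} {E : ℝ} {D : Set V} (hG : Met G)
    (hU : Pot U) (hD : Reg U E D) {Q : V × V → ℝ} (hQ : Basic Q) {d : ℕ} (hd : FPoly d D Q)
    (h : ∀ z ∈ ES G U E D, Q z = 0) :
    ∃ Q₁, Basic Q₁ ∧ (∀ z : V × V, z.1 ∈ D → Q z = (Ham G U z - E) * Q₁ z) ∧
      (2 ≤ d → FPoly (d - 2) D Q₁) ∧ (d < 2 → ∀ z : V × V, z.1 ∈ D → Q₁ z = 0) := by
  have hrD : ∀ z : V × V, z.1 ∈ D → (dvr z).1 ∈ D := by
    intro z hz
    exact hD.cone z.1 hz _ (by have := norm_pos_iff.mpr (hD.ne_zero _ hz); positivity)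
  have hfib : ∀ z : V × V, z.1 ∈ D → ∃ W : V → ℝ,
      (∀ p, Q ((dvr z).1, p) = (Ham G U ((dvr z).1, p) - E) * W p) ∧
      (∀ p e : V, ∃ P : Polynomial ℝ, P.natDegree ≤ d - 2 ∧ ∀ s : ℝ, W (p + s • e) = P.eval s) ∧
      (d < 2 → ∀ p, W p = 0) := by
    intro z hz
    exact dv_fiber hG hU hD hQ hd h (hrD z hz) (dvr_norm (hD.ne_zero _ hz))
  have hHam := Basic.ham hG hU
  by_cases hd2 : d < 2
  · refine ⟨fun _ => 0, Basic.const 0, ?_, fun h2 => absurd h2 (by omega), fun _ _ _ => rfl⟩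
    intro z hz
    obtain ⟨W, h1, -, h3⟩ := hfib z hz
    rw [← dvr_basic hQ (hD.ne_zero _ hz)]
    have := h1 (dvr z).2
    rw [h3 hd2] at this
    rw [mul_zero] at this ⊢
    exact this
  obtain ⟨m, rfl⟩ : ∃ m, d = m + 2 := ⟨d - 2, by omega⟩
  -- data
  let T : V → V × V → ℝ := fun e z => (1 / 2) * ⟪e, G z.1 e⟫
  let B : V → V × V → ℝ := fun e z => ⟪z.2, G z.1 e⟫
  let C : V × V → ℝ := fun z => Ham G U z - E
  have hGz : ContDiffOn ℝ ((⊤ : ℕ∞) : WithTop ℕ∞) (fun z : V × V => G z.1) Om :=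
    hG.smooth.comp contDiff_fst.contDiffOn (fun z hz => hz)
  have hGe : ∀ e : V, ContDiffOn ℝ ((⊤ : ℕ∞) : WithTop ℕ∞) (fun z : V × V => G z.1 e) Om :=
    fun e => hGz.clm_apply contDiffOn_const
  have hTs : ∀ e, ContDiffOn ℝ ((⊤ : ℕ∞) : WithTop ℕ∞) (T e) Om := fun e =>
    contDiffOn_const.mul (contDiffOn_const.inner ℝ (hGe e))
  have hBs : ∀ e, ContDiffOn ℝ ((⊤ : ℕ∞) : WithTop ℕ∞) (B e) Om := fun e =>
    contDiff_snd.contDiffOn.inner ℝ (hGe e)
  have hCs : ContDiffOn ℝ ((⊤ : ℕ∞) : WithTop ℕ∞) C Om := hHam.smooth.sub contDiffOn_const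
  let R : V → V × V → ℝ := fun e => dvc (T e) (B e) C (dva Q (m + 2) e) (m + 2) m
  have hRs : ∀ e, ContDiffOn ℝ ((⊤ : ℕ∞) : WithTop ℕ∞) (R e) Om := fun e =>
    (dvc_smooth (hTs e) (hBs e) hCs (fun i => dva_smooth hQ.smooth (m + 2) e i) m).1
  let e0 : V := EuclideanSpace.single 0 1
  let e1 : V := EuclideanSpace.single 1 1
  let Q0 : V × V → ℝ := fun z => (R e0 z + R e1 z) / (T e0 z ^ (m + 1) + T e1 z ^ (m + 1))
  have hTnn : ∀ e, ∀ z ∈ Om, 0 ≤ T e z := fun e z hz => dv_T_nonneg hG hz e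
  have hden : ∀ z ∈ Om, 0 < T e0 z ^ (m + 1) + T e1 z ^ (m + 1) := by
    intro z hz
    have hz' : z.1 ≠ 0 := hz
    have n0 := hTnn e0 z hz
    have n1 := hTnn e1 z hz
    have hor : 0 < T e0 z ∨ 0 < T e1 z := by
      by_cases h0 : ∀ c : ℝ, e0 ≠ c • z.1
      · left
        have := hG.pos z.1 e0 hz' h0
        show 0 < (1 / 2) * ⟪e0, G z.1 e0⟫
        positivity
      · right
        push Not at h0
        obtain ⟨c0, hc0⟩ := h0
        have h1 : ∀ c : ℝ, e1 ≠ c • z.1 := by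
          intro c1 hc1
          have a0 := congrArg (fun v : V => v 0) hc0
          have a1 := congrArg (fun v : V => v 1) hc0
          have b1 := congrArg (fun v : V => v 1) hc1
          simp [e0, e1] at a0 a1 b1
          rcases a1 with h | h
          · rw [h] at a0; simp at a0
          · rw [h] at b1; simp at b1
        have := hG.pos z.1 e1 hz' h1
        show 0 < (1 / 2) * ⟪e1, G z.1 e1⟫
        positivity
    rcases hor with hh | hh
    · have := pow_pos hh (m + 1)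
      have := pow_nonneg n1 (m + 1)
      linarith
    · have := pow_pos hh (m + 1)
      have := pow_nonneg n0 (m + 1)
      linarith
  have hQ0s : ContDiffOn ℝ ((⊤ : ℕ∞) : WithTop ℕ∞) Q0 Om :=
    ((hRs e0).add (hRs e1)).div (((hTs e0).pow _).add ((hTs e1).pow _))
      (fun z hz => (hden z hz).ne')
  -- value over D
  have hval : ∀ z : V × V, z.1 ∈ D → ∀ W : V → ℝ,
      (∀ p, Q ((dvr z).1, p) = (Ham G U ((dvr z).1, p) - E) * W p) →
      (∀ p e : V, ∃ P : Polynomial ℝ, P.natDegree ≤ m + 2 - 2 ∧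
        ∀ s : ℝ, W (p + s • e) = P.eval s) →
      ∀ p, Q0 ((dvr z).1, p) = W p := by
    intro z hz W hW1 hW2 p
    have hx : (dvr z).1 ∈ D := hrD z hz
    have hx0 : (dvr z).1 ≠ 0 := hD.ne_zero _ hx
    generalize (dvr z).1 = x at hx hx0 hW1 ⊢
    have hR : ∀ e, R e (x, p) = T e (x, p) ^ (m + 1) * W p := by
      intro e
      obtain ⟨P, hPd, hP⟩ := hd x hx p e
      obtain ⟨Wp, hWd, hWp⟩ := hW2 p e
      have hmul : P = (Polynomial.C (T e (x, p)) * Polynomial.X ^ 2 +
          Polynomial.C (B e (x, p)) * Polynomial.X + Polynomial.C (C (x, p))) * Wp := by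
        apply Polynomial.funext
        intro s
        rw [← hP s, hW1, hWp s, dv_ham_line hG hx0]
        simp only [Polynomial.eval_mul, Polynomial.eval_add, Polynomial.eval_C,
          Polynomial.eval_pow, Polynomial.eval_X]
        rfl
      have hcoef : ∀ n, P.coeff (n + 2) = T e (x, p) * Wp.coeff n +
          B e (x, p) * Wp.coeff (n + 1) + C (x, p) * Wp.coeff (n + 2) := by
        intro n
        rw [hmul, add_mul, add_mul, Polynomial.coeff_add, Polynomial.coeff_add, mul_assoc,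
          mul_assoc, Polynomial.coeff_C_mul, Polynomial.coeff_C_mul, Polynomial.coeff_C_mul,
          mul_comm (Polynomial.X ^ 2) Wp, Polynomial.coeff_mul_X_pow, mul_comm Polynomial.X Wp,
          show n + 2 = (n + 1) + 1 from rfl, Polynomial.coeff_mul_X]
      have := (dvc_eq (T := T e) (B := B e) (C := C) (a := dva Q (m + 2) e) (m := m)
        (z := (x, p)) (W := fun n => Wp.coeff n)
        (fun n hn => Polynomial.coeff_eq_zero_of_natDegree_lt (by omega))
        (fun n => by rw [dva_eq hPd hP]; exact hcoef n) m 0 (by omega)).1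
      show dvc (T e) (B e) C (dva Q (m + 2) e) (m + 2) m (x, p) = _
      rw [this]
      have h0 := hWp 0
      rw [zero_smul, add_zero] at h0
      rw [h0, ← Polynomial.coeff_zero_eq_eval_zero]
    have hdn := hden (x, p) hx0
    show (R e0 (x, p) + R e1 (x, p)) / (T e0 (x, p) ^ (m + 1) + T e1 (x, p) ^ (m + 1)) = W p
    rw [hR, hR, ← add_mul, mul_comm, mul_div_assoc, div_self hdn.ne', mul_one]
  refine ⟨fun z => Q0 (dvr z), ⟨?_, ?_, ?_⟩, ?_, ?_, fun h2 => absurd h2 (by omega)⟩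
  · exact hQ0s.comp dvr_smooth (fun z hz => dvr_mem hz)
  · intro x p c hc hx
    show Q0 (dvr (c • x, c⁻¹ • p)) = Q0 (dvr (x, p))
    rw [dvr_scale x p c hc hx]
  · intro x p c hx
    show Q0 (dvr (x, p + c • x)) = Q0 (dvr (x, p))
    rw [dvr_shift x p c hx]
  · intro z hz
    obtain ⟨W, h1, h2, -⟩ := hfib z hz
    show Q z = (Ham G U z - E) * Q0 ((dvr z).1, (dvr z).2)
    rw [hval z hz W h1 h2, ← dvr_basic hQ (hD.ne_zero _ hz), ← dvr_basic hHam (hD.ne_zero _ hz)]
    exact h1 (dvr z).2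
  · intro _ x hx p e
    obtain ⟨W, h1, h2, -⟩ := hfib (x, p) hx
    obtain ⟨P, hPd, hP⟩ := h2 (dvr (x, p)).2 (dvr (x, e)).2
    refine ⟨P, hPd, fun s => ?_⟩
    show Q0 (dvr (x, p + s • e)) = _
    rw [dvr_line, hval (x, p) hx W h1 h2]
    exact hP s

end SI

end Pool.Agent.Helper197
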