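import Pool.Agent.Helper197.Flow

open Set Topology
open scoped RealInnerProductSpace

noncomputable section

namespace Pool.Agent.Helper197

namespace SI


lemma gen_norm {E W : Type*} [NormedAddCommGroup E] [NormedSpace ℝ E] [NormedAddCommGroup W]
    [NormedSpace ℝ W] {T : E → (E →L[ℝ] E →L[ℝ] W)} {x : E} (h : ContDiffAt ℝ 0 T x) :
    ContinuousAt (fun y => ‖T y‖) x := by
  have h1 := h.continuousAt
  have := Filter.Tendsto.norm (E := E →L[ℝ] E →L[ℝ] W) h1
  exact this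

lemma gen_close {E : Type*} [NormedAddCommGroup E] [NormedSpace ℝ E] 
     {T : E → (E →L[ℝ] E →L[ℝ] ℝ)} {x : E} (h : ContDiffAt ℝ 0 T x) {ε : ℝ}
    (hε : 0 < ε) : ∃ δ > 0, ∀ w, dist w x < δ → ∀ a, T w a a ≤ T x a a + ε * ‖a‖ ^ 2 := by
  obtain ⟨δ, hδ, hD⟩ := Metric.continuousAt_iff.mp h.continuousAt ε hε
  refine ⟨δ, hδ, fun w hw a => ?_⟩
  have h1 := hD hw
  have h1' : ‖T w - T x‖ < ε := by simpa [dist_eq_norm] using h1
  have h3 : (T w - T x) a a ≤ ε * ‖a‖ ^ 2 := by
    refine (le_abs_self _).trans ?_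
    rw [← Real.norm_eq_abs]
    refine (ContinuousLinearMap.le_opNorm₂ _ _ _).trans ?_
    have : 0 ≤ ‖a‖ * ‖a‖ := by positivity
    nlinarith
  simp only [_root_.sub_apply] at h3
  linarith

lemma pot_contDiffAt {U : V → ℝ} (hU : Pot U) {x : V} (hx : x ≠ 0) :
    ContDiffAt ℝ ((⊤ : ℕ∞) : WithTop ℕ∞) U x :=
  hU.smooth.contDiffAt (isOpen_ne.mem_nhds hx)

lemma met_contDiffAt {G : V → V →L[ℝ] V} (hG : Met G) {x : V} (hx : x ≠ 0) :
    ContDiffAt ℝ ((⊤ : ℕ∞) : WithTop ℕ∞) G x :=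
  hG.smooth.contDiffAt (isOpen_ne.mem_nhds hx)

lemma pot_fderiv_zero {U : V → ℝ} {x₀ : V} (hx₀ : ‖x₀‖ = 1)
    (hmax : ∀ y : V, y ≠ 0 → U y ≤ U x₀) : fderiv ℝ U x₀ = 0 := by
  have hne : x₀ ≠ 0 := by intro h; simp [h] at hx₀
  have : IsLocalMax U x₀ := by
    filter_upwards [isOpen_ne.mem_nhds hne] with y hy using hmax y hy
  exact this.fderiv_eq_zero

lemma equil {G : V → V →L[ℝ] V} {U : V → ℝ} {E : ℝ}
    {v : V × V → V × V} {φ : ℝ → V × V → V × V} (hG : Met G) (hU : Pot U)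
    (hφ : HFlow G U E v φ) {x₀ : V} (hx₀ : ‖x₀‖ = 1) (hmax : ∀ y : V, y ≠ 0 → U y ≤ U x₀)
    (hE : U x₀ ≤ E) : ∀ t, φ t (x₀, 0) = (x₀, 0) := by
  have hne : x₀ ≠ 0 := by intro h; simp [h] at hx₀
  have hN : ((x₀, 0) : V × V) ∈ N := ⟨hx₀, by simp⟩
  have hOm : ((x₀, 0) : V × V) ∈ Om := hne
  have hHam : Ham G U (x₀, 0) ≤ E := by simpa [Ham] using hE
  have hv0 : v (x₀, 0) = 0 := by
    rw [(hφ.veq _ hN hHam).eq_of_nhds]
    have h1 : gp (Ham G U) (x₀, 0) = 0 := by rw [gp_ham hG hU hOm]; simp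
    have h2 : gx (Ham G U) (x₀, 0) = 0 := by
      have := gx_ham hG hU hOm (gx (Ham G U) (x₀, 0))
      simp only [inner_zero_left, mul_zero, zero_add] at this
      rw [pot_fderiv_zero hx₀ hmax] at this
      simpa using this
    simp [XF, h1, h2]
  obtain ⟨L, hL0, hL⟩ := hφ.lip
  have hder : ∀ t, v (φ t (x₀, 0)) = 0 := by
    intro t
    have hd := hφ.deriv (x₀, 0) t
    have hd0 := hφ.deriv (x₀, 0) 0
    rw [hφ.zero, hv0] at hd0
    rw [hasDerivAt_iff_tendsto_slope_zero] at hd hd0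
    have hn := hd.norm
    have hn0 := hd0.norm
    rw [norm_zero] at hn0
    have hle : ∀ᶠ h : ℝ in 𝓝[≠] 0, ‖h⁻¹ • (φ (t + h) (x₀, 0) - φ t (x₀, 0))‖ ≤
        Real.exp (L * |t|) * ‖h⁻¹ • (φ (0 + h) (x₀, 0) - φ 0 (x₀, 0))‖ := by
      filter_upwards with h
      rw [norm_smul, norm_smul, hφ.add t h, zero_add, hφ.zero, ← dist_eq_norm, ← dist_eq_norm]
      have := hL t (φ h (x₀, 0)) (x₀, 0)
      have h3 : 0 ≤ ‖h⁻¹‖ := norm_nonneg _
      nlinarith [mul_le_mul_of_nonneg_left this h3]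
    have hlim := (hn0.const_mul (Real.exp (L * |t|)))
    have := le_of_tendsto_of_tendsto hn hlim hle
    simp only [mul_zero] at this
    exact norm_le_zero_iff.mp this
  have hconst := is_const_of_deriv_eq_zero (f := fun s => φ s (x₀, 0))
    (fun t => (hφ.deriv (x₀, 0) t).differentiableAt)
    (fun t => by rw [(hφ.deriv (x₀, 0) t).deriv, hder t])
  intro t
  have := hconst t 0
  simpa [hφ.zero] using this

lemma hess_nonpos {U : V → ℝ} (hU : Pot U) {x₀ : V} (hx₀ : ‖x₀‖ = 1)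
    (hmax : ∀ y : V, y ≠ 0 → U y ≤ U x₀) (h : V) :
    fderiv ℝ (fderiv ℝ U) x₀ h h ≤ 0 := by
  by_contra hcon
  push Not at hcon
  have hne : x₀ ≠ 0 := by intro h; simp [h] at hx₀
  have hcd := pot_contDiffAt hU hne
  have hcont : ContinuousAt (fun s : ℝ => x₀ + s • h) 0 := by fun_prop
  have hne0 : ∀ᶠ s : ℝ in 𝓝 0, x₀ + s • h ≠ 0 := by
    refine hcont.eventually (p := fun y => y ≠ 0) ?_
    simp only [zero_smul, add_zero]
    exact isOpen_ne.mem_nhds hne
  have hline : ∀ s : ℝ, HasDerivAt (fun s : ℝ => x₀ + s • h) h s := by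
    intro s
    simpa using ((hasDerivAt_id s).smul_const h).const_add x₀
  set g : ℝ → ℝ := fun s => U (x₀ + s • h) with hg
  have hg1 : ∀ᶠ s : ℝ in 𝓝 0, deriv g s = fderiv ℝ U (x₀ + s • h) h := by
    filter_upwards [hne0] with s hs
    have h1 : HasFDerivAt U (fderiv ℝ U (x₀ + s • h)) (x₀ + s • h) :=
      ((pot_contDiffAt hU hs).differentiableAt (by simp)).hasFDerivAt
    exact (h1.comp_hasDerivAt s (hline s)).deriv
  have hg2 : HasDerivAt (deriv g) (fderiv ℝ (fderiv ℝ U) x₀ h h) 0 := by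
    have h2 : HasFDerivAt (fderiv ℝ U) (fderiv ℝ (fderiv ℝ U) x₀) (x₀ + (0:ℝ) • h) := by
      rw [zero_smul, add_zero]
      have : ContDiffAt ℝ 1 (fderiv ℝ U) x₀ := hcd.fderiv_right (m := 1) (by rw [one_add_one_eq_two]; exact WithTop.coe_le_coe.2 le_top)
      exact (this.differentiableAt (by simp)).hasFDerivAt
    have h3 := h2.comp_hasDerivAt 0 (hline 0)
    have h4 : HasDerivAt (fun s : ℝ => fderiv ℝ U (x₀ + s • h) h)
        (fderiv ℝ (fderiv ℝ U) x₀ h h) 0 := by
      simpa using h3.clm_apply (hasDerivAt_const (0:ℝ) h)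
    exact h4.congr_of_eventuallyEq hg1
  have hmin : IsLocalMin g 0 := by
    refine isLocalMin_of_deriv_deriv_pos ?_ ?_ ?_
    · rw [hg2.deriv]; exact hcon
    · rw [hg1.self_of_nhds]
      simp [pot_fderiv_zero hx₀ hmax]
    · have h1 : HasFDerivAt U (fderiv ℝ U (x₀ + (0:ℝ) • h)) (x₀ + (0:ℝ) • h) := by
        rw [zero_smul, add_zero]
        exact (hcd.differentiableAt (by simp)).hasFDerivAt
      exact (h1.comp_hasDerivAt 0 (hline 0)).continuousAt
  have heq : ∀ᶠ s : ℝ in 𝓝 0, g s = g 0 := by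
    filter_upwards [hmin, hne0] with s h1 h2
    refine le_antisymm ?_ h1
    have := hmax _ h2
    simpa [hg] using this
  have hd0 : ∀ᶠ s : ℝ in 𝓝 0, deriv g s = 0 := by
    have : g =ᶠ[𝓝 0] fun _ => g 0 := heq
    have := this.deriv
    filter_upwards [this] with s hs
    rw [hs]; simp
  have : deriv (deriv g) 0 = 0 := by
    have h5 : deriv g =ᶠ[𝓝 0] fun _ => (0:ℝ) := hd0
    rw [h5.deriv_eq]; simp
  rw [hg2.deriv] at this
  linarith

lemma hess_est {U : V → ℝ} (hU : Pot U) {x₀ : V} (hx₀ : ‖x₀‖ = 1)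
    (hmax : ∀ y : V, y ≠ 0 → U y ≤ U x₀) {ε : ℝ} (hε : 0 < ε) :
    ∃ δ > 0, ∀ x y : V, dist x x₀ < δ → dist y x₀ < δ →
      fderiv ℝ U x (x - y) - fderiv ℝ U y (x - y) ≤ ε * ‖x - y‖ ^ 2 := by
  have hne : x₀ ≠ 0 := by intro h; simp [h] at hx₀
  have hcd := pot_contDiffAt hU hne
  have h2c : ContDiffAt ℝ 0 (fderiv ℝ (fderiv ℝ U)) x₀ := by
    have h1 : ContDiffAt ℝ 1 (fderiv ℝ U) x₀ := hcd.fderiv_right (m := 1) (by rw [one_add_one_eq_two]; exact WithTop.coe_le_coe.2 le_top)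
    exact h1.fderiv_right (m := 0) (by simp)
  obtain ⟨δ₁, hδ₁, hD⟩ := gen_close h2c hε
  refine ⟨min δ₁ (1/2), by positivity, ?_⟩
  intro x y hx hy
  have hball : ∀ s ∈ Icc (0:ℝ) 1, dist (y + s • (x - y)) x₀ < min δ₁ (1/2) := by
    intro s hs
    have hconv := (convex_ball x₀ (min δ₁ (1/2)))
    have := hconv (x := y) (y := x) hy hx (a := 1 - s) (b := s) (by linarith [hs.2]) hs.1 (by ring)
    have h2 : (1 - s) • y + s • x = y + s • (x - y) := by
      rw [sub_smul, smul_sub, one_smul]; abel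
    rw [h2] at this
    exact this
  have hne' : ∀ s ∈ Icc (0:ℝ) 1, y + s • (x - y) ≠ 0 := by
    intro s hs h0
    have := hball s hs
    rw [h0, dist_zero_left, hx₀] at this
    have := this.trans_le (min_le_right _ _)
    norm_num at this
  have hline : ∀ s : ℝ, HasDerivAt (fun s : ℝ => y + s • (x - y)) (x - y) s := by
    intro s
    simpa using ((hasDerivAt_id s).smul_const (x - y)).const_add y
  have hder : ∀ s ∈ Icc (0:ℝ) 1, HasDerivAt (fun s : ℝ => fderiv ℝ U (y + s • (x - y)) (x - y))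
      (fderiv ℝ (fderiv ℝ U) (y + s • (x - y)) (x - y) (x - y)) s := by
    intro s hs
    have h2 : HasFDerivAt (fderiv ℝ U) (fderiv ℝ (fderiv ℝ U) (y + s • (x - y)))
        (y + s • (x - y)) := by
      have : ContDiffAt ℝ 1 (fderiv ℝ U) (y + s • (x - y)) :=
        (pot_contDiffAt hU (hne' s hs)).fderiv_right (m := 1) (by rw [one_add_one_eq_two]; exact WithTop.coe_le_coe.2 le_top)
      exact (this.differentiableAt (by simp)).hasFDerivAt
    have h3 := h2.comp_hasDerivAt s (hline s)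
    simpa using h3.clm_apply (hasDerivAt_const s (x - y))
  obtain ⟨c, hc, hceq⟩ := exists_hasDerivAt_eq_slope
    (fun s : ℝ => fderiv ℝ U (y + s • (x - y)) (x - y))
    (fun s : ℝ => fderiv ℝ (fderiv ℝ U) (y + s • (x - y)) (x - y) (x - y)) (by norm_num : (0:ℝ) < 1)
    (fun s hs => (hder s hs).continuousAt.continuousWithinAt)
    (fun s hs => hder s (Ioo_subset_Icc_self hs))
  simp only [one_smul, add_sub_cancel, zero_smul, add_zero, sub_zero, div_one] at hceq
  rw [← hceq]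
  have hc' := Ioo_subset_Icc_self hc
  have h1 := hD _ ((hball c hc').trans_le (min_le_left _ _)) (x - y)
  have h2 := hess_nonpos hU hx₀ hmax (x - y)
  linarith

lemma met_pos {G : V → V →L[ℝ] V} (hG : Met G) :
    ∃ c > 0, ∀ z ∈ N, c * ‖z.2‖ ^ 2 ≤ ⟪z.2, G z.1 z.2⟫ := by
  set K : Set (V × V) := {z | ‖z.1‖ = 1 ∧ ‖z.2‖ = 1 ∧ ⟪z.1, z.2⟫ = 0} with hK
  have hKc : IsCompact K := by
    have hsub : K ⊆ Metric.closedBall (0 : V) 1 ×ˢ Metric.closedBall (0 : V) 1 := by
      rintro ⟨x, p⟩ ⟨h1, h2, -⟩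
      simp only [Set.mem_prod, mem_closedBall_zero_iff]
      exact ⟨h1.le, h2.le⟩
    refine ((isCompact_closedBall (0 : V) 1).prod (isCompact_closedBall (0 : V) 1)).of_isClosed_subset
      ?_ hsub
    refine (isClosed_eq (by fun_prop) continuous_const).inter
      ((isClosed_eq (by fun_prop) continuous_const).inter
      (isClosed_eq (by fun_prop) continuous_const))
  have hcont : ContinuousOn (fun z : V × V => ⟪z.2, G z.1 z.2⟫) K := by
    have hGc : ContinuousOn (fun z : V × V => G z.1) K := by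
      refine hG.smooth.continuousOn.comp continuous_fst.continuousOn ?_
      rintro ⟨x, p⟩ ⟨h1, -⟩
      intro h0
      simp only at h0 h1
      simp [h0] at h1
    have h2 : ContinuousOn (fun z : V × V => G z.1 z.2) K :=
      hGc.clm_apply continuous_snd.continuousOn
    exact continuous_snd.continuousOn.inner (𝕜 := ℝ) h2
  have key : ∃ c > 0, ∀ z ∈ K, c ≤ ⟪z.2, G z.1 z.2⟫ := by
    rcases K.eq_empty_or_nonempty with h0 | h0
    · exact ⟨1, one_pos, fun z hz => by simp [h0] at hz⟩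
    · obtain ⟨z, hz, hmin⟩ := hKc.exists_isMinOn h0 hcont
      refine ⟨_, ?_, fun w hw => hmin hw⟩
      obtain ⟨h1, h2, h3⟩ := hz
      refine hG.pos z.1 z.2 ?_ ?_
      · intro h; simp [h] at h1
      · intro c hc
        rw [hc, inner_smul_right, real_inner_self_eq_norm_sq, h1] at h3
        have : c = 0 := by simpa using h3
        rw [hc, this] at h2
        simp at h2
  obtain ⟨c, hc, hcK⟩ := key
  refine ⟨c, hc, ?_⟩
  rintro ⟨x, p⟩ ⟨h1, h2⟩
  simp only at h1 h2 ⊢
  rcases eq_or_ne p 0 with h0 | h0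
  · simp [h0]
  · have hpn : 0 < ‖p‖ := norm_pos_iff.mpr h0
    have hmem : ((x, ‖p‖⁻¹ • p) : V × V) ∈ K := by
      refine ⟨h1, ?_, ?_⟩
      · simp only [norm_smul, norm_inv, norm_norm]
        field_simp
      · simp only [inner_smul_right, h2, mul_zero]
    have h4 := hcK _ hmem
    simp only [map_smul, inner_smul_left, inner_smul_right, RCLike.conj_to_real] at h4
    have h5 : ⟪p, G x p⟫ = ‖p‖ ^ 2 * (‖p‖⁻¹ * (‖p‖⁻¹ * ⟪p, G x p⟫)) := by
      field_simp
    rw [h5]
    nlinarith [sq_nonneg ‖p‖]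

lemma met_bdd {G : V → V →L[ℝ] V} (hG : Met G) :
    ∃ C > 0, ∀ x : V, ‖x‖ = 1 → ‖G x‖ ≤ C ∧ ‖fderiv ℝ G x‖ ≤ C := by
  have hK : IsCompact (Metric.sphere (0 : V) 1) := isCompact_sphere _ _
  have hne : ∀ x ∈ Metric.sphere (0 : V) 1, x ≠ 0 := by
    intro x hx h0
    simp [h0] at hx
  have h1 : ContinuousOn (fun x => ‖G x‖) (Metric.sphere (0 : V) 1) := by
    intro x hx
    exact (met_contDiffAt hG (hne x hx)).continuousAt.norm.continuousWithinAt
  have h2 : ContinuousOn (fun x => ‖fderiv ℝ G x‖) (Metric.sphere (0 : V) 1) := by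
    intro x hx
    have : ContDiffAt ℝ 0 (fderiv ℝ G) x := (met_contDiffAt hG (hne x hx)).fderiv_right (m := 0)
      (by simp)
    exact (gen_norm this).continuousWithinAt
  obtain ⟨C1, hC1⟩ := (hK.image_of_continuousOn h1).bddAbove
  obtain ⟨C2, hC2⟩ := (hK.image_of_continuousOn h2).bddAbove
  refine ⟨max 1 (max C1 C2), by positivity, fun x hx => ?_⟩
  have hx' : x ∈ Metric.sphere (0 : V) 1 := by simpa using hx
  exact ⟨(hC1 ⟨x, hx', rfl⟩).trans ((le_max_left _ _).trans (le_max_right _ _)),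
    (hC2 ⟨x, hx', rfl⟩).trans ((le_max_right _ _).trans (le_max_right _ _))⟩

theorem no_short_periodic {G : V → V →L[ℝ] V} {U : V → ℝ} {E : ℝ}
    {v : V × V → V × V} {φ : ℝ → V × V → V × V} (hG : Met G) (hU : Pot U)
    (hφ : HFlow G U E v φ) {x₀ : V} (hx₀ : ‖x₀‖ = 1) (hmax : ∀ y : V, y ≠ 0 → U y ≤ U x₀)
    (hE : U x₀ ≤ E) {T₁ : ℝ} (hT₁ : 0 < T₁) :
    ∃ ρ > 0, ∀ z ∈ N, Ham G U z ≤ E → dist z (x₀, 0) < ρ → φ T₁ z = z → z.2 = 0 := by
  obtain ⟨c, hc, hpos⟩ := met_pos hG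
  obtain ⟨C, hC, hbd⟩ := met_bdd hG
  obtain ⟨L, hL0, hL⟩ := hφ.lip
  have heq := equil hG hU hφ hx₀ hmax hE
  set ε : ℝ := c / (4 * (T₁ ^ 2 * C ^ 2)) with hεdef
  have hε : 0 < ε := by positivity
  obtain ⟨δ, hδ, hHess⟩ := hess_est hU hx₀ hmax hε
  set r : ℝ := min (δ / 2) (c / (4 * C)) with hrdef
  have hr : 0 < r := by positivity
  refine ⟨r * Real.exp (-(L * T₁)), by positivity, fun z hz hzE hdist hper => ?_⟩
  -- stays near
  have hnear : ∀ t ∈ Icc (0:ℝ) T₁, dist (φ t z) (x₀, 0) ≤ r := by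
    intro t ht
    have h1 := hL t z (x₀, 0)
    rw [heq t] at h1
    refine h1.trans ?_
    have h2 : Real.exp (L * |t|) ≤ Real.exp (L * T₁) := by
      apply Real.exp_le_exp.mpr
      rw [abs_of_nonneg ht.1]
      exact mul_le_mul_of_nonneg_left ht.2 hL0
    calc Real.exp (L * |t|) * dist z (x₀, 0) ≤ Real.exp (L * T₁) * (r * Real.exp (-(L * T₁))) := by
          apply mul_le_mul h2 hdist.le dist_nonneg (by positivity)
      _ = r * (Real.exp (L * T₁) * Real.exp (-(L * T₁))) := by ring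
      _ = r := by rw [← Real.exp_add]; simp
  have hmemN : ∀ t, φ t z ∈ N := fun t => hφ.mem t z hz
  have hmemOm : ∀ t, φ t z ∈ Om := by
    intro t h0
    have := (hmemN t).1
    rw [h0] at this
    simp at this
  have hnorm : ∀ t, ‖(φ t z).1‖ = 1 := fun t => (hmemN t).1
  have hv : ∀ t, v (φ t z) = XF (Ham G U) (φ t z) := by
    intro t
    refine (hφ.veq _ (hmemN t) ?_).eq_of_nhds
    rw [hφ.energy t z hz]; exact hzE
  have hdx : ∀ t, HasDerivAt (fun s => (φ s z).1) (G (φ t z).1 (φ t z).2) t := by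
    intro t
    have h1 := (hφ.deriv z t).fst
    rw [hv t] at h1
    simp only [XF] at h1
    rwa [gp_ham hG hU (hmemOm t)] at h1
  have hdp : ∀ t, HasDerivAt (fun s => (φ s z).2) (-gx (Ham G U) (φ t z)) t := by
    intro t
    have h0 := hφ.deriv z t
    rw [hv t] at h0
    have h1 := h0.hasFDerivAt.snd.hasDerivAt
    simpa [XF] using h1
  have hcx : Continuous (fun s => (φ s z).1) :=
    continuous_iff_continuousAt.mpr fun t => (hdx t).continuousAt
  have hcp : Continuous (fun s => (φ s z).2) :=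
    continuous_iff_continuousAt.mpr fun t => (hdp t).continuousAt
  set x : ℝ → V := fun s => (φ s z).1 with hxdef
  set p : ℝ → V := fun s => (φ s z).2 with hpdef
  have hxne : ∀ t, x t ≠ 0 := fun t => hmemOm t
  set xb : V := (1 / T₁) • ∫ t in (0:ℝ)..T₁, x t with hxb
  have hxint : ∀ a b : ℝ, IntervalIntegrable x MeasureTheory.volume a b :=
    fun a b => hcx.intervalIntegrable a b
  -- mean zero
  have hmean : ∫ t in (0:ℝ)..T₁, (x t - xb) = 0 := by
    rw [intervalIntegral.integral_sub (hxint _ _) (by simp), intervalIntegral.integral_const,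
      sub_zero, hxb, smul_smul]
    rw [mul_one_div_cancel hT₁.ne', one_smul, sub_self]
  have hxbar : dist xb x₀ ≤ r := by
    have h1 : xb - x₀ = (1 / T₁) • ∫ t in (0:ℝ)..T₁, (x t - x₀) := by
      rw [intervalIntegral.integral_sub (hxint _ _) (by simp), intervalIntegral.integral_const,
        sub_zero, smul_sub, smul_smul, one_div_mul_cancel hT₁.ne', one_smul]
    rw [dist_eq_norm, h1, norm_smul]
    have h2 : ‖∫ t in (0:ℝ)..T₁, (x t - x₀)‖ ≤ r * |T₁ - 0| := by
      apply intervalIntegral.norm_integral_le_of_norm_le_const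
      intro t ht
      rw [uIoc_of_le hT₁.le] at ht
      rw [← dist_eq_norm]
      exact (le_max_left _ _).trans (hnear t ⟨ht.1.le, ht.2⟩)
    rw [sub_zero, abs_of_pos hT₁] at h2
    calc ‖1 / T₁‖ * ‖∫ t in (0:ℝ)..T₁, (x t - x₀)‖ ≤ (1 / T₁) * (r * T₁) := by
          rw [Real.norm_of_nonneg (by positivity)]
          exact mul_le_mul_of_nonneg_left h2 (by positivity)
      _ = r := by field_simp
  have hxr : ∀ t ∈ Icc (0:ℝ) T₁, dist (x t) x₀ ≤ r := fun t ht =>
    (le_max_left _ _).trans (hnear t ht)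
  have hδ' : r < δ := (min_le_left _ _).trans_lt (by linarith)
  -- Poincare
  set P1 : ℝ := ∫ s in (0:ℝ)..T₁, ‖p s‖ with hP1
  set I : ℝ := ∫ s in (0:ℝ)..T₁, ‖p s‖ ^ 2 with hI
  have hGp : ∀ t, ‖G (x t) (p t)‖ ≤ C * ‖p t‖ := fun t =>
    ((G (x t)).le_opNorm _).trans (mul_le_mul_of_nonneg_right (hbd _ (hnorm t)).1 (norm_nonneg _))
  have hlipx : ∀ a ∈ Icc (0:ℝ) T₁, ∀ b ∈ Icc (0:ℝ) T₁, a ≤ b → ‖x b - x a‖ ≤ C * P1 := by
    intro a ha b hb hab
    have hGc : Continuous (fun t => G (x t) (p t)) := by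
      have h1 : Continuous (fun t => G (x t)) := by
        rw [continuous_iff_continuousAt]
        intro t
        exact ContinuousAt.comp (g := G) (met_contDiffAt hG (hxne t)).continuousAt hcx.continuousAt
      exact h1.clm_apply hcp
    have h1 := intervalIntegral.integral_eq_sub_of_hasDerivAt (a := a) (b := b)
      (fun t _ => hdx t) (hGc.intervalIntegrable _ _)
    rw [← h1]
    calc ‖∫ t in a..b, G (x t) (p t)‖ ≤ ∫ t in a..b, C * ‖p t‖ := by
          apply intervalIntegral.norm_integral_le_of_norm_le hab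
          · filter_upwards with t _ using hGp t
          · exact (continuous_const.mul hcp.norm).intervalIntegrable _ _
      _ = C * ∫ t in a..b, ‖p t‖ := by rw [intervalIntegral.integral_const_mul]
      _ ≤ C * P1 := by
          apply mul_le_mul_of_nonneg_left _ hC.le
          apply intervalIntegral.integral_mono_interval ha.1 hab hb.2
          · filter_upwards with t using norm_nonneg _
          · exact hcp.norm.intervalIntegrable _ _
  have hlipx' : ∀ a ∈ Icc (0:ℝ) T₁, ∀ b ∈ Icc (0:ℝ) T₁, ‖x b - x a‖ ≤ C * P1 := by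
    intro a ha b hb
    rcases le_total a b with h | h
    · exact hlipx a ha b hb h
    · rw [norm_sub_rev]; exact hlipx b hb a ha h
  have hpoin : ∀ t ∈ Icc (0:ℝ) T₁, ‖x t - xb‖ ≤ C * P1 := by
    intro t ht
    have h1 : x t - xb = (1 / T₁) • ∫ s in (0:ℝ)..T₁, (x t - x s) := by
      rw [intervalIntegral.integral_sub (by simp) (hxint _ _), intervalIntegral.integral_const,
        sub_zero, smul_sub, smul_smul, one_div_mul_cancel hT₁.ne', one_smul]
    rw [h1, norm_smul]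
    have h2 : ‖∫ s in (0:ℝ)..T₁, (x t - x s)‖ ≤ (C * P1) * |T₁ - 0| := by
      apply intervalIntegral.norm_integral_le_of_norm_le_const
      intro s hs
      rw [uIoc_of_le hT₁.le] at hs
      exact hlipx' s ⟨hs.1.le, hs.2⟩ t ht
    rw [sub_zero, abs_of_pos hT₁] at h2
    calc ‖1 / T₁‖ * ‖∫ s in (0:ℝ)..T₁, (x t - x s)‖ ≤ (1 / T₁) * ((C * P1) * T₁) := by
          rw [Real.norm_of_nonneg (by positivity)]
          exact mul_le_mul_of_nonneg_left h2 (by positivity)
      _ = C * P1 := by field_simp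
  have hP1nn : 0 ≤ P1 := intervalIntegral.integral_nonneg hT₁.le fun t _ => norm_nonneg _
  have hCS : P1 ^ 2 ≤ T₁ * I := by
    have h1 : 0 ≤ ∫ s in (0:ℝ)..T₁, (‖p s‖ - P1 / T₁) ^ 2 :=
      intervalIntegral.integral_nonneg hT₁.le fun t _ => sq_nonneg _
    have h2 : ∫ s in (0:ℝ)..T₁, (‖p s‖ - P1 / T₁) ^ 2 = I - 2 * (P1 / T₁) * P1 + (P1 / T₁) ^ 2 * T₁ := by
      have h3 : ∀ s, (‖p s‖ - P1 / T₁) ^ 2 = ‖p s‖ ^ 2 - 2 * (P1 / T₁) * ‖p s‖ + (P1 / T₁) ^ 2 := by
        intro s; ring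
      simp_rw [h3]
      rw [intervalIntegral.integral_add, intervalIntegral.integral_sub,
        intervalIntegral.integral_const_mul, intervalIntegral.integral_const]
      · simp only [sub_zero, smul_eq_mul]; ring
      · exact (hcp.norm.pow 2).intervalIntegrable _ _
      · exact (continuous_const.mul hcp.norm).intervalIntegrable _ _
      · exact ((hcp.norm.pow 2).sub (continuous_const.mul hcp.norm)).intervalIntegrable _ _
      · simp
    rw [h2] at h1
    have h4 : I - 2 * (P1 / T₁) * P1 + (P1 / T₁) ^ 2 * T₁ = I - P1 ^ 2 / T₁ := by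
      field_simp; ring
    rw [h4] at h1
    have h5 : P1 ^ 2 / T₁ ≤ I := by linarith
    rw [div_le_iff₀ hT₁] at h5
    linarith
  -- virial identity
  have hb : ∀ t, HasDerivAt (fun s => ⟪p s, x s - xb⟫)
      (⟪p t, G (x t) (p t)⟫ - (1 / 2) * ⟪p t, (fderiv ℝ G (x t) (x t - xb)) (p t)⟫
        - fderiv ℝ U (x t) (x t - xb)) t := by
    intro t
    have h1 := (hdp t).inner ℝ ((hdx t).sub_const xb)
    refine h1.congr_deriv ?_
    have h2 := gx_ham hG hU (hmemOm t) (x t - xb)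
    rw [inner_neg_left, h2]
    ring
  have hDUc : Continuous (fun t => fderiv ℝ U (x t)) := by
    rw [continuous_iff_continuousAt]
    intro t
    have h0 : ContDiffAt ℝ 0 (fderiv ℝ U) (x t) :=
      (pot_contDiffAt hU (hxne t)).fderiv_right (m := 0) (by simp)
    exact ContinuousAt.comp (g := fderiv ℝ U) h0.continuousAt hcx.continuousAt
  have hDGc : Continuous (fun t => fderiv ℝ G (x t)) := by
    rw [continuous_iff_continuousAt]
    intro t
    have h0 : ContDiffAt ℝ 0 (fderiv ℝ G) (x t) :=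
      (met_contDiffAt hG (hxne t)).fderiv_right (m := 0) (by simp)
    exact ContinuousAt.comp (g := fderiv ℝ G) h0.continuousAt hcx.continuousAt
  have hGc : Continuous (fun t => G (x t) (p t)) := by
    have h1 : Continuous (fun t => G (x t)) := by
      rw [continuous_iff_continuousAt]
      intro t
      exact ContinuousAt.comp (g := G) (met_contDiffAt hG (hxne t)).continuousAt hcx.continuousAt
    exact h1.clm_apply hcp
  have hxc' : Continuous (fun t => x t - xb) := hcx.sub continuous_const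
  have hf1 : Continuous (fun t => ⟪p t, G (x t) (p t)⟫) := hcp.inner (𝕜 := ℝ) hGc
  have hf2 : Continuous (fun t => (1 / 2) * ⟪p t, (fderiv ℝ G (x t) (x t - xb)) (p t)⟫) :=
    continuous_const.mul (hcp.inner (𝕜 := ℝ) ((hDGc.clm_apply hxc').clm_apply hcp))
  have hf3 : Continuous (fun t => fderiv ℝ U (x t) (x t - xb)) := hDUc.clm_apply hxc'
  have hvir := intervalIntegral.integral_eq_sub_of_hasDerivAt (a := 0) (b := T₁)
      (fun t _ => hb t) (((hf1.sub hf2).sub hf3).intervalIntegrable _ _)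
  have hp0 : p T₁ = p 0 ∧ x T₁ = x 0 := by
    simp only [hxdef, hpdef, hper, hφ.zero, and_self]
  rw [hp0.1, hp0.2, sub_self, intervalIntegral.integral_sub, intervalIntegral.integral_sub] at hvir
  rotate_left
  · exact hf1.intervalIntegrable _ _
  · exact hf2.intervalIntegrable _ _
  · exact (hf1.sub hf2).intervalIntegrable _ _
  · exact hf3.intervalIntegrable _ _
  -- estimates
  have e1 : c * I ≤ ∫ t in (0:ℝ)..T₁, ⟪p t, G (x t) (p t)⟫ := by
    rw [hI, ← intervalIntegral.integral_const_mul]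
    apply intervalIntegral.integral_mono_on hT₁.le
    · exact (continuous_const.mul (hcp.norm.pow 2)).intervalIntegrable _ _
    · exact hf1.intervalIntegrable _ _
    · intro t _
      exact hpos _ (hmemN t)
  have e2 : ∫ t in (0:ℝ)..T₁, (1 / 2) * ⟪p t, (fderiv ℝ G (x t) (x t - xb)) (p t)⟫ ≤ (C * r) * I := by
    rw [hI, ← intervalIntegral.integral_const_mul]
    apply intervalIntegral.integral_mono_on hT₁.le
    · exact hf2.intervalIntegrable _ _
    · exact (continuous_const.mul (hcp.norm.pow 2)).intervalIntegrable _ _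
    · intro t ht
      have h1 : ‖x t - xb‖ ≤ 2 * r := by
        rw [← dist_eq_norm]
        have := dist_triangle_right (x t) xb x₀
        have h2 := hxr t ht
        linarith
      have h2 : ⟪p t, (fderiv ℝ G (x t) (x t - xb)) (p t)⟫ ≤ ‖p t‖ * ((C * (2 * r)) * ‖p t‖) := by
        refine (real_inner_le_norm _ _).trans ?_
        apply mul_le_mul_of_nonneg_left _ (norm_nonneg _)
        refine (ContinuousLinearMap.le_opNorm _ _).trans ?_
        apply mul_le_mul_of_nonneg_right _ (norm_nonneg _)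
        refine (ContinuousLinearMap.le_opNorm _ _).trans ?_
        exact mul_le_mul (hbd _ (hnorm t)).2 h1 (norm_nonneg _) hC.le
      nlinarith
  have e3 : ∫ t in (0:ℝ)..T₁, fderiv ℝ U (x t) (x t - xb) ≤ ε * ((C * P1) ^ 2 * T₁) := by
    have h0 : ∫ t in (0:ℝ)..T₁, fderiv ℝ U xb (x t - xb) = 0 := by
      rw [ContinuousLinearMap.intervalIntegral_comp_comm _ (hxc'.intervalIntegrable _ _), hmean,
        map_zero]
    have h1 : ∫ t in (0:ℝ)..T₁, fderiv ℝ U (x t) (x t - xb) =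
        ∫ t in (0:ℝ)..T₁, (fderiv ℝ U (x t) (x t - xb) - fderiv ℝ U xb (x t - xb)) := by
      rw [intervalIntegral.integral_sub, h0, sub_zero]
      · exact hf3.intervalIntegrable _ _
      · exact ((fderiv ℝ U xb).continuous.comp hxc').intervalIntegrable _ _
    rw [h1]
    have h2 : ε * ((C * P1) ^ 2 * T₁) = ∫ t in (0:ℝ)..T₁, ε * (C * P1) ^ 2 := by
      rw [intervalIntegral.integral_const]; simp; ring
    rw [h2]
    apply intervalIntegral.integral_mono_on hT₁.le
    · exact (hf3.sub ((fderiv ℝ U xb).continuous.comp hxc')).intervalIntegrable _ _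
    · simp
    · intro t ht
      refine (hHess (x t) xb ((hxr t ht).trans_lt hδ') (hxbar.trans_lt hδ')).trans ?_
      apply mul_le_mul_of_nonneg_left _ hε.le
      exact pow_le_pow_left₀ (norm_nonneg _) (hpoin t ht) 2
  have hInn : 0 ≤ I := intervalIntegral.integral_nonneg hT₁.le fun t _ => sq_nonneg _
  have e4 : ε * ((C * P1) ^ 2 * T₁) ≤ c / 4 * I := by
    have h1 : (C * P1) ^ 2 * T₁ ≤ C ^ 2 * T₁ ^ 2 * I := by
      have : (C * P1) ^ 2 * T₁ = C ^ 2 * T₁ * P1 ^ 2 := by ring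
      rw [this]
      have h2 : C ^ 2 * T₁ * P1 ^ 2 ≤ C ^ 2 * T₁ * (T₁ * I) :=
        mul_le_mul_of_nonneg_left hCS (by positivity)
      linarith
    calc ε * ((C * P1) ^ 2 * T₁) ≤ ε * (C ^ 2 * T₁ ^ 2 * I) := mul_le_mul_of_nonneg_left h1 hε.le
      _ = c / 4 * I := by rw [hεdef]; field_simp
  have e5 : C * r ≤ c / 4 := by
    have : r ≤ c / (4 * C) := min_le_right _ _
    calc C * r ≤ C * (c / (4 * C)) := mul_le_mul_of_nonneg_left this hC.le
      _ = c / 4 := by field_simp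
  have e6 : (C * r) * I ≤ c / 4 * I := mul_le_mul_of_nonneg_right e5 hInn
  have hI0 : I ≤ 0 := by nlinarith
  by_contra hne
  have hp0' : p 0 ≠ 0 := by simpa [hpdef, hφ.zero] using hne
  have : 0 < I := by
    refine intervalIntegral.integral_pos hT₁ (hcp.norm.pow 2).continuousOn
      (fun t _ => sq_nonneg _) ⟨0, ⟨le_rfl, hT₁.le⟩, ?_⟩
    have := norm_pos_iff.mpr hp0'
    positivity
  linarith

end SI

end Pool.Agent.Helper197
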