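import Mathlib

open Set Topology

namespace Pool.Agent.Helper197

namespace SI

/-- Local wall-crossing lemma.  `S = {(s,τ) : |s| < α, h s < τ < β}` is a region above the graph of
`h`; `k` vanishes on the graph and is strictly increasing in `τ` above it.  `R` is a continuous map
near the origin which is the identity on the graph, maps the region to itself preserving `k`, and
is periodic (`R^[n] = id`) near the origin.  Then `R` must have a fixed point in the region. -/
theorem wall_local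
    (α β : ℝ) (hα : 0 < α) (hβ : 0 < β)
    (h : ℝ → ℝ) (k : ℝ → ℝ → ℝ)
    (hh : ContinuousOn h (Ioo (-α) α)) (hh0 : h 0 = 0)
    (hhβ : ∀ s ∈ Ioo (-α) α, h s < β)
    (hk : ContinuousOn (fun u : ℝ × ℝ => k u.1 u.2)
      {u | u.1 ∈ Ioo (-α) α ∧ h u.1 ≤ u.2 ∧ u.2 < β})
    (hk0 : ∀ s ∈ Ioo (-α) α, k s (h s) = 0)
    (hkmono : ∀ s ∈ Ioo (-α) α, StrictMonoOn (k s) (Ico (h s) β))
    (W : Set (ℝ × ℝ)) (hW : W ∈ 𝓝 ((0 : ℝ), (0 : ℝ)))
    (R : ℝ × ℝ → ℝ × ℝ) (hR : ContinuousOn R W)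
    (hRΓ : ∀ s ∈ Ioo (-α) α, (s, h s) ∈ W → R (s, h s) = (s, h s))
    (hRS : ∀ u ∈ W, u.1 ∈ Ioo (-α) α → h u.1 < u.2 → u.2 < β →
      (R u).1 ∈ Ioo (-α) α ∧ h (R u).1 < (R u).2 ∧ (R u).2 < β ∧
        k (R u).1 (R u).2 = k u.1 u.2)
    (hfix : ∀ u ∈ W, u.1 ∈ Ioo (-α) α → h u.1 < u.2 → u.2 < β → R u ≠ u)
    (n : ℕ) (hn : 0 < n)
    (hper : ∀ u : ℝ × ℝ, u.1 ∈ Ioo (-α) α → h u.1 < u.2 → u.2 < β →
      (∀ j ≤ n, R^[j] u ∈ W) → R^[n] u = u) : False := by
  have h0mem : (0 : ℝ) ∈ Ioo (-α) α := ⟨by linarith, hα⟩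
  -- the origin is fixed
  have h00 : R ((0 : ℝ), (0 : ℝ)) = ((0 : ℝ), (0 : ℝ)) := by
    have h1 := hRΓ 0 h0mem (by rw [hh0]; exact mem_of_mem_nhds hW)
    rwa [hh0] at h1
  have hRc : ContinuousAt R ((0 : ℝ), (0 : ℝ)) := hR.continuousAt hW
  -- a box inside W
  obtain ⟨r, hr, hball⟩ := Metric.mem_nhds_iff.1 hW
  set b : ℝ := min r β with hb
  have hbpos : 0 < b := lt_min hr hβ
  have hbr : b ≤ r := min_le_left _ _
  have hbβ : b ≤ β := min_le_right _ _
  have hhc : ContinuousAt h 0 := hh.continuousAt (Ioo_mem_nhds h0mem.1 h0mem.2)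
  obtain ⟨δ, hδ, hδh⟩ := Metric.continuousAt_iff.1 hhc b hbpos
  set a : ℝ := min (min r δ) α with ha
  have hapos : 0 < a := lt_min (lt_min hr hδ) hα
  have har : a ≤ r := (min_le_left _ _).trans (min_le_left _ _)
  have haδ : a ≤ δ := (min_le_left _ _).trans (min_le_right _ _)
  have haα : a ≤ α := min_le_right _ _
  have hhb : ∀ s ∈ Ioo (-a) a, |h s| < b := by
    intro s hs
    have h1 : dist s 0 < δ := by
      rw [Real.dist_eq, sub_zero, abs_lt]
      exact ⟨by linarith [hs.1], by linarith [hs.2]⟩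
    have h2 := hδh h1
    rwa [hh0, Real.dist_eq, sub_zero] at h2
  -- the open region
  set D : Set (ℝ × ℝ) := {u | u.1 ∈ Ioo (-a) a ∧ h u.1 < u.2 ∧ u.2 < b} with hD
  have hDα : ∀ u ∈ D, u.1 ∈ Ioo (-α) α := by
    intro u hu
    exact ⟨by linarith [hu.1.1], by linarith [hu.1.2]⟩
  have hDβ : ∀ u ∈ D, u.2 < β := fun u hu => lt_of_lt_of_le hu.2.2 hbβ
  have hDW : D ⊆ W := by
    intro u hu
    apply hball
    have h1 := hhb u.1 hu.1
    rw [abs_lt] at h1
    rw [Metric.mem_ball, Prod.dist_eq, max_lt_iff, Real.dist_eq, Real.dist_eq]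
    simp only [sub_zero, abs_lt]
    exact ⟨⟨by linarith [hu.1.1], by linarith [hu.1.2]⟩, by linarith [hu.2.1, h1.1],
      by linarith [hu.2.2]⟩
  -- D is preconnected
  have hDpre : IsPreconnected D := by
    have himg : D = (fun p : ℝ × ℝ => (p.1, h p.1 + p.2 * (b - h p.1))) ''
        (Ioo (-a) a ×ˢ Ioo (0 : ℝ) 1) := by
      ext ⟨s, t⟩
      constructor
      · rintro ⟨hs, h1, h2⟩
        simp only at hs h1 h2
        have h3 : 0 < b - h s := by linarith
        refine ⟨(s, (t - h s) / (b - h s)), ⟨hs, ?_, ?_⟩, ?_⟩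
        · exact div_pos (by linarith) h3
        · simp only
          rw [div_lt_one h3]; linarith
        · simp only [Prod.mk.injEq, true_and]
          field_simp
          ring
      · rintro ⟨⟨s', t'⟩, ⟨hs, ht⟩, heq⟩
        simp only [Prod.mk.injEq] at heq hs ht
        obtain ⟨rfl, rfl⟩ := heq
        have h1 := hhb s' hs
        rw [abs_lt] at h1
        refine ⟨hs, ?_, ?_⟩
        · simp only
          nlinarith [ht.1, ht.2, h1.1, h1.2]
        · simp only
          nlinarith [ht.1, ht.2, h1.1, h1.2]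
    rw [himg]
    apply (isPreconnected_Ioo.prod isPreconnected_Ioo).image
    have hc : ContinuousOn (fun p : ℝ × ℝ => h p.1) (Ioo (-a) a ×ˢ Ioo (0 : ℝ) 1) := by
      apply hh.comp continuous_fst.continuousOn
      rintro ⟨s, t⟩ ⟨hs, -⟩
      exact ⟨by linarith [hs.1], by linarith [hs.2]⟩
    exact continuous_fst.continuousOn.prodMk
      (hc.add (continuous_snd.continuousOn.mul (continuousOn_const.sub hc)))
  -- displacement
  have hdc : ContinuousOn (fun u : ℝ × ℝ => (R u).1 - u.1) D :=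
    (continuous_fst.comp_continuousOn (hR.mono hDW)).sub continuous_fst.continuousOn
  have hdne : ∀ u ∈ D, (R u).1 - u.1 ≠ 0 := by
    intro u hu h0
    have h1 : (R u).1 = u.1 := by linarith
    obtain ⟨h2, h3, h4, h5⟩ := hRS u (hDW hu) (hDα u hu) hu.2.1 (hDβ u hu)
    rw [h1] at h3 h5
    have h6 : (R u).2 = u.2 :=
      (hkmono u.1 (hDα u hu)).injOn ⟨h3.le, h4⟩ ⟨hu.2.1.le, hDβ u hu⟩ h5
    exact hfix u (hDW hu) (hDα u hu) hu.2.1 (hDβ u hu) (Prod.ext h1 h6)
  have hsign : (∀ u ∈ D, 0 < (R u).1 - u.1) ∨ (∀ u ∈ D, (R u).1 - u.1 < 0) := by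
    by_contra hcon
    push Not at hcon
    obtain ⟨⟨x, hx, hx0⟩, ⟨y, hy, hy0⟩⟩ := hcon
    obtain ⟨z, hz, hz0⟩ := hDpre.intermediate_value hx hy hdc ⟨hx0, hy0⟩
    exact hdne z hz hz0
  -- iterates
  have hbox : Ioo (-a) a ×ˢ Ioo (-b) b ∈ 𝓝 ((0 : ℝ), (0 : ℝ)) :=
    prod_mem_nhds (Ioo_mem_nhds (by linarith) hapos) (Ioo_mem_nhds (by linarith) hbpos)
  have hev : ∀ᶠ u in 𝓝 ((0 : ℝ), (0 : ℝ)), ∀ j ∈ Finset.range (n + 1),
      R^[j] u ∈ Ioo (-a) a ×ˢ Ioo (-b) b := by
    rw [Filter.eventually_all_finset]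
    intro j _
    have h1 : ContinuousAt (R^[j]) ((0 : ℝ), (0 : ℝ)) := hRc.iterate h00 j
    have h2 : R^[j] ((0 : ℝ), (0 : ℝ)) = ((0 : ℝ), (0 : ℝ)) := Function.iterate_fixed h00 j
    have h3 : Filter.Tendsto (R^[j]) (𝓝 ((0 : ℝ), (0 : ℝ))) (𝓝 ((0 : ℝ), (0 : ℝ))) := by
      have h4 := h1.tendsto
      rwa [h2] at h4
    exact h3 hbox
  have htend : Filter.Tendsto (fun t : ℝ => ((0 : ℝ), t)) (𝓝[>] 0) (𝓝 ((0 : ℝ), (0 : ℝ))) := by
    have h1 : Continuous (fun t : ℝ => ((0 : ℝ), t)) := by fun_prop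
    exact (h1.tendsto 0).mono_left nhdsWithin_le_nhds
  obtain ⟨t, ht, htpos⟩ := ((htend.eventually hev).and self_mem_nhdsWithin).exists
  have htpos' : 0 < t := htpos
  set u0 : ℝ × ℝ := ((0 : ℝ), t) with hu0
  have horb : ∀ j ≤ n, R^[j] u0 ∈ D := by
    intro j
    induction j with
    | zero =>
      intro _
      have h1 := ht 0 (by simp)
      simp only [Function.iterate_zero, id_eq] at h1 ⊢
      refine ⟨h1.1, ?_, h1.2.2⟩
      simp only [hu0, hh0]
      exact htpos'
    | succ j ih =>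
      intro hj
      have h1 := ih (by omega)
      have h2 := ht (j + 1) (Finset.mem_range.2 (by omega))
      rw [Function.iterate_succ', Function.comp_apply] at h2 ⊢
      obtain ⟨-, h4, -, -⟩ := hRS _ (hDW h1) (hDα _ h1) h1.2.1 (hDβ _ h1)
      exact ⟨h2.1, h4, h2.2.2⟩
  have hlast : R^[n] u0 = u0 :=
    hper u0 (hDα _ (horb 0 (Nat.zero_le _))) (horb 0 (Nat.zero_le _)).2.1
      (hDβ _ (horb 0 (Nat.zero_le _))) (fun j hj => hDW (horb j hj))
  rcases hsign with hs | hs
  · have hmono : ∀ j, j < n → u0.1 < (R^[j + 1] u0).1 := by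
      intro j
      induction j with
      | zero =>
        intro _
        have h1 := hs _ (horb 0 (Nat.zero_le _))
        simp only [Function.iterate_zero, id_eq] at h1
        simp only [zero_add, Function.iterate_one]
        linarith
      | succ j ih =>
        intro hj
        have h1 := ih (by omega)
        have h2 := hs _ (horb (j + 1) (by omega))
        rw [Function.iterate_succ', Function.comp_apply]
        linarith
    have h1 := hmono (n - 1) (by omega)
    rw [Nat.sub_add_cancel hn, hlast] at h1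
    exact lt_irrefl _ h1
  · have hmono : ∀ j, j < n → (R^[j + 1] u0).1 < u0.1 := by
      intro j
      induction j with
      | zero =>
        intro _
        have h1 := hs _ (horb 0 (Nat.zero_le _))
        simp only [Function.iterate_zero, id_eq] at h1
        simp only [zero_add, Function.iterate_one]
        linarith
      | succ j ih =>
        intro hj
        have h1 := ih (by omega)
        have h2 := hs _ (horb (j + 1) (by omega))
        rw [Function.iterate_succ', Function.comp_apply]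
        linarith
    have h1 := hmono (n - 1) (by omega)
    rw [Nat.sub_add_cancel hn, hlast] at h1
    exact lt_irrefl _ h1

end SI

end Pool.Agent.Helper197
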