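import Pool.Agent.Helper197.Flow
import Pool.Agent.Helper197.WallPlane

open Set Topology
open scoped RealInnerProductSpace

noncomputable section

namespace Pool.Agent.Helper197

namespace SI


/-! Part A: real analysis -/

theorem iterDeriv_contDiffOn {δ : ℝ} {f : ℝ × ℝ → ℝ}
    (hf : ContDiffOn ℝ ((⊤ : ℕ∞) : WithTop ℕ∞) f (Ioo (-δ) δ ×ˢ univ)) (j : ℕ) :
    ContDiffOn ℝ ((⊤ : ℕ∞) : WithTop ℕ∞)
      (fun u : ℝ × ℝ => iteratedDeriv j (fun θ => f (u.1, θ)) u.2) (Ioo (-δ) δ ×ˢ univ) := by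
  have hO : IsOpen (Ioo (-δ) δ ×ˢ (univ : Set ℝ)) := isOpen_Ioo.prod isOpen_univ
  induction j with
  | zero => simpa using hf
  | succ j ih =>
    have h1 : ContDiffOn ℝ ((⊤ : ℕ∞) : WithTop ℕ∞)
        (fun u : ℝ × ℝ => fderiv ℝ (fun u : ℝ × ℝ => iteratedDeriv j (fun θ => f (u.1, θ)) u.2) u
          ((0 : ℝ), (1 : ℝ))) (Ioo (-δ) δ ×ˢ univ) := by
      have := ih.fderiv_of_isOpen hO (m := ((⊤ : ℕ∞) : WithTop ℕ∞)) (by simp)
      exact this.clm_apply contDiffOn_const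
    refine h1.congr ?_
    intro u hu
    rw [iteratedDeriv_succ]
    have hd : DifferentiableAt ℝ
        (fun u : ℝ × ℝ => iteratedDeriv j (fun θ => f (u.1, θ)) u.2) u :=
      (ih.contDiffAt (hO.mem_nhds hu)).differentiableAt (by simp)
    have hg : HasDerivAt (fun t : ℝ => ((u.1, t) : ℝ × ℝ)) ((0 : ℝ), (1 : ℝ)) u.2 :=
      (hasDerivAt_const _ _).prodMk (hasDerivAt_id _)
    have hd' : HasFDerivAt (fun u : ℝ × ℝ => iteratedDeriv j (fun θ => f (u.1, θ)) u.2)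
        (fderiv ℝ (fun u : ℝ × ℝ => iteratedDeriv j (fun θ => f (u.1, θ)) u.2) u)
        ((fun t : ℝ => ((u.1, t) : ℝ × ℝ)) u.2) := hd.hasFDerivAt
    have := (hd'.comp_hasDerivAt u.2 hg).deriv
    exact this

theorem strictMonoOn_of_iter (n : ℕ) : ∀ {F : ℝ → ℝ} {h β : ℝ},
    ContDiff ℝ ((⊤ : ℕ∞) : WithTop ℕ∞) F →
    (∀ θ ∈ Ioo h β, 0 < iteratedDeriv (n + 1) F θ) →
    (∀ j, j ≤ n → iteratedDeriv j F h = 0) → StrictMonoOn F (Ico h β) := by
  induction n with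
  | zero =>
    intro F h β hF hpos _
    refine strictMonoOn_of_deriv_pos (convex_Ico h β) hF.continuous.continuousOn ?_
    intro θ hθ
    rw [interior_Ico] at hθ
    have := hpos θ hθ
    simpa using this
  | succ n ih =>
    intro F h β hF hpos hz
    have hF' : ContDiff ℝ ((⊤ : ℕ∞) : WithTop ℕ∞) (deriv F) := by
      have h2 : ContDiff ℝ (((⊤ : ℕ∞) : WithTop ℕ∞) + 1) F := by simpa using hF
      exact (contDiff_succ_iff_deriv.1 h2).2.2
    have h1 : StrictMonoOn (deriv F) (Ico h β) := by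
      refine ih hF' ?_ ?_
      · intro θ hθ
        rw [← iteratedDeriv_succ']
        exact hpos θ hθ
      · intro j hj
        rw [← iteratedDeriv_succ']
        exact hz (j + 1) (by omega)
    refine strictMonoOn_of_deriv_pos (convex_Ico h β) hF.continuous.continuousOn ?_
    intro θ hθ
    rw [interior_Ico] at hθ
    have h0 : deriv F h = 0 := by
      have := hz 1 (by omega)
      simpa using this
    have := h1 (left_mem_Ico.2 (hθ.1.trans hθ.2)) (Ioo_subset_Ico_self hθ) hθ.1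
    linarith

/-- version with order `m ≥ 1`, both sides -/
theorem two_sided {m : ℕ} (hm : 0 < m) {F : ℝ → ℝ} {h β : ℝ}
    (hF : ContDiff ℝ ((⊤ : ℕ∞) : WithTop ℕ∞) F) (hh : h ∈ Ioo (-β) β)
    (hpos : ∀ θ ∈ Ioo (-β) β, 0 < iteratedDeriv m F θ)
    (hz : ∀ j, j < m → iteratedDeriv j F h = 0) :
    StrictMonoOn F (Ico h β) ∧ ∀ θ ∈ Ioo (-β) β, θ ≠ h → F θ ≠ 0 := by
  obtain ⟨n, rfl⟩ : ∃ n, m = n + 1 := ⟨m - 1, by omega⟩
  have h1 : StrictMonoOn F (Ico h β) := by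
    refine strictMonoOn_of_iter n hF ?_ ?_
    · intro θ hθ
      exact hpos θ ⟨hh.1.trans hθ.1, hθ.2⟩
    · intro j hj
      exact hz j (by omega)
  have hFh : F h = 0 := by simpa using hz 0 (by omega)
  refine ⟨h1, ?_⟩
  intro θ hθ hne
  rcases lt_or_gt_of_ne hne with hlt | hgt
  · -- reflect
    have h2 : StrictMonoOn (fun t => (-1 : ℝ) ^ (n + 1) * F (-t)) (Ico (-h) β) := by
      refine strictMonoOn_of_iter n ?_ ?_ ?_
      · exact contDiff_const.mul (hF.comp contDiff_neg)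
      · intro t ht
        rw [iteratedDeriv_const_mul_field, iteratedDeriv_comp_neg]
        have := hpos (-t) ⟨by linarith [ht.2], by linarith [ht.1, hh.2]⟩
        rw [smul_eq_mul, ← mul_assoc, ← mul_pow]
        norm_num
        exact this
      · intro j hj
        rw [iteratedDeriv_const_mul_field, iteratedDeriv_comp_neg, neg_neg, hz j (by omega)]
        simp
    have h3 := h2 (left_mem_Ico.2 (by linarith [hh.1])) (b := -θ) ⟨by linarith, by linarith [hθ.1]⟩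
      (by linarith)
    simp only [neg_neg, hFh, mul_zero] at h3
    intro h0
    rw [h0, mul_zero] at h3
    exact lt_irrefl _ h3
  · have := h1 (left_mem_Ico.2 hh.2) ⟨hgt.le, hθ.2⟩ hgt
    intro h0
    rw [h0, hFh] at this
    exact lt_irrefl _ this

/-- the set of zeros has empty interior if some derivative does not vanish -/
theorem frequently_ne {m : ℕ} {F : ℝ → ℝ} {θ : ℝ} (hpos : iteratedDeriv m F θ ≠ 0) :
    ∃ᶠ t in 𝓝 θ, F t ≠ 0 := by
  intro hcon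
  simp only [ne_eq, not_not] at hcon
  apply hpos
  have h1 : F =ᶠ[𝓝 θ] fun _ => 0 := hcon
  have h2 := h1.iteratedDeriv_eq m
  rw [h2]
  simp

/-! Part A2 -/

theorem h_cont {α β : ℝ} {g : ℝ × ℝ → ℝ} {h : ℝ → ℝ}
    (hg : ContinuousOn g (Ioo (-α) α ×ˢ Ioo (-β) β))
    (hmono : ∀ s ∈ Ioo (-α) α, StrictMonoOn (fun θ => g (s, θ)) (Ioo (-β) β))
    (hh : ∀ s ∈ Ioo (-α) α, h s ∈ Ioo (-β) β) (hz : ∀ s ∈ Ioo (-α) α, g (s, h s) = 0) :
    ContinuousOn h (Ioo (-α) α) := by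
  have hO : IsOpen (Ioo (-α) α ×ˢ Ioo (-β) β) := isOpen_Ioo.prod isOpen_Ioo
  intro s0 hs0
  apply ContinuousAt.continuousWithinAt
  have hh0 := hh s0 hs0
  rw [ContinuousAt, tendsto_order]
  constructor
  · intro a ha
    -- choose a' with max a (-β) < a' < h s0
    obtain ⟨a', ha1, ha2⟩ := exists_between (max_lt ha hh0.1)
    have ha'β : a' ∈ Ioo (-β) β := ⟨lt_of_le_of_lt (le_max_right _ _) ha1, ha2.trans hh0.2⟩
    have hneg : g (s0, a') < 0 := by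
      have := hmono s0 hs0 ha'β hh0 ha2
      simpa only [hz s0 hs0] using this
    have hc : ContinuousAt (fun s => g (s, a')) s0 := by
      have h1 : ContinuousAt g (s0, a') := hg.continuousAt (hO.mem_nhds ⟨hs0, ha'β⟩)
      exact ContinuousAt.comp (f := fun s : ℝ => (s, a')) h1 (by fun_prop)
    filter_upwards [hc.eventually (gt_mem_nhds hneg), isOpen_Ioo.mem_nhds hs0] with s hs hsα
    by_contra hcon
    push Not at hcon
    have hle : h s ≤ a' := hcon.trans (le_of_lt (lt_of_le_of_lt (le_max_left _ _) ha1))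
    have := (hmono s hsα).monotoneOn (hh s hsα) ha'β hle
    simp only [hz s hsα] at this
    linarith
  · intro a ha
    obtain ⟨a', ha1, ha2⟩ := exists_between (lt_min ha hh0.2)
    have ha'β : a' ∈ Ioo (-β) β := ⟨hh0.1.trans ha1, lt_of_lt_of_le ha2 (min_le_right _ _)⟩
    have hpos : 0 < g (s0, a') := by
      have := hmono s0 hs0 hh0 ha'β ha1
      simpa only [hz s0 hs0] using this
    have hc : ContinuousAt (fun s => g (s, a')) s0 := by
      have h1 : ContinuousAt g (s0, a') := hg.continuousAt (hO.mem_nhds ⟨hs0, ha'β⟩)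
      exact ContinuousAt.comp (f := fun s : ℝ => (s, a')) h1 (by fun_prop)
    filter_upwards [hc.eventually (lt_mem_nhds hpos), isOpen_Ioo.mem_nhds hs0] with s hs hsα
    by_contra hcon
    push Not at hcon
    have hle : a' ≤ h s := (le_of_lt (lt_of_lt_of_le ha2 (min_le_left _ _))).trans hcon
    have := (hmono s hsα).monotoneOn ha'β (hh s hsα) hle
    simp only [hz s hsα] at this
    linarith

theorem conn_between {α : ℝ} {l r : ℝ → ℝ} (hl : ContinuousOn l (Ioo (-α) α))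
    (hr : ContinuousOn r (Ioo (-α) α)) (hlr : ∀ s ∈ Ioo (-α) α, l s < r s) :
    IsPreconnected {u : ℝ × ℝ | u.1 ∈ Ioo (-α) α ∧ l u.1 < u.2 ∧ u.2 < r u.1} := by
  have h1 : IsPreconnected (Ioo (-α) α ×ˢ Ioo (0 : ℝ) 1) :=
    isPreconnected_Ioo.prod isPreconnected_Ioo
  have h2 : ContinuousOn (fun q : ℝ × ℝ => (q.1, l q.1 + q.2 * (r q.1 - l q.1)))
      (Ioo (-α) α ×ˢ Ioo (0 : ℝ) 1) := by
    have h3 : ContinuousOn (fun q : ℝ × ℝ => l q.1) (Ioo (-α) α ×ˢ Ioo (0 : ℝ) 1) :=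
      hl.comp continuousOn_fst (fun q hq => hq.1)
    have h3' : ContinuousOn (fun q : ℝ × ℝ => r q.1) (Ioo (-α) α ×ˢ Ioo (0 : ℝ) 1) :=
      hr.comp continuousOn_fst (fun q hq => hq.1)
    exact continuousOn_fst.prodMk (h3.add (continuousOn_snd.mul (h3'.sub h3)))
  have h4 := h1.image _ h2
  have heq : {u : ℝ × ℝ | u.1 ∈ Ioo (-α) α ∧ l u.1 < u.2 ∧ u.2 < r u.1} =
      (fun q : ℝ × ℝ => (q.1, l q.1 + q.2 * (r q.1 - l q.1))) '' (Ioo (-α) α ×ˢ Ioo (0 : ℝ) 1) := by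
    ext ⟨s, θ⟩
    constructor
    · rintro ⟨hs, h5, h6⟩
      simp only at hs h5 h6
      have h7 : 0 < r s - l s := by linarith
      refine ⟨(s, (θ - l s) / (r s - l s)), ⟨hs, ?_, ?_⟩, ?_⟩
      · exact div_pos (by linarith) h7
      · rw [div_lt_one h7]; linarith
      · simp only
        rw [div_mul_cancel₀ _ h7.ne']
        simp
    · rintro ⟨⟨s', t⟩, ⟨hs, ht0, ht1⟩, heq⟩
      simp only [Prod.mk.injEq] at heq hs ht0 ht1
      obtain ⟨rfl, rfl⟩ := heq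
      have h7 : 0 < r s' - l s' := by linarith [hlr s' hs]
      refine ⟨hs, ?_, ?_⟩
      · simp only; nlinarith
      · simp only; nlinarith
  rw [heq]
  exact h4

/-! Part B: normalisation and frames -/

/-- normalisation of a covector to the conic over `x` -/
def nrm (G : V → V →L[ℝ] V) (U : V → ℝ) (E : ℝ) (x q : V) : V :=
  Real.sqrt ((E - U x) / ((1 / 2) * ⟪q, G x q⟫)) • (q - ⟪x, q⟫ • x)

section nrm
variable {G : V → V →L[ℝ] V} {U : V → ℝ} {E : ℝ} {D : Set V}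

theorem G_radial' (hG : Met G) {x : V} (hx : x ≠ 0) (q : V) : ⟪x, G x q⟫ = 0 := by
  rw [← hG.symm x x q hx, hG.radial x hx, inner_zero_left]

theorem ne_zero_of_norm {x : V} (hx : ‖x‖ = 1) : x ≠ 0 := by
  intro h; rw [h, norm_zero] at hx; exact zero_ne_one hx

theorem inner_self_one {x : V} (hx : ‖x‖ = 1) : ⟪x, x⟫ = 1 := by
  rw [real_inner_self_eq_norm_sq, hx]; norm_num

theorem nrm_orth {x : V} (hx : ‖x‖ = 1) (q : V) : ⟪x, nrm G U E x q⟫ = 0 := by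
  simp only [nrm, inner_smul_right, inner_sub_right, inner_self_one hx]
  ring

theorem nrm_form (hG : Met G) {x : V} (hx : ‖x‖ = 1) (q q' : V) :
    ⟪nrm G U E x q, G x (nrm G U E x q')⟫ =
      Real.sqrt ((E - U x) / ((1 / 2) * ⟪q, G x q⟫)) *
        (Real.sqrt ((E - U x) / ((1 / 2) * ⟪q', G x q'⟫)) * ⟪q, G x q'⟫) := by
  have hx0 := ne_zero_of_norm hx
  simp only [nrm, map_smul, map_sub, hG.radial x hx0, smul_zero, sub_zero, inner_smul_left,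
    inner_smul_right, inner_sub_left, G_radial' hG hx0, mul_zero]
  simp
  ring

theorem nrm_energy (hG : Met G) {x : V} (hx : ‖x‖ = 1) (hU : U x < E) {q : V}
    (hq : 0 < ⟪q, G x q⟫) : (1 / 2) * ⟪nrm G U E x q, G x (nrm G U E x q)⟫ = E - U x := by
  rw [nrm_form hG hx, ← mul_assoc (Real.sqrt _), Real.mul_self_sqrt (by
    have : 0 < E - U x := by linarith
    positivity)]
  field_simp

theorem nrm_self {x q : V} (hxq : ⟪x, q⟫ = 0) (hU : U x < E)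
    (hq : (1 / 2) * ⟪q, G x q⟫ = E - U x) : nrm G U E x q = q := by
  have h0 : E - U x ≠ 0 := by linarith
  rw [nrm, hq, div_self h0, Real.sqrt_one, hxq]
  simp

theorem nrm_mem (hG : Met G) (hD : Reg U E D) {x : V} (hx : ‖x‖ = 1) (hxD : x ∈ D) {q : V}
    (hq : 0 < ⟪q, G x q⟫) : (x, nrm G U E x q) ∈ ES G U E D := by
  refine ⟨⟨hx, nrm_orth hx q⟩, hxD, ?_⟩
  simp only [Ham]
  rw [nrm_energy hG hx (hD.lt x hxD) hq]
  ring

theorem nrm_smooth (hG : Met G) (hU : Pot U) {x q : V} (hx : x ≠ 0) (hE : U x < E)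
    (hq : 0 < ⟪q, G x q⟫) :
    ContDiffAt ℝ ((⊤ : ℕ∞) : WithTop ℕ∞) (fun z : V × V => nrm G U E z.1 z.2) (x, q) := by
  have hO : IsOpen {x : V | x ≠ 0} := isOpen_ne
  have h1 : ContDiffAt ℝ ((⊤ : ℕ∞) : WithTop ℕ∞) (fun z : V × V => G z.1) (x, q) :=
    ContDiffAt.comp (x, q) (hG.smooth.contDiffAt (hO.mem_nhds hx)) contDiffAt_fst
  have h2 : ContDiffAt ℝ ((⊤ : ℕ∞) : WithTop ℕ∞) (fun z : V × V => U z.1) (x, q) :=
    ContDiffAt.comp (x, q) (hU.smooth.contDiffAt (hO.mem_nhds hx)) contDiffAt_fst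
  have h3 : ContDiffAt ℝ ((⊤ : ℕ∞) : WithTop ℕ∞) (fun z : V × V => ⟪z.2, G z.1 z.2⟫) (x, q) :=
    contDiffAt_snd.inner ℝ (h1.clm_apply contDiffAt_snd)
  have h4 : ContDiffAt ℝ ((⊤ : ℕ∞) : WithTop ℕ∞)
      (fun z : V × V => (E - U z.1) / ((1 / 2) * ⟪z.2, G z.1 z.2⟫)) (x, q) :=
    (contDiffAt_const.sub h2).div (contDiffAt_const.mul h3) (by
      simp only; positivity)
  have h5 : ContDiffAt ℝ ((⊤ : ℕ∞) : WithTop ℕ∞)
      (fun z : V × V => Real.sqrt ((E - U z.1) / ((1 / 2) * ⟪z.2, G z.1 z.2⟫))) (x, q) := by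
    refine h4.sqrt ?_
    have : 0 < E - U x := by linarith
    simp only
    positivity
  exact h5.smul (contDiffAt_snd.sub ((contDiffAt_fst.inner ℝ contDiffAt_snd).smul contDiffAt_fst))

theorem form_pos_of_energy {x q : V} (hU : U x < E)
    (hq : (1 / 2) * ⟪q, G x q⟫ = E - U x) : 0 < ⟪q, G x q⟫ := by linarith

end nrm

/-- great circle -/
def xs (x0 e : V) (s : ℝ) : V := Real.cos s • x0 + Real.sin s • e

theorem xs_norm {x0 e : V} (hx0 : ‖x0‖ = 1) (he : ‖e‖ = 1) (h : ⟪x0, e⟫ = 0) (s : ℝ) :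
    ‖xs x0 e s‖ = 1 := by
  have h' : ⟪e, x0⟫ = 0 := by rw [real_inner_comm]; exact h
  have h1 : ‖xs x0 e s‖ ^ 2 = 1 := by
    rw [← real_inner_self_eq_norm_sq]
    simp only [xs, inner_add_left, inner_add_right, inner_smul_left, inner_smul_right,
      inner_self_one hx0, inner_self_one he, h, h']
    simp only [conj_trivial]
    nlinarith [Real.sin_sq_add_cos_sq s]
  have h2 : 0 ≤ ‖xs x0 e s‖ := norm_nonneg _
  nlinarith

theorem xs_zero (x0 e : V) : xs x0 e 0 = x0 := by simp [xs]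

theorem xs_smooth (x0 e : V) : ContDiff ℝ ((⊤ : ℕ∞) : WithTop ℕ∞) (xs x0 e) := by
  unfold xs
  fun_prop

/-- A frame of the conics over a great circle through `x0`. -/
structure Frame (G : V → V →L[ℝ] V) (U : V → ℝ) (E : ℝ) (D : Set V) (x0 p0 b0 e : V) (δ : ℝ)
    (a b : ℝ → V) : Prop where
  a0 : a 0 = p0
  b0 : b 0 = b0
  asm : ContDiffOn ℝ ((⊤ : ℕ∞) : WithTop ℕ∞) a (Ioo (-δ) δ)
  bsm : ContDiffOn ℝ ((⊤ : ℕ∞) : WithTop ℕ∞) b (Ioo (-δ) δ)
  mem : ∀ s ∈ Ioo (-δ) δ, xs x0 e s ∈ D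
  nrm : ∀ s, ‖xs x0 e s‖ = 1
  xa : ∀ s ∈ Ioo (-δ) δ, ⟪xs x0 e s, a s⟫ = 0
  xb : ∀ s ∈ Ioo (-δ) δ, ⟪xs x0 e s, b s⟫ = 0
  ab : ∀ s ∈ Ioo (-δ) δ, ⟪G (xs x0 e s) (a s), b s⟫ = 0
  aa : ∀ s ∈ Ioo (-δ) δ, (1 / 2) * ⟪a s, G (xs x0 e s) (a s)⟫ = E - U (xs x0 e s)
  bb : ∀ s ∈ Ioo (-δ) δ, (1 / 2) * ⟪b s, G (xs x0 e s) (b s)⟫ = E - U (xs x0 e s)

theorem exists_frame {G : V → V →L[ℝ] V} {U : V → ℝ} {E : ℝ} {D : Set V}
    (hG : Met G) (hU : Pot U) (hD : Reg U E D) {x0 p0 b0 e : V}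
    (hz : (x0, p0) ∈ ES G U E D) (hb1 : ⟪x0, b0⟫ = 0) (hb2 : ⟪G x0 p0, b0⟫ = 0)
    (hb3 : (1 / 2) * ⟪b0, G x0 b0⟫ = E - U x0) (he : ‖e‖ = 1) (hxe : ⟪x0, e⟫ = 0) :
    ∃ δ > 0, ∃ a b : ℝ → V, Frame G U E D x0 p0 b0 e δ a b := by
  obtain ⟨⟨hx1, hxp⟩, hxD, hEn⟩ := hz
  simp only at hx1 hxp hxD
  have hEp : (1 / 2) * ⟪p0, G x0 p0⟫ = E - U x0 := by
    simp only [Ham] at hEn; linarith
  have hUE : U x0 < E := hD.lt x0 hxD
  have hx0 : x0 ≠ 0 := ne_zero_of_norm hx1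
  have hpp : 0 < ⟪p0, G x0 p0⟫ := form_pos_of_energy hUE hEp
  have hbb : 0 < ⟪b0, G x0 b0⟫ := form_pos_of_energy hUE hb3
  have hpb : ⟪p0, G x0 b0⟫ = 0 := by rw [← hG.symm x0 p0 b0 hx0]; exact hb2
  set X := xs x0 e with hX
  have hXs : ContDiff ℝ ((⊤ : ℕ∞) : WithTop ℕ∞) X := xs_smooth x0 e
  have hX0 : X 0 = x0 := xs_zero x0 e
  have hXn : ∀ s, ‖X s‖ = 1 := xs_norm hx1 he hxe
  have hXne : ∀ s, X s ≠ 0 := fun s => ne_zero_of_norm (hXn s)
  have hO : IsOpen {x : V | x ≠ 0} := isOpen_ne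
  have hGX : ContDiff ℝ ((⊤ : ℕ∞) : WithTop ℕ∞) (fun s => G (X s)) := by
    rw [contDiff_iff_contDiffAt]
    intro s
    exact ContDiffAt.comp s (hG.smooth.contDiffAt (hO.mem_nhds (hXne s))) hXs.contDiffAt
  set q : ℝ → V := fun s => b0 - (⟪p0, G (X s) b0⟫ / ⟪p0, G (X s) p0⟫) • p0 with hq
  have hq0 : q 0 = b0 := by
    simp only [hq, hX0, hpb]; simp
  -- positivity sets
  have hc1 : Continuous (fun s => ⟪p0, G (X s) p0⟫) :=
    (contDiff_const.inner ℝ (hGX.clm_apply contDiff_const)).continuous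
  have hev1 : ∀ᶠ s in 𝓝 (0 : ℝ), 0 < ⟪p0, G (X s) p0⟫ := by
    refine hc1.continuousAt.eventually (lt_mem_nhds ?_)
    simp only [hX0]; exact hpp
  have hqc : ContinuousAt q 0 := by
    have h1 : ContinuousAt (fun s => ⟪p0, G (X s) b0⟫ / ⟪p0, G (X s) p0⟫) 0 := by
      refine ContinuousAt.div ?_ hc1.continuousAt ?_
      · exact (contDiff_const.inner ℝ (hGX.clm_apply contDiff_const)).continuous.continuousAt
      · simp only [hX0]; exact hpp.ne'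
    exact continuousAt_const.sub (h1.smul continuousAt_const)
  have hev2 : ∀ᶠ s in 𝓝 (0 : ℝ), 0 < ⟪q s, G (X s) (q s)⟫ := by
    have h1 : ContinuousAt (fun s => ⟪q s, G (X s) (q s)⟫) 0 :=
      hqc.inner (𝕜 := ℝ) (hGX.continuous.continuousAt.clm_apply hqc)
    refine h1.eventually (lt_mem_nhds ?_)
    simp only [hX0, hq0]; exact hbb
  have hev3 : ∀ᶠ s in 𝓝 (0 : ℝ), X s ∈ D := by
    refine hXs.continuous.continuousAt.eventually (hD.isOpen.mem_nhds ?_)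
    rw [hX0]; exact hxD
  obtain ⟨δ, hδ, hball⟩ := Metric.eventually_nhds_iff_ball.1 (hev1.and (hev2.and hev3))
  have hI : ∀ s ∈ Ioo (-δ) δ, s ∈ Metric.ball (0 : ℝ) δ := by
    intro s hs
    rw [Metric.mem_ball, Real.dist_eq, sub_zero, abs_lt]
    exact hs
  refine ⟨δ, hδ, fun s => SI.nrm G U E (X s) p0, fun s => SI.nrm G U E (X s) (q s), ?_⟩
  refine
    { a0 := ?_, b0 := ?_, asm := ?_, bsm := ?_, mem := ?_, nrm := hXn, xa := ?_, xb := ?_
      ab := ?_, aa := ?_, bb := ?_ }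
  · simp only [hX0]; exact nrm_self hxp hUE hEp
  · simp only [hX0, hq0]; exact nrm_self hb1 hUE hb3
  · intro s hs
    obtain ⟨h1, h2, h3⟩ := hball s (hI s hs)
    have := nrm_smooth (q := p0) hG hU (hXne s) (hD.lt _ h3) h1
    exact (ContDiffAt.comp s this (hXs.contDiffAt.prodMk contDiffAt_const)).contDiffWithinAt
  · intro s hs
    obtain ⟨h1, h2, h3⟩ := hball s (hI s hs)
    have := nrm_smooth (q := q s) hG hU (hXne s) (hD.lt _ h3) h2
    have hqs : ContDiffAt ℝ ((⊤ : ℕ∞) : WithTop ℕ∞) q s := by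
      have h4 : ContDiffAt ℝ ((⊤ : ℕ∞) : WithTop ℕ∞)
          (fun s => ⟪p0, G (X s) b0⟫ / ⟪p0, G (X s) p0⟫) s := by
        refine ContDiffAt.div ?_ ?_ h1.ne'
        · exact (contDiff_const.inner ℝ (hGX.clm_apply contDiff_const)).contDiffAt
        · exact (contDiff_const.inner ℝ (hGX.clm_apply contDiff_const)).contDiffAt
      exact contDiffAt_const.sub (h4.smul contDiffAt_const)
    exact (ContDiffAt.comp s this (hXs.contDiffAt.prodMk hqs)).contDiffWithinAt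
  · intro s hs
    exact (hball s (hI s hs)).2.2
  · intro s hs
    exact nrm_orth (hXn s) _
  · intro s hs
    exact nrm_orth (hXn s) _
  · intro s hs
    obtain ⟨h1, h2, h3⟩ := hball s (hI s hs)
    rw [hG.symm _ _ _ (hXne s), nrm_form hG (hXn s)]
    have : ⟪p0, G (X s) (q s)⟫ = 0 := by
      simp only [hq, map_sub, map_smul, inner_sub_right, inner_smul_right]
      rw [div_mul_cancel₀ _ h1.ne']
      ring
    rw [this]; ring
  · intro s hs
    obtain ⟨h1, h2, h3⟩ := hball s (hI s hs)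
    exact nrm_energy hG (hXn s) (hD.lt _ h3) h1
  · intro s hs
    obtain ⟨h1, h2, h3⟩ := hball s (hI s hs)
    exact nrm_energy hG (hXn s) (hD.lt _ h3) h2

/-- chart -/
def chi (x0 e : V) (a b : ℝ → V) (u : ℝ × ℝ) : V × V :=
  (xs x0 e u.1, Real.cos u.2 • a u.1 + Real.sin u.2 • b u.1)

section chart
variable {G : V → V →L[ℝ] V} {U : V → ℝ} {E : ℝ} {D : Set V} {x0 p0 b0 e : V} {δ : ℝ}
  {a b : ℝ → V}

theorem conic_comb (hG : Met G) {x a b : V} {c : ℝ} (hx : x ≠ 0)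
    (hab : ⟪G x a, b⟫ = 0) (haa : (1 / 2) * ⟪a, G x a⟫ = c) (hbb : (1 / 2) * ⟪b, G x b⟫ = c)
    (θ : ℝ) : (1 / 2) * ⟪Real.cos θ • a + Real.sin θ • b, G x (Real.cos θ • a + Real.sin θ • b)⟫ = c := by
  have hab' : ⟪a, G x b⟫ = 0 := by rw [← hG.symm x a b hx]; exact hab
  have hba : ⟪b, G x a⟫ = 0 := by rw [real_inner_comm]; exact hab
  simp only [map_add, map_smul, inner_add_left, inner_add_right, inner_smul_left,
    inner_smul_right, hab', hba, conj_trivial]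
  have h1 : ⟪a, G x a⟫ = 2 * c := by linarith
  have h2 : ⟪b, G x b⟫ = 2 * c := by linarith
  rw [h1, h2]
  linear_combination c * Real.sin_sq_add_cos_sq θ

theorem chi_mem (hG : Met G) (F : Frame G U E D x0 p0 b0 e δ a b) {u : ℝ × ℝ}
    (hu : u.1 ∈ Ioo (-δ) δ) : chi x0 e a b u ∈ ES G U E D := by
  refine ⟨⟨F.nrm _, ?_⟩, F.mem _ hu, ?_⟩
  · simp only [chi, inner_add_right, inner_smul_right, F.xa _ hu, F.xb _ hu]
    ring
  · simp only [Ham, chi]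
    rw [conic_comb hG (ne_zero_of_norm (F.nrm _)) (F.ab _ hu) (F.aa _ hu) (F.bb _ hu)]
    ring

theorem chi_smooth (F : Frame G U E D x0 p0 b0 e δ a b) :
    ContDiffOn ℝ ((⊤ : ℕ∞) : WithTop ℕ∞) (chi x0 e a b) (Ioo (-δ) δ ×ˢ univ) := by
  have h1 : ContDiffOn ℝ ((⊤ : ℕ∞) : WithTop ℕ∞) (fun u : ℝ × ℝ => a u.1) (Ioo (-δ) δ ×ˢ univ) :=
    F.asm.comp contDiffOn_fst (fun u hu => hu.1)
  have h2 : ContDiffOn ℝ ((⊤ : ℕ∞) : WithTop ℕ∞) (fun u : ℝ × ℝ => b u.1) (Ioo (-δ) δ ×ˢ univ) :=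
    F.bsm.comp contDiffOn_fst (fun u hu => hu.1)
  have h3 : ContDiffOn ℝ ((⊤ : ℕ∞) : WithTop ℕ∞) (fun u : ℝ × ℝ => xs x0 e u.1)
      (Ioo (-δ) δ ×ˢ univ) := ((xs_smooth x0 e).comp contDiff_fst).contDiffOn
  have h4 : ContDiffOn ℝ ((⊤ : ℕ∞) : WithTop ℕ∞) (fun u : ℝ × ℝ => Real.cos u.2)
      (Ioo (-δ) δ ×ˢ univ) := (Real.contDiff_cos.comp contDiff_snd).contDiffOn
  have h5 : ContDiffOn ℝ ((⊤ : ℕ∞) : WithTop ℕ∞) (fun u : ℝ × ℝ => Real.sin u.2)
      (Ioo (-δ) δ ×ˢ univ) := (Real.contDiff_sin.comp contDiff_snd).contDiffOn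
  exact h3.prodMk ((h4.smul h1).add (h5.smul h2))

theorem K_chi_smooth {K : V × V → ℝ} (hK : Basic K) (F : Frame G U E D x0 p0 b0 e δ a b) :
    ContDiffOn ℝ ((⊤ : ℕ∞) : WithTop ℕ∞) (fun u => K (chi x0 e a b u)) (Ioo (-δ) δ ×ˢ univ) :=
  hK.smooth.comp (chi_smooth F) (fun u _ => ne_zero_of_norm (F.nrm _))

theorem chi_zero (F : Frame G U E D x0 p0 b0 e δ a b) : chi x0 e a b (0, 0) = (x0, p0) := by
  simp [chi, xs_zero, F.a0]

theorem frame_span (hG : Met G) (hD : Reg U E D) {x a b : V} (hx : ‖x‖ = 1) (hxD : x ∈ D)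
    (hxa : ⟪x, a⟫ = 0) (hxb : ⟪x, b⟫ = 0)
    (hab : ⟪G x a, b⟫ = 0) (haa : (1 / 2) * ⟪a, G x a⟫ = E - U x)
    (hbb : (1 / 2) * ⟪b, G x b⟫ = E - U x) {p : V} (hp : ⟪x, p⟫ = 0)
    (hpp : (1 / 2) * ⟪p, G x p⟫ = E - U x) : ∃ θ : ℝ, p = Real.cos θ • a + Real.sin θ • b := by
  have hc : 0 < E - U x := by linarith [hD.lt x hxD]
  obtain ⟨b', h1, h2, h3, h4, h5⟩ := conic_param hG hx hc hxa haa
  obtain ⟨θ1, hθ1⟩ := h5 b hxb hbb
  have hcos : Real.cos θ1 = 0 := by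
    have h6 : ⟪G x a, b⟫ = Real.cos θ1 * ⟪G x a, a⟫ := by
      rw [hθ1, inner_add_right, inner_smul_right, inner_smul_right, h2]; ring
    rw [hab] at h6
    have h7 : ⟪G x a, a⟫ = 2 * (E - U x) := by rw [real_inner_comm]; linarith
    rw [h7] at h6
    rcases mul_eq_zero.1 h6.symm with h | h
    · exact h
    · linarith
  have hsin : Real.sin θ1 = 1 ∨ Real.sin θ1 = -1 := by
    have := Real.sin_sq_add_cos_sq θ1
    rw [hcos] at this
    have h8 : (Real.sin θ1 - 1) * (Real.sin θ1 + 1) = 0 := by nlinarith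
    rcases mul_eq_zero.1 h8 with h | h
    · left; linarith
    · right; linarith
  obtain ⟨θ, hθ⟩ := h5 p hp hpp
  rcases hsin with hs | hs
  · refine ⟨θ, ?_⟩
    rw [hcos, hs] at hθ1
    simp only [zero_smul, one_smul, zero_add] at hθ1
    rw [hθ, hθ1]
  · refine ⟨-θ, ?_⟩
    rw [hcos, hs] at hθ1
    simp only [zero_smul, zero_add, neg_smul, one_smul] at hθ1
    rw [hθ, hθ1, Real.cos_neg, Real.sin_neg]
    simp

theorem chi_inv (hG : Met G) (hD : Reg U E D) (F : Frame G U E D x0 p0 b0 e δ a b) {z : V × V}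
    (hz : z ∈ ES G U E D) {s : ℝ} (hs : s ∈ Ioo (-δ) δ) (hzs : z.1 = xs x0 e s)
    (hpos : 0 < ⟪G z.1 (a s), z.2⟫) :
    z = chi x0 e a b (s, Real.arcsin (⟪G z.1 (b s), z.2⟫ / (2 * (E - U z.1)))) := by
  obtain ⟨⟨hx1, hxp⟩, hxD, hEn⟩ := hz
  have hEp : (1 / 2) * ⟪z.2, G z.1 z.2⟫ = E - U z.1 := by
    simp only [Ham] at hEn; linarith
  have hc : 0 < E - U z.1 := by linarith [hD.lt _ hxD]
  have hx0 : z.1 ≠ 0 := ne_zero_of_norm hx1
  have hxa := F.xa s hs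
  have hxb := F.xb s hs
  have hab := F.ab s hs
  have haa := F.aa s hs
  have hbb := F.bb s hs
  rw [← hzs] at hxa hxb hab haa hbb
  obtain ⟨θ, hθ⟩ := frame_span hG hD hx1 hxD hxa hxb hab haa hbb hxp hEp
  have hba : ⟪G z.1 (b s), a s⟫ = 0 := by rw [hG.symm _ _ _ hx0, real_inner_comm]; exact hab
  have hGa : ⟪G z.1 (a s), z.2⟫ = Real.cos θ * (2 * (E - U z.1)) := by
    have h7 : ⟪G z.1 (a s), a s⟫ = 2 * (E - U z.1) := by rw [real_inner_comm]; linarith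
    conv_lhs => rw [hθ]
    rw [inner_add_right, inner_smul_right, inner_smul_right, hab, h7]
    ring
  have hGb : ⟪G z.1 (b s), z.2⟫ = Real.sin θ * (2 * (E - U z.1)) := by
    have h7 : ⟪G z.1 (b s), b s⟫ = 2 * (E - U z.1) := by rw [real_inner_comm]; linarith
    conv_lhs => rw [hθ]
    rw [inner_add_right, inner_smul_right, inner_smul_right, hba, h7]
    ring
  have hcos : 0 < Real.cos θ := by
    rw [hGa] at hpos
    by_contra hcon
    push Not at hcon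
    nlinarith
  rw [hGb, mul_div_assoc, div_self (by linarith), mul_one]
  have h8 : Real.sin (Real.arcsin (Real.sin θ)) = Real.sin θ :=
    Real.sin_arcsin (Real.neg_one_le_sin θ) (Real.sin_le_one θ)
  have h9 : Real.cos (Real.arcsin (Real.sin θ)) = Real.cos θ := by
    rw [Real.cos_arcsin, ← Real.cos_sq', Real.sqrt_sq hcos.le]
  apply Prod.ext
  · exact hzs
  · simp only [chi, h8, h9]
    exact hθ

/-- the rotated partner -/
theorem rot_partner (hG : Met G) {x a b : V} {c : ℝ} (hx : x ≠ 0)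
    (hxa : ⟪x, a⟫ = 0) (hxb : ⟪x, b⟫ = 0)
    (hab : ⟪G x a, b⟫ = 0) (haa : (1 / 2) * ⟪a, G x a⟫ = c) (hbb : (1 / 2) * ⟪b, G x b⟫ = c)
    (θ : ℝ) : ∃ b' : V, ⟪x, b'⟫ = 0 ∧ ⟪G x (Real.cos θ • a + Real.sin θ • b), b'⟫ = 0 ∧
      (1 / 2) * ⟪b', G x b'⟫ = c ∧ ∀ t : ℝ,
        Real.cos t • (Real.cos θ • a + Real.sin θ • b) + Real.sin t • b' =
          Real.cos (θ + t) • a + Real.sin (θ + t) • b := by
  have hba : ⟪G x b, a⟫ = 0 := by rw [hG.symm _ _ _ hx, real_inner_comm]; exact hab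
  have h1 : ⟪G x a, a⟫ = 2 * c := by rw [real_inner_comm]; linarith
  have h2 : ⟪G x b, b⟫ = 2 * c := by rw [real_inner_comm]; linarith
  refine ⟨Real.cos (θ + Real.pi / 2) • a + Real.sin (θ + Real.pi / 2) • b, ?_, ?_, ?_, ?_⟩
  · simp only [inner_add_right, inner_smul_right, hxa, hxb]; ring
  · simp only [map_add, map_smul, inner_add_left, inner_add_right, inner_smul_left,
      inner_smul_right, hab, hba, h1, h2, conj_trivial, Real.cos_add_pi_div_two,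
      Real.sin_add_pi_div_two]
    ring
  · exact conic_comb hG hx hab haa hbb _
  · intro t
    rw [Real.cos_add_pi_div_two, Real.sin_add_pi_div_two, Real.cos_add, Real.sin_add]
    module

end chart

/-! Part C: bad points -/

section bad
variable {G : V → V →L[ℝ] V} {U : V → ℝ} {E : ℝ} {D : Set V}

/-- the periodic set -/
def AA (G : V → V →L[ℝ] V) (U : V → ℝ) (E : ℝ) (D : Set V) (φ : ℝ → V × V → V × V)
    (K : V × V → ℝ) (T₁ : ℝ) : Set (V × V) := {z | z ∈ ES G U E D ∧ K z ≠ 0 ∧ φ T₁ z = z}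

/-- the other set -/
def BB (G : V → V →L[ℝ] V) (U : V → ℝ) (E : ℝ) (D : Set V) (φ : ℝ → V × V → V × V)
    (K : V × V → ℝ) (T₁ : ℝ) : Set (V × V) := {z | z ∈ ES G U E D ∧ K z ≠ 0 ∧ φ T₁ z ≠ z}

/-- the fibre -/
def fib (x : V) : Set (V × V) := {z | z.1 = x}

/-- bad points -/
def Bad (G : V → V →L[ℝ] V) (U : V → ℝ) (E : ℝ) (D : Set V) (φ : ℝ → V × V → V × V)
    (K : V × V → ℝ) (T₁ : ℝ) (z : V × V) : Prop :=
  z ∈ ES G U E D ∧ z ∈ closure (AA G U E D φ K T₁ ∩ fib z.1) ∧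
    z ∈ closure (BB G U E D φ K T₁ ∩ fib z.1)

/-- some derivative of order `m` along the fibre does not vanish -/
def Ordp (G : V → V →L[ℝ] V) (U : V → ℝ) (E : ℝ) (K : V × V → ℝ) (z : V × V) (m : ℕ) : Prop :=
  ∃ b : V, ⟪z.1, b⟫ = 0 ∧ ⟪G z.1 z.2, b⟫ = 0 ∧ (1 / 2) * ⟪b, G z.1 b⟫ = E - U z.1 ∧
    iteratedDeriv m (fun t => K (z.1, Real.cos t • z.2 + Real.sin t • b)) 0 ≠ 0

theorem ordp_chi {K : V × V → ℝ} (hG : Met G) {x0 p0 b0 e : V} {δ : ℝ} {a b : ℝ → V}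
    (F : Frame G U E D x0 p0 b0 e δ a b) {s θ : ℝ} (hs : s ∈ Ioo (-δ) δ) {m : ℕ}
    (h : iteratedDeriv m (fun t => K (chi x0 e a b (s, t))) θ ≠ 0) :
    Ordp G U E K (chi x0 e a b (s, θ)) m := by
  obtain ⟨b', h1, h2, h3, h4⟩ := rot_partner hG (ne_zero_of_norm (F.nrm s)) (F.xa s hs) (F.xb s hs)
    (F.ab s hs) (F.aa s hs) (F.bb s hs) θ
  refine ⟨b', h1, h2, h3, ?_⟩
  simp only [chi, h4]
  have h5 := congrFun (iteratedDeriv_comp_const_add m
    (fun t => K (xs x0 e s, Real.cos t • a s + Real.sin t • b s)) θ) 0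
  simp only [add_zero] at h5
  rw [h5]
  exact h

theorem exists_ordp {K : V × V → ℝ} (hG : Met G) (hD : Reg U E D) (hK : ∃ d, FPoly d D K)
    {z : V × V} (hz : z ∈ ES G U E D) {p' : V} (hp' : (z.1, p') ∈ ES G U E D)
    (hKp : K (z.1, p') ≠ 0) : ∃ m, Ordp G U E K z m := by
  obtain ⟨x, p⟩ := z
  obtain ⟨⟨hx1, hxp⟩, hxD, hEn⟩ := hz
  obtain ⟨⟨_, hxp'⟩, _, hEn'⟩ := hp'
  simp only at hx1 hxp hxD hxp' hKp
  have hEp : (1 / 2) * ⟪p, G x p⟫ = E - U x := by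
    simp only [Ham] at hEn; linarith
  have hEp' : (1 / 2) * ⟪p', G x p'⟫ = E - U x := by
    simp only [Ham] at hEn'; linarith
  have hc : 0 < E - U x := by linarith [hD.lt _ hxD]
  obtain ⟨b, h1, h2, h3, h4, h5⟩ := conic_param hG hx1 hc hxp hEp
  obtain ⟨d, hd⟩ := hK
  obtain ⟨A, B, hAB⟩ := hd.trig hxD p b
  by_contra hcon
  push Not at hcon
  have hzero : ∀ m, iteratedDeriv m (fun t => K (x, Real.cos t • p + Real.sin t • b)) 0 = 0 := by
    intro m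
    by_contra hne
    exact hcon m ⟨b, h1, h2, h3, hne⟩
  set f : ℝ → ℝ := fun t => K (x, Real.cos t • p + Real.sin t • b) with hf
  have hfe : f = fun t => A.eval (Real.cos t) + Real.sin t * B.eval (Real.cos t) := by
    funext t; exact hAB t
  have hcosA : ∀ t : ℝ, AnalyticAt ℝ Real.cos t := fun t => Real.analyticAt_cos
  have hsinA : ∀ t : ℝ, AnalyticAt ℝ Real.sin t := fun t => Real.analyticAt_sin
  have hpoly : ∀ (P : Polynomial ℝ) (t : ℝ), AnalyticAt ℝ (fun t => P.eval (Real.cos t)) t := by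
    intro P t
    have h6 : AnalyticAt ℝ (fun y : ℝ => P.eval y) (Real.cos t) := by
      have := AnalyticOnNhd.eval_polynomial (𝕜 := ℝ) (A := ℝ) P
      exact this _ (mem_univ _)
    exact AnalyticAt.comp (g := fun y : ℝ => P.eval y) h6 (hcosA t)
  have hfa : AnalyticOnNhd ℝ f univ := by
    intro t _
    rw [hfe]
    exact (hpoly A t).add ((hsinA t).mul (hpoly B t))
  have htop : analyticOrderAt f 0 = ⊤ := by
    rw [ENat.eq_top_iff_forall_ge]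
    intro n
    rw [natCast_le_analyticOrderAt_iff_iteratedDeriv_eq_zero (hfa 0 (mem_univ _))]
    intro i _
    exact hzero i
  have hev : f =ᶠ[𝓝 0] 0 := by
    rw [analyticOrderAt_eq_top] at htop
    exact htop
  have hzero' := hfa.eqOn_zero_of_preconnected_of_eventuallyEq_zero isPreconnected_univ
    (mem_univ 0) hev
  obtain ⟨θ, hθ⟩ := h5 p' hxp' hEp'
  apply hKp
  rw [hθ]
  exact hzero' (mem_univ θ)

/-- zeros of `K` in a fibre are nowhere dense -/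
theorem fiber_dense {K : V × V → ℝ} (hG : Met G) (hD : Reg U E D) (hK : ∃ d, FPoly d D K)
    {x : V} {p1 : V} (hp1 : (x, p1) ∈ ES G U E D) (hKp : K (x, p1) ≠ 0) {p : V}
    (hp : (x, p) ∈ ES G U E D) :
    (x, p) ∈ closure ({z | z ∈ ES G U E D ∧ K z ≠ 0} ∩ fib x) := by
  by_contra hcon
  obtain ⟨d, hd⟩ := hK
  apply hKp
  refine fiber_vanish hG hD hd hp ?_ p1 hp1
  intro ε hε
  rw [Metric.mem_closure_iff] at hcon
  push Not at hcon
  obtain ⟨ε', hε', hfar⟩ := hcon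
  -- find a point of the fibre near p, different from p
  obtain ⟨⟨hx1, hxp⟩, hxD, hEn⟩ := hp
  simp only at hx1 hxp hxD
  have hEp : (1 / 2) * ⟪p, G x p⟫ = E - U x := by
    simp only [Ham] at hEn; linarith
  have hc : 0 < E - U x := by linarith [hD.lt _ hxD]
  obtain ⟨b, h1, h2, h3, h4, h5⟩ := conic_param hG hx1 hc hxp hEp
  have hcont : Continuous (fun t : ℝ => Real.cos t • p + Real.sin t • b) := by fun_prop
  have hev : ∀ᶠ t in 𝓝[>] (0 : ℝ), dist (Real.cos t • p + Real.sin t • b) p < min ε ε' := by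
    have h6 : Filter.Tendsto (fun t : ℝ => Real.cos t • p + Real.sin t • b) (𝓝 0) (𝓝 p) := by
      have := hcont.tendsto 0
      simpa using this
    exact (h6.mono_left nhdsWithin_le_nhds).eventually (Metric.ball_mem_nhds p (lt_min hε hε'))
  have hev2 : ∀ᶠ t in 𝓝[>] (0 : ℝ), t ∈ Ioo (0 : ℝ) (Real.pi / 2) :=
    Ioo_mem_nhdsGT (by positivity)
  obtain ⟨t, ht1, ht2⟩ := (hev.and hev2).exists
  have hmem : (x, Real.cos t • p + Real.sin t • b) ∈ ES G U E D := by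
    refine ⟨⟨hx1, (h4 t).1⟩, hxD, ?_⟩
    simp only [Ham]
    rw [(h4 t).2]; ring
  refine ⟨_, hmem, ?_, lt_of_lt_of_le ht1 (min_le_left _ _), ?_⟩
  · intro heq
    have hsin : 0 < Real.sin t := Real.sin_pos_of_pos_of_lt_pi ht2.1 (by
      linarith [ht2.2, Real.pi_pos])
    have h7 : ⟪G x b, Real.cos t • p + Real.sin t • b⟫ = ⟪G x b, p⟫ := by rw [heq]
    have h8 : ⟪G x b, p⟫ = 0 := by
      rw [hG.symm _ _ _ (ne_zero_of_norm hx1), real_inner_comm]; exact h2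
    rw [inner_add_right, inner_smul_right, inner_smul_right, h8] at h7
    have h9 : ⟪G x b, b⟫ = 2 * (E - U x) := by rw [real_inner_comm]; linarith
    rw [h9] at h7
    nlinarith
  · by_contra hne
    have := hfar (x, Real.cos t • p + Real.sin t • b) ⟨⟨hmem, hne⟩, rfl⟩
    have h10 : dist (x, p) (x, Real.cos t • p + Real.sin t • b) =
        dist (Real.cos t • p + Real.sin t • b) p := by
      rw [Prod.dist_eq, dist_self, dist_comm]
      simp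
    rw [h10] at this
    exact absurd (lt_of_lt_of_le ht1 (min_le_right _ _)) (not_lt.2 this)

end bad

section bad2
variable {G : V → V →L[ℝ] V} {U : V → ℝ} {E : ℝ} {D : Set V} {v : V × V → V × V}
  {φ : ℝ → V × V → V × V} {K : V × V → ℝ}

theorem mem_Om_of_ES {z : V × V} (hz : z ∈ ES G U E D) : z ∈ Om := ne_zero_of_norm hz.1.1

theorem K_cont (hK : Basic K) {z : V × V} (hz : z ∈ Om) : ContinuousAt K z :=
  (hK.differentiableAt hz).continuousAt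

theorem phi_cont (hφ : HFlow G U E v φ) (T : ℝ) : Continuous (φ T) :=
  hφ.cont.comp (continuous_const.prodMk continuous_id)

theorem AA_open (hK : Basic K) {T₁ : ℝ}
    (hLC : ∀ z ∈ ES G U E D, K z ≠ 0 → ∀ T₀, φ T₀ z = z →
      ∀ᶠ z' in 𝓝[ES G U E D] z, φ T₀ z' = z') {z : V × V} (hz : z ∈ AA G U E D φ K T₁) :
    ∀ᶠ z' in 𝓝[ES G U E D] z, z' ∈ AA G U E D φ K T₁ := by
  obtain ⟨h1, h2, h3⟩ := hz
  have h4 : ∀ᶠ z' in 𝓝[ES G U E D] z, K z' ≠ 0 :=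
    ((K_cont hK (mem_Om_of_ES h1)).eventually_ne h2).filter_mono nhdsWithin_le_nhds
  filter_upwards [self_mem_nhdsWithin, h4, hLC z h1 h2 T₁ h3] with z' a1 a2 a3
  exact ⟨a1, a2, a3⟩

theorem BB_open (hφ : HFlow G U E v φ) (hK : Basic K) {T₁ : ℝ} {z : V × V}
    (hz : z ∈ BB G U E D φ K T₁) :
    ∀ᶠ z' in 𝓝[ES G U E D] z, z' ∈ BB G U E D φ K T₁ := by
  obtain ⟨h1, h2, h3⟩ := hz
  have h4 : ∀ᶠ z' in 𝓝[ES G U E D] z, K z' ≠ 0 :=
    ((K_cont hK (mem_Om_of_ES h1)).eventually_ne h2).filter_mono nhdsWithin_le_nhds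
  have h5 : ∀ᶠ z' in 𝓝[ES G U E D] z, φ T₁ z' ≠ z' := by
    have : ∀ᶠ z' in 𝓝 z, φ T₁ z' ≠ z' :=
      (isOpen_ne_fun (phi_cont hφ T₁) continuous_id).mem_nhds h3
    exact this.filter_mono nhdsWithin_le_nhds
  filter_upwards [self_mem_nhdsWithin, h4, h5] with z' a1 a2 a3
  exact ⟨a1, a2, a3⟩

theorem closure_AA_fixed (hφ : HFlow G U E v φ) {T₁ : ℝ} {z : V × V}
    (hz : z ∈ closure (AA G U E D φ K T₁)) : φ T₁ z = z := by
  have hcl : IsClosed {z : V × V | φ T₁ z = z} := isClosed_eq (phi_cont hφ T₁) continuous_id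
  exact closure_minimal (fun w hw => hw.2.2) hcl hz

theorem AA_or_BB {T₁ : ℝ} {z : V × V} (hz : z ∈ ES G U E D) (hK : K z ≠ 0) :
    z ∈ AA G U E D φ K T₁ ∨ z ∈ BB G U E D φ K T₁ := by
  by_cases h : φ T₁ z = z
  · exact Or.inl ⟨hz, hK, h⟩
  · exact Or.inr ⟨hz, hK, h⟩

theorem bad_K_zero (hφ : HFlow G U E v φ) (hK : Basic K) {T₁ : ℝ}
    (hLC : ∀ z ∈ ES G U E D, K z ≠ 0 → ∀ T₀, φ T₀ z = z →
      ∀ᶠ z' in 𝓝[ES G U E D] z, φ T₀ z' = z') {z : V × V} (hz : Bad G U E D φ K T₁ z) :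
    K z = 0 := by
  by_contra hne
  obtain ⟨h1, h2, h3⟩ := hz
  rcases AA_or_BB (φ := φ) (T₁ := T₁) h1 hne with h | h
  · have h4 := AA_open hK hLC h
    have h5 : ∃ᶠ z' in 𝓝 z, z' ∈ BB G U E D φ K T₁ ∩ fib z.1 := mem_closure_iff_frequently.1 h3
    rw [eventually_nhdsWithin_iff] at h4
    obtain ⟨z', h6, h7⟩ := (h5.and_eventually h4).exists
    exact h6.1.2.2 (h7 h6.1.1).2.2
  · have h4 := BB_open hφ hK h
    have h5 : ∃ᶠ z' in 𝓝 z, z' ∈ AA G U E D φ K T₁ ∩ fib z.1 := mem_closure_iff_frequently.1 h2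
    rw [eventually_nhdsWithin_iff] at h4
    obtain ⟨z', h6, h7⟩ := (h5.and_eventually h4).exists
    exact (h7 h6.1.1).2.2 h6.1.2.2

theorem exists_bad_of_fiber (hG : Met G) (hD : Reg U E D) (hK : ∃ d, FPoly d D K) {T₁ : ℝ}
    {x pA pB : V} (hA : (x, pA) ∈ AA G U E D φ K T₁) (hB : (x, pB) ∈ BB G U E D φ K T₁) :
    ∃ z, Bad G U E D φ K T₁ z := by
  have hpre := fiber_preconnected hG hD x
  rw [isPreconnected_closed_iff] at hpre
  obtain ⟨z, ⟨hz1, hz2⟩, hz3, hz4⟩ := hpre (closure (AA G U E D φ K T₁ ∩ fib x))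
    (closure (BB G U E D φ K T₁ ∩ fib x)) isClosed_closure isClosed_closure (by
      rintro ⟨x', p⟩ ⟨hp, hx'⟩
      simp only at hx'
      subst hx'
      have := fiber_dense hG hD hK hA.1 hA.2.1 hp
      rw [← closure_union]
      refine closure_mono ?_ this
      rintro w ⟨⟨hw1, hw2⟩, hw3⟩
      rcases AA_or_BB (φ := φ) (T₁ := T₁) hw1 hw2 with h | h
      · exact Or.inl ⟨h, hw3⟩
      · exact Or.inr ⟨h, hw3⟩)
    ⟨(x, pA), ⟨hA.1, rfl⟩, subset_closure ⟨hA, rfl⟩⟩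
    ⟨(x, pB), ⟨hB.1, rfl⟩, subset_closure ⟨hB, rfl⟩⟩
  subst hz2
  exact ⟨z, hz1, hz3, hz4⟩

/-- the wall statement follows if there are no bad points -/
theorem wall_of_no_bad (hG : Met G) (hU : Pot U) (hD : Reg U E D)
    (hφ : HFlow G U E v φ) (hK : Obs G U D K) (T₁ : ℝ)
    (hno : ∀ z, ¬ Bad G U E D φ K T₁ z)
    {x : V} (hKx : ∃ p, (x, p) ∈ ES G U E D ∧ K (x, p) ≠ 0)
    (hAx : ∃ p, (x, p) ∈ ES G U E D ∧ (x, p) ∈ closure (AA G U E D φ K T₁))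
    (p : V) (hp : (x, p) ∈ ES G U E D) : (x, p) ∈ closure (AA G U E D φ K T₁) := by
  obtain ⟨p1, hp1, hKp1⟩ := hKx
  -- no B points over x
  have hnoB : ∀ pB, (x, pB) ∉ BB G U E D φ K T₁ := by
    intro pB hB
    obtain ⟨pa, hpa, hcl⟩ := hAx
    obtain ⟨⟨hx1, hxp⟩, hxD, hEn⟩ := hB.1
    simp only at hx1 hxp hxD
    have hUE := hD.lt x hxD
    have hEp : (1 / 2) * ⟪pB, G x pB⟫ = E - U x := by
      simp only [Ham] at hEn; linarith
    have hpos := form_pos_of_energy hUE hEp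
    have hx0 : x ≠ 0 := ne_zero_of_norm hx1
    have hself : nrm G U E x pB = pB := nrm_self hxp hUE hEp
    have hc0 : ContinuousAt (fun z : V × V => nrm G U E z.1 z.2) (x, pB) :=
      (nrm_smooth hG hU hx0 hUE hpos).continuousAt
    have hc1 : ContinuousAt (fun x' : V => (x', nrm G U E x' pB)) x := by
      have : ContinuousAt (fun x' : V => nrm G U E x' pB) x :=
        ContinuousAt.comp (f := fun x' : V => (x', pB)) hc0 (by fun_prop)
      exact continuousAt_id.prodMk this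
    have hc2 : Filter.Tendsto (fun x' : V => (x', nrm G U E x' pB)) (𝓝 x) (𝓝 (x, pB)) := by
      have := hc1.tendsto
      simpa only [hself] using this
    have hBo := BB_open hφ hK.basic hB
    rw [eventually_nhdsWithin_iff] at hBo
    have hev := hc2.eventually hBo
    -- positivity of the form near x
    have hGc : ContinuousAt (fun x' : V => ⟪pB, G x' pB⟫) x := by
      have h1 : ContinuousAt G x :=
        (hG.smooth.contDiffAt (isOpen_ne.mem_nhds hx0)).continuousAt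
      exact continuousAt_const.inner (𝕜 := ℝ) (h1.clm_apply continuousAt_const)
    have hev2 : ∀ᶠ x' in 𝓝 x, 0 < ⟪pB, G x' pB⟫ := hGc.eventually (lt_mem_nhds hpos)
    have hev3 : ∀ᶠ z in 𝓝 (x, pa), (((z : V × V).1, nrm G U E z.1 pB) ∈ ES G U E D →
        (z.1, nrm G U E z.1 pB) ∈ BB G U E D φ K T₁) ∧ 0 < ⟪pB, G z.1 pB⟫ :=
      (continuous_fst.tendsto (x, pa)).eventually (hev.and hev2)
    have hfr := mem_closure_iff_frequently.1 hcl
    obtain ⟨z, hzA, h1, h2⟩ := (hfr.and_eventually hev3).exists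
    have hzE := hzA.1
    have hmem : (z.1, nrm G U E z.1 pB) ∈ ES G U E D :=
      nrm_mem hG hD hzE.1.1 hzE.2.1 h2
    obtain ⟨w, hw⟩ := exists_bad_of_fiber (pA := z.2) hG hD hK.poly hzA (h1 hmem)
    exact hno w hw
  have hd := fiber_dense hG hD hK.poly hp1 hKp1 hp
  refine closure_mono ?_ hd
  rintro ⟨x', w⟩ ⟨⟨hw1, hw2⟩, hw3⟩
  simp only [fib, mem_setOf_eq] at hw3
  subst hw3
  rcases AA_or_BB (φ := φ) (T₁ := T₁) hw1 hw2 with h | h
  · exact h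
  · exact absurd h (hnoB w)

end bad2

section dyn
variable {G : V → V →L[ℝ] V} {U : V → ℝ} {E : ℝ} {D : Set V} {v : V × V → V × V}
  {φ : ℝ → V × V → V × V}

/-- periods of a point -/
def Per (hφ : HFlow G U E v φ) (z : V × V) : AddSubgroup ℝ where
  carrier := {t | φ t z = z}
  zero_mem' := hφ.zero z
  add_mem' {a b} ha hb := by
    have ha' : φ a z = z := ha
    have hb' : φ b z = z := hb
    show φ (a + b) z = z
    rw [hφ.add, hb', ha']
  neg_mem' {a} ha := by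
    have ha' : φ a z = z := ha
    show φ (-a) z = z
    conv_lhs => rw [← ha']
    rw [← hφ.add, neg_add_cancel, hφ.zero]

theorem mem_Per (hφ : HFlow G U E v φ) {z : V × V} {t : ℝ} : t ∈ Per hφ z ↔ φ t z = z := Iff.rfl

theorem phi_neg (hφ : HFlow G U E v φ) (t : ℝ) (z : V × V) : φ (-t) (φ t z) = z := by
  rw [← hφ.add, neg_add_cancel, hφ.zero]

theorem phi_comm (hφ : HFlow G U E v φ) (s t : ℝ) (z : V × V) : φ s (φ t z) = φ t (φ s z) := by
  rw [← hφ.add, ← hφ.add, add_comm]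

theorem mono_time (hG : Met G) (hU : Pot U) (hD : Reg U E D) (hφ : HFlow G U E v φ)
    {x0 p0 : V} (hy : (x0, p0) ∈ ES G U E D) :
    ∃ ε > 0, ∀ z ∈ Metric.ball (x0, p0) ε,
      StrictMonoOn (fun t => ⟪(φ t z).1, G x0 p0⟫) (Ioo (-ε) ε) := by
  have hOm : (x0, p0) ∈ Om := mem_Om_of_ES hy
  obtain ⟨⟨hx1, hxp⟩, hxD, hEn⟩ := hy
  simp only at hx1 hxp hxD
  have hUE := hD.lt x0 hxD
  have hEp : (1 / 2) * ⟪p0, G x0 p0⟫ = E - U x0 := by
    simp only [Ham] at hEn; linarith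
  have hpos := form_pos_of_energy hUE hEp
  have hw : G x0 p0 ≠ 0 := by
    intro h; rw [h, inner_zero_right] at hpos; exact lt_irrefl _ hpos
  have hv : (v (x0, p0)).1 = G x0 p0 := by
    have h1 := (hφ.veq (x0, p0) ⟨hx1, hxp⟩ hEn.le).eq_of_nhds
    rw [h1]
    exact gp_ham hG hU hOm
  have hvc : Continuous v := hφ.vsmooth.continuous
  have hDc : Continuous (fun q : ℝ × (V × V) => ⟪(v (φ q.1 q.2)).1, G x0 p0⟫) :=
    (continuous_fst.comp (hvc.comp hφ.cont)).inner continuous_const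
  have h0 : 0 < ⟪(v (φ 0 (x0, p0))).1, G x0 p0⟫ := by
    rw [hφ.zero, hv]
    exact real_inner_self_pos.2 hw
  have hev : ∀ᶠ q in 𝓝 ((0 : ℝ), ((x0, p0) : V × V)), 0 < ⟪(v (φ q.1 q.2)).1, G x0 p0⟫ :=
    hDc.continuousAt.eventually (lt_mem_nhds h0)
  obtain ⟨ε, hε, hball⟩ := Metric.eventually_nhds_iff_ball.1 hev
  refine ⟨ε, hε, ?_⟩
  intro z hz
  have hder : ∀ t, HasDerivAt (fun t => ⟪(φ t z).1, G x0 p0⟫) ⟪(v (φ t z)).1, G x0 p0⟫ t := by
    intro t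
    have h1 : HasDerivAt (fun t => (φ t z).1) (v (φ t z)).1 t := (hφ.deriv z t).fst
    have h2 := h1.inner ℝ (hasDerivAt_const t (G x0 p0))
    simpa using h2
  refine strictMonoOn_of_deriv_pos (convex_Ioo _ _) ?_ ?_
  · exact fun t _ => (hder t).continuousAt.continuousWithinAt
  · intro t ht
    rw [interior_Ioo] at ht
    rw [(hder t).deriv]
    refine hball (t, z) ?_
    rw [Metric.mem_ball, Prod.dist_eq]
    refine max_lt ?_ hz
    rw [Real.dist_eq, sub_zero, abs_lt]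
    exact ht

/-- time to reach the section -/
theorem exists_return (hG : Met G) (hU : Pot U) (hD : Reg U E D) (hφ : HFlow G U E v φ)
    {x0 p0 : V} (hy : (x0, p0) ∈ ES G U E D) {w : V}
    (hw0 : ⟪x0, w⟫ = 0) {ε : ℝ} 
    (hmono : ∀ z ∈ Metric.ball (x0, p0) ε,
      StrictMonoOn (fun t => ⟪(φ t z).1, w⟫) (Ioo (-ε) ε)) {ε0 : ℝ} (hε0 : 0 < ε0)
    (hε : ε0 < ε) :
    ∃ (V0 : Set (V × V)) (r : V × V → ℝ), IsOpen V0 ∧ (x0, p0) ∈ V0 ∧
      V0 ⊆ Metric.ball (x0, p0) ε ∧ ContinuousOn r V0 ∧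
      (∀ z ∈ V0, r z ∈ Ioo (-ε0) ε0) ∧ (∀ z ∈ V0, ⟪(φ (r z) z).1, w⟫ = 0) ∧
      (∀ z ∈ V0, ∀ t ∈ Ioo (-ε) ε, ⟪(φ t z).1, w⟫ = 0 → t = r z) := by
  have hpc : ∀ t : ℝ, Continuous (fun z => ⟪(φ t z).1, w⟫) := fun t =>
    (continuous_fst.comp (phi_cont hφ t)).inner continuous_const
  have hpt : ∀ z : V × V, Continuous (fun t => ⟪(φ t z).1, w⟫) := fun z =>
    (continuous_fst.comp (hφ.cont.comp (continuous_id.prodMk continuous_const))).inner
      continuous_const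
  have hmem0 : (0 : ℝ) ∈ Ioo (-ε) ε := ⟨by linarith, by linarith⟩
  have hmemp : ε0 ∈ Ioo (-ε) ε := ⟨by linarith, by linarith⟩
  have hmemn : -ε0 ∈ Ioo (-ε) ε := ⟨by linarith, by linarith⟩
  set V0 : Set (V × V) := Metric.ball (x0, p0) ε ∩ {z | ⟪(φ (-ε0) z).1, w⟫ < 0} ∩
    {z | 0 < ⟪(φ ε0 z).1, w⟫} with hV0
  have hV0o : IsOpen V0 := (Metric.isOpen_ball.inter
    (isOpen_lt (hpc _) continuous_const)).inter (isOpen_lt continuous_const (hpc _))
  have hex : ∀ z ∈ V0, ∃ t ∈ Ioo (-ε0) ε0, ⟪(φ t z).1, w⟫ = 0 := by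
    rintro z ⟨⟨h1, h2⟩, h3⟩
    have h4 := intermediate_value_Ioo (a := -ε0) (b := ε0) (by linarith)
      (hpt z).continuousOn
    have h5 : (0 : ℝ) ∈ Ioo ⟪(φ (-ε0) z).1, w⟫ ⟪(φ ε0 z).1, w⟫ := ⟨h2, h3⟩
    obtain ⟨t, ht, ht'⟩ := h4 h5
    exact ⟨t, ht, ht'⟩
  choose! r hr1 hr2 using hex
  have hsub : Ioo (-ε0) ε0 ⊆ Ioo (-ε) ε := Ioo_subset_Ioo (by linarith) hε.le
  have huniq : ∀ z ∈ V0, ∀ t ∈ Ioo (-ε) ε, ⟪(φ t z).1, w⟫ = 0 → t = r z := by
    intro z hz t ht h0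
    exact (hmono z hz.1.1).injOn ht (hsub (hr1 z hz)) (h0.trans (hr2 z hz).symm)
  refine ⟨V0, r, hV0o, ?_, fun z hz => hz.1.1, ?_, hr1, hr2, huniq⟩
  · have hyb : (x0, p0) ∈ Metric.ball (x0, p0) ε := Metric.mem_ball_self (by linarith)
    have h00 : ⟪(φ 0 (x0, p0)).1, w⟫ = 0 := by rw [hφ.zero]; exact hw0
    refine ⟨⟨hyb, ?_⟩, ?_⟩
    · have := hmono _ hyb hmemn hmem0 (by linarith)
      simp only [h00] at this
      exact this
    · have := hmono _ hyb hmem0 hmemp (by linarith)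
      simp only [h00] at this
      exact this
  · intro z hz
    apply ContinuousAt.continuousWithinAt
    rw [ContinuousAt, tendsto_order]
    have hrz := hr1 z hz
    constructor
    · intro c hc
      obtain ⟨c', hc1, hc2⟩ := exists_between (max_lt hc hrz.1)
      have hc'm : c' ∈ Ioo (-ε) ε := ⟨by linarith [le_max_right c (-ε0)], by linarith [hrz.2]⟩
      have hneg : ⟪(φ c' z).1, w⟫ < 0 := by
        have := hmono z hz.1.1 hc'm (hsub hrz) hc2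
        simpa only [hr2 z hz] using this
      filter_upwards [(hpc c').continuousAt.eventually (gt_mem_nhds hneg), hV0o.mem_nhds hz]
        with z' h1 h2
      by_contra hcon
      push Not at hcon
      have hle : r z' ≤ c' := by linarith [le_max_left c (-ε0)]
      have := (hmono z' h2.1.1).monotoneOn (hsub (hr1 z' h2)) hc'm hle
      simp only [hr2 z' h2] at this
      linarith
    · intro c hc
      obtain ⟨c', hc1, hc2⟩ := exists_between (lt_min hc hrz.2)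
      have hc'm : c' ∈ Ioo (-ε) ε := ⟨by linarith [hrz.1], by linarith [min_le_right c ε0]⟩
      have hpos : 0 < ⟪(φ c' z).1, w⟫ := by
        have := hmono z hz.1.1 (hsub hrz) hc'm hc1
        simpa only [hr2 z hz] using this
      filter_upwards [(hpc c').continuousAt.eventually (lt_mem_nhds hpos), hV0o.mem_nhds hz]
        with z' h1 h2
      by_contra hcon
      push Not at hcon
      have hle : c' ≤ r z' := by linarith [min_le_left c ε0]
      have := (hmono z' h2.1.1).monotoneOn hc'm (hsub (hr1 z' h2)) hle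
      simp only [hr2 z' h2] at this
      linarith

/-- commensurability of periods -/
theorem commens (hφ : HFlow G U E v φ) {y : V × V} {w : V} {ε : ℝ} (hε : 0 < ε)
    (hmono : StrictMonoOn (fun t => ⟪(φ t y).1, w⟫) (Ioo (-ε) ε)) {T₁ T₂ : ℝ}
    (h1 : φ T₁ y = y) (h2 : φ T₂ y = y) (hT₂ : 0 < T₂) :
    ∃ (n : ℕ) (k : ℤ), 0 < n ∧ (n : ℝ) * T₁ = (k : ℝ) * T₂ := by
  have hshort : ∀ t ∈ Per hφ y, t ∈ Ioo (-ε) ε → t = 0 := by
    intro t ht htε
    have ht' : φ t y = y := ht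
    have h0 : φ 0 y = y := hφ.zero y
    refine hmono.injOn htε ⟨by linarith, hε⟩ ?_
    simp only [ht', h0]
  rcases AddSubgroup.dense_or_cyclic (Per hφ y) with hd | ⟨a, ha⟩
  · exfalso
    obtain ⟨t, ht1, ht2⟩ := hd.exists_mem_open isOpen_Ioo (⟨ε / 2, by constructor <;> linarith⟩ :
      (Ioo (0 : ℝ) ε).Nonempty)
    have := hshort t ht1 ⟨by linarith [ht2.1], ht2.2⟩
    linarith [ht2.1]
  · have hT1 : T₁ ∈ Per hφ y := h1
    have hT2 : T₂ ∈ Per hφ y := h2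
    rw [ha, AddSubgroup.mem_closure_singleton] at hT1 hT2
    obtain ⟨k', hk'⟩ := hT1
    obtain ⟨n', hn'⟩ := hT2
    have hn0 : n' ≠ 0 := by
      rintro rfl
      simp at hn'
      linarith
    rw [zsmul_eq_mul] at hk' hn'
    rcases lt_or_gt_of_ne hn0 with hneg | hpos
    · refine ⟨n'.natAbs, -k', Int.natAbs_pos.2 hn0, ?_⟩
      have h3 : ((n'.natAbs : ℕ) : ℝ) = -(n' : ℝ) := by
        rw [← Int.cast_natCast, Int.natCast_natAbs, abs_of_neg hneg]; push_cast; ring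
      rw [h3, ← hk', ← hn']
      push_cast; ring
    · refine ⟨n'.natAbs, k', Int.natAbs_pos.2 hn0, ?_⟩
      have h3 : ((n'.natAbs : ℕ) : ℝ) = (n' : ℝ) := by
        rw [← Int.cast_natCast, Int.natCast_natAbs, abs_of_pos hpos]
      rw [h3, ← hk', ← hn']
      ring

end dyn

theorem exists_third {x0 w : V} (hx : ‖x0‖ = 1) (hw : w ≠ 0) (hxw : ⟪x0, w⟫ = 0) :
    ∃ e : V, ‖e‖ = 1 ∧ ⟪x0, e⟫ = 0 ∧ ⟪w, e⟫ = 0 ∧
      ∀ x : V, ⟪x, w⟫ = 0 → x = ⟪x, x0⟫ • x0 + ⟪x, e⟫ • e := by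
  have hwn : ‖w‖ ≠ 0 := norm_ne_zero_iff.2 hw
  set w1 : V := ‖w‖⁻¹ • w with hw1
  have hw1n : ‖w1‖ = 1 := by
    rw [hw1, norm_smul, norm_inv, norm_norm, inv_mul_cancel₀ hwn]
  have hxw1 : ⟪x0, w1⟫ = 0 := by rw [hw1, inner_smul_right, hxw, mul_zero]
  have hv : Orthonormal ℝ (({0, 1} : Set (Fin 3)).domRestrict ![x0, w1, 0]) := by
    rw [orthonormal_iff_ite]
    rintro ⟨i, hi⟩ ⟨j, hj⟩
    have hw1x : ⟪w1, x0⟫ = 0 := by rw [real_inner_comm]; exact hxw1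
    have h1 : ⟪x0, x0⟫ = 1 := by rw [real_inner_self_eq_norm_sq, hx]; norm_num
    have h2 : ⟪w1, w1⟫ = 1 := by rw [real_inner_self_eq_norm_sq, hw1n]; norm_num
    rcases hi with rfl | rfl <;> rcases hj with rfl | rfl
    · show ⟪x0, x0⟫ = _
      rw [h1]; simp
    · show ⟪x0, w1⟫ = _
      rw [hxw1, if_neg]
      intro h; exact absurd (congrArg Subtype.val h) (by decide)
    · show ⟪w1, x0⟫ = _
      rw [hw1x, if_neg]
      intro h; exact absurd (congrArg Subtype.val h) (by decide)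
    · show ⟪w1, w1⟫ = _
      rw [h2]; simp
  obtain ⟨b, hb⟩ := hv.exists_orthonormalBasis_extension_of_card_eq (by simp)
  have hb0 : b 0 = x0 := by simpa using hb 0 (by simp)
  have hb1 : b 1 = w1 := by simpa using hb 1 (by simp)
  have hon := b.orthonormal
  refine ⟨b 2, hon.1 2, ?_, ?_, ?_⟩
  · rw [← hb0]; exact hon.2 (by decide)
  · have h3 : ⟪b 1, b 2⟫ = 0 := hon.2 (by decide)
    rw [hb1, hw1, inner_smul_left] at h3
    rcases mul_eq_zero.1 h3 with h | h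
    · exfalso
      simp at h
      exact hw h
    · exact h
  · intro x hxw'
    have h4 := b.sum_repr' x
    rw [Fin.sum_univ_three, hb0, hb1] at h4
    have h5 : ⟪w1, x⟫ = 0 := by
      rw [hw1, inner_smul_left, real_inner_comm, hxw', mul_zero]
    rw [h5, zero_smul, add_zero] at h4
    rw [real_inner_comm, real_inner_comm (b 2) x] 
    exact h4.symm

section loc
variable {G : V → V →L[ℝ] V} {U : V → ℝ} {E : ℝ} {D : Set V} {v : V × V → V × V}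
  {φ : ℝ → V × V → V × V} {K : V × V → ℝ} {x0 p0 b0 e : V} {δ : ℝ} {a b : ℝ → V}

theorem conic_inv (hG : Met G) (hD : Reg U E D) {x a b : V} (hx1 : ‖x‖ = 1) (hxD : x ∈ D)
    (hxa : ⟪x, a⟫ = 0) (hxb : ⟪x, b⟫ = 0)
    (hab : ⟪G x a, b⟫ = 0) (haa : (1 / 2) * ⟪a, G x a⟫ = E - U x)
    (hbb : (1 / 2) * ⟪b, G x b⟫ = E - U x) {p : V} (hp : ⟪x, p⟫ = 0)
    (hpp : (1 / 2) * ⟪p, G x p⟫ = E - U x) (hpos : 0 < ⟪G x a, p⟫) :
    p = Real.cos (Real.arcsin (⟪G x b, p⟫ / (2 * (E - U x)))) • a +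
      Real.sin (Real.arcsin (⟪G x b, p⟫ / (2 * (E - U x)))) • b := by
  have hc : 0 < E - U x := by linarith [hD.lt _ hxD]
  have hx0 : x ≠ 0 := ne_zero_of_norm hx1
  obtain ⟨θ, hθ⟩ := frame_span hG hD hx1 hxD hxa hxb hab haa hbb hp hpp
  have hba : ⟪G x b, a⟫ = 0 := by rw [hG.symm _ _ _ hx0, real_inner_comm]; exact hab
  have hGa : ⟪G x a, p⟫ = Real.cos θ * (2 * (E - U x)) := by
    have h7 : ⟪G x a, a⟫ = 2 * (E - U x) := by rw [real_inner_comm]; linarith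
    conv_lhs => rw [hθ]
    rw [inner_add_right, inner_smul_right, inner_smul_right, hab, h7]
    ring
  have hGb : ⟪G x b, p⟫ = Real.sin θ * (2 * (E - U x)) := by
    have h7 : ⟪G x b, b⟫ = 2 * (E - U x) := by rw [real_inner_comm]; linarith
    conv_lhs => rw [hθ]
    rw [inner_add_right, inner_smul_right, inner_smul_right, hba, h7]
    ring
  have hcos : 0 < Real.cos θ := by
    rw [hGa] at hpos
    by_contra hcon
    push Not at hcon
    nlinarith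
  rw [hGb, mul_div_assoc, div_self (by linarith), mul_one]
  have h8 : Real.sin (Real.arcsin (Real.sin θ)) = Real.sin θ :=
    Real.sin_arcsin (Real.neg_one_le_sin θ) (Real.sin_le_one θ)
  have h9 : Real.cos (Real.arcsin (Real.sin θ)) = Real.cos θ := by
    rw [Real.cos_arcsin, ← Real.cos_sq', Real.sqrt_sq hcos.le]
  rw [h8, h9]
  exact hθ

theorem fiber_near (hG : Met G) (hD : Reg U E D) (hz : (x0, p0) ∈ ES G U E D)
    (hb1 : ⟪x0, b0⟫ = 0) (hb2 : ⟪G x0 p0, b0⟫ = 0) (hb3 : (1 / 2) * ⟪b0, G x0 b0⟫ = E - U x0)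
    {S : Set (V × V)} (hS : S ⊆ ES G U E D) (hcl : (x0, p0) ∈ closure (S ∩ fib x0)) :
    ∀ η > 0, ∃ θ, |θ| < η ∧ (x0, Real.cos θ • p0 + Real.sin θ • b0) ∈ S := by
  intro η hη
  obtain ⟨⟨hx1, hxp⟩, hxD, hEn⟩ := hz
  simp only at hx1 hxp hxD
  have hEp : (1 / 2) * ⟪p0, G x0 p0⟫ = E - U x0 := by
    simp only [Ham] at hEn; linarith
  have hUE := hD.lt x0 hxD
  have hpos := form_pos_of_energy hUE hEp
  have hx0 : x0 ≠ 0 := ne_zero_of_norm hx1
  have hc1 : Continuous (fun w : V × V => Real.arcsin (⟪G x0 b0, w.2⟫ / (2 * (E - U x0)))) :=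
    Real.continuous_arcsin.comp ((continuous_const.inner continuous_snd).div_const _)
  have hbp : ⟪G x0 b0, p0⟫ = 0 := by rw [hG.symm _ _ _ hx0, real_inner_comm]; exact hb2
  have hev1 : ∀ᶠ w : V × V in 𝓝 (x0, p0),
      |Real.arcsin (⟪G x0 b0, w.2⟫ / (2 * (E - U x0)))| < η := by
    have h1 : ContinuousAt (fun w : V × V =>
        |Real.arcsin (⟪G x0 b0, w.2⟫ / (2 * (E - U x0)))|) (x0, p0) := hc1.abs.continuousAt
    refine h1.eventually (gt_mem_nhds ?_)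
    simp only [hbp, zero_div, Real.arcsin_zero, abs_zero]
    exact hη
  have hev2 : ∀ᶠ w : V × V in 𝓝 (x0, p0), 0 < ⟪G x0 p0, w.2⟫ := by
    have h1 : Continuous (fun w : V × V => ⟪G x0 p0, w.2⟫) := continuous_const.inner continuous_snd
    refine h1.continuousAt.eventually (lt_mem_nhds ?_)
    simp only
    rw [real_inner_comm]; exact hpos
  obtain ⟨⟨x', w⟩, ⟨hwS, hwx⟩, h1, h2⟩ :=
    ((mem_closure_iff_frequently.1 hcl).and_eventually (hev1.and hev2)).exists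
  have hwx' : x' = x0 := hwx
  subst hwx'
  simp only at h1 h2
  have hwE := hS hwS
  obtain ⟨⟨_, hxw⟩, _, hEnw⟩ := hwE
  simp only at hxw
  have hEw : (1 / 2) * ⟪w, G x' w⟫ = E - U x' := by
    simp only [Ham] at hEnw; linarith
  have hinv := conic_inv hG hD hx1 hxD hxp hb1 hb2 hEp hb3 hxw hEw h2
  refine ⟨_, h1, ?_⟩
  rw [← hinv]
  exact hwS

theorem chi_tendsto (hG : Met G) (F : Frame G U E D x0 p0 b0 e δ a b) {u : ℝ × ℝ}
    (hu : u.1 ∈ Ioo (-δ) δ) :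
    Filter.Tendsto (chi x0 e a b) (𝓝 u) (𝓝[ES G U E D] (chi x0 e a b u)) := by
  have hO : IsOpen (Ioo (-δ) δ ×ˢ (univ : Set ℝ)) := isOpen_Ioo.prod isOpen_univ
  have hu' : u ∈ Ioo (-δ) δ ×ˢ (univ : Set ℝ) := ⟨hu, mem_univ _⟩
  refine tendsto_nhdsWithin_iff.2 ⟨?_, ?_⟩
  · exact ((chi_smooth F).contDiffAt (hO.mem_nhds hu')).continuousAt
  · filter_upwards [hO.mem_nhds hu'] with w hw
    exact chi_mem hG F hw.1

theorem exists_bad_between (hG : Met G) (F : Frame G U E D x0 p0 b0 e δ a b) {T₁ : ℝ}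
    {s : ℝ} (hs : s ∈ Ioo (-δ) δ) {θA θB : ℝ}
    (hA : chi x0 e a b (s, θA) ∈ AA G U E D φ K T₁)
    (hB : chi x0 e a b (s, θB) ∈ BB G U E D φ K T₁)
    (hne : ∀ θ ∈ uIcc θA θB, ∃ᶠ t in 𝓝 θ, K (chi x0 e a b (s, t)) ≠ 0) :
    ∃ θ ∈ uIcc θA θB, Bad G U E D φ K T₁ (chi x0 e a b (s, θ)) := by
  have hcont : Continuous (fun t : ℝ => chi x0 e a b (s, t)) := by
    show Continuous (fun t : ℝ => (xs x0 e s, Real.cos t • a s + Real.sin t • b s))
    fun_prop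
  have hpre : IsPreconnected (uIcc θA θB) := isPreconnected_uIcc
  rw [isPreconnected_closed_iff] at hpre
  obtain ⟨θ, hθ, h1, h2⟩ := hpre
    ((fun t : ℝ => chi x0 e a b (s, t)) ⁻¹' closure (AA G U E D φ K T₁ ∩ fib (xs x0 e s)))
    ((fun t : ℝ => chi x0 e a b (s, t)) ⁻¹' closure (BB G U E D φ K T₁ ∩ fib (xs x0 e s)))
    (isClosed_closure.preimage hcont) (isClosed_closure.preimage hcont) (by
      intro θ hθ
      have h3 : chi x0 e a b (s, θ) ∈ closure ((AA G U E D φ K T₁ ∩ fib (xs x0 e s)) ∪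
          (BB G U E D φ K T₁ ∩ fib (xs x0 e s))) := by
        rw [mem_closure_iff_frequently]
        have h4 : ∃ᶠ t in 𝓝 θ, chi x0 e a b (s, t) ∈ ((AA G U E D φ K T₁ ∩ fib (xs x0 e s)) ∪
            (BB G U E D φ K T₁ ∩ fib (xs x0 e s))) := by
          refine (hne θ hθ).mono ?_
          intro t ht
          rcases AA_or_BB (φ := φ) (T₁ := T₁) (chi_mem (u := (s, t)) hG F hs) ht with h | h
          · exact Or.inl ⟨h, rfl⟩
          · exact Or.inr ⟨h, rfl⟩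
        exact hcont.continuousAt.frequently h4
      rw [closure_union] at h3
      exact h3)
    ⟨θA, left_mem_uIcc, subset_closure ⟨hA, rfl⟩⟩
    ⟨θB, right_mem_uIcc, subset_closure ⟨hB, rfl⟩⟩
  exact ⟨θ, hθ, chi_mem (u := (s, θ)) hG F hs, h1, h2⟩

theorem local_struct (hG : Met G) (hφ : HFlow G U E v φ)
    (hK : Basic K) (T₁ : ℝ)
    (hLC : ∀ z ∈ ES G U E D, K z ≠ 0 → ∀ T₀, φ T₀ z = z →
      ∀ᶠ z' in 𝓝[ES G U E D] z, φ T₀ z' = z')
    (F : Frame G U E D x0 p0 b0 e δ a b) (hδ : 0 < δ) (hbad : Bad G U E D φ K T₁ (x0, p0)) {m : ℕ}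
    (hm : iteratedDeriv m (fun t => K (chi x0 e a b (0, t))) 0 ≠ 0)
    (hmin : ∀ z, Bad G U E D φ K T₁ z → ∀ j < m, ¬ Ordp G U E K z j)
    (hA : ∀ η > 0, ∃ θ, |θ| < η ∧ chi x0 e a b (0, θ) ∈ AA G U E D φ K T₁)
    (hB : ∀ η > 0, ∃ θ, (0 < θ ∧ θ < η) ∧ chi x0 e a b (0, θ) ∈ BB G U E D φ K T₁) :
    ∃ (α β σ : ℝ) (h : ℝ → ℝ), 0 < α ∧ α ≤ δ ∧ α ≤ 1 ∧ 0 < β ∧ β ≤ 1 ∧ h 0 = 0 ∧
      ContinuousOn h (Ioo (-α) α) ∧ (∀ s ∈ Ioo (-α) α, h s ∈ Ioo (-β) β) ∧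
      (∀ s ∈ Ioo (-α) α, K (chi x0 e a b (s, h s)) = 0) ∧
      (∀ s ∈ Ioo (-α) α, StrictMonoOn (fun θ => σ * K (chi x0 e a b (s, θ))) (Ico (h s) β)) ∧
      (∀ s ∈ Ioo (-α) α, ∀ θ ∈ Ioo (-β) β, θ ≠ h s → K (chi x0 e a b (s, θ)) ≠ 0) ∧
      (∃ θA ∈ Ioo (-β) β, chi x0 e a b (0, θA) ∈ AA G U E D φ K T₁) ∧
      (∃ θB ∈ Ioo 0 β, chi x0 e a b (0, θB) ∈ BB G U E D φ K T₁) := by
  set f : ℝ × ℝ → ℝ := fun u => K (chi x0 e a b u) with hf
  have hO : IsOpen (Ioo (-δ) δ ×ˢ (univ : Set ℝ)) := isOpen_Ioo.prod isOpen_univ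
  have hfs : ContDiffOn ℝ ((⊤ : ℕ∞) : WithTop ℕ∞) f (Ioo (-δ) δ ×ˢ univ) := K_chi_smooth hK F
  have hfs1 : ∀ s ∈ Ioo (-δ) δ, ContDiff ℝ ((⊤ : ℕ∞) : WithTop ℕ∞) (fun θ => f (s, θ)) := by
    intro s hs
    rw [← contDiffOn_univ]
    exact hfs.comp (contDiff_const.prodMk contDiff_id).contDiffOn (fun t _ => ⟨hs, mem_univ _⟩)
  set g : ℕ → ℝ × ℝ → ℝ := fun j u => iteratedDeriv j (fun θ => f (u.1, θ)) u.2 with hg
  have hgs : ∀ j, ContDiffOn ℝ ((⊤ : ℕ∞) : WithTop ℕ∞) (g j) (Ioo (-δ) δ ×ˢ univ) :=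
    fun j => iterDeriv_contDiffOn hfs j
  have hK0 : K (x0, p0) = 0 := bad_K_zero hφ hK hLC hbad
  have hf0 : f (0, 0) = 0 := by simp only [hf, chi_zero F, hK0]
  have hm0 : 0 < m := by
    rcases Nat.eq_zero_or_pos m with h | h
    · exfalso
      subst h
      apply hm
      simpa using hf0
    · exact h
  have h00 : ((0 : ℝ), (0 : ℝ)) ∈ Ioo (-δ) δ ×ˢ (univ : Set ℝ) := ⟨⟨by linarith, hδ⟩, mem_univ _⟩
  set σ : ℝ := g m (0, 0) with hσ
  have hσ0 : σ ≠ 0 := hm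
  have hgc : ContinuousAt (fun u => σ * g m u) (0, 0) :=
    continuousAt_const.mul ((hgs m).contDiffAt (hO.mem_nhds h00)).continuousAt
  have hpos0 : 0 < σ * g m (0, 0) := by rw [← hσ]; exact mul_self_pos.2 hσ0
  obtain ⟨η, hη, hball⟩ := Metric.eventually_nhds_iff_ball.1
    (hgc.eventually (lt_mem_nhds hpos0))
  set β : ℝ := min η 1 with hβ
  have hβ0 : 0 < β := lt_min hη one_pos
  obtain ⟨θA, hθA, hθA'⟩ := hA β hβ0
  obtain ⟨θB, hθB, hθB'⟩ := hB β hβ0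
  have h0δ : (0 : ℝ) ∈ Ioo (-δ) δ := ⟨by linarith, hδ⟩
  have hevA : ∀ᶠ s in 𝓝 (0 : ℝ), chi x0 e a b (s, θA) ∈ AA G U E D φ K T₁ := by
    have h1 := (chi_tendsto (u := (0, θA)) hG F h0δ).eventually (AA_open hK hLC hθA')
    have h2 : Filter.Tendsto (fun s : ℝ => (s, θA)) (𝓝 0) (𝓝 (0, θA)) := by
      have : Continuous (fun s : ℝ => (s, θA)) := by fun_prop
      exact this.tendsto 0
    exact h2.eventually h1
  have hevB : ∀ᶠ s in 𝓝 (0 : ℝ), chi x0 e a b (s, θB) ∈ BB G U E D φ K T₁ := by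
    have h1 := (chi_tendsto (u := (0, θB)) hG F h0δ).eventually (BB_open hφ hK hθB')
    have h2 : Filter.Tendsto (fun s : ℝ => (s, θB)) (𝓝 0) (𝓝 (0, θB)) := by
      have : Continuous (fun s : ℝ => (s, θB)) := by fun_prop
      exact this.tendsto 0
    exact h2.eventually h1
  obtain ⟨α', hα', hball'⟩ := Metric.eventually_nhds_iff_ball.1 (hevA.and hevB)
  set α : ℝ := min (min α' δ) (min η 1) with hα
  have hα0 : 0 < α := lt_min (lt_min hα' hδ) hβ0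
  have hαδ : α ≤ δ := (min_le_left _ _).trans (min_le_right _ _)
  have hαα' : α ≤ α' := (min_le_left _ _).trans (min_le_left _ _)
  have hαη : α ≤ η := (min_le_right _ _).trans (min_le_left _ _)
  have hα1 : α ≤ 1 := (min_le_right _ _).trans (min_le_right _ _)
  have hβη : β ≤ η := min_le_left _ _
  have hsubδ : ∀ s ∈ Ioo (-α) α, s ∈ Ioo (-δ) δ := fun s hs =>
    ⟨by linarith [hs.1], by linarith [hs.2]⟩
  have hgpos : ∀ s ∈ Ioo (-α) α, ∀ θ ∈ Ioo (-β) β, 0 < σ * g m (s, θ) := by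
    intro s hs θ hθ
    refine hball (s, θ) ?_
    rw [Metric.mem_ball, Prod.dist_eq]
    refine max_lt ?_ ?_
    · rw [Real.dist_eq, sub_zero, abs_lt]; exact ⟨by linarith [hs.1], by linarith [hs.2]⟩
    · rw [Real.dist_eq, sub_zero, abs_lt]; exact ⟨by linarith [hθ.1], by linarith [hθ.2]⟩
  have hθAβ : θA ∈ Ioo (-β) β := abs_lt.1 hθA
  have hθBβ : θB ∈ Ioo (-β) β := ⟨by linarith [hθB.1], hθB.2⟩
  have hbads : ∀ s ∈ Ioo (-α) α, ∃ θ ∈ Ioo (-β) β,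
      Bad G U E D φ K T₁ (chi x0 e a b (s, θ)) := by
    intro s hs
    have hs' : s ∈ Metric.ball (0 : ℝ) α' := by
      rw [Metric.mem_ball, Real.dist_eq, sub_zero, abs_lt]
      exact ⟨by linarith [hs.1], by linarith [hs.2]⟩
    obtain ⟨h1, h2⟩ := hball' s hs'
    have hsub : uIcc θA θB ⊆ Ioo (-β) β := (ordConnected_Ioo).uIcc_subset hθAβ hθBβ
    obtain ⟨θ, hθ, hb⟩ := exists_bad_between (φ := φ) (K := K) hG F (hsubδ s hs) h1 h2 (by
      intro θ hθ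
      refine frequently_ne (m := m) (F := fun t => K (chi x0 e a b (s, t))) ?_
      have := hgpos s hs θ (hsub hθ)
      intro h0
      have h0' : g m (s, θ) = 0 := h0
      rw [h0', mul_zero] at this
      exact lt_irrefl _ this)
    exact ⟨θ, hsub hθ, hb⟩
  choose! h hh1 hh2 using hbads
  have hzeros : ∀ s ∈ Ioo (-α) α, ∀ j < m, g j (s, h s) = 0 := by
    intro s hs j hj
    by_contra hne
    exact hmin _ (hh2 s hs) j hj (ordp_chi hG F (hsubδ s hs) hne)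
  have htwo : ∀ s ∈ Ioo (-α) α, StrictMonoOn (fun θ => σ * f (s, θ)) (Ico (h s) β) ∧
      ∀ θ ∈ Ioo (-β) β, θ ≠ h s → σ * f (s, θ) ≠ 0 := by
    intro s hs
    refine two_sided hm0 (contDiff_const.mul (hfs1 s (hsubδ s hs))) (hh1 s hs) ?_ ?_
    · intro θ hθ
      rw [iteratedDeriv_const_mul_field]
      exact hgpos s hs θ hθ
    · intro j hj
      rw [iteratedDeriv_const_mul_field]
      have := hzeros s hs j hj
      rw [show iteratedDeriv j (fun θ => f (s, θ)) (h s) = 0 from this, mul_zero]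
  have h0α : (0 : ℝ) ∈ Ioo (-α) α := ⟨by linarith, hα0⟩
  have hh0 : h 0 = 0 := by
    by_contra hne
    refine (htwo 0 h0α).2 0 ⟨by linarith, hβ0⟩ (Ne.symm hne) ?_
    rw [hf0, mul_zero]
  refine ⟨α, β, σ, h, hα0, hαδ, hα1, hβ0, min_le_right _ _, hh0, ?_, hh1, ?_, ?_, ?_,
    ⟨θA, hθAβ, hθA'⟩, ⟨θB, ⟨hθB.1, hθB.2⟩, hθB'⟩⟩
  · -- continuity of h
    obtain ⟨n, rfl⟩ : ∃ n, m = n + 1 := ⟨m - 1, by omega⟩
    refine h_cont (g := fun u => σ * g n u) ?_ ?_ hh1 ?_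
    · have h1 : ContinuousOn (g n) (Ioo (-α) α ×ˢ Ioo (-β) β) :=
        (hgs n).continuousOn.mono (fun u hu => ⟨hsubδ _ hu.1, mem_univ _⟩)
      exact continuousOn_const.mul h1
    · intro s hs
      have h1 : ContDiff ℝ ((⊤ : ℕ∞) : WithTop ℕ∞) (fun θ => g n (s, θ)) := by
        rw [← contDiffOn_univ]
        exact (hgs n).comp (contDiff_const.prodMk contDiff_id).contDiffOn
          (fun t _ => ⟨hsubδ s hs, mem_univ _⟩)
      refine strictMonoOn_of_deriv_pos (convex_Ioo _ _)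
        (continuous_const.mul h1.continuous).continuousOn ?_
      intro θ hθ
      rw [interior_Ioo] at hθ
      have h2 := hgpos s hs θ hθ
      have h3 : deriv (fun θ => σ * g n (s, θ)) θ = σ * g (n + 1) (s, θ) := by
        rw [deriv_const_mul_field]
        simp only [hg]
        rw [iteratedDeriv_succ]
      rw [h3]; exact h2
    · intro s hs
      rw [hzeros s hs n (by omega), mul_zero]
  · intro s hs
    have := hzeros s hs 0 hm0
    simpa [hg] using this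
  · intro s hs
    exact (htwo s hs).1
  · intro s hs θ hθ hne h0
    refine (htwo s hs).2 θ hθ hne ?_
    show σ * K (chi x0 e a b (s, θ)) = 0
    rw [h0, mul_zero]

end loc

section fin
variable {G : V → V →L[ℝ] V} {U : V → ℝ} {E : ℝ} {D : Set V} {v : V × V → V × V}
  {φ : ℝ → V × V → V × V} {K : V × V → ℝ} {x0 p0 b0 e : V} {δ : ℝ} {a b : ℝ → V}

/-- first coordinate -/
def WSc (e : V) (z : V × V) : ℝ := Real.arcsin ⟪z.1, e⟫

/-- second coordinate -/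
def Th (G : V → V →L[ℝ] V) (U : V → ℝ) (E : ℝ) (e : V) (b : ℝ → V) (z : V × V) : ℝ :=
  Real.arcsin (⟪G z.1 (b (WSc e z)), z.2⟫ / (2 * (E - U z.1)))

/-- good points -/
def Good (G : V → V →L[ℝ] V) (U : V → ℝ) (E : ℝ) (x0 e : V) (a b : ℝ → V) (α β : ℝ)
    (z : V × V) : Prop :=
  0 < ⟪z.1, x0⟫ ∧ WSc e z ∈ Ioo (-α) α ∧ 0 < ⟪G z.1 (a (WSc e z)), z.2⟫ ∧
    Th G U E e b z ∈ Ioo (-β) β ∧ ContinuousAt (fun z => (WSc e z, Th G U E e b z)) z

theorem Sc_cont (e : V) : Continuous (WSc e) :=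
  Real.continuous_arcsin.comp (continuous_fst.inner continuous_const)

theorem good_eventually (hG : Met G) (hU : Pot U) (hD : Reg U E D)
    (hy : (x0, p0) ∈ ES G U E D) (hxe : ⟪x0, e⟫ = 0) (hb2 : ⟪G x0 p0, b0⟫ = 0)
    (F : Frame G U E D x0 p0 b0 e δ a b) {α β : ℝ} (hα : 0 < α) (hαδ : α ≤ δ) (hβ : 0 < β) :
    ∀ᶠ z in 𝓝 (x0, p0), Good G U E x0 e a b α β z := by
  obtain ⟨⟨hx1, hxp⟩, hxD, hEn⟩ := hy
  simp only at hx1 hxp hxD
  have hEp : (1 / 2) * ⟪p0, G x0 p0⟫ = E - U x0 := by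
    simp only [Ham] at hEn; linarith
  have hUE := hD.lt x0 hxD
  have hpos := form_pos_of_energy hUE hEp
  have hx0 : x0 ≠ 0 := ne_zero_of_norm hx1
  set O1 : Set (V × V) := {z | z.1 ∈ D} ∩ {z | WSc e z ∈ Ioo (-α) α} with hO1
  have hO1o : IsOpen O1 := (hD.isOpen.preimage continuous_fst).inter
    (isOpen_Ioo.preimage (Sc_cont e))
  have hS0 : WSc e (x0, p0) = 0 := by simp [WSc, hxe]
  have hyO : (x0, p0) ∈ O1 := ⟨hxD, by
    show WSc e (x0, p0) ∈ Ioo (-α) α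
    rw [hS0]; exact ⟨by linarith, hα⟩⟩
  have hGc : ∀ z ∈ O1, ContinuousAt (fun z : V × V => G z.1) z := by
    intro z hz
    have h1 : ContinuousAt G z.1 :=
      (hG.smooth.contDiffAt (isOpen_ne.mem_nhds (hD.ne_zero _ hz.1))).continuousAt
    exact ContinuousAt.comp (f := fun z : V × V => z.1) h1 continuousAt_fst
  have hUc : ∀ z ∈ O1, ContinuousAt (fun z : V × V => U z.1) z := by
    intro z hz
    have h1 : ContinuousAt U z.1 :=
      (hU.smooth.contDiffAt (isOpen_ne.mem_nhds (hD.ne_zero _ hz.1))).continuousAt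
    exact ContinuousAt.comp (f := fun z : V × V => z.1) h1 continuousAt_fst
  have hfr : ∀ (c : ℝ → V), ContDiffOn ℝ ((⊤ : ℕ∞) : WithTop ℕ∞) c (Ioo (-δ) δ) →
      ∀ z ∈ O1, ContinuousAt (fun z : V × V => ⟪G z.1 (c (WSc e z)), z.2⟫) z := by
    intro c hc z hz
    have hs : WSc e z ∈ Ioo (-δ) δ := ⟨by linarith [hz.2.1], by linarith [hz.2.2]⟩
    have h1 : ContinuousAt c (WSc e z) := (hc.contDiffAt (isOpen_Ioo.mem_nhds hs)).continuousAt
    have h2 : ContinuousAt (fun z : V × V => c (WSc e z)) z :=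
      ContinuousAt.comp (f := WSc e) h1 (Sc_cont e).continuousAt
    exact ((hGc z hz).clm_apply h2).inner (𝕜 := ℝ) continuousAt_snd
  have hThc : ∀ z ∈ O1, ContinuousAt (Th G U E e b) z := by
    intro z hz
    have hne : 2 * (E - U z.1) ≠ 0 := by
      have := hD.lt _ hz.1
      linarith
    have h3 : ContinuousAt (fun z : V × V =>
        ⟪G z.1 (b (WSc e z)), z.2⟫ / (2 * (E - U z.1))) z :=
      (hfr b F.bsm z hz).div (continuousAt_const.mul (continuousAt_const.sub (hUc z hz))) hne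
    exact ContinuousAt.comp (f := fun z : V × V =>
        ⟪G z.1 (b (WSc e z)), z.2⟫ / (2 * (E - U z.1))) (Real.continuous_arcsin.continuousAt) h3
  have hT0 : Th G U E e b (x0, p0) = 0 := by
    simp only [Th, hS0, F.b0]
    have : ⟪G x0 b0, p0⟫ = 0 := by rw [hG.symm _ _ _ hx0, real_inner_comm]; exact hb2
    rw [this]; simp
  have e1 : ∀ᶠ z : V × V in 𝓝 (x0, p0), 0 < ⟪z.1, x0⟫ := by
    have h1 : Continuous (fun z : V × V => ⟪z.1, x0⟫) := continuous_fst.inner continuous_const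
    refine h1.continuousAt.eventually (lt_mem_nhds ?_)
    simp only [inner_self_one hx1]; exact one_pos
  have e2 : ∀ᶠ z : V × V in 𝓝 (x0, p0), z ∈ O1 := hO1o.mem_nhds hyO
  have e3 : ∀ᶠ z : V × V in 𝓝 (x0, p0), 0 < ⟪G z.1 (a (WSc e z)), z.2⟫ := by
    refine (hfr a F.asm _ hyO).eventually (lt_mem_nhds ?_)
    simp only [hS0, F.a0]
    rw [real_inner_comm]; exact hpos
  have e4 : ∀ᶠ z : V × V in 𝓝 (x0, p0), Th G U E e b z ∈ Ioo (-β) β := by
    refine (hThc _ hyO).eventually (isOpen_Ioo.mem_nhds ?_)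
    rw [hT0]; exact ⟨by linarith, hβ⟩
  filter_upwards [e1, e2, e3, e4] with z h1 h2 h3 h4
  exact ⟨h1, h2.2, h3, h4, (Sc_cont e).continuousAt.prodMk (hThc z h2)⟩

theorem good_chi (hG : Met G) (hD : Reg U E D) (hx0 : ‖x0‖ = 1) (he : ‖e‖ = 1)
    (hxe : ⟪x0, e⟫ = 0)
    (hdec : ∀ x : V, ⟪x, G x0 p0⟫ = 0 → x = ⟪x, x0⟫ • x0 + ⟪x, e⟫ • e)
    (F : Frame G U E D x0 p0 b0 e δ a b) {α β : ℝ} (hαδ : α ≤ δ)
    {z : V × V} (hz : z ∈ ES G U E D) (hw : ⟪z.1, G x0 p0⟫ = 0)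
    (hgood : Good G U E x0 e a b α β z) :
    z = chi x0 e a b (WSc e z, Th G U E e b z) := by
  obtain ⟨h1, h2, h3, h4, h5⟩ := hgood
  have hs : WSc e z ∈ Ioo (-δ) δ := ⟨by linarith [h2.1], by linarith [h2.2]⟩
  have hd := hdec z.1 hw
  have hex : ⟪e, x0⟫ = 0 := by rw [real_inner_comm]; exact hxe
  set A := ⟪z.1, x0⟫ with hA
  set B := ⟪z.1, e⟫ with hB
  have hn : ⟪z.1, z.1⟫ = 1 := inner_self_one hz.1.1
  have hsq : A ^ 2 + B ^ 2 = 1 := by
    rw [hd] at hn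
    simp only [inner_add_left, inner_add_right, inner_smul_left, inner_smul_right,
      inner_self_one hx0, inner_self_one he, hxe, hex, conj_trivial] at hn
    nlinarith
  have hBm1 : -1 ≤ B := by nlinarith [sq_nonneg A]
  have hB1 : B ≤ 1 := by nlinarith [sq_nonneg A]
  have hsin : Real.sin (WSc e z) = B := Real.sin_arcsin hBm1 hB1
  have hcos : Real.cos (WSc e z) = A := by
    show Real.cos (Real.arcsin B) = A
    rw [Real.cos_arcsin]
    have : 1 - B ^ 2 = A ^ 2 := by linarith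
    rw [this, Real.sqrt_sq h1.le]
  have hzs : z.1 = xs x0 e (WSc e z) := by
    rw [xs, hsin, hcos]; exact hd
  exact chi_inv hG hD F hz hs hzs h3

theorem chi_inj (hG : Met G) (hD : Reg U E D) (he : ‖e‖ = 1)
    (hxe : ⟪x0, e⟫ = 0) (F : Frame G U E D x0 p0 b0 e δ a b) {α β : ℝ} (hαδ : α ≤ δ)
    (hα1 : α ≤ 1) (hβ1 : β ≤ 1) {u u' : ℝ × ℝ} (hu1 : u.1 ∈ Ioo (-α) α) (hu2 : u.2 ∈ Ioo (-β) β)
    (hu1' : u'.1 ∈ Ioo (-α) α) (hu2' : u'.2 ∈ Ioo (-β) β)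
    (heq : chi x0 e a b u = chi x0 e a b u') : u = u' := by
  have hpi : (1 : ℝ) ≤ Real.pi / 2 := by linarith [Real.two_le_pi]
  have h1 : xs x0 e u.1 = xs x0 e u'.1 := congrArg Prod.fst heq
  have hin : ∀ s, ⟪xs x0 e s, e⟫ = Real.sin s := by
    intro s
    simp only [xs, inner_add_left, inner_smul_left, hxe, inner_self_one he, conj_trivial]
    ring
  have h2 : Real.sin u.1 = Real.sin u'.1 := by rw [← hin, ← hin, h1]
  have h3 : u.1 = u'.1 := by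
    refine Real.injOn_sin ?_ ?_ h2
    · exact ⟨by linarith [hu1.1], by linarith [hu1.2]⟩
    · exact ⟨by linarith [hu1'.1], by linarith [hu1'.2]⟩
  have hs : u.1 ∈ Ioo (-δ) δ := ⟨by linarith [hu1.1], by linarith [hu1.2]⟩
  have h4 : Real.cos u.2 • a u.1 + Real.sin u.2 • b u.1 =
      Real.cos u'.2 • a u.1 + Real.sin u'.2 • b u.1 := by
    have := congrArg Prod.snd heq
    simp only [chi] at this
    rw [h3]
    rw [h3] at this
    exact this
  have hx := ne_zero_of_norm (F.nrm u.1)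
  have hba : ⟪G (xs x0 e u.1) (b u.1), a u.1⟫ = 0 := by
    rw [hG.symm _ _ _ hx, real_inner_comm]; exact F.ab _ hs
  have hbb : ⟪G (xs x0 e u.1) (b u.1), b u.1⟫ = 2 * (E - U (xs x0 e u.1)) := by
    rw [real_inner_comm]; linarith [F.bb _ hs]
  have hc : 0 < E - U (xs x0 e u.1) := by linarith [hD.lt _ (F.mem _ hs)]
  have h5 := congrArg (fun q => ⟪G (xs x0 e u.1) (b u.1), q⟫) h4
  simp only [inner_add_right, inner_smul_right, hba, hbb] at h5
  have h6 : Real.sin u.2 = Real.sin u'.2 := by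
    have h7 : (Real.sin u.2 - Real.sin u'.2) * (2 * (E - U (xs x0 e u.1))) = 0 := by linarith
    rcases mul_eq_zero.1 h7 with h | h
    · linarith
    · linarith
  have h8 : u.2 = u'.2 := by
    refine Real.injOn_sin ?_ ?_ h6
    · exact ⟨by linarith [hu2.1], by linarith [hu2.2]⟩
    · exact ⟨by linarith [hu2'.1], by linarith [hu2'.2]⟩
  exact Prod.ext h3 h8

/-- a connected set of chart points on which `K ≠ 0` is on one side only -/
theorem one_side_A (hG : Met G) (hφ : HFlow G U E v φ) (hK : Basic K) {T : ℝ}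
    (hLC : ∀ z ∈ ES G U E D, K z ≠ 0 → ∀ T₀, φ T₀ z = z →
      ∀ᶠ z' in 𝓝[ES G U E D] z, φ T₀ z' = z')
    (F : Frame G U E D x0 p0 b0 e δ a b) {S : Set (ℝ × ℝ)} (hS : IsPreconnected S)
    (hSδ : ∀ u ∈ S, u.1 ∈ Ioo (-δ) δ) (hSK : ∀ u ∈ S, K (chi x0 e a b u) ≠ 0) :
    ((∃ u ∈ S, chi x0 e a b u ∈ AA G U E D φ K T) → ∀ u ∈ S, chi x0 e a b u ∈ AA G U E D φ K T) ∧
    ((∃ u ∈ S, chi x0 e a b u ∈ BB G U E D φ K T) → ∀ u ∈ S, chi x0 e a b u ∈ BB G U E D φ K T) := by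
  have hO : IsOpen {u : ℝ × ℝ | u.1 ∈ Ioo (-δ) δ} := isOpen_Ioo.preimage continuous_fst
  have hOA : IsOpen {u : ℝ × ℝ | u.1 ∈ Ioo (-δ) δ ∧ chi x0 e a b u ∈ AA G U E D φ K T} := by
    rw [isOpen_iff_mem_nhds]
    rintro u ⟨h1, h2⟩
    filter_upwards [hO.mem_nhds h1, (chi_tendsto hG F h1).eventually (AA_open hK hLC h2)]
      with w h3 h4
    exact ⟨h3, h4⟩
  have hOB : IsOpen {u : ℝ × ℝ | u.1 ∈ Ioo (-δ) δ ∧ chi x0 e a b u ∈ BB G U E D φ K T} := by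
    rw [isOpen_iff_mem_nhds]
    rintro u ⟨h1, h2⟩
    filter_upwards [hO.mem_nhds h1, (chi_tendsto hG F h1).eventually (BB_open hφ hK h2)]
      with w h3 h4
    exact ⟨h3, h4⟩
  have hdisj : Disjoint {u : ℝ × ℝ | u.1 ∈ Ioo (-δ) δ ∧ chi x0 e a b u ∈ AA G U E D φ K T}
      {u : ℝ × ℝ | u.1 ∈ Ioo (-δ) δ ∧ chi x0 e a b u ∈ BB G U E D φ K T} := by
    rw [Set.disjoint_left]
    rintro u ⟨_, h1⟩ ⟨_, h2⟩
    exact h2.2.2 h1.2.2
  have hcov : S ⊆ {u : ℝ × ℝ | u.1 ∈ Ioo (-δ) δ ∧ chi x0 e a b u ∈ AA G U E D φ K T} ∪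
      {u : ℝ × ℝ | u.1 ∈ Ioo (-δ) δ ∧ chi x0 e a b u ∈ BB G U E D φ K T} := by
    intro u hu
    rcases AA_or_BB (φ := φ) (T₁ := T) (chi_mem hG F (hSδ u hu)) (hSK u hu) with h | h
    · exact Or.inl ⟨hSδ u hu, h⟩
    · exact Or.inr ⟨hSδ u hu, h⟩
  constructor
  · rintro ⟨u, hu, hu'⟩ w hw
    exact (hS.subset_left_of_subset_union hOA hOB hdisj hcov ⟨u, hu, hSδ u hu, hu'⟩ hw).2
  · rintro ⟨u, hu, hu'⟩ w hw
    exact (hS.subset_right_of_subset_union hOA hOB hdisj hcov ⟨u, hu, hSδ u hu, hu'⟩ hw).2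

end fin

section fin2
variable {G : V → V →L[ℝ] V} {U : V → ℝ} {E : ℝ} {D : Set V} {v : V × V → V × V}
  {φ : ℝ → V × V → V × V} {K : V × V → ℝ} {x0 p0 b0 e : V} {δ : ℝ} {a b : ℝ → V}

theorem final_false (hG : Met G) (hU : Pot U) (hD : Reg U E D) (hφ : HFlow G U E v φ)
    (hK : Obs G U D K) (T₁ : ℝ)
    (hper : ∀ z ∈ ES G U E D, K z ≠ 0 → ∃ T₀ > 0, φ T₀ z = z)
    (hLC : ∀ z ∈ ES G U E D, K z ≠ 0 → ∀ T₀, φ T₀ z = z →
      ∀ᶠ z' in 𝓝[ES G U E D] z, φ T₀ z' = z')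
    (hy : (x0, p0) ∈ ES G U E D) (hyfix : φ T₁ (x0, p0) = (x0, p0))
    (he : ‖e‖ = 1) (hxe : ⟪x0, e⟫ = 0) (hwe : ⟪G x0 p0, e⟫ = 0)
    (hdec : ∀ x : V, ⟪x, G x0 p0⟫ = 0 → x = ⟪x, x0⟫ • x0 + ⟪x, e⟫ • e)
    (hb2 : ⟪G x0 p0, b0⟫ = 0)
    (F : Frame G U E D x0 p0 b0 e δ a b)
    {α β σ : ℝ} {h : ℝ → ℝ} (hα : 0 < α) (hαδ : α ≤ δ) (hα1 : α ≤ 1) (hβ : 0 < β) (hβ1 : β ≤ 1)
    (hh0 : h 0 = 0) (hhc : ContinuousOn h (Ioo (-α) α))
    (hhβ : ∀ s ∈ Ioo (-α) α, h s ∈ Ioo (-β) β)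
    (hKh : ∀ s ∈ Ioo (-α) α, K (chi x0 e a b (s, h s)) = 0)
    (hmono : ∀ s ∈ Ioo (-α) α, StrictMonoOn (fun θ => σ * K (chi x0 e a b (s, θ))) (Ico (h s) β))
    (hne : ∀ s ∈ Ioo (-α) α, ∀ θ ∈ Ioo (-β) β, θ ≠ h s → K (chi x0 e a b (s, θ)) ≠ 0)
    (hA : ∃ θA ∈ Ioo (-β) β, chi x0 e a b (0, θA) ∈ AA G U E D φ K T₁)
    (hB : ∃ θB ∈ Ioo 0 β, chi x0 e a b (0, θB) ∈ BB G U E D φ K T₁) : False := by
  have hx0n : ‖x0‖ = 1 := hy.1.1
  have hx0 : x0 ≠ 0 := ne_zero_of_norm hx0n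
  set X : ℝ × ℝ → V × V := chi x0 e a b with hX
  have hX0 : X (0, 0) = (x0, p0) := chi_zero F
  have hsub : ∀ s ∈ Ioo (-α) α, s ∈ Ioo (-δ) δ := fun s hs =>
    ⟨by linarith [hs.1], by linarith [hs.2]⟩
  have h0α : (0 : ℝ) ∈ Ioo (-α) α := ⟨by linarith, hα⟩
  obtain ⟨θA, hθA, hθA'⟩ := hA
  obtain ⟨θB, hθB, hθB'⟩ := hB
  -- the two sides
  set Sp : Set (ℝ × ℝ) := {u | u.1 ∈ Ioo (-α) α ∧ h u.1 < u.2 ∧ u.2 < β} with hSp
  set Sm : Set (ℝ × ℝ) := {u | u.1 ∈ Ioo (-α) α ∧ -β < u.2 ∧ u.2 < h u.1} with hSm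
  have hSpc : IsPreconnected Sp :=
    conn_between (r := fun _ => β) hhc continuousOn_const (fun s hs => (hhβ s hs).2)
  have hSmc : IsPreconnected Sm :=
    conn_between (l := fun _ => -β) continuousOn_const hhc (fun s hs => (hhβ s hs).1)
  have hSpK : ∀ u ∈ Sp, K (X u) ≠ 0 := by
    rintro ⟨s, θ⟩ ⟨h1, h2, h3⟩
    exact hne s h1 θ ⟨by linarith [(hhβ s h1).1], h3⟩ (ne_of_gt h2)
  have hSmK : ∀ u ∈ Sm, K (X u) ≠ 0 := by
    rintro ⟨s, θ⟩ ⟨h1, h2, h3⟩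
    exact hne s h1 θ ⟨h2, by linarith [(hhβ s h1).2]⟩ (ne_of_lt h3)
  have hBmem : ((0 : ℝ), θB) ∈ Sp := ⟨h0α, by simp only [hh0]; exact hθB.1, hθB.2⟩
  have hSpB : ∀ u ∈ Sp, X u ∈ BB G U E D φ K T₁ :=
    (one_side_A hG hφ hK.basic hLC F hSpc (fun u hu => hsub _ hu.1) hSpK).2
      ⟨_, hBmem, hθB'⟩
  have hAmem : ((0 : ℝ), θA) ∈ Sm := by
    have hne0 : θA ≠ 0 := by
      rintro rfl
      have h1 := hKh 0 h0α
      rw [hh0] at h1
      exact hθA'.2.1 h1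
    rcases lt_or_gt_of_ne hne0 with h1 | h1
    · exact ⟨h0α, hθA.1, by simp only [hh0]; exact h1⟩
    · exfalso
      have h2 : ((0 : ℝ), θA) ∈ Sp := ⟨h0α, by simp only [hh0]; exact h1, hθA.2⟩
      exact (hSpB _ h2).2.2 hθA'.2.2
  have hSmA : ∀ u ∈ Sm, X u ∈ AA G U E D φ K T₁ :=
    (one_side_A hG hφ hK.basic hLC F hSmc (fun u hu => hsub _ hu.1) hSmK).1
      ⟨_, hAmem, hθA'⟩
  have hXc : ∀ s, Continuous (fun t : ℝ => X (s, t)) := by
    intro s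
    show Continuous (fun t : ℝ => (xs x0 e s, Real.cos t • a s + Real.sin t • b s))
    fun_prop
  -- the graph is fixed
  have hgraph : ∀ s ∈ Ioo (-α) α, φ T₁ (X (s, h s)) = X (s, h s) := by
    intro s hs
    have hcl : IsClosed {t : ℝ | φ T₁ (X (s, t)) = X (s, t)} :=
      isClosed_eq ((phi_cont hφ T₁).comp (hXc s)) (hXc s)
    have hsub' : Ioo (-β) (h s) ⊆ {t : ℝ | φ T₁ (X (s, t)) = X (s, t)} := by
      intro t ht
      exact (hSmA (s, t) ⟨hs, ht.1, ht.2⟩).2.2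
    have h1 := closure_minimal hsub' hcl
    rw [closure_Ioo (ne_of_lt (hhβ s hs).1)] at h1
    exact h1 (right_mem_Icc.2 (hhβ s hs).1.le)
  -- the period on the other side
  obtain ⟨T₂, hT₂, hT₂B⟩ := hper _ hθB'.1 hθB'.2.1
  have hSpT : ∀ u ∈ Sp, X u ∈ AA G U E D φ K T₂ :=
    (one_side_A hG hφ hK.basic hLC F hSpc (fun u hu => hsub _ hu.1) hSpK).1
      ⟨_, hBmem, hθB'.1, hθB'.2.1, hT₂B⟩
  have hyT₂ : φ T₂ (x0, p0) = (x0, p0) := by
    have hcl : IsClosed {t : ℝ | φ T₂ (X (0, t)) = X (0, t)} :=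
      isClosed_eq ((phi_cont hφ T₂).comp (hXc 0)) (hXc 0)
    have hsub' : Ioo 0 β ⊆ {t : ℝ | φ T₂ (X (0, t)) = X (0, t)} := by
      intro t ht
      exact (hSpT (0, t) ⟨h0α, by simp only [hh0]; exact ht.1, ht.2⟩).2.2
    have h1 := closure_minimal hsub' hcl
    rw [closure_Ioo (ne_of_lt hβ)] at h1
    have h2 : φ T₂ (X (0, 0)) = X (0, 0) := h1 (left_mem_Icc.2 hβ.le)
    rwa [hX0] at h2
  -- small times
  obtain ⟨ε, hε, hmonoT⟩ := mono_time hG hU hD hφ hy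
  have hyball : (x0, p0) ∈ Metric.ball (x0, p0) ε := Metric.mem_ball_self hε
  obtain ⟨n, k, hn, hnk⟩ := commens hφ hε (hmonoT _ hyball) hyfix hyT₂ hT₂
  set ε0 : ℝ := ε / (n + 1) with hε0
  have hn1 : (1 : ℝ) ≤ n := by exact_mod_cast hn
  have hε0pos : 0 < ε0 := by positivity
  have hnε0 : (n : ℝ) * ε0 < ε := by
    rw [hε0]
    rw [mul_div_assoc', div_lt_iff₀ (by positivity)]
    nlinarith
  have hε0ε : ε0 < ε := by nlinarith
  have hw0 : ⟪x0, G x0 p0⟫ = 0 := G_radial' hG hx0 p0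
  obtain ⟨V0, r, hV0o, hyV0, hV0ball, hrc, hr1, hr2, hr3⟩ :=
    exists_return (w := G x0 p0) hG hU hD hφ hy hw0 hmonoT hε0pos hε0ε
  -- the section is transversal
  have hXw : ∀ u, ⟪(X u).1, G x0 p0⟫ = 0 := by
    intro u
    show ⟪xs x0 e u.1, G x0 p0⟫ = 0
    have h1 : ⟪e, G x0 p0⟫ = 0 := by rw [real_inner_comm]; exact hwe
    simp only [xs, inner_add_left, inner_smul_left, hw0, h1, mul_zero, add_zero]
  set q : ℝ × ℝ → V × V := fun u => φ (r (φ T₁ (X u))) (φ T₁ (X u)) with hq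
  set R : ℝ × ℝ → ℝ × ℝ := fun u => (WSc e (q u), Th G U E e b (q u)) with hR
  set W : Set (ℝ × ℝ) := {u | (u.1 ∈ Ioo (-α) α ∧ u.2 ∈ Ioo (-β) β) ∧
    X u ∈ Metric.ball (x0, p0) ε ∧ φ T₁ (X u) ∈ V0 ∧ Good G U E x0 e a b α β (q u)} with hW
  have hXcont : ∀ u : ℝ × ℝ, u.1 ∈ Ioo (-α) α → ContinuousAt X u := by
    intro u hu
    have := chi_tendsto hG F (hsub _ hu)
    exact this.mono_right nhdsWithin_le_nhds
  have hqc : ∀ u : ℝ × ℝ, u.1 ∈ Ioo (-α) α → φ T₁ (X u) ∈ V0 → ContinuousAt q u := by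
    intro u hu hV
    have h1 : ContinuousAt (fun u => φ T₁ (X u)) u :=
      ContinuousAt.comp (f := X) (phi_cont hφ T₁).continuousAt (hXcont u hu)
    have h2 : ContinuousAt r (φ T₁ (X u)) := hrc.continuousAt (hV0o.mem_nhds hV)
    have h3 : ContinuousAt (fun u => r (φ T₁ (X u))) u :=
      ContinuousAt.comp (f := fun u => φ T₁ (X u)) h2 h1
    exact ContinuousAt.comp (f := fun u => (r (φ T₁ (X u)), φ T₁ (X u)))
      hφ.cont.continuousAt (h3.prodMk h1)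
  have hr0 : r (x0, p0) = 0 := by
    refine (hr3 _ hyV0 0 ⟨by linarith, hε⟩ ?_).symm
    rw [hφ.zero]; exact hw0
  have hq0 : q (0, 0) = (x0, p0) := by
    simp only [hq, hX0, hyfix, hr0, hφ.zero]
  have hV00 : φ T₁ (X (0, 0)) ∈ V0 := by rw [hX0, hyfix]; exact hyV0
  have hgoodev := good_eventually hG hU hD hy hxe hb2 F hα hαδ hβ
  have hWn : W ∈ 𝓝 ((0 : ℝ), (0 : ℝ)) := by
    have h1 : ∀ᶠ u : ℝ × ℝ in 𝓝 (0, 0), u.1 ∈ Ioo (-α) α :=
      (continuous_fst.continuousAt (x := ((0 : ℝ), (0 : ℝ)))).eventually (isOpen_Ioo.mem_nhds h0α)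
    have h2 : ∀ᶠ u : ℝ × ℝ in 𝓝 (0, 0), u.2 ∈ Ioo (-β) β :=
      (continuous_snd.continuousAt (x := ((0 : ℝ), (0 : ℝ)))).eventually
        (isOpen_Ioo.mem_nhds ⟨by linarith, hβ⟩)
    have h3 : ∀ᶠ u : ℝ × ℝ in 𝓝 (0, 0), X u ∈ Metric.ball (x0, p0) ε := by
      refine (hXcont (0, 0) h0α).eventually (Metric.isOpen_ball.mem_nhds ?_)
      rw [hX0]; exact hyball
    have h4 : ∀ᶠ u : ℝ × ℝ in 𝓝 (0, 0), φ T₁ (X u) ∈ V0 := by
      have h5 : ContinuousAt (fun u => φ T₁ (X u)) (0, 0) :=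
        ContinuousAt.comp (f := X) (phi_cont hφ T₁).continuousAt (hXcont _ h0α)
      exact h5.eventually (hV0o.mem_nhds hV00)
    have h6 : ∀ᶠ u : ℝ × ℝ in 𝓝 (0, 0), Good G U E x0 e a b α β (q u) := by
      refine (hqc (0, 0) h0α hV00).eventually ?_
      rw [hq0]; exact hgoodev
    filter_upwards [h1, h2, h3, h4, h6] with u a1 a2 a3 a4 a6
    exact ⟨⟨a1, a2⟩, a3, a4, a6⟩
  -- basic facts on W
  have hqform : ∀ u, q u = φ (r (φ T₁ (X u)) + T₁) (X u) := by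
    intro u; simp only [hq]; rw [hφ.add]
  have hXES : ∀ u : ℝ × ℝ, u.1 ∈ Ioo (-α) α → X u ∈ ES G U E D := fun u hu =>
    chi_mem hG F (hsub _ hu)
  have hqES : ∀ u ∈ W, q u ∈ ES G U E D := by
    intro u hu
    rw [hqform]
    exact ES_invariant hG hU hD hφ _ (hXES u hu.1.1) _
  have hqw : ∀ u ∈ W, ⟪(q u).1, G x0 p0⟫ = 0 := fun u hu => hr2 _ hu.2.2.1
  have hXR : ∀ u ∈ W, X (R u) = q u := by
    intro u hu
    exact (good_chi hG hD hx0n he hxe hdec F hαδ (hqES u hu) (hqw u hu) hu.2.2.2).symm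
  have hR1 : ∀ u ∈ W, (R u).1 ∈ Ioo (-α) α := fun u hu => hu.2.2.2.2.1
  have hR2 : ∀ u ∈ W, (R u).2 ∈ Ioo (-β) β := fun u hu => hu.2.2.2.2.2.2.1
  have hRc : ContinuousOn R W := by
    intro u hu
    apply ContinuousAt.continuousWithinAt
    have h1 := hqc u hu.1.1 hu.2.2.1
    have h2 := hu.2.2.2.2.2.2.2
    exact ContinuousAt.comp (f := q) h2 h1
  have hKq : ∀ u ∈ W, K (q u) = K (X u) := by
    intro u hu
    rw [hqform]
    exact obs_conserved hG hU hD hφ hK _ (hXES u hu.1.1) _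
  have hinjX : ∀ u u' : ℝ × ℝ, u.1 ∈ Ioo (-α) α → u.2 ∈ Ioo (-β) β → u'.1 ∈ Ioo (-α) α →
      u'.2 ∈ Ioo (-β) β → X u = X u' → u = u' := fun u u' h1 h2 h3 h4 h5 =>
    chi_inj hG hD he hxe F hαδ hα1 hβ1 h1 h2 h3 h4 h5
  -- short time injectivity
  have hshort : ∀ u : ℝ × ℝ, X u ∈ Metric.ball (x0, p0) ε → ∀ t ∈ Ioo (-ε) ε,
      ⟪(φ t (X u)).1, G x0 p0⟫ = 0 → t = 0 := by
    intro u hu t ht h1
    refine (hmonoT _ hu).injOn ht ⟨by linarith, hε⟩ ?_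
    show ⟪(φ t (X u)).1, G x0 p0⟫ = ⟪(φ 0 (X u)).1, G x0 p0⟫
    rw [h1, hφ.zero, hXw u]
  have hnT₁ : ∀ u ∈ Sp, φ ((n : ℝ) * T₁) (X u) = X u := by
    intro u hu
    have h1 : T₂ ∈ Per hφ (X u) := (hSpT u hu).2.2
    have h2 := (Per hφ (X u)).zsmul_mem h1 k
    rw [zsmul_eq_mul, ← hnk] at h2
    exact h2
  refine wall_local α β hα hβ h (fun s θ => σ * K (X (s, θ))) hhc hh0 (fun s hs => (hhβ s hs).2)
    ?_ ?_ hmono W hWn R hRc ?_ ?_ ?_ n hn ?_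
  · -- continuity of k
    rintro ⟨s, θ⟩ ⟨hs, -⟩
    apply ContinuousAt.continuousWithinAt
    have h1 : ContinuousAt K (X (s, θ)) := K_cont hK.basic (mem_Om_of_ES (hXES (s, θ) hs))
    have h2 : ContinuousAt (fun u => K (X u)) (s, θ) :=
      ContinuousAt.comp (f := X) h1 (hXcont (s, θ) hs)
    exact continuousAt_const.mul h2
  · intro s hs
    have h1 : K (X (s, h s)) = 0 := hKh s hs
    show σ * K (X (s, h s)) = 0
    rw [h1, mul_zero]
  · -- graph points are fixed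
    intro s hs hsW
    have h1 := hgraph s hs
    have h2 : r (φ T₁ (X (s, h s))) = 0 := by
      refine (hr3 _ hsW.2.2.1 0 ⟨by linarith, hε⟩ ?_).symm
      rw [hφ.zero, h1]; exact hXw _
    have h3 : q (s, h s) = X (s, h s) := by
      simp only [hq]
      rw [h2, hφ.zero, h1]
    refine hinjX _ _ (hR1 _ hsW) (hR2 _ hsW) hs (hhβ s hs) ?_
    rw [hXR _ hsW, h3]
  · -- R maps S to S
    intro u huW hu1 hu2 hu3
    have huSp : u ∈ Sp := ⟨hu1, hu2, hu3⟩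
    have hBu := hSpB u huSp
    have hKR : K (X (R u)) = K (X u) := by rw [hXR u huW, hKq u huW]
    have hKne : K (X (R u)) ≠ 0 := by rw [hKR]; exact hBu.2.1
    have hnotA : ¬ φ T₁ (X (R u)) = X (R u) := by
      intro hfix
      rw [hXR u huW, hqform] at hfix
      have h1 : φ (r (φ T₁ (X u)) + T₁) (φ T₁ (X u)) = φ (r (φ T₁ (X u)) + T₁) (X u) := by
        rw [phi_comm hφ]; exact hfix
      have h2 := congrArg (φ (-(r (φ T₁ (X u)) + T₁))) h1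
      rw [phi_neg hφ, phi_neg hφ] at h2
      exact hBu.2.2 h2
    refine ⟨hR1 u huW, ?_, (hR2 u huW).2, ?_⟩
    · rcases lt_trichotomy (R u).2 (h (R u).1) with h1 | h1 | h1
      · exfalso
        exact hnotA (hSmA (R u) ⟨hR1 u huW, (hR2 u huW).1, h1⟩).2.2
      · exfalso
        apply hKne
        have h2 := hKh (R u).1 (hR1 u huW)
        rw [← h1] at h2
        exact h2
      · exact h1
    · show σ * K (X ((R u).1, (R u).2)) = σ * K (X (u.1, u.2))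
      exact congrArg (σ * ·) hKR
  · -- no fixed points
    intro u huW hu1 hu2 hu3 hfix
    have huSp : u ∈ Sp := ⟨hu1, hu2, hu3⟩
    have hBu := hSpB u huSp
    have h1 : φ (r (φ T₁ (X u)) + T₁) (X u) = X u := by
      rw [← hqform, ← hXR u huW, hfix]
    set ρ := r (φ T₁ (X u)) with hρ
    have hρm : ρ ∈ Ioo (-ε0) ε0 := hr1 _ huW.2.2.1
    have h2 : ρ + T₁ ∈ Per hφ (X u) := h1
    have h3 := (Per hφ (X u)).nsmul_mem h2 n
    have h4 : (n : ℝ) * T₁ ∈ Per hφ (X u) := hnT₁ u huSp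
    have h5 : (n : ℝ) * ρ ∈ Per hφ (X u) := by
      have := (Per hφ (X u)).sub_mem h3 h4
      rw [nsmul_eq_mul] at this
      have heq : (n : ℝ) * (ρ + T₁) - n * T₁ = n * ρ := by ring
      rwa [heq] at this
    have h6 : (n : ℝ) * ρ = 0 := by
      refine hshort u huW.2.1 _ ?_ ?_
      · constructor <;> nlinarith [hρm.1, hρm.2]
      · have h7 : φ ((n : ℝ) * ρ) (X u) = X u := h5
        rw [h7]; exact hXw u
    have h8 : ρ = 0 := by
      rcases mul_eq_zero.1 h6 with h | h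
      · exfalso
        rw [h] at hn1
        linarith
      · exact h
    rw [h8, zero_add] at h1
    exact hBu.2.2 h1
  · -- periodicity
    intro u hu1 hu2 hu3 hW'
    have huSp : u ∈ Sp := ⟨hu1, hu2, hu3⟩
    have hclaim : ∀ j : ℕ, j ≤ n → ∃ t : ℝ, |t| ≤ j * ε0 ∧
        X (R^[j] u) = φ ((j : ℝ) * T₁ + t) (X u) := by
      intro j
      induction j with
      | zero =>
        intro _
        refine ⟨0, by simp, ?_⟩
        simp [hφ.zero]
      | succ j ih =>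
        intro hj
        obtain ⟨t, ht, hXt⟩ := ih (by omega)
        have hWj := hW' j (by omega)
        refine ⟨t + r (φ T₁ (X (R^[j] u))), ?_, ?_⟩
        · have h1 := hr1 _ hWj.2.2.1
          have h2 : |r (φ T₁ (X (R^[j] u)))| ≤ ε0 := (abs_lt.2 h1).le
          calc |t + r (φ T₁ (X (R^[j] u)))| ≤ |t| + |r (φ T₁ (X (R^[j] u)))| := abs_add_le _ _
            _ ≤ j * ε0 + ε0 := add_le_add ht h2
            _ = ((j + 1 : ℕ) : ℝ) * ε0 := by push_cast; ring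
        · rw [Function.iterate_succ_apply', hXR _ hWj, hqform]
          set r' := r (φ T₁ (X (R^[j] u))) with hr'
          rw [hXt, ← hφ.add]
          congr 1
          push_cast
          ring
    obtain ⟨t, ht, hXt⟩ := hclaim n le_rfl
    have h1 : X (R^[n] u) = φ t (X u) := by
      rw [hXt, add_comm, hφ.add, hnT₁ u huSp]
    have hWn' := hW' n le_rfl
    have hu0 := hW' 0 (Nat.zero_le _)
    simp only [Function.iterate_zero, id_eq] at hu0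
    have h2 : t = 0 := by
      refine hshort u hu0.2.1 t ?_ ?_
      · exact abs_lt.1 (lt_of_le_of_lt ht hnε0)
      · rw [← h1]; exact hXw _
    rw [h2, hφ.zero] at h1
    exact hinjX _ _ hWn'.1.1 hWn'.1.2 hu0.1.1 hu0.1.2 h1

theorem no_bad (hG : Met G) (hU : Pot U) (hD : Reg U E D) (hφ : HFlow G U E v φ)
    (hK : Obs G U D K) (T₁ : ℝ)
    (hper : ∀ z ∈ ES G U E D, K z ≠ 0 → ∃ T₀ > 0, φ T₀ z = z)
    (hLC : ∀ z ∈ ES G U E D, K z ≠ 0 → ∀ T₀, φ T₀ z = z →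
      ∀ᶠ z' in 𝓝[ES G U E D] z, φ T₀ z' = z') :
    ∀ z, ¬ Bad G U E D φ K T₁ z := by
  classical
  by_contra hcon
  push Not at hcon
  -- minimal order
  have hex : ∃ m, ∃ z, Bad G U E D φ K T₁ z ∧ Ordp G U E K z m := by
    obtain ⟨z, hz⟩ := hcon
    have h1 : (closure (AA G U E D φ K T₁ ∩ fib z.1)).Nonempty := ⟨z, hz.2.1⟩
    rw [closure_nonempty_iff] at h1
    obtain ⟨w, hwA, hwx⟩ := h1
    have hwx' : w.1 = z.1 := hwx
    obtain ⟨m, hm⟩ := exists_ordp (p' := w.2) hG hD hK.poly hz.1 (by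
      rw [← hwx']; exact hwA.1) (by rw [← hwx']; exact hwA.2.1)
    exact ⟨m, z, hz, hm⟩
  set m := Nat.find hex with hm
  obtain ⟨⟨x0, p0⟩, hbad, hord⟩ := Nat.find_spec hex
  have hmin : ∀ z, Bad G U E D φ K T₁ z → ∀ j < m, ¬ Ordp G U E K z j := by
    intro z hz j hj ho
    exact Nat.find_min hex hj ⟨z, hz, ho⟩
  obtain ⟨b', hb1, hb2, hb3, hb4⟩ := hord
  simp only at hb1 hb2 hb3 hb4
  have hy := hbad.1
  obtain ⟨⟨hx1, hxp⟩, hxD, hEn⟩ := hbad.1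
  simp only at hx1 hxp hxD
  have hUE := hD.lt x0 hxD
  have hEp : (1 / 2) * ⟪p0, G x0 p0⟫ = E - U x0 := by
    simp only [Ham] at hEn; linarith
  have hpos := form_pos_of_energy hUE hEp
  have hx0 : x0 ≠ 0 := ne_zero_of_norm hx1
  have hw : G x0 p0 ≠ 0 := by
    intro h; rw [h, inner_zero_right] at hpos; exact lt_irrefl _ hpos
  obtain ⟨e, he, hxe, hwe, hdec⟩ := exists_third hx1 hw (G_radial' hG hx0 p0)
  have hyfix : φ T₁ (x0, p0) = (x0, p0) :=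
    closure_AA_fixed hφ (closure_mono inter_subset_left hbad.2.1)
  have hK0 : K (x0, p0) = 0 := bad_K_zero hφ hK.basic hLC hbad
  -- main part, with the correct sign of b0
  have main : ∀ b0 : V, ⟪x0, b0⟫ = 0 → ⟪G x0 p0, b0⟫ = 0 → (1 / 2) * ⟪b0, G x0 b0⟫ = E - U x0 →
      iteratedDeriv m (fun t => K (x0, Real.cos t • p0 + Real.sin t • b0)) 0 ≠ 0 →
      (∀ η > 0, ∃ θ, (0 < θ ∧ θ < η) ∧
        (x0, Real.cos θ • p0 + Real.sin θ • b0) ∈ BB G U E D φ K T₁) → False := by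
    intro b0 c1 c2 c3 c4 c5
    obtain ⟨δ, hδ, a, b, F⟩ := exists_frame hG hU hD hy c1 c2 c3 he hxe
    have hchi0 : ∀ t : ℝ, chi x0 e a b (0, t) = (x0, Real.cos t • p0 + Real.sin t • b0) := by
      intro t; simp only [chi, xs_zero, F.a0, F.b0]
    have hA := fiber_near hG hD hy c1 c2 c3 (S := AA G U E D φ K T₁) (fun z hz => hz.1) hbad.2.1
    obtain ⟨α, β, σ, h, h1, h2, h3, h4, h5, h6, h7, h8, h9, h10, h11, h12, h13⟩ :=
      local_struct hG hφ hK.basic T₁ hLC F hδ hbad (m := m) (by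
        simp only [hchi0]; exact c4) hmin (by
        intro η hη
        obtain ⟨θ, hθ, hθ'⟩ := hA η hη
        exact ⟨θ, hθ, by rw [hchi0]; exact hθ'⟩) (by
        intro η hη
        obtain ⟨θ, hθ, hθ'⟩ := c5 η hη
        exact ⟨θ, hθ, by rw [hchi0]; exact hθ'⟩)
    exact final_false hG hU hD hφ hK T₁ hper hLC hy hyfix he hxe hwe hdec c2 F h1 h2 h3 h4 h5 h6
      h7 h8 h9 h10 h11 h12 h13
  have hBn := fiber_near hG hD hy hb1 hb2 hb3 (S := BB G U E D φ K T₁) (fun z hz => hz.1)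
    hbad.2.2
  by_cases hright : ∀ η > 0, ∃ θ, (0 < θ ∧ θ < η) ∧
      (x0, Real.cos θ • p0 + Real.sin θ • b') ∈ BB G U E D φ K T₁
  · exact main b' hb1 hb2 hb3 hb4 hright
  · push Not at hright
    obtain ⟨η0, hη0, hη0'⟩ := hright
    refine main (-b') (by rw [inner_neg_right, hb1, neg_zero])
      (by rw [inner_neg_right, hb2, neg_zero]) (by rw [map_neg, inner_neg_neg]; exact hb3) ?_ ?_
    · have h1 : (fun t : ℝ => K (x0, Real.cos t • p0 + Real.sin t • (-b'))) =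
          fun t => (fun t : ℝ => K (x0, Real.cos t • p0 + Real.sin t • b')) (-t) := by
        funext t
        simp only [Real.cos_neg, Real.sin_neg, smul_neg, neg_smul]
      rw [h1]
      intro h3
      have h2 := iteratedDeriv_comp_neg m
        (fun t : ℝ => K (x0, Real.cos t • p0 + Real.sin t • b')) 0
      have h4 := h2.symm.trans h3
      rw [neg_zero, smul_eq_mul] at h4
      rcases mul_eq_zero.1 h4 with h5 | h5
      · exact absurd h5 (pow_ne_zero _ (by norm_num))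
      · exact hb4 h5
    · intro η hη
      obtain ⟨θ, hθ, hθ'⟩ := hBn (min η η0) (lt_min hη hη0)
      have hθ0 : θ ≠ 0 := by
        rintro rfl
        apply hθ'.2.1
        simpa using hK0
      rcases lt_or_gt_of_ne hθ0 with h1 | h1
      · refine ⟨-θ, ⟨by linarith, ?_⟩, ?_⟩
        · have := (abs_lt.1 hθ).1
          linarith [min_le_left η η0]
        · simp only [Real.cos_neg, Real.sin_neg, smul_neg, neg_smul, neg_neg]
          exact hθ'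
      · exfalso
        exact hη0' θ ⟨h1, by linarith [(abs_lt.1 hθ).2, min_le_right η η0]⟩ hθ'

end fin2


theorem wall {G : V → V →L[ℝ] V} {U : V → ℝ} {E : ℝ} {D : Set V}
    {v : V × V → V × V} {φ : ℝ → V × V → V × V} (hG : Met G) (hU : Pot U) (hD : Reg U E D)
    (hφ : HFlow G U E v φ) {K : V × V → ℝ} (hK : Obs G U D K) (T₁ : ℝ)
    (hper : ∀ z ∈ ES G U E D, K z ≠ 0 → ∃ T₀ > 0, φ T₀ z = z)
    (hLC : ∀ z ∈ ES G U E D, K z ≠ 0 → ∀ T₀, φ T₀ z = z →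
      ∀ᶠ z' in 𝓝[ES G U E D] z, φ T₀ z' = z')
    {x : V} (hKx : ∃ p, (x, p) ∈ ES G U E D ∧ K (x, p) ≠ 0)
    (hAx : ∃ p, (x, p) ∈ ES G U E D ∧
      (x, p) ∈ closure {z | z ∈ ES G U E D ∧ K z ≠ 0 ∧ φ T₁ z = z})
    (p : V) (hp : (x, p) ∈ ES G U E D) :
    (x, p) ∈ closure {z | z ∈ ES G U E D ∧ K z ≠ 0 ∧ φ T₁ z = z} := by
  exact wall_of_no_bad hG hU hD hφ hK T₁ (no_bad hG hU hD hφ hK T₁ hper hLC) hKx hAx p hp

end SI

end Pool.Agent.Helper197
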