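import Pool.Agent.Helper197.Period
import Pool.Agent.Helper197.Connect
import Pool.Agent.Helper197.Wall
import Pool.Agent.Helper197.Cover
import Pool.Agent.Helper197.Short
import Pool.Agent.Helper197.Div
import Pool.Agent.Helper197.Dim

open Set Topology
open scoped RealInnerProductSpace

noncomputable section

namespace Pool.Agent.Helper197

namespace SI





variable {G : V → V →L[ℝ] V} {U : V → ℝ} {E : ℝ} {D : Set V}
    {v : V × V → V × V} {φ : ℝ → V × V → V × V}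

theorem normalize_cont {x : V} (hx : x ≠ 0) : ContinuousAt (fun x : V => ‖x‖⁻¹ • x) x := by
  have : ‖x‖ ≠ 0 := norm_ne_zero_iff.2 hx
  fun_prop (disch := assumption)

theorem Reg.sphere_preconnected (hD : Reg U E D) : IsPreconnected {x | x ∈ D ∧ ‖x‖ = 1} := by
  have h : {x | x ∈ D ∧ ‖x‖ = 1} = (fun x : V => ‖x‖⁻¹ • x) '' D := by
    ext x
    constructor
    · rintro ⟨h1, h2⟩
      exact ⟨x, h1, by simp [h2]⟩
    · rintro ⟨y, hy, rfl⟩
      have h3 : 0 < ‖y‖ := norm_pos_iff.2 (hD.ne_zero y hy)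
      exact ⟨hD.cone y hy _ (by positivity), by
        simp only [norm_smul, norm_inv, norm_norm]
        exact inv_mul_cancel₀ h3.ne'⟩
  rw [h]
  refine hD.conn.image _ fun x hx => ?_
  exact (normalize_cont (hD.ne_zero x hx)).continuousWithinAt

theorem sphere_induction (hD : Reg U E D) (P : V → Prop)
    (hopen : ∀ x ∈ D, ‖x‖ = 1 → P x → ∃ ρ > 0, ∀ y ∈ D, ‖y‖ = 1 → dist y x < ρ → P y)
    (hclosed : ∀ x ∈ D, ‖x‖ = 1 → (∀ ρ > 0, ∃ y ∈ D, ‖y‖ = 1 ∧ dist y x < ρ ∧ P y) → P x)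
    (hne : ∃ x ∈ D, ‖x‖ = 1 ∧ P x) : ∀ x ∈ D, ‖x‖ = 1 → P x := by
  have hopen' : ∀ R : V → Prop, IsOpen {y : V | ∃ x ∈ D, ‖x‖ = 1 ∧ ∃ ρ > 0, dist y x < ρ ∧
      ∀ y' ∈ D, ‖y'‖ = 1 → dist y' x < ρ → R y'} := by
    intro R
    rw [Metric.isOpen_iff]
    rintro y ⟨x, hx, hx1, ρ, hρ, hyx, hall⟩
    refine ⟨ρ - dist y x, by linarith, fun y' hy' => ⟨x, hx, hx1, ρ, hρ, ?_, hall⟩⟩
    have := Metric.mem_ball.1 hy'
    linarith [dist_triangle y' y x]
  intro x hx hx1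
  by_contra hnot
  obtain ⟨x₁, hx₁, hx₁1, hP₁⟩ := hne
  obtain ⟨z, ⟨hz, hz1⟩, hzu, hzv⟩ := hD.sphere_preconnected _ _ (hopen' P) (hopen' fun y => ¬ P y)
    (by
      rintro y ⟨hy, hy1⟩
      by_cases hPy : P y
      · left
        obtain ⟨ρ, hρ, h⟩ := hopen y hy hy1 hPy
        exact ⟨y, hy, hy1, ρ, hρ, by simpa using hρ, h⟩
      · right
        have h : ¬ ∀ ρ > 0, ∃ y' ∈ D, ‖y'‖ = 1 ∧ dist y' y < ρ ∧ P y' :=
          fun h => hPy (hclosed y hy hy1 h)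
        push Not at h
        obtain ⟨ρ, hρ, h⟩ := h
        exact ⟨y, hy, hy1, ρ, hρ, by simpa using hρ, h⟩)
    (by
      obtain ⟨ρ, hρ, h⟩ := hopen x₁ hx₁ hx₁1 hP₁
      exact ⟨x₁, ⟨hx₁, hx₁1⟩, x₁, hx₁, hx₁1, ρ, hρ, by simpa using hρ, h⟩)
    (by
      have h : ¬ ∀ ρ > 0, ∃ y' ∈ D, ‖y'‖ = 1 ∧ dist y' x < ρ ∧ P y' :=
          fun h => hnot (hclosed x hx hx1 h)
      push Not at h
      obtain ⟨ρ, hρ, h⟩ := h
      exact ⟨x, ⟨hx, hx1⟩, x, hx, hx1, ρ, hρ, by simpa using hρ, h⟩)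
  obtain ⟨a, ha, ha1, ρ, hρ, h1, h2⟩ := hzu
  obtain ⟨b, hb, hb1, ρ', hρ', h3, h4⟩ := hzv
  exact h4 z hz hz1 h3 (h2 z hz hz1 h1)

theorem ES_norm {x p : V} (h : (x, p) ∈ ES G U E D) : ‖x‖ = 1 := h.1.1

theorem ES_pos (hD : Reg U E D) {x p : V} (h : (x, p) ∈ ES G U E D) : 0 < E - U x := by
  linarith [hD.lt x h.2.1]

theorem fiber_perfect (hG : Met G) (hD : Reg U E D) {x q : V} (hz : (x, q) ∈ ES G U E D) {ε : ℝ}
    (hε : 0 < ε) : ∃ p, (x, p) ∈ ES G U E D ∧ p ≠ q ∧ dist p q < ε := by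
  obtain ⟨hx1, hxq, hxD, hqc⟩ := mem_ES.1 hz
  have hc := ES_pos hD hz
  obtain ⟨b, hb1, hb2, hb3, hb4, hb5⟩ := conic_param hG hx1 hc hxq hqc
  have hcont : Continuous fun θ : ℝ => Real.cos θ • q + Real.sin θ • b := by fun_prop
  have h1 : Filter.Tendsto (fun θ : ℝ => Real.cos θ • q + Real.sin θ • b) (𝓝 0) (𝓝 q) := by
    have := hcont.tendsto 0
    simpa using this
  obtain ⟨δ, hδ, h2⟩ := Metric.tendsto_nhds_nhds.1 h1 ε hε
  set θ := min (δ / 2) 1 with hθ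
  have hθ0 : 0 < θ := by positivity
  have hθ1 : θ ≤ 1 := min_le_right _ _
  refine ⟨Real.cos θ • q + Real.sin θ • b, mem_ES.2 ⟨hx1, (hb4 θ).1, hxD, (hb4 θ).2⟩, ?_, ?_⟩
  · intro heq
    have h3 : ⟪G x q, Real.cos θ • q + Real.sin θ • b⟫ = ⟪G x q, q⟫ := by rw [heq]
    rw [inner_add_right, inner_smul_right, inner_smul_right, hb2, mul_zero, add_zero,
      real_inner_comm] at h3
    have h4 : ⟪q, G x q⟫ ≠ 0 := by
      have : ⟪q, G x q⟫ = 2 * (E - U x) := by linarith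
      rw [this]
      positivity
    have h5 : Real.cos θ = 1 := by
      have : (Real.cos θ - 1) * ⟪q, G x q⟫ = 0 := by linarith
      rcases mul_eq_zero.1 this with h | h
      · linarith
      · exact absurd h h4
    have h6 : Real.cos θ < Real.cos 0 :=
      Real.cos_lt_cos_of_nonneg_of_le_pi le_rfl (by linarith [Real.pi_gt_three]) hθ0
    rw [Real.cos_zero] at h6
    exact absurd h5 h6.ne
  · apply h2
    rw [Real.dist_eq, sub_zero, abs_of_pos hθ0]
    have : θ ≤ δ / 2 := min_le_left _ _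
    linarith

theorem fiber_near_nhds (hG : Met G) (hU : Pot U) (hD : Reg U E D) {x₀ p₀ : V}
    (hz : (x₀, p₀) ∈ ES G U E D) {W : Set (V × V)} (hW : W ∈ 𝓝 (x₀, p₀)) :
    ∃ ρ > 0, ∀ x', dist x' x₀ < ρ → x' ∈ D → ‖x'‖ = 1 →
      ∃ q, (x', q) ∈ ES G U E D ∧ (x', q) ∈ W := by
  obtain ⟨hx1, hxq, hxD, hqc⟩ := mem_ES.1 hz
  have hc := ES_pos hD hz
  have hx0 : x₀ ≠ 0 := unit_ne_zero hx1
  have hGc : ContinuousAt G x₀ := (contDiffAt_G hG hx0).continuousAt
  have hUc : ContinuousAt U x₀ := (contDiffAt_U hU hx0).continuousAt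
  let q₀ : V → V := fun x => p₀ - ⟪x, p₀⟫ • x
  have hq₀ : ContinuousAt q₀ x₀ := by
    apply Continuous.continuousAt
    fun_prop
  have hq₀x : q₀ x₀ = p₀ := by simp [q₀, hxq]
  let den : V → ℝ := fun x => ⟪q₀ x, G x (q₀ x)⟫
  have hden : ContinuousAt den x₀ := hq₀.inner (hGc.clm_apply hq₀)
  have hdenx : den x₀ = 2 * (E - U x₀) := by
    simp only [den, hq₀x]
    linarith
  let κ : V → ℝ := fun x => 2 * (E - U x) / den x
  have hκ : ContinuousAt κ x₀ := by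
    apply ContinuousAt.div _ hden
    · rw [hdenx]; positivity
    · exact continuousAt_const.mul (continuousAt_const.sub hUc)
  have hκx : κ x₀ = 1 := by
    simp only [κ, hdenx]
    exact div_self (by positivity)
  have hcont : ContinuousAt (fun x => ((x, √(κ x) • q₀ x) : V × V)) x₀ :=
    continuousAt_id.prodMk ((Real.continuous_sqrt.continuousAt.comp hκ).smul hq₀)
  have hval : ((x₀, √(κ x₀) • q₀ x₀) : V × V) = (x₀, p₀) := by
    rw [hκx, hq₀x, Real.sqrt_one, one_smul]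
  have h1 : ∀ᶠ x in 𝓝 x₀, ((x, √(κ x) • q₀ x) : V × V) ∈ W := by
    apply hcont
    simp only
    rw [hval]
    exact hW
  have h2 : ∀ᶠ x in 𝓝 x₀, 0 < den x := by
    apply hden.eventually (lt_mem_nhds _)
    rw [hdenx]; positivity
  obtain ⟨ρ, hρ, h3⟩ := Metric.eventually_nhds_iff.1 (h1.and h2)
  refine ⟨ρ, hρ, fun x' hx' hxD' hx1' => ?_⟩
  obtain ⟨h4, h5⟩ := h3 hx'
  have hc' : 0 < E - U x' := by linarith [hD.lt x' hxD']
  refine ⟨√(κ x') • q₀ x', mem_ES.2 ⟨hx1', ?_, hxD', ?_⟩, h4⟩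
  · rw [inner_smul_right]
    simp only [q₀, inner_sub_right, inner_smul_right, real_inner_self_eq_norm_sq, hx1']
    ring
  · have h6 : 0 ≤ κ x' := by
      simp only [κ]
      positivity
    rw [map_smul, inner_smul_left, inner_smul_right, conj_trivial, ← mul_assoc (√_),
      Real.mul_self_sqrt h6]
    have h7 : κ x' * den x' = 2 * (E - U x') := by
      simp only [κ]
      field_simp
    have h8 : κ x' * ⟪q₀ x', G x' (q₀ x')⟫ = 2 * (E - U x') := h7
    rw [h8]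
    ring

theorem ball_vanish (hG : Met G) (hU : Pot U) (hD : Reg U E D) {d : ℕ} {Q : V × V → ℝ}
    (hQ : FPoly d D Q) {z₀ : V × V} (hz : z₀ ∈ ES G U E D) {W : Set (V × V)} (hW : W ∈ 𝓝 z₀)
    (h : ∀ z ∈ ES G U E D, z ∈ W → Q z = 0) :
    ∃ ρ > 0, ∀ x p : V, dist x z₀.1 < ρ → (x, p) ∈ ES G U E D → Q (x, p) = 0 := by
  obtain ⟨W', hW'W, hW'o, hzW'⟩ := mem_nhds_iff.1 hW
  obtain ⟨ρ, hρ, h1⟩ := fiber_near_nhds (x₀ := z₀.1) (p₀ := z₀.2) hG hU hD hz (hW'o.mem_nhds hzW')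
  refine ⟨ρ, hρ, fun x p hx hxp => ?_⟩
  obtain ⟨hx1, hxp', hxD, hpc⟩ := mem_ES.1 hxp
  obtain ⟨q, hq, hqW⟩ := h1 x hx hxD hx1
  refine fiber_vanish hG hD hQ hq (fun ε hε => ?_) p hxp
  obtain ⟨ε', hε', hball⟩ := Metric.isOpen_iff.1 hW'o _ hqW
  obtain ⟨p', h2, h3, h4⟩ := fiber_perfect hG hD hq (lt_min hε hε')
  refine ⟨p', h2, h3, h4.trans_le (min_le_left _ _), h _ h2 (hW'W (hball ?_))⟩
  rw [Metric.mem_ball, Prod.dist_eq, dist_self]
  exact max_lt hε' (h4.trans_le (min_le_right _ _))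

theorem unique_continuation (hG : Met G) (hU : Pot U) (hD : Reg U E D)
    (hφ : HFlow G U E v φ) {Q : V × V → ℝ} (hQ : Obs G U D Q) {x₁ : V} (hx₁ : x₁ ∈ D)
    (hx₁' : ‖x₁‖ = 1) {ρ : ℝ} (hρ : 0 < ρ)
    (h : ∀ x p : V, dist x x₁ < ρ → (x, p) ∈ ES G U E D → Q (x, p) = 0) :
    ∀ z ∈ ES G U E D, Q z = 0 := by
  have key := sphere_induction hD
    (fun x => ∃ ρ > 0, ∀ x' p : V, dist x' x < ρ → (x', p) ∈ ES G U E D → Q (x', p) = 0)
    (by
      rintro x hx hx1 ⟨ρ, hρ, h⟩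
      refine ⟨ρ / 2, by positivity, fun y hy hy1 hyx => ⟨ρ / 2, by positivity,
        fun x' p hx' hxp => h x' p ?_ hxp⟩⟩
      linarith [dist_triangle x' y x])
    (by
      intro x₀ hx₀ hx₀1 hlim
      obtain ⟨ρ₀, hρ₀, hcon⟩ := local_connect hG hU hD hφ hx₀ hx₀1
      obtain ⟨y, hy, hy1, hyx, ρ₁, hρ₁, hyQ⟩ := hlim ρ₀ hρ₀
      refine ⟨ρ₀, hρ₀, fun x'' p hx'' hxp => ?_⟩
      by_cases hyx'' : y = x''
      · subst hyx''
        exact hyQ y p (by simpa using hρ₁) hxp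
      · obtain ⟨p', t, hp', ht⟩ := hcon y x'' hy1 (ES_norm hxp) hyx hx'' hyx''
        obtain ⟨d, hd⟩ := hQ.poly
        have h1 : φ t (y, p') ∈ ES G U E D := ES_invariant hG hU hD hφ _ hp' t
        have hc : Continuous fun z => (φ (-t) z).1 :=
          (hφ.cont.comp (continuous_const.prodMk continuous_id)).fst
        have hW : (fun z => (φ (-t) z).1) ⁻¹' Metric.ball y ρ₁ ∈ 𝓝 (φ t (y, p')) := by
          refine hc.continuousAt.preimage_mem_nhds ?_
          have : φ (-t) (φ t (y, p')) = (y, p') := by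
            rw [← hφ.add, neg_add_cancel, hφ.zero]
          simp only [this]
          exact Metric.ball_mem_nhds _ hρ₁
        obtain ⟨r, hr, h2⟩ := ball_vanish hG hU hD hd h1 hW (fun z hz hzW => by
          have h3 := ES_invariant hG hU hD hφ z hz (-t)
          rw [← obs_conserved hG hU hD hφ hQ z hz (-t)]
          exact hyQ _ _ hzW h3)
        exact h2 x'' p (by rw [ht, dist_self]; exact hr) hxp)
    ⟨x₁, hx₁, hx₁', ρ, hρ, h⟩
  intro z hz
  obtain ⟨r, hr, h1⟩ := key z.1 (ES_D hz) hz.1.1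
  exact h1 z.1 z.2 (by simpa using hr) hz

theorem dense_periodic (hG : Met G) (hU : Pot U) (hD : Reg U E D)
    (hφ : HFlow G U E v φ) {K : V × V → ℝ} (hK : Obs G U D K) (T₁ : ℝ)
    (hper : ∀ z ∈ ES G U E D, K z ≠ 0 → ∃ T₀ > 0, φ T₀ z = z)
    (hLC : ∀ z ∈ ES G U E D, K z ≠ 0 → ∀ T₀, φ T₀ z = z →
      ∀ᶠ z' in 𝓝[ES G U E D] z, φ T₀ z' = z')
    {z₁ : V × V} (hz₁ : z₁ ∈ ES G U E D) (hKz₁ : K z₁ ≠ 0) (hTz₁ : φ T₁ z₁ = z₁)
    {x : V} (hx : x ∈ D) (hx1 : ‖x‖ = 1) {ε : ℝ} (hε : 0 < ε) :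
    ∃ x', dist x' x < ε ∧ x' ∈ D ∧ ‖x'‖ = 1 ∧
      ∀ p, (x', p) ∈ ES G U E D → φ T₁ (x', p) = (x', p) := by
  set A₀ : Set (V × V) := {z | z ∈ ES G U E D ∧ K z ≠ 0 ∧ φ T₁ z = z} with hA₀
  set X : Set V := {x | x ∈ D ∧ ‖x‖ = 1 ∧ ∀ p, (x, p) ∈ ES G U E D → (x, p) ∈ closure A₀} with hX
  have hAX : ∀ z ∈ A₀, z.1 ∈ X := by
    intro z hz
    refine ⟨ES_D hz.1, hz.1.1.1, fun p hp => ?_⟩
    exact wall hG hU hD hφ hK T₁ hper hLC ⟨z.2, hz.1, hz.2.1⟩ ⟨z.2, hz.1, subset_closure hz⟩ p hp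
  have hAinv : ∀ z ∈ A₀, ∀ t, φ t z ∈ A₀ := by
    intro z hz t
    refine ⟨ES_invariant hG hU hD hφ z hz.1 t, ?_, ?_⟩
    · rw [obs_conserved hG hU hD hφ hK z hz.1 t]
      exact hz.2.1
    · rw [← hφ.add, add_comm, hφ.add, hz.2.2]
  have hprop : ∀ a ∈ X, ∀ p' t, (a, p') ∈ ES G U E D → (φ t (a, p')).1 ∈ closure X := by
    intro a ha p' t hp'
    have hc : Continuous fun z => (φ t z).1 :=
      (hφ.cont.comp (continuous_const.prodMk continuous_id)).fst
    exact map_mem_closure (f := fun z => (φ t z).1) hc (ha.2.2 p' hp')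
      (fun z hz => hAX _ (hAinv z hz t))
  have hlocal : ∀ x₀ ∈ D, ‖x₀‖ = 1 → x₀ ∈ closure X →
      ∃ ρ > 0, ∀ y ∈ D, ‖y‖ = 1 → dist y x₀ < ρ → y ∈ closure X := by
    intro x₀ hx₀ hx₀1 hx₀X
    obtain ⟨ρ₀, hρ₀, hcon⟩ := local_connect hG hU hD hφ hx₀ hx₀1
    obtain ⟨a, ha, hax⟩ := Metric.mem_closure_iff.1 hx₀X ρ₀ hρ₀
    refine ⟨ρ₀, hρ₀, fun y hy hy1 hyx => ?_⟩
    by_cases hay : a = y
    · rw [← hay]; exact subset_closure ha
    · obtain ⟨p', t, hp', ht⟩ := hcon a y ha.2.1 hy1 (by rwa [dist_comm]) hyx hay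
      rw [← ht]
      exact hprop a ha p' t hp'
  have key := sphere_induction hD (fun x => x ∈ closure X) hlocal
    (by
      intro x₀ hx₀ hx₀1 hlim
      rw [← closure_closure, Metric.mem_closure_iff]
      intro ε hε
      obtain ⟨y, -, -, h1, h2⟩ := hlim ε hε
      exact ⟨y, h2, by rwa [dist_comm]⟩)
    ⟨z₁.1, ES_D hz₁, hz₁.1.1, subset_closure (hAX z₁ ⟨hz₁, hKz₁, hTz₁⟩)⟩
  obtain ⟨x', hx', hdist⟩ := Metric.mem_closure_iff.1 (key x hx hx1) ε hε
  refine ⟨x', by rwa [dist_comm], hx'.1, hx'.2.1, fun p hp => ?_⟩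
  have hc : Continuous fun z => φ T₁ z := hφ.cont.comp (continuous_const.prodMk continuous_id)
  have hcl : IsClosed {z | φ T₁ z = z} := isClosed_eq hc continuous_id
  have : closure A₀ ⊆ {z | φ T₁ z = z} := hcl.closure_subset_iff.2 fun z hz => hz.2.2
  exact this (hx'.2.2 p hp)


/-! observables -/

theorem Obs.differentiableAt {Q : V × V → ℝ} (hQ : Obs G U D Q) {z : V × V} (hz : z ∈ Om) :
    DifferentiableAt ℝ Q z := hQ.basic.differentiableAt hz

theorem overD_Om (hD : Reg U E D) {z : V × V} (hz : z.1 ∈ D) : z ∈ Om := hD.ne_zero _ hz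

theorem isOpen_overD (hD : Reg U E D) : IsOpen {z : V × V | z.1 ∈ D} :=
  hD.isOpen.preimage continuous_fst

theorem br_self (F : V × V → ℝ) (z : V × V) : br F F z = 0 := by
  have := br_antisymm F F z
  linarith

theorem Obs.bracket (hG : Met G) (hU : Pot U) (hD : Reg U E D) {F K : V × V → ℝ}
    (hF : Obs G U D F) (hK : Obs G U D K) : Obs G U D (br F K) where
  basic := hF.basic.br hK.basic
  comm := br_br_zero hF.basic hK.basic (Basic.ham hG hU) (isOpen_overD hD)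
    (fun z hz => overD_Om hD hz) hF.comm hK.comm
  poly := by
    obtain ⟨d, hd⟩ := hF.poly
    obtain ⟨d', hd'⟩ := hK.poly
    exact ⟨_, FPoly.br hD.isOpen hD.ne_zero hF.basic hK.basic hd hd'⟩

theorem Obs.evalPoly (hD : Reg U E D) {F K : V × V → ℝ}
    (hF : Obs G U D F) (hK : Obs G U D K) (P : MvPolynomial (Fin 2) ℝ) :
    Obs G U D (fun z => MvPolynomial.eval ![F z, K z] P) where
  basic := Basic.poly hF.basic hK.basic P
  comm := fun z hz => by
    rw [br_poly_left hF.basic hK.basic P (overD_Om hD hz), hF.comm z hz, hK.comm z hz]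
    ring
  poly := by
    obtain ⟨d, hd⟩ := hF.poly
    obtain ⟨d', hd'⟩ := hK.poly
    exact FPoly.poly hd hd' P

theorem Obs.mul (hD : Reg U E D) {F K : V × V → ℝ}
    (hF : Obs G U D F) (hK : Obs G U D K) : Obs G U D (fun z => F z * K z) where
  basic := hF.basic.mul hK.basic
  comm := fun z hz => by
    rw [br_mul_left hF.basic hK.basic (overD_Om hD hz), hF.comm z hz, hK.comm z hz]
    ring
  poly := by
    obtain ⟨d, hd⟩ := hF.poly
    obtain ⟨d', hd'⟩ := hK.poly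
    exact ⟨_, hd.mul hd'⟩

/-- product of observables vanishing on the energy surface -/
theorem prod_ne (hG : Met G) (hU : Pot U) (hD : Reg U E D)
    (hφ : HFlow G U E v φ) {F K : V × V → ℝ} (hF : Obs G U D F) (hK : Obs G U D K)
    (h1 : ∃ z ∈ ES G U E D, F z ≠ 0) (h2 : ∃ z ∈ ES G U E D, K z ≠ 0) :
    ∃ z ∈ ES G U E D, F z * K z ≠ 0 := by
  by_contra hnot
  push Not at hnot
  obtain ⟨z, hz, hFz⟩ := h1
  obtain ⟨d, hd⟩ := hK.poly
  have hc : ContinuousAt F z := (hF.differentiableAt (N_Om hz.1)).continuousAt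
  have hW : {w | F w ≠ 0} ∈ 𝓝 z := hc.eventually_ne hFz
  obtain ⟨ρ, hρ, h3⟩ := ball_vanish hG hU hD hd hz hW (fun w hw hwF => by
    rcases mul_eq_zero.1 (hnot w hw) with h | h
    · exact absurd h hwF
    · exact h)
  obtain ⟨w, hw, hKw⟩ := h2
  exact hKw (unique_continuation hG hU hD hφ hK (ES_D hz) hz.1.1 hρ h3 w hw)

/-- if the momentum gradient of `F` is everywhere parallel to that of the Hamiltonian then
`F` is constant on the fibres -/
theorem const_on_fiber (hG : Met G) (hU : Pot U) (hD : Reg U E D) {F : V × V → ℝ}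
    (hF : Obs G U D F)
    (h : ∀ z ∈ ES G U E D, ∃ c : ℝ, gp F z = c • gp (Ham G U) z) {x p q : V}
    (hp : (x, p) ∈ ES G U E D) (hq : (x, q) ∈ ES G U E D) : F (x, p) = F (x, q) := by
  obtain ⟨hx1, hxp, hxD, hpc⟩ := mem_ES.1 hp
  have hc := ES_pos hD hp
  have hx0 : x ≠ 0 := unit_ne_zero hx1
  obtain ⟨b, hb1, hb2, hb3, hb4, hb5⟩ := conic_param hG hx1 hc hxp hpc
  have hb2' : ⟪G x b, p⟫ = 0 := by
    rw [hG.symm x b p hx0, real_inner_comm, hb2]
  have hder : ∀ θ : ℝ, HasDerivAt (fun θ : ℝ => F (x, Real.cos θ • p + Real.sin θ • b)) 0 θ := by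
    intro θ
    have hmem : ((x, Real.cos θ • p + Real.sin θ • b) : V × V) ∈ ES G U E D :=
      mem_ES.2 ⟨hx1, (hb4 θ).1, hxD, (hb4 θ).2⟩
    have h1 : HasDerivAt (fun θ : ℝ => ((x, Real.cos θ • p + Real.sin θ • b) : V × V))
        (0, (-Real.sin θ) • p + Real.cos θ • b) θ :=
      (hasDerivAt_const _ _).prodMk
        (((Real.hasDerivAt_cos θ).smul_const p).add ((Real.hasDerivAt_sin θ).smul_const b))
    have h2 := (hF.differentiableAt (N_Om hmem.1)).hasFDerivAt.comp_hasDerivAt θ h1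
    have h3 : fderiv ℝ F (x, Real.cos θ • p + Real.sin θ • b)
        (0, (-Real.sin θ) • p + Real.cos θ • b) = 0 := by
      rw [← inner_gp]
      obtain ⟨c, hc⟩ := h _ hmem
      rw [hc, gp_ham hG hU hx0, inner_smul_left]
      have h4 : ⟪G x (Real.cos θ • p + Real.sin θ • b), (-Real.sin θ) • p + Real.cos θ • b⟫ = 0 := by
        have e1 : ⟪G x p, p⟫ = 2 * (E - U x) := by rw [real_inner_comm]; linarith
        have e2 : ⟪G x b, b⟫ = 2 * (E - U x) := by rw [real_inner_comm]; linarith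
        simp only [map_add, map_smul, inner_add_left, inner_add_right, inner_smul_left,
          inner_smul_right, conj_trivial, hb2, hb2', e1, e2]
        ring
      rw [h4, mul_zero]
    rw [h3] at h2
    exact h2
  obtain ⟨-, hxq, -, hqc⟩ := mem_ES.1 hq
  obtain ⟨θ, hθ⟩ := hb5 q hxq hqc
  have h4 := is_const_of_deriv_eq_zero (f := fun θ : ℝ => F (x, Real.cos θ • p + Real.sin θ • b))
    (fun s => (hder s).differentiableAt) (fun s => (hder s).deriv) 0 θ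
  simp only [Real.cos_zero, Real.sin_zero, one_smul, zero_smul, add_zero] at h4
  rw [h4, hθ]

theorem relation_on_ES (hG : Met G) (hU : Pot U) (hD : Reg U E D)
    (hφ : HFlow G U E v φ) {F K : V × V → ℝ} (hF : Obs G U D F) (hK : Obs G U D K)
    (hbr : ∀ z ∈ ES G U E D, br F K z = 0) :
    ∃ P : MvPolynomial (Fin 2) ℝ, P ≠ 0 ∧ ∀ z ∈ ES G U E D, MvPolynomial.eval ![F z, K z] P = 0 := by
  by_cases hcase : ∀ z ∈ ES G U E D, ∃ c : ℝ, gp F z = c • gp (Ham G U) z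
  · -- `F` is constant on `ES`
    obtain ⟨x₀, hx₀⟩ := hD.nonempty
    have hx₀0 : 0 < ‖x₀‖ := norm_pos_iff.2 (hD.ne_zero _ hx₀)
    set x₁ := ‖x₀‖⁻¹ • x₀ with hx₁
    have hx₁D : x₁ ∈ D := hD.cone _ hx₀ _ (by positivity)
    have hx₁1 : ‖x₁‖ = 1 := by
      rw [hx₁, norm_smul, norm_inv, norm_norm, inv_mul_cancel₀ hx₀0.ne']
    obtain ⟨p₁, hp₁⟩ := fiber_nonempty hG hD hx₁D hx₁1
    let P : MvPolynomial (Fin 2) ℝ := MvPolynomial.X 0 - MvPolynomial.C (F (x₁, p₁))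
    have hP : ∀ z, MvPolynomial.eval ![F z, K z] P = F z - F (x₁, p₁) := by
      intro z; simp [P]
    refine ⟨P, ?_, ?_⟩
    · intro h0
      have := congrArg (MvPolynomial.eval ![F (x₁, p₁) + 1, 0]) h0
      simp [P] at this
    · have hL := Obs.evalPoly hD hF hK P
      obtain ⟨ρ, hρ, hcon⟩ := local_connect hG hU hD hφ hx₁D hx₁1
      refine unique_continuation hG hU hD hφ hL hx₁D hx₁1 hρ (fun x p hx hxp => ?_)
      simp only [hP]
      by_cases hxx : x₁ = x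
      · subst hxx
        rw [const_on_fiber hG hU hD hF hcase hxp hp₁, sub_self]
      · obtain ⟨p', t, hp', ht⟩ := hcon x₁ x hx₁1 (ES_norm hxp) (by simpa using hρ) hx hxx
        have h1 := ES_invariant hG hU hD hφ _ hp' t
        have h2 := obs_conserved hG hU hD hφ hF _ hp' t
        have h3 : φ t (x₁, p') = (x, (φ t (x₁, p')).2) := by rw [← ht]
        rw [h3] at h1 h2
        rw [const_on_fiber hG hU hD hF hcase hxp h1, h2,
          const_on_fiber hG hU hD hF hcase hp' hp₁, sub_self]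
  · push Not at hcase
    obtain ⟨⟨x, p⟩, hz, hne⟩ := hcase
    obtain ⟨hx1, hxp, hxD, hpc⟩ := mem_ES.1 hz
    have hc := ES_pos hD hz
    obtain ⟨b, hb1, hb2, hb3, hb4, hb5⟩ := conic_param hG hx1 hc hxp hpc
    obtain ⟨d, hd⟩ := hF.poly
    obtain ⟨d', hd'⟩ := hK.poly
    obtain ⟨P, hP0, hP⟩ := exists_relation_circle _ _ (hd.trig hxD p b) (hd'.trig hxD p b)
    refine ⟨P, hP0, ?_⟩
    have hL := Obs.evalPoly hD hF hK P
    have hfib : ∀ q, (x, q) ∈ ES G U E D → MvPolynomial.eval ![F (x, q), K (x, q)] P = 0 := by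
      intro q hq
      obtain ⟨-, hxq, -, hqc⟩ := mem_ES.1 hq
      obtain ⟨θ, hθ⟩ := hb5 q hxq hqc
      rw [hθ]
      exact hP θ
    have hLF : ∀ z ∈ ES G U E D, br (fun z => MvPolynomial.eval ![F z, K z] P) F z = 0 := by
      intro z hz
      rw [br_poly_left hF.basic hK.basic P (N_Om hz.1), br_self, br_antisymm K F, hbr z hz]
      ring
    have hev := cover_local hG hU hD hφ hF hL hLF hz hne hfib
    rw [eventually_nhdsWithin_iff] at hev
    obtain ⟨m, hm⟩ := hL.poly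
    obtain ⟨ρ, hρ, h1⟩ := ball_vanish hG hU hD hm hz hev (fun z hz hzW => hzW hz)
    exact unique_continuation hG hU hD hφ hL hxD hx1 hρ h1

theorem br_factor (hG : Met G) (hU : Pot U) (hD : Reg U E D) {Q Q₁ : V × V → ℝ}
    (hQ₁ : Basic Q₁) (h : ∀ z : V × V, z.1 ∈ D → Q z = (Ham G U z - E) * Q₁ z)
    (K : V × V → ℝ) {z : V × V} (hz : z.1 ∈ D) :
    br Q K z = (Ham G U z - E) * br Q₁ K z + Q₁ z * br (Ham G U) K z := by
  have hH := Basic.ham hG hU
  have h1 : Basic (fun z => Ham G U z + (-E)) := hH.add (Basic.const (-E))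
  have h2 := br_mul_left (H := K) h1 hQ₁ (overD_Om hD hz)
  have h3 := br_add_left (H := K) hH (Basic.const (-E)) (overD_Om hD hz)
  have h4 : br (fun _ => -E) K z = 0 := by simp [SI.br]
  have h5 : Q =ᶠ[𝓝 z] fun z => (Ham G U z + (-E)) * Q₁ z := by
    filter_upwards [(isOpen_overD hD).mem_nhds hz] with w hw
    rw [h w hw]
    ring
  have h6 : br Q K z = br (fun z => (Ham G U z + (-E)) * Q₁ z) K z := by
    unfold SI.br
    rw [h5.fderiv_eq]
  rw [h6, h2, h3, h4]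
  ring

/-- two continuous functions which agree off the energy level agree -/
theorem level_ext (hG : Met G) (hU : Pot U) (hD : Reg U E D) {f : V × V → ℝ}
    (hf : ∀ z : V × V, z.1 ∈ D → ContinuousAt f z)
    (h : ∀ z : V × V, z.1 ∈ D → (Ham G U z - E) * f z = 0) : ∀ z : V × V, z.1 ∈ D → f z = 0 := by
  intro z hz
  by_cases hE : Ham G U z - E = 0
  · have hpos : 0 < (1 / 2) * ⟪z.2, G z.1 z.2⟫ := by
      have := hD.lt z.1 hz
      unfold Ham at hE
      linarith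
    have hc : ContinuousAt (fun t : ℝ => f (z.1, t • z.2)) 1 := by
      have h1 : ContinuousAt f (z.1, (1 : ℝ) • z.2) := by
        simpa using hf z hz
      exact ContinuousAt.comp (f := fun t : ℝ => ((z.1, t • z.2) : V × V)) h1 (by fun_prop)
    have h2 : ∀ t : ℝ, 1 < t → f (z.1, t • z.2) = 0 := by
      intro t ht
      have h3 := h (z.1, t • z.2) hz
      have h4 : Ham G U (z.1, t • z.2) - E ≠ 0 := by
        have h5 : Ham G U (z.1, t • z.2) - E = (t ^ 2 - 1) * ((1 / 2) * ⟪z.2, G z.1 z.2⟫) := by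
          unfold Ham at hE ⊢
          simp only [map_smul, inner_smul_left, inner_smul_right, conj_trivial]
          linear_combination hE
        rw [h5]
        have : 0 < t ^ 2 - 1 := by nlinarith
        positivity
      exact (mul_eq_zero.1 h3).resolve_left h4
    have h3 : (fun t : ℝ => f (z.1, t • z.2)) 1 ∈ closure ({0} : Set ℝ) := by
      apply (hc.continuousWithinAt (s := Ioi 1)).mem_closure
      · rw [closure_Ioi]; exact self_mem_Ici
      · intro t ht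
        exact h2 t ht
    simpa using h3
  · exact (mul_eq_zero.1 (h z hz)).resolve_left hE

theorem Obs.div (hG : Met G) (hU : Pot U) (hD : Reg U E D) {Q : V × V → ℝ}
    (hQ : Obs G U D Q) (h : ∀ z ∈ ES G U E D, Q z = 0) :
    ∃ Q₁, Obs G U D Q₁ ∧ (∀ z : V × V, z.1 ∈ D → Q z = (Ham G U z - E) * Q₁ z) ∧
      ∀ d, FPoly d D Q → (2 ≤ d → FPoly (d - 2) D Q₁) ∧ (d < 2 → ∀ z : V × V, z.1 ∈ D → Q₁ z = 0) := by
  obtain ⟨d, hd⟩ := hQ.poly
  obtain ⟨Q₁, hb, hfac, h2, h3⟩ := division hG hU hD hQ.basic hd h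
  have hH := Basic.ham hG hU
  refine ⟨Q₁, ⟨hb, ?_, ?_⟩, hfac, ?_⟩
  · have hbr := hb.br hH
    refine level_ext hG hU hD (fun z hz => (hbr.differentiableAt (overD_Om hD hz)).continuousAt) ?_
    intro z hz
    have h4 := br_factor hG hU hD hb hfac (Ham G U) hz
    rw [hQ.comm z hz, br_self] at h4
    linarith
  · by_cases hd2 : 2 ≤ d
    · exact ⟨_, h2 hd2⟩
    · refine ⟨0, fun x hx p e => ⟨0, by simp, fun s => ?_⟩⟩
      rw [h3 (not_le.1 hd2) _ hx]
      simp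
  · intro d' hd'
    obtain ⟨Q₂, hb', hfac', h2', h3'⟩ := division hG hU hD hQ.basic hd' h
    have heq : ∀ z : V × V, z.1 ∈ D → Q₁ z - Q₂ z = 0 := by
      refine level_ext hG hU hD (fun z hz =>
        (hb.differentiableAt (overD_Om hD hz)).continuousAt.sub
          (hb'.differentiableAt (overD_Om hD hz)).continuousAt) ?_
      intro z hz
      have e1 := hfac z hz
      have e2 := hfac' z hz
      linear_combination e2 - e1
    refine ⟨fun hd2 x hx p e => ?_, fun hd2 z hz => ?_⟩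
    · obtain ⟨P, hP, hP'⟩ := h2' hd2 x hx p e
      refine ⟨P, hP, fun s => ?_⟩
      rw [← hP']
      have := heq (x, p + s • e) hx
      linarith
    · have := heq z hz
      rw [h3' hd2 z hz] at this
      linarith

theorem factor_out (hG : Met G) (hU : Pot U) (hD : Reg U E D) (d : ℕ) :
    ∀ Q : V × V → ℝ, Obs G U D Q → FPoly d D Q → (∃ z : V × V, z.1 ∈ D ∧ Q z ≠ 0) →
    ∃ (a : ℕ) (Q' : V × V → ℝ), Obs G U D Q' ∧
      (∀ z : V × V, z.1 ∈ D → Q z = (Ham G U z - E) ^ a * Q' z) ∧ ∃ z ∈ ES G U E D, Q' z ≠ 0 := by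
  induction d using Nat.strong_induction_on with
  | _ d ih =>
    intro Q hQ hd hne
    by_cases hES : ∃ z ∈ ES G U E D, Q z ≠ 0
    · exact ⟨0, Q, hQ, fun z _ => by simp, hES⟩
    · push Not at hES
      obtain ⟨Q₁, hQ₁, hfac, hdeg⟩ := hQ.div hG hU hD hES
      obtain ⟨z₀, hz₀, hne₀⟩ := hne
      have hne₁ : Q₁ z₀ ≠ 0 := by
        intro h0
        apply hne₀
        rw [hfac z₀ hz₀, h0, mul_zero]
      by_cases hd2 : 2 ≤ d
      · obtain ⟨a, Q', h1, h2, h3⟩ := ih (d - 2) (by omega) Q₁ hQ₁ ((hdeg d hd).1 hd2)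
          ⟨z₀, hz₀, hne₁⟩
        refine ⟨a + 1, Q', h1, fun z hz => ?_, h3⟩
        rw [hfac z hz, h2 z hz]
        ring
      · exact absurd ((hdeg d hd).2 (not_le.1 hd2) z₀ hz₀) hne₁

theorem noncomm_ind (hG : Met G) (hU : Pot U) (hD : Reg U E D) (hφ : HFlow G U E v φ) (a : ℕ) :
    ∀ F K K' : V × V → ℝ, Obs G U D F → Obs G U D K → Obs G U D K' →
    (∀ z : V × V, z.1 ∈ D → br F K z = (Ham G U z - E) ^ a * K' z) →
    (∃ z ∈ ES G U E D, K' z ≠ 0) →
    ∃ Q Q', Obs G U D Q ∧ Obs G U D Q' ∧ ∃ z ∈ ES G U E D, br Q Q' z ≠ 0 := by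
  induction a with
  | zero =>
    intro F K K' hF hK hK' h1 ⟨z, hz, hne⟩
    refine ⟨F, K, hF, hK, z, hz, ?_⟩
    rw [h1 z (ES_D hz)]
    simpa using hne
  | succ a ih =>
    intro F K K' hF hK hK' h1 hne
    have hH := Basic.ham hG hU
    have hbr0 : ∀ z ∈ ES G U E D, br F K z = 0 := by
      intro z hz
      rw [h1 z (ES_D hz), ES_ham hz, sub_self, pow_succ]
      ring
    obtain ⟨P₀, hP₀, hP₀'⟩ := relation_on_ES hG hU hD hφ hF hK hbr0
    obtain ⟨z₀, hz₀, hne₀⟩ := hne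
    obtain ⟨P, hP0, hPv, i, y, hy, hyi⟩ := exists_minimal_relation
      ((fun z => ![F z, K z]) '' ES G U E D) ⟨_, z₀, hz₀, rfl⟩
      ⟨P₀, hP₀, by
        rintro y ⟨z, hz, rfl⟩
        exact hP₀' z hz⟩
    obtain ⟨z₁, hz₁, rfl⟩ := hy
    have hL := Obs.evalPoly hD hF hK P
    obtain ⟨L₁, hL₁, hfac, -⟩ := hL.div hG hU hD (fun z hz => hPv _ ⟨z, hz, rfl⟩)
    have hHK : ∀ z : V × V, z.1 ∈ D → br (Ham G U) K z = 0 := by
      intro z hz
      rw [br_antisymm, hK.comm z hz, neg_zero]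
    have hHF : ∀ z : V × V, z.1 ∈ D → br (Ham G U) F z = 0 := by
      intro z hz
      rw [br_antisymm, hF.comm z hz, neg_zero]
    have hK'ne : ∃ z ∈ ES G U E D, K' z ≠ 0 := ⟨z₀, hz₀, hne₀⟩
    have hHc : ∀ z : V × V, z.1 ∈ D → ContinuousAt (fun z => (Ham G U z - E) ^ a) z := by
      intro z hz
      exact ((hH.differentiableAt (overD_Om hD hz)).continuousAt.sub continuousAt_const).pow a
    fin_cases i
    · -- derivative in the first variable
      have hPX := Obs.evalPoly hD hF hK (MvPolynomial.pderiv 0 P)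
      have hK'' := Obs.mul hD hPX hK'
      refine ih L₁ K _ hL₁ hK hK'' ?_ (prod_ne hG hU hD hφ hPX hK' ⟨z₁, hz₁, hyi⟩ hK'ne)
      have hcont : ∀ z : V × V, z.1 ∈ D → ContinuousAt (fun z => br L₁ K z -
          (Ham G U z - E) ^ a * (MvPolynomial.eval ![F z, K z] (MvPolynomial.pderiv 0 P) * K' z)) z := by
        intro z hz
        exact ((hL₁.basic.br hK.basic).differentiableAt (overD_Om hD hz)).continuousAt.sub
          ((hHc z hz).mul (hK''.differentiableAt (overD_Om hD hz)).continuousAt)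
      have := level_ext hG hU hD hcont (fun z hz => by
        have e1 := br_factor hG hU hD hL₁.basic hfac K hz
        rw [br_poly_left hF.basic hK.basic P (overD_Om hD hz), br_self, hHK z hz, h1 z hz] at e1
        linear_combination -e1)
      intro z hz
      linarith [this z hz]
    · have hPX := Obs.evalPoly hD hF hK (MvPolynomial.pderiv 1 P)
      have hK'' := Obs.mul hD hPX hK'
      refine ih F L₁ _ hF hL₁ hK'' ?_ (prod_ne hG hU hD hφ hPX hK' ⟨z₁, hz₁, hyi⟩ hK'ne)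
      have hcont : ∀ z : V × V, z.1 ∈ D → ContinuousAt (fun z => br F L₁ z -
          (Ham G U z - E) ^ a * (MvPolynomial.eval ![F z, K z] (MvPolynomial.pderiv 1 P) * K' z)) z := by
        intro z hz
        exact ((hF.basic.br hL₁.basic).differentiableAt (overD_Om hD hz)).continuousAt.sub
          ((hHc z hz).mul (hK''.differentiableAt (overD_Om hD hz)).continuousAt)
      have := level_ext hG hU hD hcont (fun z hz => by
        have e1 := br_factor hG hU hD hL₁.basic hfac F hz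
        rw [br_poly_left hF.basic hK.basic P (overD_Om hD hz), br_self, hHF z hz,
          br_antisymm K F, h1 z hz, br_antisymm L₁ F] at e1
        linear_combination e1)
      intro z hz
      linarith [this z hz]

theorem exists_noncommuting_on_ES (hG : Met G) (hU : Pot U) (hD : Reg U E D)
    (hφ : HFlow G U E v φ) {F K : V × V → ℝ} (hF : Obs G U D F) (hK : Obs G U D K)
    (h : ∃ z : V × V, z.1 ∈ D ∧ br F K z ≠ 0) :
    ∃ Q Q', Obs G U D Q ∧ Obs G U D Q' ∧ ∃ z ∈ ES G U E D, br Q Q' z ≠ 0 := by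
  have hB := hF.bracket hG hU hD hK
  obtain ⟨d, hd⟩ := hB.poly
  obtain ⟨a, K', hK', h1, h2⟩ := factor_out hG hU hD d _ hB hd h
  exact noncomm_ind hG hU hD hφ a F K K' hF hK hK' h1 h2


/-! the core theorem -/

theorem exists_max_unit (hU : Pot U) : ∃ x : V, ‖x‖ = 1 ∧ ∀ y : V, y ≠ 0 → U y ≤ U x := by
  have hne : (Metric.sphere (0 : V) 1).Nonempty := by
    refine ⟨EuclideanSpace.single 0 1, ?_⟩
    simp
  have hc : ContinuousOn U (Metric.sphere (0 : V) 1) := by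
    intro x hx
    have hx1 : ‖x‖ = 1 := by simpa using hx
    exact (contDiffAt_U hU (unit_ne_zero hx1)).continuousAt.continuousWithinAt
  obtain ⟨x, hx, hmax⟩ := (isCompact_sphere (0 : V) 1).exists_isMaxOn hne hc
  refine ⟨x, by simpa using hx, fun y hy => ?_⟩
  have hy' : 0 < ‖y‖ := norm_pos_iff.2 hy
  have h1 : ‖y‖⁻¹ • y ∈ Metric.sphere (0 : V) 1 := by
    rw [mem_sphere_zero_iff_norm, norm_smul, norm_inv, norm_norm, inv_mul_cancel₀ hy'.ne']
  have h2 := hmax h1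
  have h3 : U (‖y‖⁻¹ • y) ≤ U x := h2
  rwa [hU.scale y _ (by positivity) hy] at h3

theorem punctured_preconnected : IsPreconnected {x : V | x ≠ 0} := by
  have h := (isConnected_compl_singleton_of_one_lt_rank (E := V) (by
    rw [← Module.finrank_eq_rank]
    simp) (0 : V)).isPreconnected
  exact h

theorem component_reg (hU : Pot U) {M : ℝ} (hM : ∀ y : V, y ≠ 0 → U y ≤ M) {x₁ : V}
    (hx₁ : x₁ ≠ 0) (hUx₁ : U x₁ < M) :
    Reg U M (connectedComponentIn {x : V | x ≠ 0 ∧ U x < M} x₁) := by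
  set W : Set V := {x : V | x ≠ 0 ∧ U x < M} with hW
  have hWo : IsOpen W := by
    have : W = {x : V | x ≠ 0} ∩ U ⁻¹' Iio M := by
      ext x; simp [hW]
    rw [this]
    exact hU.smooth.continuousOn.isOpen_inter_preimage isOpen_ne isOpen_Iio
  have hx₁W : x₁ ∈ W := ⟨hx₁, hUx₁⟩
  have hsub : connectedComponentIn W x₁ ⊆ W := connectedComponentIn_subset W x₁
  refine ⟨hWo.connectedComponentIn, ⟨x₁, mem_connectedComponentIn hx₁W⟩,
    isPreconnected_connectedComponentIn, ?_, fun x hx => (hsub hx).1, fun x hx => (hsub hx).2, ?_⟩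
  · intro x hx c hc
    have hxW := hsub hx
    have h1 : IsPreconnected ((fun t : ℝ => t • x) '' Ioi 0) :=
      isPreconnected_Ioi.image _ (by fun_prop)
    have h2 : (fun t : ℝ => t • x) '' Ioi 0 ⊆ W := by
      rintro _ ⟨t, ht, rfl⟩
      have ht' : 0 < t := ht
      refine ⟨smul_ne_zero ht'.ne' hxW.1, ?_⟩
      rw [hU.scale x t ht' hxW.1]
      exact hxW.2
    have h3 := h1.subset_connectedComponentIn ⟨1, by simp, one_smul ℝ x⟩ h2
    rw [connectedComponentIn_eq hx]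
    exact h3 ⟨c, hc, rfl⟩
  · intro x hx hx0 hxD
    refine ⟨?_, hM⟩
    by_contra hne
    have hxW : x ∈ W := ⟨hx0, lt_of_le_of_ne (hM x hx0) hne⟩
    obtain ⟨y, hy1, hy2⟩ := mem_closure_iff.1 hx _ (hWo.connectedComponentIn (x := x))
      (mem_connectedComponentIn hxW)
    apply hxD
    rw [connectedComponentIn_eq hy2, ← connectedComponentIn_eq hy1]
    exact mem_connectedComponentIn hxW

theorem Reg.exists_boundary (hD : Reg U E D) {x : V} (hx : x ≠ 0) (hxD : x ∉ D) :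
    ∃ x₀ : V, ‖x₀‖ = 1 ∧ x₀ ∈ closure D ∧ x₀ ∉ D := by
  have h1 : ∃ y ∈ closure D, y ≠ 0 ∧ y ∉ D := by
    by_contra hnot
    push Not at hnot
    obtain ⟨a, ha⟩ := hD.nonempty
    have h2 := punctured_preconnected.subset_of_closure_inter_subset hD.isOpen
      ⟨a, hD.ne_zero a ha, ha⟩ (fun y hy => hnot y hy.1 hy.2)
    exact hxD (h2 hx)
  obtain ⟨y, hy, hy0, hyD⟩ := h1
  have hy' : 0 < ‖y‖ := norm_pos_iff.2 hy0
  refine ⟨‖y‖⁻¹ • y, by rw [norm_smul, norm_inv, norm_norm, inv_mul_cancel₀ hy'.ne'], ?_, ?_⟩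
  · exact map_mem_closure (f := fun z : V => ‖y‖⁻¹ • z) (by fun_prop) hy
      (fun z hz => hD.cone z hz _ (by positivity))
  · intro h
    apply hyD
    have := hD.cone _ h ‖y‖ hy'
    rwa [smul_smul, mul_inv_cancel₀ hy'.ne', one_smul] at this

theorem Reg.unit_near (hD : Reg U E D) {x₀ : V} (hx₀ : ‖x₀‖ = 1) (hcl : x₀ ∈ closure D) {δ : ℝ}
    (hδ : 0 < δ) : ∃ x ∈ D, ‖x‖ = 1 ∧ dist x x₀ < δ := by
  have h1 := normalize_cont (unit_ne_zero hx₀)
  obtain ⟨r, hr, h2⟩ := Metric.continuousAt_iff.1 h1 δ hδ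
  obtain ⟨y, hy, hyx⟩ := Metric.mem_closure_iff.1 hcl r hr
  have hy' : 0 < ‖y‖ := norm_pos_iff.2 (hD.ne_zero y hy)
  refine ⟨‖y‖⁻¹ • y, hD.cone y hy _ (by positivity), ?_, ?_⟩
  · rw [norm_smul, norm_inv, norm_norm, inv_mul_cancel₀ hy'.ne']
  · have h3 := h2 (x := y) (by rwa [dist_comm])
    simpa [hx₀] using h3

theorem br_zero_of_boundary (hG : Met G) (hU : Pot U) (hD : Reg U E D) {x₀ : V} (hx₀ : ‖x₀‖ = 1)
    (hcl : x₀ ∈ closure D) (hx₀D : x₀ ∉ D) {F K : V × V → ℝ} (hF : Obs G U D F)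
    (hK : Obs G U D K) : ∀ z : V × V, z.1 ∈ D → br F K z = 0 := by
  by_contra hnot
  push Not at hnot
  obtain ⟨v, φ, hφ⟩ := exists_HFlow hG hU E
  obtain ⟨Q, Q', hQ, hQ', z₁, hz₁, hne⟩ := exists_noncommuting_on_ES hG hU hD hφ hF hK hnot
  have hB := hQ.bracket hG hU hD hQ'
  have hper := periodic_of_br_ne_zero hG hU hD hφ hQ hQ'
  have hLC := local_const_period hG hU hD hφ hQ hQ'
  obtain ⟨T₁, hT₁, hTz₁⟩ := hper z₁ hz₁ hne
  obtain ⟨hUx₀, hmax⟩ := hD.bdry x₀ hcl (unit_ne_zero hx₀) hx₀D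
  obtain ⟨ρ, hρ, hshort⟩ := no_short_periodic hG hU hφ hx₀
    (fun y hy => by rw [hUx₀]; exact hmax y hy) hUx₀.le hT₁
  obtain ⟨c, hc, hpos⟩ := met_pos hG
  have hUc : ContinuousAt U x₀ := (contDiffAt_U hU (unit_ne_zero hx₀)).continuousAt
  obtain ⟨δ, hδ, hδU⟩ := Metric.continuousAt_iff.1 hUc (c * ρ ^ 2 / 2) (by positivity)
  obtain ⟨x, hxD, hx1, hxx⟩ := hD.unit_near hx₀ hcl (δ := min δ ρ / 2) (by positivity)
  obtain ⟨x', hx'x, hx'D, hx'1, hfib⟩ := dense_periodic hG hU hD hφ hB T₁ hper hLC hz₁ hne hTz₁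
    hxD hx1 (ε := min δ ρ / 2) (by positivity)
  obtain ⟨p, hp⟩ := fiber_nonempty hG hD hx'D hx'1
  obtain ⟨-, hxp, -, hpc⟩ := mem_ES.1 hp
  have hd : dist x' x₀ < min δ ρ := by
    linarith [dist_triangle x' x x₀]
  have h1 : dist (U x') (U x₀) < c * ρ ^ 2 / 2 := hδU (hd.trans_le (min_le_left _ _))
  rw [hUx₀, Real.dist_eq, abs_sub_comm] at h1
  have h2 : E - U x' < c * ρ ^ 2 / 2 := (le_abs_self _).trans_lt h1
  have h3 := hpos (x', p) hp.1
  simp only at h3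
  have h4 : ‖p‖ ^ 2 < ρ ^ 2 := by
    have : c * ‖p‖ ^ 2 < c * ρ ^ 2 := by linarith
    exact lt_of_mul_lt_mul_left this hc.le
  have h5 : ‖p‖ < ρ := lt_of_pow_lt_pow_left₀ 2 hρ.le h4
  have h6 : dist ((x', p) : V × V) (x₀, 0) < ρ := by
    rw [Prod.dist_eq]
    exact max_lt (hd.trans_le (min_le_right _ _)) (by simpa using h5)
  have h7 := hshort (x', p) hp.1 (ES_ham hp).le h6 (hfib p hp)
  have h8 := ES_pos hD hp
  simp only at h7
  rw [h7] at hpc
  simp at hpc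
  linarith

theorem punctured_reg (hU : Pot U) {M E : ℝ} (hM : ∀ y : V, y ≠ 0 → U y ≤ M) (hE : M < E) :
    Reg U E {x : V | x ≠ 0} where
  isOpen := isOpen_ne
  nonempty := ⟨EuclideanSpace.single 0 1, unit_ne_zero (by simp)⟩
  conn := punctured_preconnected
  cone := fun x hx c hc => smul_ne_zero hc.ne' hx
  ne_zero := fun x hx => hx
  lt := fun x hx => (hM x hx).trans_lt hE
  bdry := fun x _ hx0 hx => absurd hx0 hx

theorem core (hG : Met G) (hU : Pot U)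
    (hnc : ∃ x y : V, x ≠ 0 ∧ y ≠ 0 ∧ U x ≠ U y) {F K : V × V → ℝ} (hF : Basic F) (hK : Basic K)
    {d d' : ℕ} (hFd : FPoly d {x | x ≠ 0} F) (hKd : FPoly d' {x | x ≠ 0} K)
    (hFH : ∀ z ∈ Om, br F (Ham G U) z = 0) (hKH : ∀ z ∈ Om, br K (Ham G U) z = 0) :
    ∀ z ∈ Om, br F K z = 0 := by
  obtain ⟨xM, hxM, hmax⟩ := exists_max_unit hU
  set M := U xM with hM
  obtain ⟨x₁, hx₁, hUx₁⟩ : ∃ x : V, x ≠ 0 ∧ U x < M := by
    obtain ⟨x, y, hx, hy, hne⟩ := hnc
    rcases lt_or_gt_of_ne hne with h | h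
    · exact ⟨x, hx, h.trans_le (hmax y hy)⟩
    · exact ⟨y, hy, h.trans_le (hmax x hx)⟩
  set D := connectedComponentIn {x : V | x ≠ 0 ∧ U x < M} x₁ with hDdef
  have hD : Reg U M D := component_reg hU hmax hx₁ hUx₁
  have hxMD : xM ∉ D := fun h => lt_irrefl _ (hD.lt xM h)
  obtain ⟨x₀, hx₀, hcl, hx₀D⟩ := hD.exists_boundary (unit_ne_zero hxM) hxMD
  have hobs : ∀ {E : ℝ} {D : Set V} {F : V × V → ℝ} {d : ℕ}, Reg U E D → Basic F →
      FPoly d {x | x ≠ 0} F → (∀ z ∈ Om, br F (Ham G U) z = 0) → Obs G U D F := by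
    intro E D F d hD hF hFd hFH
    exact ⟨hF, fun z hz => hFH z (overD_Om hD hz), d, fun x hx p e => hFd x (hD.ne_zero x hx) p e⟩
  have hzero := br_zero_of_boundary hG hU hD hx₀ hcl hx₀D (hobs hD hF hFd hFH) (hobs hD hK hKd hKH)
  obtain ⟨a, ha⟩ := hD.nonempty
  have ha0 : 0 < ‖a‖ := norm_pos_iff.2 (hD.ne_zero a ha)
  have haD : ‖a‖⁻¹ • a ∈ D := hD.cone a ha _ (by positivity)
  have ha1 : ‖‖a‖⁻¹ • a‖ = 1 := by
    rw [norm_smul, norm_inv, norm_norm, inv_mul_cancel₀ ha0.ne']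
  obtain ⟨ρ, hρ, hball⟩ := Metric.isOpen_iff.1 hD.isOpen _ haD
  have hhigh : ∀ z ∈ N, M < Ham G U z → br F K z = 0 := by
    intro z hz hE
    have hR := punctured_reg hU hmax hE
    obtain ⟨v, φ, hφ⟩ := exists_HFlow hG hU (Ham G U z)
    have hL := (hobs hR hF hFd hFH).bracket hG hU hR (hobs hR hK hKd hKH)
    exact unique_continuation hG hU hR hφ hL (x₁ := ‖a‖⁻¹ • a) (hD.ne_zero _ haD) ha1 hρ
      (fun x p hx _ => hzero (x, p) (hball hx)) z ⟨hz, N_ne_zero hz, rfl⟩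
  have hBr := hF.br hK
  have hBrd : FPoly (d + d') {x | x ≠ 0} (br F K) :=
    FPoly.br isOpen_ne (fun x hx => hx) hF hK hFd hKd
  have hlines : ∀ x e : V, ‖x‖ = 1 → e ≠ 0 → ⟪x, e⟫ = 0 → ∀ s : ℝ, br F K (x, s • e) = 0 := by
    intro x e hx he hxe s
    have hx0 := unit_ne_zero hx
    obtain ⟨P, -, hP⟩ := hBrd x hx0 0 e
    have hT := hG.pos' hx he hxe
    have hinf : P = 0 := by
      refine Polynomial.eq_zero_of_infinite_isRoot _ ((Ioi_infinite
        (1 + 2 * |M - U x| / ⟪e, G x e⟫)).mono fun s hs => ?_)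
      have hs' : 1 + 2 * |M - U x| / ⟪e, G x e⟫ < s := hs
      have hs1 : 1 < s := by
        have : 0 ≤ 2 * |M - U x| / ⟪e, G x e⟫ := by positivity
        linarith
      have h1 := hP s
      rw [zero_add] at h1
      simp only [Set.mem_ofPred_eq, Polynomial.IsRoot]
      rw [← h1]
      refine hhigh _ ⟨hx, by rw [inner_smul_right, hxe, mul_zero]⟩ ?_
      have h2 : 2 * |M - U x| / ⟪e, G x e⟫ < s * s := by nlinarith
      rw [div_lt_iff₀ hT] at h2
      unfold Ham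
      simp only [map_smul, inner_smul_left, inner_smul_right, conj_trivial]
      have h3 := le_abs_self (M - U x)
      nlinarith
    have h1 := hP s
    rw [zero_add, hinf] at h1
    simpa using h1
  have hN : ∀ x p : V, ‖x‖ = 1 → ⟪x, p⟫ = 0 → br F K (x, p) = 0 := by
    intro x p hx hxp
    by_cases hp : p = 0
    · obtain ⟨e, he, hxe, -⟩ := exists_perp x x
      have := hlines x e hx he hxe 0
      rwa [zero_smul, ← hp] at this
    · have := hlines x p hx hp hxp 1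
      rwa [one_smul] at this
  rintro ⟨x, p⟩ hz
  have hx0 : x ≠ 0 := hz
  have hx' : 0 < ‖x‖ := norm_pos_iff.2 hx0
  have h1 := hBr.scale x p ‖x‖⁻¹ (by positivity) hx0
  rw [← h1, inv_inv]
  set y := ‖x‖⁻¹ • x with hy
  have hy1 : ‖y‖ = 1 := by
    rw [hy, norm_smul, norm_inv, norm_norm, inv_mul_cancel₀ hx'.ne']
  have h2 := hBr.shift y (‖x‖ • p) (-⟪y, ‖x‖ • p⟫) (unit_ne_zero hy1)
  rw [← h2]
  apply hN y _ hy1
  simp only [inner_add_right, inner_smul_right, real_inner_self_eq_norm_sq, hy1]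
  ring

end SI

end Pool.Agent.Helper197
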