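import Pool.Agent.Helper197.Alg
import Pool.Agent.Helper197.Ode

open Set Topology
open scoped RealInnerProductSpace

noncomputable section

namespace Pool.Agent.Helper197

namespace SI

variable {G : V → V →L[ℝ] V} {U : V → ℝ} {E : ℝ} {D : Set V}
    {v : V × V → V × V} {φ : ℝ → V × V → V × V}

theorem HFlow.v_eq (hφ : HFlow G U E v φ) {z : V × V} (hz : z ∈ N) (hE : Ham G U z ≤ E) :
    v z = XF (Ham G U) z := (hφ.veq z hz hE).eq_of_nhds

theorem N_ne_zero {z : V × V} (hz : z ∈ N) : z.1 ≠ 0 := by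
  intro h
  have := hz.1
  rw [h, norm_zero] at this
  exact zero_ne_one this

theorem N_Om {z : V × V} (hz : z ∈ N) : z ∈ Om := N_ne_zero hz

theorem unit_ne_zero {x : V} (hx : ‖x‖ = 1) : x ≠ 0 := by
  rintro rfl
  simp at hx

theorem kin_nonneg (hG : Met G) {x p : V} (hx : ‖x‖ = 1) (hxp : ⟪x, p⟫ = 0) :
    0 ≤ ⟪p, G x p⟫ := by
  by_cases hp : p = 0
  · rw [hp]; simp
  · exact (hG.pos' hx hp hxp).le

theorem mom_zero (hG : Met G) {x p : V} (hx : ‖x‖ = 1) (hxp : ⟪x, p⟫ = 0)
    (h : ⟪p, G x p⟫ ≤ 0) : p = 0 := by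
  by_contra hp
  exact absurd (hG.pos' hx hp hxp) (not_lt.2 h)

theorem fderiv_U_zero {x : V} (hx : x ≠ 0) (hmax : ∀ y : V, y ≠ 0 → U y ≤ U x) :
    fderiv ℝ U x = 0 := by
  apply IsLocalMax.fderiv_eq_zero
  filter_upwards [isOpen_ne.mem_nhds hx] with y hy
  exact hmax y hy

theorem XF_equilibrium (hG : Met G) (hU : Pot U) {x : V} (hx : x ≠ 0)
    (hmax : ∀ y : V, y ≠ 0 → U y ≤ U x) : XF (Ham G U) (x, 0) = 0 := by
  have hz : ((x, 0) : V × V) ∈ Om := hx
  have h1 : gp (Ham G U) (x, 0) = 0 := by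
    rw [gp_ham hG hU hz]
    simp
  have h2 : gx (Ham G U) (x, 0) = 0 := by
    refine ext_inner_right ℝ fun ξ => ?_
    rw [gx_ham hG hU hz, fderiv_U_zero hx hmax]
    simp
  simp [XF, h1, h2]

theorem equilibrium_fixed (hG : Met G) (hU : Pot U) (hφ : HFlow G U E v φ) {x : V}
    (hx : ‖x‖ = 1) (hmax : ∀ y : V, y ≠ 0 → U y ≤ U x) (hE : U x ≤ E) (t : ℝ) :
    φ t (x, 0) = (x, 0) := by
  have hz : ((x, 0) : V × V) ∈ N := ⟨hx, by simp⟩
  have hv : v (x, 0) = 0 := by
    rw [hφ.v_eq hz (by simpa [Ham] using hE), XF_equilibrium hG hU (unit_ne_zero hx) hmax]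
  have h1 := flow_unique v (hφ.vsmooth.of_le ENat.LEInfty.out) hφ.vsupp φ hφ.zero hφ.deriv
    (fun _ => (x, 0)) (min t 0) (max t 0) (min_le_right _ _) (le_max_right _ _) (fun s _ => by
      simp only [hv]
      exact hasDerivWithinAt_const _ _ _) t ⟨min_le_left _ _, le_max_left _ _⟩
  exact h1.symm

theorem ES_invariant (hG : Met G) (hU : Pot U) (hD : Reg U E D)
    (hφ : HFlow G U E v φ) : ∀ z ∈ ES G U E D, ∀ t, φ t z ∈ ES G U E D := by
  intro z hz t
  obtain ⟨hzN, hzD, hzE⟩ := hz
  have hN : ∀ t, φ t z ∈ N := fun t => hφ.mem t z hzN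
  have hE : ∀ t, Ham G U (φ t z) = E := fun t => (hφ.energy t z hzN).trans hzE
  have hcont : Continuous fun t => (φ t z).1 :=
    (hφ.cont.comp (continuous_id.prodMk continuous_const)).fst
  have hclopen : IsClopen {t | (φ t z).1 ∈ D} := by
    refine ⟨?_, hD.isOpen.preimage hcont⟩
    rw [← closure_subset_iff_isClosed]
    intro t₀ ht₀
    have h1 : (φ t₀ z).1 ∈ closure D :=
      map_mem_closure (f := fun t => (φ t z).1) hcont ht₀ (fun s hs => hs)
    by_contra hnot
    have hx1 : ‖(φ t₀ z).1‖ = 1 := (hN t₀).1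
    obtain ⟨h2, h3⟩ := hD.bdry _ h1 (unit_ne_zero hx1) hnot
    have h4 : (φ t₀ z).2 = 0 := by
      apply mom_zero hG hx1 (hN t₀).2
      have := hE t₀
      unfold Ham at this
      linarith
    have h5 : φ t₀ z = ((φ t₀ z).1, 0) := by rw [← h4]
    have h6 := equilibrium_fixed hG hU hφ hx1 (fun y hy => by rw [h2]; exact h3 y hy) h2.le (-t₀)
    rw [← h5, ← hφ.add, neg_add_cancel, hφ.zero] at h6
    apply hnot
    show (φ t₀ z).1 ∈ D
    rw [← h6]
    exact hzD
  have huniv : {t | (φ t z).1 ∈ D} = univ :=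
    hclopen.eq_univ ⟨0, by simp only [Set.mem_ofPred_eq, hφ.zero]; exact hzD⟩
  have : t ∈ {t | (φ t z).1 ∈ D} := by rw [huniv]; exact mem_univ _
  exact ⟨hN t, this, hE t⟩

theorem ES_ham {z : V × V} (hz : z ∈ ES G U E D) : Ham G U z = E := hz.2.2

theorem ES_N {z : V × V} (hz : z ∈ ES G U E D) : z ∈ N := hz.1

theorem ES_D {z : V × V} (hz : z ∈ ES G U E D) : z.1 ∈ D := hz.2.1

theorem obs_conserved (hG : Met G) (hU : Pot U) (hD : Reg U E D)
    (hφ : HFlow G U E v φ) {Q : V × V → ℝ} (hQ : Obs G U D Q) :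
    ∀ z ∈ ES G U E D, ∀ t, Q (φ t z) = Q z := by
  intro z hz t
  have hinv := ES_invariant hG hU hD hφ z hz
  have hder : ∀ s, HasDerivAt (fun s => Q (φ s z)) 0 s := by
    intro s
    have h1 : HasFDerivAt Q (fderiv ℝ Q (φ s z)) (φ s z) :=
      (hQ.basic.differentiableAt (N_Om (hinv s).1)).hasFDerivAt
    have h2 := h1.comp_hasDerivAt s (hφ.deriv z s)
    have h3 : fderiv ℝ Q (φ s z) (v (φ s z)) = 0 := by
      rw [hφ.v_eq (hinv s).1 (ES_ham (hinv s)).le]
      exact hQ.comm _ (ES_D (hinv s))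
    rw [h3] at h2
    exact h2
  have h4 := is_const_of_deriv_eq_zero (f := fun s => Q (φ s z))
    (fun s => (hder s).differentiableAt) (fun s => (hder s).deriv) t 0
  simp only [hφ.zero] at h4
  exact h4

/-- At a boundary equilibrium all brackets of observables vanish. -/
theorem br_boundary (hG : Met G)
    (hU : Pot U) (hD : Reg U E D) {Q Q' : V × V → ℝ} (hQ : Obs G U D Q) (hQ' : Obs G U D Q')
    {x : V} (hx1 : ‖x‖ = 1) (hx : x ∈ closure D) (hxD : x ∉ D) : br Q Q' (x, 0) = 0 := by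
  have hx0 : x ≠ 0 := unit_ne_zero hx1
  obtain ⟨hUx, hmax⟩ := hD.bdry x hx hx0 hxD
  have hmax' : ∀ y : V, y ≠ 0 → U y ≤ U x := fun y hy => by rw [hUx]; exact hmax y hy
  have key : ∀ {Q : V × V → ℝ}, Obs G U D Q → gx Q (x, 0) = 0 := by
    intro Q hQ
    have hB : Basic (br Q (Ham G U)) := hQ.basic.br (Basic.ham hG hU)
    -- the bracket vanishes over `x`
    have h1 : ∀ p : V, br Q (Ham G U) (x, p) = 0 := by
      intro p
      have hc : ContinuousAt (fun y : V => br Q (Ham G U) (y, p)) x := by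
        have hc1 : ContinuousAt (br Q (Ham G U)) (x, p) :=
          (hB.differentiableAt (z := (x, p)) hx0).continuousAt
        exact ContinuousAt.comp (f := fun y : V => ((y, p) : V × V)) hc1 (by fun_prop)
      have h2 : (fun y : V => br Q (Ham G U) (y, p)) x ∈ closure ({0} : Set ℝ) := by
        apply (hc.continuousWithinAt (s := D)).mem_closure hx
        intro y hy
        exact hQ.comm (y, p) hy
      simpa using h2
    have h3 : ∀ η : V, ⟪gx Q (x, 0), G x η⟫ = 0 := by
      intro η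
      have hcont : Continuous fun t : ℝ => ⟪gx Q (x, t • η), G x η⟫ -
          (1 / 2) * t * ⟪η, (fderiv ℝ G x (gp Q (x, t • η))) η⟫ := by
        have hgx : Continuous fun t : ℝ => gx Q (x, t • η) := by
          rw [continuous_iff_continuousAt]
          intro t
          have : ContinuousAt (gx Q) (x, t • η) :=
            ((contDiffOn_gx hQ.basic).continuousOn.continuousAt
              (isOpen_Om.mem_nhds (show ((x, t • η) : V × V) ∈ Om from hx0)))
          exact ContinuousAt.comp (f := fun t : ℝ => ((x, t • η) : V × V)) this (by fun_prop)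
        have hgp : Continuous fun t : ℝ => gp Q (x, t • η) := by
          rw [continuous_iff_continuousAt]
          intro t
          have : ContinuousAt (gp Q) (x, t • η) :=
            ((contDiffOn_gp hQ.basic).continuousOn.continuousAt
              (isOpen_Om.mem_nhds (show ((x, t • η) : V × V) ∈ Om from hx0)))
          exact ContinuousAt.comp (f := fun t : ℝ => ((x, t • η) : V × V)) this (by fun_prop)
        have hG' : Continuous fun t : ℝ => (fderiv ℝ G x (gp Q (x, t • η))) η :=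
          ((ContinuousLinearMap.apply ℝ V η).continuous.comp
            ((fderiv ℝ G x).continuous.comp hgp))
        fun_prop
      have hzero : (fun t : ℝ => ⟪gx Q (x, t • η), G x η⟫ -
          (1 / 2) * t * ⟪η, (fderiv ℝ G x (gp Q (x, t • η))) η⟫) = fun _ => 0 := by
        refine Continuous.ext_on (dense_compl_singleton (0 : ℝ)) hcont continuous_const ?_
        intro t ht
        have ht0 : t ≠ 0 := ht
        have h4 := h1 (t • η)
        rw [br_eq, gp_ham hG hU (z := (x, t • η)) hx0, real_inner_comm (gx (Ham G U) (x, t • η)),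
          gx_ham hG hU (z := (x, t • η)) hx0, fderiv_U_zero hx0 hmax'] at h4
        simp only [map_smul, inner_smul_left, inner_smul_right, conj_trivial,
          zero_apply, add_zero] at h4
        have h5 : t * (⟪gx Q (x, t • η), G x η⟫ -
          (1 / 2) * t * ⟪η, (fderiv ℝ G x (gp Q (x, t • η))) η⟫) = 0 := by
          linear_combination h4
        exact (mul_eq_zero.1 h5).resolve_left ht0
      have h6 := congrFun hzero 0
      simpa using h6
    have h7 : ⟪x, gx Q (x, 0)⟫ = 0 := by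
      have := hQ.basic.radial_x (z := (x, 0)) hx0
      simpa using this
    exact mom_zero hG hx1 h7 (h3 _).le
  rw [br_eq, key hQ, key hQ']
  simp

end SI

end Pool.Agent.Helper197
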