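import Pool.Agent.Helper197.Flow

open Set Topology
open scoped RealInnerProductSpace

noncomputable section

namespace Pool.Agent.Helper197

namespace SI


/-- linear algebra: a common kernel vector of the five covectors is a multiple of `XH` -/
theorem li_ker {G : V → V →L[ℝ] V} {U : V → ℝ} (hG : Met G) (hU : Pot U)
    {Q Q' : V × V → ℝ} (hQ : Basic Q) (hQ' : Basic Q') {y : V × V} (hy : y ∈ N) (hy0 : y.2 ≠ 0)
    (h1 : br Q (Ham G U) y = 0) (h2 : br Q' (Ham G U) y = 0) (h3 : br Q Q' y ≠ 0)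
    (ζ : V × V) (e1 : ⟪y.1, ζ.1⟫ = 0) (e2 : ⟪y.1, ζ.2⟫ + ⟪y.2, ζ.1⟫ = 0)
    (e3 : fderiv ℝ (Ham G U) y ζ = 0) (e4 : fderiv ℝ Q y ζ = 0) (e5 : fderiv ℝ Q' y ζ = 0) :
    XF (Ham G U) y ≠ 0 ∧ ∃ c : ℝ, ζ = c • XF (Ham G U) y := by
  obtain ⟨hn, hin⟩ := hy
  have hy1 : y.1 ≠ 0 := by
    intro h
    rw [h, norm_zero] at hn
    exact zero_ne_one hn
  have hyO : y ∈ Om := hy1
  have hH : Basic (Ham G U) := Basic.ham hG hU
  have hpar : ∀ c : ℝ, y.2 ≠ c • y.1 := by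
    intro c hc
    rw [hc, inner_smul_right, real_inner_self_eq_norm_sq, hn] at hin
    simp at hin
    rw [hin, zero_smul] at hc
    exact hy0 hc
  have hpos := hG.pos y.1 y.2 hy1 hpar
  have hgp := gp_ham hG hU hyO
  have hXne : XF (Ham G U) y ≠ 0 := by
    intro h
    have h' : gp (Ham G U) y = 0 := congrArg Prod.fst h
    rw [hgp] at h'
    rw [h', inner_zero_right] at hpos
    exact lt_irrefl _ hpos
  refine ⟨hXne, ?_⟩
  -- the linear map
  let Φ : (V × V) →ₗ[ℝ] (ℝ × ℝ × ℝ × ℝ × ℝ) :=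
    { toFun := fun w => (⟪y.1, w.1⟫, ⟪y.1, w.2⟫ + ⟪y.2, w.1⟫, fderiv ℝ (Ham G U) y w,
        fderiv ℝ Q y w, fderiv ℝ Q' y w)
      map_add' := by
        intro a b
        simp only [Prod.fst_add, Prod.snd_add, inner_add_right, map_add, Prod.mk_add_mk]
        congr 2
        ring
      map_smul' := by
        intro c a
        simp only [Prod.smul_fst, Prod.smul_snd, inner_smul_right, map_smul, RingHom.id_apply,
          Prod.smul_mk, smul_eq_mul]
        congr 2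
        ring }
  have hΦ : ∀ w, Φ w = (⟪y.1, w.1⟫, ⟪y.1, w.2⟫ + ⟪y.2, w.1⟫, fderiv ℝ (Ham G U) y w,
        fderiv ℝ Q y w, fderiv ℝ Q' y w) := fun w => rfl
  set κ := br Q Q' y with hκ
  -- values on the Hamiltonian fields
  have hXF : ∀ F : V × V → ℝ, Basic F → ⟪y.1, (XF F y).1⟫ = 0 ∧
      ⟪y.1, (XF F y).2⟫ + ⟪y.2, (XF F y).1⟫ = 0 := by
    intro F hF
    have a1 := hF.radial_p hyO
    have a2 := hF.radial_x hyO
    unfold XF
    refine ⟨a1, ?_⟩
    simp only [inner_neg_right]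
    rw [a2]; ring
  have hbr : ∀ F K : V × V → ℝ, fderiv ℝ F y (XF K y) = br F K y := fun _ _ => rfl
  have hself : ∀ F : V × V → ℝ, br F F y = 0 := by
    intro F
    have := br_antisymm F F y
    linarith
  have v1 : Φ (XF Q' y) = (0, 0, 0, κ, 0) := by
    rw [hΦ, (hXF Q' hQ').1, (hXF Q' hQ').2, hbr, hbr, hbr, hself, br_antisymm, h2, neg_zero]
  have v2 : Φ (XF Q y) = (0, 0, 0, 0, -κ) := by
    rw [hΦ, (hXF Q hQ).1, (hXF Q hQ).2, hbr, hbr, hbr, hself, br_antisymm, h1, neg_zero,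
      br_antisymm Q' Q]
  have hrad : ∀ F : V × V → ℝ, Basic F → fderiv ℝ F y (0, y.1) = 0 := by
    intro F hF
    rw [← inner_gp, real_inner_comm]
    exact hF.radial_p hyO
  have hrad2 : ∀ F : V × V → ℝ, Basic F → fderiv ℝ F y (y.1, -y.2) = 0 := by
    intro F hF
    rw [fderiv_eq_gx_gp]
    simp only [inner_neg_right]
    rw [real_inner_comm y.1, real_inner_comm y.2, hF.radial_x hyO]
    ring
  have hyy : ⟪y.1, y.1⟫ = 1 := by rw [real_inner_self_eq_norm_sq, hn]; norm_num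
  have v3 : Φ (0, y.1) = (0, 1, 0, 0, 0) := by
    rw [hΦ, hrad _ hH, hrad _ hQ, hrad _ hQ']
    simp [hn]
  have v4 : Φ (y.1, -y.2) = (1, 0, 0, 0, 0) := by
    rw [hΦ, hrad2 _ hH, hrad2 _ hQ, hrad2 _ hQ']
    simp [hn, real_inner_comm]
  have v5 : Φ (0, y.2) = (0, 0, ⟪y.2, G y.1 y.2⟫, fderiv ℝ Q y (0, y.2),
      fderiv ℝ Q' y (0, y.2)) := by
    rw [hΦ, ← inner_gp (Ham G U), hgp]
    simp [hin, real_inner_comm]
  set η := ⟪y.2, G y.1 y.2⟫ with hη
  have hsurj : Function.Surjective Φ := by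
    rintro ⟨t1, t2, t3, t4, t5⟩
    refine ⟨t1 • (y.1, -y.2) + t2 • ((0 : V), y.1) + (t3 / η) • ((0 : V), y.2) +
      ((t4 - (t3 / η) * fderiv ℝ Q y (0, y.2)) / κ) • XF Q' y -
      ((t5 - (t3 / η) * fderiv ℝ Q' y (0, y.2)) / κ) • XF Q y, ?_⟩
    rw [map_sub, map_add, map_add, map_add, map_smul, map_smul, map_smul, map_smul, map_smul,
      v1, v2, v3, v4, v5]
    simp only [Prod.smul_mk, smul_eq_mul, Prod.mk_add_mk, Prod.mk_sub_mk]
    refine Prod.ext ?_ (Prod.ext ?_ (Prod.ext ?_ (Prod.ext ?_ ?_)))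
    · simp
    · simp
    · simp
      field_simp
    · simp
      field_simp
      ring
    · simp
      field_simp
      ring
  have hrank := LinearMap.finrank_range_add_finrank_ker Φ
  rw [LinearMap.range_eq_top.2 hsurj, finrank_top] at hrank
  have hd1 : Module.finrank ℝ (ℝ × ℝ × ℝ × ℝ × ℝ) = 5 := by simp
  have hd2 : Module.finrank ℝ (V × V) = 6 := by simp [V]
  rw [hd1, hd2] at hrank
  have hker : Module.finrank ℝ (LinearMap.ker Φ) = 1 := by omega
  have hXker : XF (Ham G U) y ∈ LinearMap.ker Φ := by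
    rw [LinearMap.mem_ker, hΦ, (hXF _ hH).1, (hXF _ hH).2, hbr, hbr, hbr, hself, h1, h2]
    rfl
  have hζker : ζ ∈ LinearMap.ker Φ := by
    rw [LinearMap.mem_ker, hΦ, e1, e2, e3, e4, e5]
    rfl
  have hne : (⟨XF (Ham G U) y, hXker⟩ : LinearMap.ker Φ) ≠ 0 := by
    intro h
    exact hXne (congrArg Subtype.val h)
  obtain ⟨c, hc⟩ := (finrank_eq_one_iff_of_nonzero' _ hne).1 hker ⟨ζ, hζker⟩
  refine ⟨c, ?_⟩
  have := congrArg Subtype.val hc
  exact this.symm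


/-- strict derivative of the five integrals and the transversal coordinate -/
theorem li_inj {G : V → V →L[ℝ] V} {U : V → ℝ} (hG : Met G) (hU : Pot U)
    {Q Q' : V × V → ℝ} (hQ : Basic Q) (hQ' : Basic Q') {y : V × V} (hy : y ∈ N) (hy0 : y.2 ≠ 0)
    (h1 : br Q (Ham G U) y = 0) (h2 : br Q' (Ham G U) y = 0) (h3 : br Q Q' y ≠ 0)
    (l : (V × V) →L[ℝ] ℝ) (hl : l (XF (Ham G U) y) = 1) :
    ∃ ρ > 0, ∀ a ∈ N, ∀ b ∈ N, dist a y < ρ → dist b y < ρ → Ham G U a = Ham G U b →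
      Q a = Q b → Q' a = Q' b → l a = l b → a = b := by
  have hy1 : y.1 ≠ 0 := by
    intro h
    have := hy.1
    rw [h, norm_zero] at this
    exact zero_ne_one this
  have hyO : y ∈ Om := hy1
  have hH : Basic (Ham G U) := Basic.ham hG hU
  have hst : ∀ F : V × V → ℝ, Basic F → HasStrictFDerivAt F (fderiv ℝ F y) y := by
    intro F hF
    exact (hF.smooth.contDiffAt (isOpen_Om.mem_nhds hyO)).hasStrictFDerivAt (by simp)
  let f1 : V × V → ℝ := fun z => ⟪z.1, z.1⟫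
  let f2 : V × V → ℝ := fun z => ⟪z.1, z.2⟫
  have hf1 : HasStrictFDerivAt f1 (fderiv ℝ f1 y) y := by
    have : ContDiff ℝ 1 f1 := contDiff_fst.inner ℝ contDiff_fst
    exact this.contDiffAt.hasStrictFDerivAt (by simp)
  have hf2 : HasStrictFDerivAt f2 (fderiv ℝ f2 y) y := by
    have : ContDiff ℝ 1 f2 := contDiff_fst.inner ℝ contDiff_snd
    exact this.contDiffAt.hasStrictFDerivAt (by simp)
  have hf1' : ∀ ζ : V × V, fderiv ℝ f1 y ζ = 2 * ⟪y.1, ζ.1⟫ := by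
    intro ζ
    have h : HasFDerivAt f1 _ y := hasFDerivAt_fst.inner ℝ hasFDerivAt_fst
    rw [h.fderiv]
    simp [real_inner_comm]
    ring
  have hf2' : ∀ ζ : V × V, fderiv ℝ f2 y ζ = ⟪y.1, ζ.2⟫ + ⟪y.2, ζ.1⟫ := by
    intro ζ
    have h : HasFDerivAt f2 _ y := hasFDerivAt_fst.inner ℝ hasFDerivAt_snd
    rw [h.fderiv]
    simp [real_inner_comm]
  let Ψ : (V × V) →L[ℝ] (ℝ × ℝ × ℝ × ℝ × ℝ × ℝ) :=
    (fderiv ℝ f1 y).prod ((fderiv ℝ f2 y).prod ((fderiv ℝ (Ham G U) y).prod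
      ((fderiv ℝ Q y).prod ((fderiv ℝ Q' y).prod l))))
  let M : V × V → (ℝ × ℝ × ℝ × ℝ × ℝ × ℝ) := fun z => (f1 z, f2 z, Ham G U z, Q z, Q' z, l z)
  have hM : HasStrictFDerivAt M Ψ y :=
    hf1.prodMk (hf2.prodMk ((hst _ hH).prodMk ((hst _ hQ).prodMk ((hst _ hQ').prodMk
      l.hasStrictFDerivAt))))
  have hker : LinearMap.ker (Ψ : (V × V) →ₗ[ℝ] (ℝ × ℝ × ℝ × ℝ × ℝ × ℝ)) = ⊥ := by
    rw [LinearMap.ker_eq_bot']
    intro ζ hζ
    have hζ' : (fderiv ℝ f1 y ζ, fderiv ℝ f2 y ζ, fderiv ℝ (Ham G U) y ζ, fderiv ℝ Q y ζ,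
      fderiv ℝ Q' y ζ, l ζ) = (0 : ℝ × ℝ × ℝ × ℝ × ℝ × ℝ) := hζ
    simp only [Prod.mk_eq_zero] at hζ'
    obtain ⟨e1, e2, e3, e4, e5, e6⟩ := hζ'
    rw [hf1'] at e1
    rw [hf2'] at e2
    obtain ⟨hX, c, hc⟩ := li_ker hG hU hQ hQ' hy hy0 h1 h2 h3 ζ (by linarith) e2 e3 e4 e5
    rw [hc, map_smul, hl, smul_eq_mul, mul_one] at e6
    rw [hc, e6, zero_smul]
  obtain ⟨K, hK, hanti⟩ := LinearMap.exists_antilipschitzWith _ hker
  have hK' : (0 : ℝ) < K := hK
  have hbd := hM.isLittleO.def (show (0 : ℝ) < 1 / (2 * K) by positivity)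
  rw [Metric.eventually_nhds_iff] at hbd
  obtain ⟨ρ, hρ, hbd⟩ := hbd
  refine ⟨ρ, hρ, fun a ha b hb hay hby eH eQ eQ' el => ?_⟩
  have hab : dist (a, b) (y, y) < ρ := by
    rw [Prod.dist_eq]
    exact max_lt hay hby
  have h4 := hbd hab
  have hMab : M a = M b := by
    have g1 : f1 a = f1 b := by
      show ⟪a.1, a.1⟫ = ⟪b.1, b.1⟫
      rw [real_inner_self_eq_norm_sq, real_inner_self_eq_norm_sq, ha.1, hb.1]
    have g2 : f2 a = f2 b := by
      show ⟪a.1, a.2⟫ = ⟪b.1, b.2⟫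
      rw [ha.2, hb.2]
    show (f1 a, f2 a, Ham G U a, Q a, Q' a, l a) = (f1 b, f2 b, Ham G U b, Q b, Q' b, l b)
    rw [g1, g2, eH, eQ, eQ', el]
  simp only [hMab, sub_self, zero_sub, norm_neg] at h4
  have h5 := hanti.le_mul_dist a b
  rw [dist_eq_norm, dist_eq_norm] at h5
  have h6 : ((Ψ : (V × V) →ₗ[ℝ] (ℝ × ℝ × ℝ × ℝ × ℝ × ℝ)) a - (Ψ : (V × V) →ₗ[ℝ] (ℝ × ℝ × ℝ × ℝ × ℝ × ℝ)) b) =
      Ψ (a - b) := by
    rw [map_sub]; rfl
  rw [h6] at h5
  have h7 : ‖a - b‖ ≤ K * (1 / (2 * K) * ‖a - b‖) := h5.trans (mul_le_mul_of_nonneg_left h4 hK'.le)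
  have h8 : (K : ℝ) * (1 / (2 * K) * ‖a - b‖) = ‖a - b‖ / 2 := by field_simp
  rw [h8] at h7
  have h9 : ‖a - b‖ = 0 := by
    have := norm_nonneg (a - b)
    linarith
  exact sub_eq_zero.1 (norm_eq_zero.1 h9)

/-- conservation along the flow as long as the bracket vanishes -/
theorem li_cons {v : V × V → V × V} {φ : ℝ → V × V → V × V} (F H : V × V → ℝ)
    (hderiv : ∀ z t, HasDerivAt (fun s => φ s z) (v (φ t z)) t)
    (z : V × V) (r : ℝ) (hr : 0 < r)
    (hv : ∀ t, |t| < r → v (φ t z) = XF H (φ t z))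
    (hF : ∀ t, |t| < r → DifferentiableAt ℝ F (φ t z))
    (hb : ∀ t, |t| < r → br F H (φ t z) = 0) (h0 : φ 0 z = z) :
    ∀ t, |t| < r → F (φ t z) = F z := by
  intro t ht
  have hd : ∀ s ∈ Ioo (-r) r, HasDerivAt (fun s => F (φ s z)) 0 s := by
    intro s hs
    have hs' : |s| < r := abs_lt.2 hs
    have h := (hF s hs').hasFDerivAt.comp_hasDerivAt s (hderiv z s)
    have e : fderiv ℝ F (φ s z) (v (φ s z)) = 0 := by
      rw [hv s hs']
      exact hb s hs'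
    rw [e] at h
    exact h
  have h1 := isOpen_Ioo.is_const_of_deriv_eq_zero (isPreconnected_Ioo (a := -r) (b := r))
    (f := fun s => F (φ s z)) (fun s hs => (hd s hs).differentiableAt.differentiableWithinAt)
    (fun s hs => (hd s hs).deriv) (abs_lt.1 ht) (show (0 : ℝ) ∈ Ioo (-r) r from ⟨by linarith, hr⟩)
  simp only [h0] at h1
  exact h1


theorem local_inj {G : V → V →L[ℝ] V} {U : V → ℝ} {E : ℝ}
    {v : V × V → V × V} {φ : ℝ → V × V → V × V} (hG : Met G) (hU : Pot U)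
    (hφ : HFlow G U E v φ) {Q Q' : V × V → ℝ} (hQ : Basic Q) (hQ' : Basic Q')
    {y : V × V} (hy : y ∈ N) (hyE : Ham G U y ≤ E) (hy0 : y.2 ≠ 0)
    (h1 : ∀ᶠ z in 𝓝 y, br Q (Ham G U) z = 0) (h2 : ∀ᶠ z in 𝓝 y, br Q' (Ham G U) z = 0)
    (h3 : br Q Q' y ≠ 0)
    {ε : ℝ} (hε : 0 < ε) :
    ∃ δ > 0, ∀ z' ∈ N, ∀ z'' ∈ N, dist z' y < δ → dist z'' y < δ →
      Ham G U z' = Ham G U z'' → Q z' = Q z'' → Q' z' = Q' z'' → ∃ r, |r| < ε ∧ z'' = φ r z' := by
  have hy1 : y.1 ≠ 0 := by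
    intro h
    have := hy.1
    rw [h, norm_zero] at this
    exact zero_ne_one this
  have hyO : y ∈ Om := hy1
  have hH : Basic (Ham G U) := Basic.ham hG hU
  have h1y := h1.self_of_nhds
  have h2y := h2.self_of_nhds
  have hXne := (li_ker hG hU hQ hQ' hy hy0 h1y h2y h3 0 (by simp) (by simp) (by simp) (by simp)
    (by simp)).1
  obtain ⟨l, hl⟩ := SeparatingDual.exists_eq_one (R := ℝ) hXne
  obtain ⟨ρ, hρ, hinj⟩ := li_inj hG hU hQ hQ' hy hy0 h1y h2y h3 l hl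
  have hveq := hφ.veq y hy hyE
  have hvy : l (v y) = 1 := by rw [hveq.self_of_nhds, hl]
  have hcontl : Continuous fun z => l (v z) := l.continuous.comp hφ.vsmooth.continuous
  have hlbig : ∀ᶠ z in 𝓝 y, 1 / 2 < l (v z) := by
    have := hcontl.tendsto y
    rw [hvy] at this
    exact this.eventually_const_lt (by norm_num)
  have hball : ∀ᶠ z in 𝓝 y, dist z y < ρ := Metric.ball_mem_nhds y hρ
  have hOm : ∀ᶠ z in 𝓝 y, z ∈ Om := isOpen_Om.mem_nhds hyO
  have hall := ((hveq.and hlbig).and (hball.and hOm)).and (h1.and h2)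
  -- continuity of the flow at (0, y)
  have hc : Filter.Tendsto (fun q : ℝ × (V × V) => φ q.1 q.2) (𝓝 ((0 : ℝ), y)) (𝓝 y) := by
    have := hφ.cont.tendsto ((0 : ℝ), y)
    simpa only [hφ.zero] using this
  have hall2 := hc.eventually hall
  rw [Metric.eventually_nhds_iff] at hall2
  obtain ⟨r1, hr1, hall3⟩ := hall2
  -- good: for |t| < r1, dist z y < r1
  have hgood : ∀ t : ℝ, |t| < r1 → ∀ z, dist z y < r1 →
      (((v (φ t z) = XF (Ham G U) (φ t z)) ∧ 1 / 2 < l (v (φ t z))) ∧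
        (dist (φ t z) y < ρ ∧ φ t z ∈ Om)) ∧ (br Q (Ham G U) (φ t z) = 0 ∧
          br Q' (Ham G U) (φ t z) = 0) := by
    intro t ht z hz
    apply hall3 (y := (t, z))
    rw [Prod.dist_eq]
    apply max_lt _ hz
    rwa [Real.dist_eq, sub_zero]
  set r0 := min (r1 / 2) (ε / 2) with hr0
  have hr0pos : 0 < r0 := by positivity
  have hr0r1 : r0 < r1 := by
    have := min_le_left (r1 / 2) (ε / 2)
    linarith
  have hr0ε : r0 < ε := by
    have := min_le_right (r1 / 2) (ε / 2)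
    linarith
  -- closeness of l
  have hlc : ∀ᶠ z in 𝓝 y, |l z - l y| < r0 / 4 := by
    have := l.continuous.tendsto y
    exact (Metric.tendsto_nhds.1 this (r0 / 4) (by positivity))
  rw [Metric.eventually_nhds_iff] at hlc
  obtain ⟨δ2, hδ2, hlc⟩ := hlc
  refine ⟨min (min r1 ρ) δ2, by positivity, fun z' hz' z'' hz'' hd' hd'' eH eQ eQ' => ?_⟩
  rw [lt_min_iff, lt_min_iff] at hd' hd''
  obtain ⟨⟨hd1, hd2⟩, hd3⟩ := hd'
  obtain ⟨⟨hd1', hd2'⟩, hd3'⟩ := hd''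
  have hlz : |l z'' - l z'| < r0 / 2 := by
    have a1 := abs_lt.1 (hlc hd3)
    have a2 := abs_lt.1 (hlc hd3')
    rw [abs_lt]
    constructor <;> linarith [a1.1, a1.2, a2.1, a2.2]
  -- the function g
  let g : ℝ → ℝ := fun t => l (φ t z')
  have hgd : ∀ t, HasDerivAt g (l (v (φ t z'))) t := by
    intro t
    exact l.hasFDerivAt.comp_hasDerivAt t (hφ.deriv z' t)
  have hgc : Continuous g := by
    rw [continuous_iff_continuousAt]
    exact fun t => (hgd t).continuousAt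
  have hg0 : g 0 = l z' := by simp only [g, hφ.zero]
  have hmono : ∀ s t : ℝ, s ∈ Icc (-r0) r0 → t ∈ Icc (-r0) r0 → s ≤ t →
      (1 / 2) * (t - s) ≤ g t - g s := by
    intro s t hs ht hst
    apply (convex_Icc (-r0) r0).mul_sub_le_image_sub_of_le_deriv hgc.continuousOn
      (fun u _ => (hgd u).differentiableAt.differentiableWithinAt) _ s hs t ht hst
    intro u hu
    rw [interior_Icc] at hu
    rw [(hgd u).deriv]
    have hu' : |u| < r1 := by
      rw [abs_lt]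
      constructor <;> linarith [hu.1, hu.2]
    exact (hgood u hu' z' hd1).1.1.2.le
  have hup := hmono 0 r0 ⟨by linarith, hr0pos.le⟩ ⟨by linarith, le_rfl⟩ hr0pos.le
  have hlo := hmono (-r0) 0 ⟨le_rfl, by linarith⟩ ⟨by linarith, hr0pos.le⟩ (by linarith)
  rw [hg0] at hup hlo
  have hlz' := abs_lt.1 hlz
  have hmem : l z'' ∈ Icc (g (-r0)) (g r0) := by
    constructor <;> linarith [hlz'.1, hlz'.2]
  obtain ⟨r, hr, hgr⟩ := intermediate_value_Icc (by linarith : -r0 ≤ r0) hgc.continuousOn hmem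
  have hrr0 : |r| ≤ r0 := abs_le.2 hr
  have hrr1 : |r| < r1 := lt_of_le_of_lt hrr0 hr0r1
  refine ⟨r, lt_of_le_of_lt hrr0 hr0ε, ?_⟩
  have hcons : ∀ F : V × V → ℝ, Basic F → (∀ t, |t| < r1 → br F (Ham G U) (φ t z') = 0) →
      F (φ r z') = F z' := by
    intro F hF hb
    exact li_cons F (Ham G U) hφ.deriv z' r1 hr1 (fun t ht => (hgood t ht z' hd1).1.1.1)
      (fun t ht => hF.differentiableAt (hgood t ht z' hd1).1.2.2) hb (hφ.zero z') r hrr1
  have cQ := hcons Q hQ (fun t ht => (hgood t ht z' hd1).2.1)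
  have cQ' := hcons Q' hQ' (fun t ht => (hgood t ht z' hd1).2.2)
  have cH := hφ.energy r z' hz'
  apply hinj z'' hz'' (φ r z') (hφ.mem r z' hz') hd2' (hgood r hrr1 z' hd1).1.2.1
  · rw [cH, eH]
  · rw [cQ, eQ]
  · rw [cQ', eQ']
  · exact hgr.symm

theorem periodic_of_br_ne_zero {G : V → V →L[ℝ] V} {U : V → ℝ} {E : ℝ} {D : Set V}
    {v : V × V → V × V} {φ : ℝ → V × V → V × V} (hG : Met G) (hU : Pot U) (hD : Reg U E D)
    (hφ : HFlow G U E v φ) {Q Q' : V × V → ℝ} (hQ : Obs G U D Q) (hQ' : Obs G U D Q') :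
    ∀ z ∈ ES G U E D, br Q Q' z ≠ 0 → ∃ T₀ > 0, φ T₀ z = z := by
  intro z hz hbr
  have hH : Basic (Ham G U) := Basic.ham hG hU
  set K := SI.br Q Q' with hK
  have hKB : Basic K := hQ.basic.br hQ'.basic
  have hKcomm : ∀ w : V × V, w.1 ∈ D → SI.br K (Ham G U) w = 0 := by
    have hO : IsOpen {w : V × V | w.1 ∈ D} := hD.isOpen.preimage continuous_fst
    exact br_br_zero hQ.basic hQ'.basic hH hO (fun w hw => hD.ne_zero _ hw)
      (fun w hw => hQ.comm w hw) (fun w hw => hQ'.comm w hw)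
  -- momentum facts on the energy surface
  have hmom : ∀ w : V × V, w ∈ N → w.1 ∈ D → Ham G U w = E → w.2 ≠ 0 := by
    intro w _ hwD hwE h0
    unfold Ham at hwE
    rw [h0] at hwE
    have := hD.lt _ hwD
    simp at hwE
    linarith
  have hposN : ∀ w : V × V, w ∈ N → w.2 ≠ 0 → 0 < ⟪w.2, G w.1 w.2⟫ := by
    intro w hw hw0
    obtain ⟨hn, hin⟩ := hw
    have hw1 : w.1 ≠ 0 := by
      intro h
      rw [h, norm_zero] at hn
      exact zero_ne_one hn
    apply hG.pos w.1 w.2 hw1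
    intro c hc
    rw [hc, inner_smul_right, real_inner_self_eq_norm_sq, hn] at hin
    simp at hin
    rw [hin, zero_smul] at hc
    exact hw0 hc
  have hNO : ∀ w : V × V, w ∈ N → w ∈ Om := by
    intro w hw h
    have := hw.1
    rw [h, norm_zero] at this
    exact zero_ne_one this
  have hinv := ES_invariant hG hU hD hφ z hz
  have hKcons : ∀ t, K (φ t z) = K z := by
    intro t
    apply li_cons K (Ham G U) hφ.deriv z (|t| + 1) (by positivity) _ _ _ (hφ.zero z) t (by linarith)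
    · intro s _
      obtain ⟨a1, a2, a3⟩ := hinv s
      exact (hφ.veq _ a1 a3.le).self_of_nhds
    · intro s _
      exact hKB.differentiableAt (hNO _ (hinv s).1)
    · intro s _
      exact hKcomm _ (hinv s).2.1
  -- the orbit stays in a compact set
  have hmemK : ∀ n : ℕ, φ (n : ℝ) z ∈ tsupport v := by
    intro n
    apply subset_tsupport
    rw [Function.mem_support]
    obtain ⟨a1, a2, a3⟩ := hinv n
    rw [(hφ.veq _ a1 a3.le).self_of_nhds]
    intro h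
    have h' : gp (Ham G U) (φ n z) = 0 := congrArg Prod.fst h
    rw [gp_ham hG hU (hNO _ a1)] at h'
    have := hposN _ a1 (hmom _ a1 a2 a3)
    rw [h', inner_zero_right] at this
    exact lt_irrefl _ this
  obtain ⟨y, _, ψ, hψ, hlim⟩ := IsCompact.tendsto_subseq hφ.vsupp hmemK
  have hNclosed : IsClosed N := by
    have h1 : IsClosed {z : V × V | ‖z.1‖ = 1} :=
      isClosed_eq (continuous_norm.comp continuous_fst) continuous_const
    have h2 : IsClosed {z : V × V | ⟪z.1, z.2⟫ = 0} :=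
      isClosed_eq (continuous_fst.inner continuous_snd) continuous_const
    exact h1.inter h2
  have hyN : y ∈ N := hNclosed.mem_of_tendsto hlim (Filter.Eventually.of_forall fun n => (hinv _).1)
  have hyO := hNO y hyN
  have hcontAt : ∀ F : V × V → ℝ, Basic F → ContinuousAt F y := fun F hF =>
    (hF.differentiableAt hyO).continuousAt
  have hyE : Ham G U y = E := by
    have h1 := (hcontAt _ hH).tendsto.comp hlim
    have h2 : (Ham G U ∘ ((fun n : ℕ => φ (n : ℝ) z) ∘ ψ)) = fun _ => E := by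
      funext n
      exact (hinv _).2.2
    rw [h2] at h1
    exact tendsto_nhds_unique h1 tendsto_const_nhds |>.symm ▸ rfl
  have hyK : K y ≠ 0 := by
    have h1 := (hcontAt _ hKB).tendsto.comp hlim
    have h2 : (K ∘ ((fun n : ℕ => φ (n : ℝ) z) ∘ ψ)) = fun _ => K z := by
      funext n
      exact hKcons _
    rw [h2] at h1
    rw [tendsto_nhds_unique h1 tendsto_const_nhds]
    exact hbr
  have hycl : y.1 ∈ closure D := by
    have h1 : Filter.Tendsto (fun n => (φ ((ψ n : ℕ) : ℝ) z).1) Filter.atTop (𝓝 y.1) :=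
      (continuous_fst.tendsto y).comp hlim
    exact mem_closure_of_tendsto h1 (Filter.Eventually.of_forall fun n => (hinv _).2.1)
  have hyD : y.1 ∈ D := by
    by_contra hyD
    have hb := (hD.bdry y.1 hycl hyO hyD).1
    have hy2 : y.2 = 0 := by
      by_contra h0
      have h1 := hposN y hyN h0
      unfold Ham at hyE
      linarith
    have h3 := br_boundary hG hU hD hQ hQ' hyN.1 hycl hyD
    apply hyK
    rw [hK]
    have : y = (y.1, 0) := Prod.ext rfl hy2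
    rw [this]
    exact h3
  have hy0 := hmom y hyN hyD hyE
  have hev : ∀ᶠ w : V × V in 𝓝 y, w.1 ∈ D :=
    continuous_fst.continuousAt.eventually (hD.isOpen.mem_nhds hyD)
  obtain ⟨δ, hδ, hloc⟩ := local_inj hG hU hφ hQ.basic hQ'.basic hyN hyE.le hy0
    (hev.mono fun w hw => hQ.comm w hw) (hev.mono fun w hw => hQ'.comm w hw) hyK
    (show (0 : ℝ) < 1 / 2 by norm_num)
  obtain ⟨n0, hn0⟩ := Metric.tendsto_atTop.1 hlim δ hδ
  have ha := hn0 n0 le_rfl
  have hb := hn0 (n0 + 1) (by omega)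
  simp only [Function.comp_apply] at ha hb
  set n1 := ψ n0 with hn1
  set n2 := ψ (n0 + 1) with hn2
  have hlt : n1 < n2 := hψ (by omega)
  have eH : Ham G U (φ n1 z) = Ham G U (φ n2 z) := by rw [(hinv _).2.2, (hinv _).2.2]
  have eQ : Q (φ n1 z) = Q (φ n2 z) := by
    rw [obs_conserved hG hU hD hφ hQ z hz, obs_conserved hG hU hD hφ hQ z hz]
  have eQ' : Q' (φ n1 z) = Q' (φ n2 z) := by
    rw [obs_conserved hG hU hD hφ hQ' z hz, obs_conserved hG hU hD hφ hQ' z hz]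
  obtain ⟨r, hr, hre⟩ := hloc _ (hinv _).1 _ (hinv _).1 ha hb eH eQ eQ'
  refine ⟨(n2 : ℝ) - n1 - r, ?_, ?_⟩
  · have h1 : (n1 : ℝ) + 1 ≤ n2 := by exact_mod_cast hlt
    have h2 := (abs_lt.1 hr).2
    linarith
  · rw [← hφ.add] at hre
    have h1 : φ (-(r + n1)) (φ n2 z) = φ (-(r + n1)) (φ (r + n1) z) := by rw [hre]
    rw [← hφ.add, ← hφ.add, neg_add_cancel, hφ.zero] at h1
    have h2 : (n2 : ℝ) - n1 - r = -(r + n1) + n2 := by ring
    rw [h2]
    exact h1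

end SI

end Pool.Agent.Helper197
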