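import Pool.Agent.Helper197.Inj
import Pool.Agent.Helper197.Cut

open Set Topology
open scoped RealInnerProductSpace

noncomputable section

namespace Pool.Agent.Helper197

namespace SI


/-- local dynamics of an observable near a `T₀`-periodic point of the energy surface -/
theorem aux_obs {G : V → V →L[ℝ] V} {U : V → ℝ} {E : ℝ} {D : Set V}
    {v : V × V → V × V} {φ : ℝ → V × V → V × V} (hG : Met G) (hU : Pot U) (hD : Reg U E D)
    (hφ : HFlow G U E v φ) {F : V × V → ℝ} (hF : Obs G U D F) (z : V × V)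
    (hz : z ∈ ES G U E D) (T₀ : ℝ) :
    ∃ ψ : ℝ → V × V → V × V, (∀ y, ψ 0 y = y) ∧
      Continuous (fun q : ℝ × (V × V) => ψ q.1 q.2) ∧
      HasStrictFDerivAt (fun q : ℝ × (V × V) => ψ q.1 q.2)
        ((ContinuousLinearMap.toSpanSingleton ℝ (XF F z)).coprod
          (ContinuousLinearMap.id ℝ (V × V))) ((0 : ℝ), z) ∧
      ∃ δ > 0, ∀ s y, |s| < δ → dist y z < δ → y ∈ ES G U E D →
        ψ s y ∈ ES G U E D ∧ (φ T₀ y = y → φ T₀ (ψ s y) = ψ s y) := by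
  obtain ⟨hzN, hzD, hzE⟩ := hz
  have hφz : Continuous fun t => φ t z := hφ.cont.comp (continuous_id.prodMk continuous_const)
  -- a bound for the momenta
  obtain ⟨C, hC⟩ := (isCompact_uIcc (a := (0:ℝ)) (b := T₀)).exists_bound_of_continuousOn
    (f := fun t => (φ t z).2) (continuous_snd.comp hφz).continuousOn
  obtain ⟨w, hwS, hwC, hweq, hwN⟩ := exists_cutField hF.basic (C + 1)
  have hw2 : ContDiff ℝ 2 w := hwS.of_le (show ((2:ℕ∞) : WithTop ℕ∞) ≤ _ from WithTop.coe_le_coe.2 le_top)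
  have hv2 : ContDiff ℝ 2 v := hφ.vsmooth.of_le (show ((2:ℕ∞) : WithTop ℕ∞) ≤ _ from WithTop.coe_le_coe.2 le_top)
  obtain ⟨ψ, hψ0, hψd, hψadd, -, hψcont, hψstrict⟩ := exists_global_flow w hw2 hwC
  let O : Set (V × V) := {y | v =ᶠ[𝓝 y] XF (Ham G U)} ∩ {y | w =ᶠ[𝓝 y] XF F} ∩ {y | y.1 ∈ D}
  have hO : IsOpen O := by
    refine (IsOpen.inter ?_ ?_).inter (hD.isOpen.preimage continuous_fst)
    · exact isOpen_setOfPred_eventually_nhds
    · exact isOpen_setOfPred_eventually_nhds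
  have hOm : O ⊆ Om := fun y hy => hD.ne_zero _ hy.2
  have hmem : ∀ t, φ t z ∈ ES G U E D := ES_invariant hG hU hD hφ z ⟨hzN, hzD, hzE⟩
  have hΓ : ∀ t ∈ uIcc 0 T₀, φ t z ∈ O := by
    intro t ht
    have h1 := hmem t
    refine ⟨⟨hφ.veq _ h1.1 h1.2.2.le, ?_⟩, h1.2.1⟩
    apply hweq
    · rw [h1.1.1]; norm_num
    · rw [h1.1.1]; norm_num
    · have := hC t ht
      linarith
  -- commuting vector fields on O
  have hbr : ∀ y ∈ O, fderiv ℝ v y (w y) = fderiv ℝ w y (v y) := by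
    intro y hy
    have h1 := XF_comm (hF.basic) (Basic.ham hG hU) hO hOm (fun y hy => hF.comm y hy.2) y hy
    have h2 : v =ᶠ[𝓝 y] XF (Ham G U) := hy.1.1
    have h3 : w =ᶠ[𝓝 y] XF F := hy.1.2
    rw [h2.fderiv_eq, h3.fderiv_eq, h2.eq_of_nhds, h3.eq_of_nhds]
    exact h1.symm
  -- the tube
  have htube : ∀ᶠ q : ℝ × (V × V) in 𝓝 ((0 : ℝ), z), ∀ t ∈ uIcc 0 T₀, ψ q.1 (φ t q.2) ∈ O := by
    refine (isCompact_uIcc (a := (0:ℝ)) (b := T₀)).eventually_forall_of_forall_eventually ?_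
    intro t ht
    have hc : Continuous fun r : (ℝ × (V × V)) × ℝ => ψ r.1.1 (φ r.2 r.1.2) := by
      have h1 : Continuous fun r : (ℝ × (V × V)) × ℝ => φ r.2 r.1.2 :=
        hφ.cont.comp (continuous_snd.prodMk (continuous_snd.comp continuous_fst))
      exact hψcont.comp ((continuous_fst.comp continuous_fst).prodMk h1)
    have h2 : ψ (((0 : ℝ), z), t).1.1 (φ (((0 : ℝ), z), t).2 (((0 : ℝ), z), t).1.2) ∈ O := by
      show ψ 0 (φ t z) ∈ O
      rw [hψ0]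
      exact hΓ t ht
    exact hc.continuousAt.eventually_mem (hO.mem_nhds h2)
  obtain ⟨δ, hδ, hδt⟩ := Metric.eventually_nhds_iff.1 htube
  have hδt' : ∀ s y, |s| < δ → dist y z < δ → ∀ t ∈ uIcc 0 T₀, ψ s (φ t y) ∈ O := by
    intro s y hs hy
    refine hδt (y := (s, y)) ?_
    rw [Prod.dist_eq, max_lt_iff]
    refine ⟨?_, hy⟩
    rw [Real.dist_eq, sub_zero]
    exact hs
  have hδ0 : ∀ s y, |s| < δ → dist y z < δ → ψ s y ∈ O := by
    intro s y hs hy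
    have := hδt' s y hs hy 0 left_mem_uIcc
    rwa [hφ.zero] at this
  have hwz : w z = XF F z := by
    have h := hΓ 0 left_mem_uIcc
    rw [hφ.zero] at h
    exact h.1.2.eq_of_nhds
  refine ⟨ψ, hψ0, hψcont, ?_, δ, hδ, ?_⟩
  · have := hψstrict z
    rwa [hwz] at this
  intro s y hs hy hyES
  have hball : ∀ σ ∈ Metric.ball (0:ℝ) δ, |σ| < δ := by
    intro σ hσ
    rwa [Metric.mem_ball, Real.dist_eq, sub_zero] at hσ
  refine ⟨⟨?_, ?_, ?_⟩, ?_⟩
  · -- N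
    have hx : ∀ σ, HasDerivAt (fun σ => (ψ σ y).1) (w (ψ σ y)).1 σ := fun σ =>
      (ContinuousLinearMap.fst ℝ V V).hasFDerivAt.comp_hasDerivAt σ (hψd y σ)
    have hp : ∀ σ, HasDerivAt (fun σ => (ψ σ y).2) (w (ψ σ y)).2 σ := fun σ =>
      (ContinuousLinearMap.snd ℝ V V).hasFDerivAt.comp_hasDerivAt σ (hψd y σ)
    have h1 : ∀ σ, HasDerivAt (fun σ => ⟪(ψ σ y).1, (ψ σ y).1⟫) 0 σ := by
      intro σ
      have := (hx σ).inner ℝ (hx σ)
      have h0 := (hwN (ψ σ y)).1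
      have h0' : ⟪(w (ψ σ y)).1, (ψ σ y).1⟫ = 0 := by rw [real_inner_comm]; exact h0
      rw [h0, h0', add_zero] at this
      exact this
    have h2 : ∀ σ, HasDerivAt (fun σ => ⟪(ψ σ y).1, (ψ σ y).2⟫) 0 σ := by
      intro σ
      have := (hx σ).inner ℝ (hp σ)
      have h0 := (hwN (ψ σ y)).2
      rw [add_comm, real_inner_comm (ψ σ y).2] at this
      rw [h0] at this
      exact this
    have h3 := is_const_of_deriv_eq_zero (fun σ => (h1 σ).differentiableAt)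
      (fun σ => (h1 σ).deriv) s 0
    have h4 := is_const_of_deriv_eq_zero (fun σ => (h2 σ).differentiableAt)
      (fun σ => (h2 σ).deriv) s 0
    simp only [hψ0] at h3 h4
    constructor
    · have h5 : ‖(ψ s y).1‖ ^ 2 = ‖y.1‖ ^ 2 := by
        rw [← real_inner_self_eq_norm_sq, ← real_inner_self_eq_norm_sq]
        exact h3
      rw [hyES.1.1] at h5
      nlinarith [norm_nonneg (ψ s y).1]
    · rw [h4]
      exact hyES.1.2
  · exact (hδ0 s y hs hy).2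
  · -- energy
    have h1 : ∀ σ ∈ Metric.ball (0:ℝ) δ, HasDerivAt (fun σ => Ham G U (ψ σ y)) 0 σ := by
      intro σ hσ
      have hm := hδ0 σ y (hball σ hσ) hy
      have h2 := ((Basic.ham hG hU).differentiableAt (hOm hm)).hasFDerivAt.comp_hasDerivAt σ
        (hψd y σ)
      have h3 : w (ψ σ y) = XF F (ψ σ y) := hm.1.2.eq_of_nhds
      have h4 : fderiv ℝ (Ham G U) (ψ σ y) (w (ψ σ y)) = 0 := by
        rw [h3]
        show br (Ham G U) F (ψ σ y) = 0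
        rw [br_antisymm, hF.comm _ hm.2, neg_zero]
      rw [h4] at h2
      exact h2
    have h5 := Metric.isOpen_ball.is_const_of_deriv_eq_zero (s := Metric.ball (0:ℝ) δ)
      (convex_ball _ _).isPreconnected (fun σ hσ => (h1 σ hσ).differentiableAt.differentiableWithinAt)
      (fun σ hσ => (h1 σ hσ).deriv) (x := s) (y := 0)
      (by rw [Metric.mem_ball, Real.dist_eq, sub_zero]; exact hs) (Metric.mem_ball_self hδ)
    simp only [hψ0] at h5
    rw [h5]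
    exact hyES.2.2
  · intro hper
    have := flow_commute v w hv2 hφ.vsupp hw2 hwC φ ψ hφ.zero (fun z t => hφ.deriv z t) hψ0 hψd O hO
      hbr y T₀ s (fun t ht σ hσ => hδt' σ y (lt_of_le_of_lt ?_ hs) hy t ht)
    · rw [← this, hper]
    · rcases mem_uIcc.1 hσ with h | h
      · rw [abs_of_nonneg h.1, abs_of_nonneg (h.1.trans h.2)]
        exact h.2
      · rw [abs_of_nonpos h.2, abs_of_nonpos (h.1.trans h.2)]
        linarith [h.1]


theorem local_const_period {G : V → V →L[ℝ] V} {U : V → ℝ} {E : ℝ} {D : Set V}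
    {v : V × V → V × V} {φ : ℝ → V × V → V × V} (hG : Met G) (hU : Pot U) (hD : Reg U E D)
    (hφ : HFlow G U E v φ) {Q Q' : V × V → ℝ} (hQ : Obs G U D Q) (hQ' : Obs G U D Q') :
    ∀ z ∈ ES G U E D, br Q Q' z ≠ 0 → ∀ T₀, φ T₀ z = z →
      ∀ᶠ z' in 𝓝[ES G U E D] z, φ T₀ z' = z' := by
  intro z hz hK T₀ hT
  have hzOm : z ∈ Om := hD.ne_zero _ hz.2.1
  obtain ⟨ψ, hψ0, hψc, hψs, δ, hδ, hψ⟩ := aux_obs hG hU hD hφ hQ z hz T₀
  obtain ⟨ψ', hψ'0, hψ'c, hψ's, δ', hδ', hψ'⟩ := aux_obs hG hU hD hφ hQ' z hz T₀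
  have hz2 : z.2 ≠ 0 := by
    intro h0
    have h1 := hz.2.2
    have h2 := hD.lt _ hz.2.1
    rw [Ham, h0] at h1
    simp at h1
    linarith
  have hcomm : ∀ {F : V × V → ℝ}, Obs G U D F → ∀ᶠ y in 𝓝 z, br F (Ham G U) y = 0 := by
    intro F hF
    have : ∀ᶠ y in 𝓝 z, y.1 ∈ D :=
      (hD.isOpen.preimage continuous_fst).mem_nhds hz.2.1
    filter_upwards [this] with y hy
    exact hF.comm y hy
  obtain ⟨ρ, hρ, hinj⟩ := local_inj hG hU hφ hQ.basic hQ'.basic hz.1 hz.2.2.le hz2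
    (hcomm hQ) (hcomm hQ') hK one_pos
  -- the map
  let A : ℝ × ℝ → V × V := fun q => ψ q.2 (ψ' q.1 z)
  have hA0 : A (0, 0) = z := by
    show ψ 0 (ψ' 0 z) = z
    rw [hψ0, hψ'0]
  have hAc : Continuous A := by
    refine hψc.comp (continuous_snd.prodMk ?_)
    exact hψ'c.comp (continuous_fst.prodMk continuous_const)
  have hstrict : ∀ {F : V × V → ℝ}, Basic F → HasStrictFDerivAt F (fderiv ℝ F z) z := by
    intro F hF
    have h1 : ContDiffAt ℝ ((⊤ : ℕ∞) : WithTop ℕ∞) F z :=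
      hF.smooth.contDiffAt (isOpen_Om.mem_nhds hzOm)
    exact h1.hasStrictFDerivAt (by simp)
  have hA : HasStrictFDerivAt A
      (((ContinuousLinearMap.toSpanSingleton ℝ (XF Q z)).coprod
        (ContinuousLinearMap.id ℝ (V × V))).comp
        ((ContinuousLinearMap.snd ℝ ℝ ℝ).prod
          (((ContinuousLinearMap.toSpanSingleton ℝ (XF Q' z)).coprod
            (ContinuousLinearMap.id ℝ (V × V))).comp
            ((ContinuousLinearMap.fst ℝ ℝ ℝ).prod 0)))) ((0 : ℝ), (0 : ℝ)) := by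
    have h1 : HasStrictFDerivAt (fun q : ℝ × ℝ => ψ' q.1 z)
        (((ContinuousLinearMap.toSpanSingleton ℝ (XF Q' z)).coprod
            (ContinuousLinearMap.id ℝ (V × V))).comp
            ((ContinuousLinearMap.fst ℝ ℝ ℝ).prod 0)) ((0 : ℝ), (0 : ℝ)) := by
      have h2 : HasStrictFDerivAt (fun q : ℝ × ℝ => (q.1, z))
        ((ContinuousLinearMap.fst ℝ ℝ ℝ).prod 0) ((0 : ℝ), (0 : ℝ)) :=
        hasStrictFDerivAt_fst.prodMk (hasStrictFDerivAt_const _ _)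
      exact HasStrictFDerivAt.comp ((0:ℝ),(0:ℝ)) (g := fun q : ℝ × (V × V) => ψ' q.1 q.2) hψ's h2
    have h3 : HasStrictFDerivAt (fun q : ℝ × ℝ => (q.2, ψ' q.1 z)) _ ((0 : ℝ), (0 : ℝ)) :=
      hasStrictFDerivAt_snd.prodMk h1
    have hψs' : HasStrictFDerivAt (fun q : ℝ × (V × V) => ψ q.1 q.2)
        ((ContinuousLinearMap.toSpanSingleton ℝ (XF Q z)).coprod
          (ContinuousLinearMap.id ℝ (V × V))) ((fun q : ℝ × ℝ => (q.2, ψ' q.1 z)) (0, 0)) := by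
      simp only [hψ'0]
      exact hψs
    exact HasStrictFDerivAt.comp ((0:ℝ),(0:ℝ)) (g := fun q : ℝ × (V × V) => ψ q.1 q.2) hψs' h3
  let Θ : ℝ × ℝ → ℝ × ℝ := fun q => (Q (A q), Q' (A q))
  have hΘ : HasStrictFDerivAt Θ _ ((0 : ℝ), (0 : ℝ)) :=
    (HasStrictFDerivAt.comp ((0:ℝ),(0:ℝ)) (g := Q) (by rw [hA0]; exact hstrict hQ.basic) hA).prodMk
      (HasStrictFDerivAt.comp ((0:ℝ),(0:ℝ)) (g := Q') (by rw [hA0]; exact hstrict hQ'.basic) hA)
  have hQQ : fderiv ℝ Q z (XF Q z) = 0 := by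
    have := br_antisymm Q Q z
    have h2 : br Q Q z = 0 := by linarith
    exact h2
  have hQ'Q' : fderiv ℝ Q' z (XF Q' z) = 0 := by
    have := br_antisymm Q' Q' z
    have h2 : br Q' Q' z = 0 := by linarith
    exact h2
  have hQQ' : fderiv ℝ Q z (XF Q' z) = br Q Q' z := rfl
  have hQ'Q : fderiv ℝ Q' z (XF Q z) = -br Q Q' z := br_antisymm Q' Q z
  have hmap := hΘ.map_nhds_eq_of_surj (by
    rw [LinearMap.range_eq_top]
    rintro ⟨a, b⟩
    refine ⟨(a / br Q Q' z, -b / br Q Q' z), ?_⟩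
    simp [hQQ, hQ'Q', hQQ', hQ'Q]
    constructor <;> field_simp)
  have hΘ0 : Θ (0, 0) = (Q z, Q' z) := by
    show (Q (A (0,0)), Q' (A (0,0))) = _
    rw [hA0]
  rw [hΘ0] at hmap
  -- the neighbourhood in parameter space
  have hnb : ∀ᶠ q : ℝ × ℝ in 𝓝 ((0:ℝ),(0:ℝ)), |q.1| < δ' ∧ |q.2| < δ ∧ dist (ψ' q.1 z) z < δ ∧
      dist (A q) z < ρ := by
    have h1 : ∀ᶠ q : ℝ × ℝ in 𝓝 ((0:ℝ),(0:ℝ)), |q.1| < δ' := by
      have hc : Continuous fun q : ℝ × ℝ => |q.1| := continuous_fst.abs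
      exact hc.continuousAt.eventually_lt_const (by simpa using hδ')
    have h2 : ∀ᶠ q : ℝ × ℝ in 𝓝 ((0:ℝ),(0:ℝ)), |q.2| < δ := by
      have hc : Continuous fun q : ℝ × ℝ => |q.2| := continuous_snd.abs
      exact hc.continuousAt.eventually_lt_const (by simpa using hδ)
    have h3 : ∀ᶠ q : ℝ × ℝ in 𝓝 ((0:ℝ),(0:ℝ)), dist (ψ' q.1 z) z < δ := by
      have hc : Continuous fun q : ℝ × ℝ => dist (ψ' q.1 z) z :=
        (hψ'c.comp (continuous_fst.prodMk continuous_const)).dist continuous_const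
      exact hc.continuousAt.eventually_lt_const (by simpa [hψ'0] using hδ)
    have h4 : ∀ᶠ q : ℝ × ℝ in 𝓝 ((0:ℝ),(0:ℝ)), dist (A q) z < ρ := by
      have hc : Continuous fun q : ℝ × ℝ => dist (A q) z := hAc.dist continuous_const
      exact hc.continuousAt.eventually_lt_const (by show dist (A (0, 0)) z < ρ; rw [hA0, dist_self]; exact hρ)
    filter_upwards [h1, h2, h3, h4] with q h1 h2 h3 h4
    exact ⟨h1, h2, h3, h4⟩
  have himg : Θ '' {q | |q.1| < δ' ∧ |q.2| < δ ∧ dist (ψ' q.1 z) z < δ ∧ dist (A q) z < ρ} ∈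
      𝓝 (Q z, Q' z) := by
    rw [← hmap]
    exact Filter.image_mem_map hnb
  have hcQ : ∀ᶠ y in 𝓝 z, (Q y, Q' y) ∈
      Θ '' {q | |q.1| < δ' ∧ |q.2| < δ ∧ dist (ψ' q.1 z) z < δ ∧ dist (A q) z < ρ} := by
    have hc : ContinuousAt (fun y => (Q y, Q' y)) z :=
      (hQ.basic.differentiableAt hzOm).continuousAt.prodMk
        (hQ'.basic.differentiableAt hzOm).continuousAt
    exact hc.eventually_mem himg
  have hball : ∀ᶠ y in 𝓝 z, dist y z < ρ := Metric.ball_mem_nhds z hρ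
  rw [eventually_nhdsWithin_iff]
  filter_upwards [hcQ, hball] with z' hz' hz'ρ hz'ES
  obtain ⟨q, ⟨hq1, hq2, hq3, hq4⟩, hqe⟩ := hz'
  have he1 : Q (A q) = Q z' := congrArg Prod.fst hqe
  have he2 : Q' (A q) = Q' z' := congrArg Prod.snd hqe
  obtain ⟨hz1ES, hz1per⟩ := hψ' q.1 z hq1 (by rw [dist_self]; exact hδ') hz
  have hz1per' := hz1per hT
  obtain ⟨hz2ES, hz2per⟩ := hψ q.2 (ψ' q.1 z) hq2 hq3 hz1ES
  have hz2per' := hz2per hz1per'
  obtain ⟨r, -, hr⟩ := hinj (A q) hz2ES.1 z' hz'ES.1 hq4 hz'ρ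
    (hz2ES.2.2.trans hz'ES.2.2.symm) he1 he2
  have hAper : φ T₀ (A q) = A q := hz2per'
  rw [hr, ← hφ.add, add_comm, hφ.add, hAper]

end SI

end Pool.Agent.Helper197
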